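import Pool.Agent.H490R3.LH.Stm
import Pool.Agent.H673R3.UC.Z1

/-!
# The assembly
-/

set_option autoImplicit false

namespace Pool.Agent.H490R3.LH

open Pool.Agent.NPC Pool.Agent.H628R3.RO MeasureTheory
open Pool.Agent.H583R2.S2 (chr IsP Mk gc Ys dl NN)
open Pool.Agent.H673R2.OneTT (KA uA)

theorem chr_join (X : Oracle) (A : Set (List Bool)) : chr {z | join X A z = true} = join X A := by
  funext z
  unfold chr
  simp

/-- a set is in `P` relative to itself -/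
theorem isP_self (sj : S_SJ) (A : Set (List Bool)) (X : Oracle) : IsP (join X A) A :=
  (sj X A).2.2.1

theorem isP_chr (K : Set (List Bool)) : IsP (chr K) K := by
  refine ⟨fun x => [chr K x], ?_, fun x => ?_⟩
  · have h := IsFP.tt (A := chr K) (Q := fun x => [x]) (H := fun p => p.2)
      (Poly.cons Poly.id (NPC.Poly.const [])) (Poly.snd Poly.id)
    exact h
  · unfold chr
    simp

theorem low_one (c1 : S_C1) (sb : S_SB) (sj : S_SJ) (inc : S_INC) (X : Oracle)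
    (L : Set (List Bool)) (h1 : IsNP X L) (h2 : IsCoNP X L) (h3 : ¬ IsP X L) :
    LowD X 1 ⊂ Low X 1 := by
  refine ⟨(inc X 0).2.1, fun h => ?_⟩
  have hL : L ∈ Low X 1 := by
    refine ⟨h1, fun M hM => ?_⟩
    rw [sb.2.1] at hM ⊢
    obtain ⟨h4, h5⟩ := (sj X L).2.2.2 h1 h2
    refine c1 X {z | join X L z = true} M h4 h5 ?_
    rw [chr_join]
    exact hM
  have h4 := h hL
  have h5 := h4.2 L ((sb.2.2 _ _).2 (sj X L).2.2.1)
  exact h3 ((sb.2.2 _ _).1 h5)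

theorem low_two (sb : S_SB) (sj : S_SJ) (inc : S_INC) (t2 : S_T2) (mtb : S_MTB) (X : Oracle)
    (h : ¬ IsCoNP X (TB X)) : Low X 1 ⊂ LowD X 2 := by
  refine ⟨(inc X 1).1, fun h1 => ?_⟩
  have h2 : TB X ∈ LowD X 2 := by
    refine t2 X _ (mtb X) ?_
    rintro x ⟨n, w, hx, -, -⟩
    exact ⟨n, hx⟩
  have h3 := h1 h2
  have h4 : Sig (join X (TB X)) 1 (TB X)ᶜ :=
    (sb.2.1 _ _).2 (sb.1 _ _ (sj X (TB X)).2.2.1).2
  exact h ((sb.2.1 _ _).1 (h3.2 _ h4))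

theorem low_three (sb : S_SB) (inc : S_INC) (t3 : S_T3) (mcc : S_MCC) (mee : S_MEE) (nf : S_NF)
    (X : Oracle) (hs : Sparse (CC X)ᶜ)
    (h : ∀ (V : Alg) (p : Polynomial ℕ), ¬ ∀ n, (X ∈ En n ↔ X ∈ Fn V p n)) :
    CC X ∈ LowD X 3 ∧ CC X ∉ Low X 2 ∧ Low X 2 ⊂ LowD X 3 := by
  have h2 : CC X ∈ LowD X 3 := t3 X _ (mcc X) hs
  have h3 : CC X ∉ Low X 2 := by
    intro h3
    have h4 : Sig (join X (CC X)) 2 (EE X) := by
      refine ⟨(EE X)ᶜ, (sb.2.1 _ _).2 (mee X), ?_⟩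
      have h5 := (sb.1 _ _ (isP_chr (EE X)ᶜ)).2
      unfold IsCoNP at h5
      rwa [compl_compl] at h5
    obtain ⟨K, hK, hL⟩ := h3.2 _ h4
    obtain ⟨V, p, ⟨M, hM⟩, hV⟩ := nf X K _ ((sb.2.1 _ _).1 hK) hL
    refine h M p fun n => ?_
    have h6 : X ∈ En n ↔ List.replicate n true ∈ EE X := by
      constructor
      · intro h7
        exact ⟨n, rfl, h7⟩
      · rintro ⟨n', h7, h8⟩
        have h9 : n = n' := by
          have := congrArg List.length h7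
          simpa using this
        subst h9
        exact h8
    rw [h6, hV]
    unfold Fn
    simp only [List.length_replicate, Set.mem_ofPred_eq, hM, Option.some.injEq]
  exact ⟨h2, h3, (inc X 2).1, fun h1 => h3 (h1 h2)⟩

theorem high_one (sb : S_SB) (inc : S_INC) (mtb : S_MTB) (h1' : S_H1) (X : Oracle)
    (h : ∃ l₀ : ℕ, ∀ l ≥ l₀, ∃ w, Key X l w)
    (h' : ∀ l₀ : ℕ, ¬ IsP (join X (LK l₀ X)) (TB X)) : HighD X 1 ⊂ High X 1 := by
  obtain ⟨l₀, hl⟩ := h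
  refine ⟨(inc X 0).2.2.2, fun h1 => ?_⟩
  have h2 := h1 (h1' X l₀ hl)
  have h3 : Del X 2 (TB X) := ⟨TB X, (sb.2.1 _ _).2 (mtb X), isP_chr _⟩
  exact h' l₀ ((sb.2.2 _ _).1 (h2.2 _ h3))

/-- the language with the only element `1` -/
def K₀ : Set (List Bool) := {x | x = [true]}

theorem isNP_of_test (A : Oracle) {g : List Bool → Bool} (hg : Poly g) :
    IsNP A {x | g x = true} := by
  refine ⟨fun y => if g (unpair y).1 = true then [true] else [], 0, IsFP.of_poly ?_, fun x => ?_⟩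
  · exact Poly.ite (Poly.decide_bool (hg.comp (Poly.fst poly_unpair)))
      (NPC.Poly.const _) (NPC.Poly.const _)
  · rw [Set.mem_ofPred_eq]
    constructor
    · intro h
      exact ⟨[], by simp, by simp only [unpair_pairBits, h, if_true]⟩
    · rintro ⟨w, _, h⟩
      simp only [unpair_pairBits] at h
      by_contra h1
      rw [if_neg h1] at h
      exact absurd h (by simp)

theorem isNP_K₀ (A : Oracle) : IsNP A K₀ := by
  have h : K₀ = {x | (decide (x = [true]) : Bool) = true} := by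
    ext x
    simp [K₀]
  rw [h]
  exact isNP_of_test A (Poly.decide_eq Poly.id (NPC.Poly.const _))

theorem isCoNP_K₀ (A : Oracle) : IsCoNP A K₀ := by
  have h : K₀ᶜ = {x | (!decide (x = [true]) : Bool) = true} := by
    ext x
    simp [K₀]
  unfold IsCoNP
  rw [h]
  exact isNP_of_test A (Poly.not (Poly.decide_eq Poly.id (NPC.Poly.const _)))

/-- some set is in `NP ∩ coNP` and not in `P` -/
theorem np_conp : ∀ᵐ X ∂randomOracle, ∃ L, IsNP X L ∧ IsCoNP X L ∧ ¬ IsP X L := by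
  filter_upwards [Pool.Agent.H673R3.UC.main_N] with A hA
  obtain ⟨L, ⟨V, p, h1, h1', -⟩, ⟨V', p', h2, h2', -⟩, h3⟩ := hA K₀ (isNP_K₀ A) (isCoNP_K₀ A)
  refine ⟨L, ⟨V, p, h1, h1'⟩, ⟨V', p', h2, h2'⟩, ?_⟩
  rintro ⟨F, hF, hL⟩
  exact h3 ⟨F, hF, fun x => hL x⟩

theorem main (c1 : S_C1) (nf : S_NF) (sb : S_SB) (sj : S_SJ) (inc : S_INC) (t2 : S_T2) (t3 : S_T3)
    (mtb : S_MTB) (mcc : S_MCC) (mee : S_MEE) (h1 : S_H1) (spc : S_SPC) (b1 : S_B1) (b2 : S_B2)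
    (b3 : S_B3) (b4 : S_B4) (b5 : S_B5) : ∀ᵐ X ∂randomOracle,
    LowD X 1 ⊂ Low X 1 ∧ Low X 1 ⊂ LowD X 2 ∧
    (CC X ∈ LowD X 3 ∧ CC X ∉ Low X 2 ∧ Low X 2 ⊂ LowD X 3) ∧
    HighD X 1 ⊂ High X 1 ∧ IsNP X (CC X) ∧ Sparse (CC X)ᶜ := by
  unfold S_B1 at b1
  unfold S_B2 at b2
  unfold S_B3 at b3
  unfold S_B4 at b4
  unfold S_B5 at b5
  filter_upwards [b1, b2, b3, b4, b5, np_conp] with X b1 b2 b3 b4 b5 hL
  obtain ⟨L, hL1, hL2, hL3⟩ := hL
  obtain ⟨q, hq⟩ := b4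
  have hs := spc X q hq
  exact ⟨low_one c1 sb sj inc X L hL1 hL2 hL3, low_two sb sj inc t2 mtb X b1,
    low_three sb inc t3 mcc mee nf X hs b5, high_one sb inc mtb h1 X b2 b3, mcc X, hs⟩

end Pool.Agent.H490R3.LH
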