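import Pool.Agent.H490R3.LH.Defs
import Pool.Agent.H628R3.RO.A1
import Pool.Agent.H628R3.RO.M2

/-!
# The objects of the proofs
-/

set_option autoImplicit false

namespace Pool.Agent.H490R3.LH

open Pool.Agent.NPC Pool.Agent.H628R3.RO MeasureTheory
open Pool.Agent.H583R2.S2 (chr IsP Mk gc Ys dl NN)
open Pool.Agent.H583R2.NC (wl)
open Pool.Agent.H673R2.OneTT (KA uA)

/-- a bound for the lengths of the questions of the universal algorithm -/
noncomputable def qU : Polynomial ℕ := (Alg.out_local uA).choose

/-- The complete set `KA` depends, for instances of length at most `l`, only on the strings of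
length at most `bt l`. The keys for the instances of length `l` have `2 * bt l` bits. -/
noncomputable def bt : Polynomial ℕ := qU.comp (3 * Polynomial.X + 1) + Polynomial.X ^ 2 +
  Polynomial.X + 1

/-- `w` is a valid key for the instances of length `l`. -/
def Key (X : Oracle) (l : ℕ) (w : List Bool) : Prop :=
  w.length = 2 * bt.eval l ∧ Hit (bt.eval l) (1, w) X

/-- The complete set, locked by keys: the pairs of an element `x` of `KA` and a valid key for the
length of `x`. (For `|x| < l₀` no key is necessary.) -/
noncomputable def LK (l₀ : ℕ) (X : Oracle) : Set (List Bool) :=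
  {z | ∃ x w : List Bool, z = pairBits x w ∧ x ∈ KA X ∧ (x.length < l₀ ∨ Key X x.length w)}

/-- The part of `LK` for instances of length at most `l`. -/
noncomputable def LKs (l₀ l : ℕ) (X : Oracle) : Set (List Bool) :=
  {z | ∃ x w : List Bool, z = pairBits x w ∧ x.length ≤ l ∧ x ∈ KA X ∧
    (x.length < l₀ ∨ Key X x.length w)}

/-- A tally set in `NP`: the string of `n` ones, if there is a hit. -/
def TB (X : Oracle) : Set (List Bool) :=
  {x | ∃ n w, x = List.replicate n true ∧ w.length = n ∧ Hit n (0, w) X}

/-- A co-sparse set in `NP`: the strings which do not name a marked string. -/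
def CC (X : Oracle) : Set (List Bool) :=
  {z | ∀ n y, z = pairBits (List.replicate n true) y → y ∈ Ys n → X ∉ Mk n 0 y}

/-- The string of `n` ones, if there is no marked string at stage `n`. -/
def EE (X : Oracle) : Set (List Bool) :=
  {x | ∃ n, x = List.replicate n true ∧ ∀ y ∈ Ys n, X ∉ Mk n 0 y}

/-- The questions asked by the algorithm. -/
def qs (M : Alg) (A : Oracle) (x : List Bool) : ℕ → List Bool → List (List Bool)
  | 0, _ => []
  | n + 1, a =>
    match M.D (pairBits x a) with
    | [] => []
    | true :: _ => []
    | false :: q => q :: qs M A x n (a ++ [A q])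

/-- The questions asked by the algorithm on input `x`. -/
def qry (M : Alg) (A : Oracle) (x : List Bool) : List (List Bool) :=
  qs M A x (M.p.eval x.length) []

/-- A list of `j` different strings of length at most `m` which are not in `C`. -/
def GoodL (C : Set (List Bool)) (j m : ℕ) (a : List (List Bool)) : Prop :=
  a.Nodup ∧ a.length = j ∧ ∀ q ∈ a, q.length ≤ m ∧ q ∉ C

/-- The instances `⟨⟨1ʲ, 1ᵐ⟩, []⟩`: is there a list of `j` exceptions? And `⟨⟨1ʲ, 1ᵐ⟩, 1 z⟩`: is `z`
accepted, with some list of `j` exceptions instead of `C`? -/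
def KT (N : Alg) (p : Polynomial ℕ) (X : Oracle) (C : Set (List Bool)) : Set (List Bool) :=
  {v | (∃ j m a, v = pairBits (pairBits (List.replicate j true) (List.replicate m true)) [] ∧
      GoodL C j m a) ∨
    ∃ j m z a u, v = pairBits (pairBits (List.replicate j true) (List.replicate m true))
        (true :: z) ∧ GoodL C j m a ∧ u.length ≤ p.eval z.length ∧
      ∀ w : List Bool, w.length ≤ p.eval z.length →
        N.out (join X {q | q ∉ a}) (pairBits (pairBits z u) w) = some [true]}

/-! ### The combinatorial part -/

section comb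

variable {α β : Type} [DecidableEq α] [DecidableEq β]

/-- `f` is given by clauses of width at most `P`, on the subsets of `W`. -/
def Cnf (W : Finset α) (P : ℕ) (f : Finset α → Prop) : Prop :=
  ∀ h ⊆ W, ¬ f h → ∃ T : Finset α, T.card ≤ P ∧ ∀ h' ⊆ W, h' ∩ T = h ∩ T → ¬ f h'

open Classical in
/-- The weight of the sets with the property `S`; every element has weight `w`. -/
noncomputable def Wt (w : ℝ) (W : Finset α) (S : Finset α → Prop) : ℝ :=
  ∑ h ∈ W.powerset, if S h then w ^ h.card else 0

/-- every cell meets `h` -/
def Gd (Y : Finset β) (cell : β → Finset α) (h : Finset α) : Prop :=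
  ∀ y ∈ Y, (h ∩ cell y).Nonempty

end comb

/-! ### The stage -/

/-- all candidates of stage `n` -/
def Wn (n : ℕ) : Finset Cand := (Ys n).biUnion (gc n 0)

/-- no string is marked at stage `n` -/
def En (n : ℕ) : Set Oracle := {X | ∀ y ∈ Ys n, X ∉ Mk n 0 y}

/-- the property `∃ u ∀ w V(1ⁿ, u, w)` -/
def Fn (V : Alg) (p : Polynomial ℕ) (n : ℕ) : Set Oracle :=
  {X | ∃ u : List Bool, u.length ≤ p.eval n ∧ ∀ w : List Bool, w.length ≤ p.eval n →
    V.out X (pairBits (pairBits (List.replicate n true) u) w) = some [true]}

/-- the bound for the number of questions of `V` at stage `n` -/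
noncomputable def Pn (V : Alg) (p : Polynomial ℕ) (n : ℕ) : ℕ :=
  V.p.eval (2 * (2 * n + 1 + p.eval n) + 1 + p.eval n)

/-- the weight of a hit -/
noncomputable def w0 (n : ℕ) : ℝ := (1 / 2) ^ wl n / (1 - (1 / 2) ^ wl n)

end Pool.Agent.H490R3.LH
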