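import Pool.Agent.H490R3.LH.Stm

/-!
# The damaged complete set
-/

set_option autoImplicit false

namespace Pool.Agent.H490R3.LH

open Pool.Agent.NPC Pool.Agent.H628R3.RO MeasureTheory
open Pool.Agent.H583R2.S2 (chr IsP Mk gc Ys dl NN)
open Pool.Agent.H583R2.NC (wl)
open Pool.Agent.H673R2.OneTT (KA uA)

/-- The candidates belonging to the string `y` of stage `n`. -/
def Rc (n : ℕ) (y : List Bool) : Finset Cand :=
  Finset.univ.image (fun v : Fin (2 * n + 1) → Bool => (0, y ++ List.ofFn v))

/-- The damaged strings: those of the hits belonging to marked strings. -/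
def Dm (X : Oracle) : Set (List Bool) :=
  {q | ∃ n y κ, y ∈ Ys n ∧ X ∈ Mk n 0 y ∧ κ ∈ Rc n y ∧ Hit (2 * n + 1) κ X ∧
    q ∈ spots (2 * n + 1) κ}

/-- The complete set, for the computations that do not ask questions in `D`. -/
def DAg (D : Set (List Bool)) (X : Oracle) : Set (List Bool) :=
  {v | ∃ w : List Bool, w.length ≤ v.length ∧ uA.out X (pairBits v w) = some [true] ∧
    ∀ q ∈ qry uA X (pairBits v w), q ∉ D}

/-- The complete set, for the computations that do not ask damaged questions. -/
def DA (X : Oracle) : Set (List Bool) := DAg (Dm X) X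

/-- The strings with a hit. -/
def YY (X : Oracle) : Set (List Bool) :=
  {z | ∃ n y, z = pairBits (List.replicate n true) y ∧ y ∈ Ys n ∧ X ∉ NoHit (2 * n + 1) (Rc n y)}

open Classical in
/-- The oracle where the strings of the list are answered by `true`. -/
noncomputable def plusL (X : Oracle) (a : List (List Bool)) : Oracle :=
  fun s => decide (s ∈ a) || X s

/-- The set accepted by `M`, relative to `X` with the list `a`, by computations which do not ask
damaged questions outside of the list. -/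
def K1a (M : Alg) (p : Polynomial ℕ) (X : Oracle) (a : List (List Bool)) : Set (List Bool) :=
  {q | ∃ w : List Bool, w.length ≤ p.eval q.length ∧
    M.out (plusL X a) (pairBits q w) = some [true] ∧
    ∀ s ∈ qry M (plusL X a) (pairBits q w), s ∉ a → s ∉ Dm X}

/-- A list of `j` different damaged strings of length at most `m`. -/
def GoodD (X : Oracle) (j m : ℕ) (a : List (List Bool)) : Prop :=
  a.Nodup ∧ a.length = j ∧ ∀ q ∈ a, q.length ≤ m ∧ q ∈ Dm X

/-- The instances `⟨⟨1ʲ, 1ᵐ⟩, []⟩`: is there a list of `j` damaged strings? And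
`⟨⟨1ʲ, 1ᵐ⟩, 1 z⟩`: is `z` accepted, with such a list? -/
def KD (N : Alg) (p : Polynomial ℕ) (M : Alg) (p₁ : Polynomial ℕ) (X : Oracle) :
    Set (List Bool) :=
  {v | (∃ j m a, v = pairBits (pairBits (List.replicate j true) (List.replicate m true)) [] ∧
      GoodD X j m a) ∨
    ∃ j m z a u, v = pairBits (pairBits (List.replicate j true) (List.replicate m true))
        (true :: z) ∧ GoodD X j m a ∧ u.length ≤ p.eval z.length ∧
      N.out (chr (K1a M p₁ X a)) (pairBits z u) = some [true]}

/-- `y` is the first marked string of stage `n` -/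
def FM (n : ℕ) (y : List Bool) : Set Oracle :=
  {X | X ∈ Mk n 0 y ∧ ∀ y' ∈ Ys n, valB y' < valB y → X ∉ Mk n 0 y'}

/-! ### Statements -/

/-- QTQ: as QT, with the questions -/
def S_QTQ : Prop := ∀ (M : Alg) (c v : List Bool × List Bool → Bool)
    (tr : List Bool × List Bool → List Bool) (dec : List Bool → List Bool),
    Poly c → Poly v → Poly tr → Poly dec → ∃ M' : Alg, ∀ (K : Oracle) (y : List Bool),
    M'.out K y = some ((M.out (fun z => if c (y, z) = true then v (y, z) else K (tr (y, z)))
      (dec y)).getD []) ∧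
    qry M' K y = (qry M (fun z => if c (y, z) = true then v (y, z) else K (tr (y, z)))
      (dec y)).map (fun z => tr (y, z))

/-- HDA: hardness -/
def S_HDA : Prop := ∀ (M : Alg) (p : Polynomial ℕ), ∃ g : List Bool → List Bool, Poly g ∧
    ∀ (X : Oracle) (D : Set (List Bool)) (u : List Bool), g u ∈ DAg D X ↔
      ∃ w : List Bool, w.length ≤ p.eval u.length ∧ M.out X (pairBits u w) = some [true] ∧
        ∀ q ∈ qry M X (pairBits u w), q ∉ D

/-- UNM: the unmarked strings -/
def S_UNM : Prop := ∃ g : List Bool → List Bool, Poly g ∧ ∀ (X : Oracle) (n : ℕ)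
    (y : List Bool), y ∈ Ys n → (g (pairBits (List.replicate n true) y) ∈ DA X ↔ X ∉ Mk n 0 y)

/-- SIM: simulation with a list of damaged strings -/
def S_SIM : Prop := ∀ (M : Alg) (p : Polynomial ℕ), ∃ g : List Bool × List (List Bool) → List Bool,
    Poly g ∧ ∀ (X : Oracle) (q : List Bool) (a : List (List Bool)),
      g (q, a) ∈ DA X ↔ q ∈ K1a M p X a

/-- MDA -/
def S_MDA : Prop := ∀ X : Oracle, IsNP X (DA X)

/-- MYY -/
def S_MYY : Prop := ∀ X : Oracle, IsNP X (YY X)

/-- T5A -/
def S_T5A : Prop := ∀ (N : Alg) (p : Polynomial ℕ) (M : Alg) (p₁ : Polynomial ℕ) (X : Oracle),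
    IsNP (join X (DA X)) (KD N p M p₁ X)

/-- T5: the damaged set is in `Ĥ₂` -/
def S_T5 : Prop := ∀ X : Oracle, Sparse (Dm X) → DA X ∈ HighD X 2

/-- BLD: a.e. there are few damaged strings -/
def S_BLD : Prop := ∀ᵐ X ∂randomOracle, Sparse (Dm X)

/-- PLT: planting -/
def S_PLT : Prop := ∀ (V : Alg) (p : Polynomial ℕ), ∃ P : Polynomial ℕ, ∀ (n : ℕ) (y : List Bool)
    (B : Oracle), y ∈ Ys n → B ∈ Mk n 0 y → B ∈ NoHit (2 * n + 1) (Rc n y) →
    (∃ w : List Bool, w.length ≤ p.eval (4 * n + 1) ∧
      V.out (join B (DA B)) (pairBits (pairBits (List.replicate n true) y) w) = some [true]) →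
    ∃ T : Finset Cand, T.card ≤ P.eval n ∧ ∀ h ⊆ Rc n y, Disjoint h T →
      ∃ w : List Bool, w.length ≤ p.eval (4 * n + 1) ∧
        V.out (join (plant (allSpots (2 * n + 1) h) B) (DA (plant (allSpots (2 * n + 1) h) B)))
          (pairBits (pairBits (List.replicate n true) y) w) = some [true]

/-- PEC -/
def S_PEC : Prop := ∀ t : ℕ, ∀ᶠ n : ℕ in Filter.atTop, ∀ S : List (List Bool),
    1 / 2 * prob (cyl t S) ≤ prob ((En n)ᶜ ∩ cyl t S)

/-- LCD: locality of the damaged set -/
def S_LCD : Prop := ∀ m : ℕ, ∃ R : ℕ, ∀ X X' : Oracle,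
    (∀ q : List Bool, q.length ≤ R → X q = X' q) →
      ∀ v : List Bool, v.length ≤ m → (v ∈ DA X ↔ v ∈ DA X')

/-- B6: relative to the damaged set, the set of the strings without hit is not in `NP` -/
def S_B6 : Prop := ∀ᵐ X ∂randomOracle, ¬ IsCoNP (join X (DA X)) (YY X)

end Pool.Agent.H490R3.LH
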