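import Pool.Agent.H490R3.LH.Base2
import Pool.Agent.H620R2.GaugeS.Defs

/-!
# The polynomial hierarchy is infinite relative to almost every oracle
-/

set_option autoImplicit false

namespace Pool.Agent.H490R3.LH

open Pool.Agent.NPC Pool.Agent.H628R3.RO MeasureTheory
open Pool.Agent.H583R2.S2 (chr IsP)

/-- NUL: null sets for the gauge `0` are null sets for the random oracle -/
def S_NUL : Prop := ∀ O : Set Oracle, Pool.Agent.H620R2.Gauge.Null (fun _ => 0) O →
    ∀ᵐ X ∂randomOracle, X ∉ O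

/-- EQA: `NP(Σ_k) ⊆ Σ_{k+1}`, quantifier form -/
def S_EQA : Prop := ∀ (X : Oracle) (k : ℕ) (K L : Set (List Bool)),
    Pool.Agent.H620R2.Gauge.IsSigma X k K → IsNP (chr K) L →
    Pool.Agent.H620R2.Gauge.IsSigma X (k + 1) L

/-- EQB: `Σ_{k+1} ⊆ NP(Σ_k)`, quantifier form -/
def S_EQB : Prop := ∀ (X : Oracle) (k : ℕ) (L : Set (List Bool)),
    Pool.Agent.H620R2.Gauge.IsSigma X (k + 1) L →
    ∃ K, Pool.Agent.H620R2.Gauge.IsSigma X k K ∧ IsNP (chr K) L

end Pool.Agent.H490R3.LH
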