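import Pool.Agent.H583R2.S2.Defs
import Pool.Agent.H673R2.OneTT.Kset

/-!
# The refined low and high hierarchies in `NP`, relative to an oracle

The oracle is `X`. A set `A` in `NP` relative to `X` is used together with `X`, by means of the
join of `X` and `A`.
-/

set_option autoImplicit false

namespace Pool.Agent.H490R3.LH

open Pool.Agent.NPC Pool.Agent.H628R3.RO
open Pool.Agent.H583R2.S2 (chr IsP)

/-- The join of the oracle `X` and the set `A`: the questions whose first bit is `0` are answered
by `X`, those whose first bit is `1` by `A`. -/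
noncomputable def join (X : Oracle) (A : Set (List Bool)) : Oracle
  | [] => false
  | false :: q => X q
  | true :: q => chr A q

/-- The classes `Σ_k` relative to `X`: `Σ_0 = P` and `Σ_{k+1} = NP(Σ_k)`, the languages that are in
`NP` relative to some set of `Σ_k`. -/
def Sig (X : Oracle) : ℕ → Set (List Bool) → Prop
  | 0, L => IsP X L
  | k + 1, L => ∃ K, Sig X k K ∧ IsNP (chr K) L

/-- The classes `Δ_k` relative to `X`, for `k ≥ 1`: `Δ_{k+1} = P(Σ_k)`, the languages that are in
`P` relative to some set of `Σ_k`. -/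
def Del (X : Oracle) : ℕ → Set (List Bool) → Prop
  | 0, L => IsP X L
  | k + 1, L => ∃ K, Sig X k K ∧ IsP (chr K) L

/-- The class `L_k` relative to `X`: the sets `A` in `NP` with `Σ_k(A) ⊆ Σ_k`. -/
def Low (X : Oracle) (k : ℕ) : Set (Set (List Bool)) :=
  {A | IsNP X A ∧ ∀ L, Sig (join X A) k L → Sig X k L}

/-- The class `L̂_n` relative to `X`: the sets `A` in `NP` with `Δ_n(A) ⊆ Δ_n`. -/
def LowD (X : Oracle) (n : ℕ) : Set (Set (List Bool)) :=
  {A | IsNP X A ∧ ∀ L, Del (join X A) n L → Del X n L}

/-- The class `H_k` relative to `X`: the sets `A` in `NP` with `Σ_{k+1} ⊆ Σ_k(A)`. -/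
def High (X : Oracle) (k : ℕ) : Set (Set (List Bool)) :=
  {A | IsNP X A ∧ ∀ L, Sig X (k + 1) L → Sig (join X A) k L}

/-- The class `Ĥ_n` relative to `X`: the sets `A` in `NP` with `Δ_{n+1} ⊆ Δ_n(A)`. -/
def HighD (X : Oracle) (n : ℕ) : Set (Set (List Bool)) :=
  {A | IsNP X A ∧ ∀ L, Del X (n + 1) L → Del (join X A) n L}

/-- The set is sparse: it has polynomially many elements of length at most `n`. -/
def Sparse (S : Set (List Bool)) : Prop :=
  ∃ p : Polynomial ℕ, ∀ n, {z | z ∈ S ∧ z.length ≤ n}.ncard ≤ p.eval n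

end Pool.Agent.H490R3.LH
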