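import Pool.Agent.H620R2.GaugeR.R2
import Pool.Agent.H620R2.Gauge.Upper
import Pool.Agent.H620R2.GaugeS.Defs
import Pool.Agent.H622R2.CoNP

/-!
# Closure properties of the levels of the polynomial hierarchy, quantifier form (helper724)
-/

set_option autoImplicit false

namespace Pool.Agent.H490R3.LH

namespace EQAx

open Pool.Agent.NPC
open Pool.Agent.H620R2.Gauge (Oracle Quant IsFP IsSigma)
open Pool.Agent.H622R2 (poly_pairBits)

theorem len_pair (x w : List Bool) : (pairBits x w).length = 2 * x.length + 1 + w.length := by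
  exact Pool.Agent.H620R2.Gauge.length_pairBits x w

theorem unpair1 (x w : List Bool) : (unpair (pairBits x w)).1 = x := by rw [unpair_pairBits]

theorem unpair2 (x w : List Bool) : (unpair (pairBits x w)).2 = w := by rw [unpair_pairBits]

theorem poly_u1 : Poly (fun z : List Bool => (unpair z).1) := Poly.fst poly_unpair

theorem poly_u2 : Poly (fun z : List Bool => (unpair z).2) := Poly.snd poly_unpair

/-- bounds -/
theorem poly_bound {f : List Bool → List Bool} (hf : Poly f) :
    ∃ p : Polynomial ℕ, ∀ y, (f y).length ≤ p.eval y.length := by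
  obtain ⟨q, hq⟩ := hf.sz_le
  refine ⟨q.comp (Polynomial.C 4 * Polynomial.X + Polynomial.C 1), fun y => ?_⟩
  have h1 := length_lt_sz (f y)
  have h2 := hq y
  have h3 : q.eval (sz y) ≤ q.eval (4 * y.length + 1) := eval_mono q (sz_listBool_le y)
  simp only [Polynomial.eval_comp, Polynomial.eval_add, Polynomial.eval_mul, Polynomial.eval_C,
    Polynomial.eval_X]
  omega

theorem upoly_bound {μ : List Bool → ℕ} (hμ : UPoly μ) :
    ∃ p : Polynomial ℕ, ∀ y, μ y ≤ p.eval y.length := by
  obtain ⟨q, hq⟩ := Poly.sz_le hμ
  refine ⟨q.comp (Polynomial.C 4 * Polynomial.X + Polynomial.C 1), fun y => ?_⟩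
  have h1 := length_lt_sz (List.replicate (μ y) ())
  rw [List.length_replicate] at h1
  have h2 := hq y
  have h3 : q.eval (sz y) ≤ q.eval (4 * y.length + 1) := eval_mono q (sz_listBool_le y)
  simp only [Polynomial.eval_comp, Polynomial.eval_add, Polynomial.eval_mul, Polynomial.eval_C,
    Polynomial.eval_X]
  omega

/-- peel `j` pairs -/
def inner : ℕ → List Bool → List Bool
  | 0, y => y
  | j + 1, y => inner j (unpair y).2

theorem poly_inner (j : ℕ) : Poly (inner j) := by
  induction j with
  | zero => exact Poly.id
  | succ j ih => exact ih.comp poly_u2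

/-- cut off -/
def cut (m : ℕ) (w : List Bool) : List Bool := if w.length ≤ m then w else []

theorem cut_le (m : ℕ) (w : List Bool) : (cut m w).length ≤ m := by
  unfold cut
  split_ifs with h
  · exact h
  · exact Nat.zero_le _

theorem cut_of_le {m : ℕ} {w : List Bool} (h : w.length ≤ m) : cut m w = w := if_pos h

theorem poly_cut {α : Type} [TEnc α] {m : α → ℕ} {w : α → List Bool} (hm : Poly m)
    (hw : Poly w) : Poly (fun a => cut (m a) (w a)) :=
  Poly.ite (p := fun a => (w a).length ≤ m a) (Poly.decide_le (Poly.length hw) hm) hw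
    (NPC.Poly.const [])

/-- the transformation of the strings, layer by layer -/
def TT (f : List Bool → List Bool) (μ : List Bool → ℕ) : ℕ → List Bool → List Bool
  | 0, z => f z
  | j + 1, z => pairBits (cut (μ (inner j (unpair z).2)) (unpair z).1) (TT f μ j (unpair z).2)

theorem poly_TT {f : List Bool → List Bool} {μ : List Bool → ℕ} (hf : Poly f) (hμ : Poly μ)
    (j : ℕ) : Poly (TT f μ j) := by
  induction j with
  | zero => exact hf
  | succ j ih =>
    exact poly_pairBits (poly_cut (hμ.comp ((poly_inner j).comp poly_u2)) poly_u1)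
      (ih.comp poly_u2)

theorem quant_TT (V f : List Bool → List Bool) (μ : List Bool → ℕ) (M : ℕ) :
    ∀ (i j : ℕ) (b : Bool) (z : List Bool), μ (inner j z) ≤ M →
      (Quant M (fun z => V (TT f μ (i + j) z)) i b z ↔
        Quant (μ (inner j z)) V i b (TT f μ j z)) := by
  intro i
  induction i with
  | zero => intro j b z _; simp only [Quant, Nat.zero_add]
  | succ i ih =>
    intro j b z hM
    have e1 : ∀ w, inner (j + 1) (pairBits w z) = inner j z := fun w => by
      simp only [inner, unpair2]
    have e2 : ∀ w, TT f μ (j + 1) (pairBits w z) =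
        pairBits (cut (μ (inner j z)) w) (TT f μ j z) := fun w => by
      simp only [TT, unpair1, unpair2]
    have e3 : i + 1 + j = i + (j + 1) := by omega
    rw [e3]
    have key : ∀ w b', Quant M (fun z => V (TT f μ (i + (j + 1)) z)) i b' (pairBits w z) ↔
        Quant (μ (inner j z)) V i b' (pairBits (cut (μ (inner j z)) w) (TT f μ j z)) := by
      intro w b'
      rw [ih (j + 1) b' (pairBits w z) (by rw [e1]; exact hM), e1, e2]
    cases b with
    | true =>
      simp only [Quant, key]
      constructor
      · rintro ⟨w, hw, h⟩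
        exact ⟨cut _ w, cut_le _ _, h⟩
      · rintro ⟨w, hw, h⟩
        exact ⟨w, hw.trans hM, by rw [cut_of_le hw]; exact h⟩
    | false =>
      simp only [Quant, key]
      constructor
      · intro h w hw
        have := h w (hw.trans hM)
        rwa [cut_of_le hw] at this
      · intro h w hw
        exact h _ (cut_le _ _)

/-- `k` alternating quantifiers, the first one given by `b` -/
def QC (A : Oracle) (k : ℕ) (b : Bool) (R : List Bool → Prop) : Prop :=
  ∃ (V : List Bool → List Bool) (p : Polynomial ℕ), IsFP A V ∧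
    ∀ y, R y ↔ Quant (p.eval y.length) V k b y

variable {A : Oracle} {k : ℕ} {b : Bool}

theorem QC.congr {R R' : List Bool → Prop} (h : QC A k b R) (hR : ∀ y, R y ↔ R' y) :
    QC A k b R' := by
  obtain ⟨V, p, hV, h⟩ := h
  exact ⟨V, p, hV, fun y => (hR y).symm.trans (h y)⟩

theorem QC.of_quant {V f : List Bool → List Bool} {μ : List Bool → ℕ} (hV : IsFP A V)
    (hf : Poly f) (hμ : UPoly μ) : QC A k b (fun y => Quant (μ y) V k b (f y)) := by
  obtain ⟨p, hp⟩ := upoly_bound hμ
  refine ⟨fun z => V (TT f μ k z), p, hV.precomp (poly_TT hf hμ.toPoly k), fun y => ?_⟩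
  exact (quant_TT V f μ (p.eval y.length) k 0 b y (hp y)).symm

theorem QC.red {R : List Bool → Prop} (h : QC A k b R) {f : List Bool → List Bool}
    (hf : Poly f) : QC A k b (fun y => R (f y)) := by
  obtain ⟨V, p, hV, h⟩ := h
  exact (QC.of_quant (k := k) (b := b) (μ := fun y => p.eval (f y).length) hV hf
    (UPoly.eval (UPoly.length hf) p)).congr fun y => (h (f y)).symm

theorem QC.split {R : List Bool → Prop} (h : QC A (k + 1) true R) :
    ∃ (R' : List Bool → Prop) (p : Polynomial ℕ), QC A k false R' ∧
      ∀ y, R y ↔ ∃ w : List Bool, w.length ≤ p.eval y.length ∧ R' (pairBits w y) := by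
  obtain ⟨V, p, hV, h⟩ := h
  refine ⟨_, p, QC.of_quant (k := k) (b := false) (f := fun z => z)
    (μ := fun z => p.eval (unpair z).2.length) hV Poly.id
    (UPoly.eval (UPoly.length poly_u2) p), fun y => ?_⟩
  rw [h y]
  simp only [Quant, unpair2]

theorem QC.uni {R' : List Bool → Prop} (h : QC A k false R') {μ : List Bool → ℕ}
    (hμ : UPoly μ) :
    QC A (k + 1) true (fun y => ∃ w : List Bool, w.length ≤ μ y ∧ R' (pairBits w y)) := by
  obtain ⟨V, p, hV, h⟩ := h
  obtain ⟨m, hm⟩ := upoly_bound hμ
  obtain ⟨g, hg⟩ : ∃ g : List Bool → List Bool,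
      g = fun z => pairBits (cut (μ (unpair z).2) (unpair z).1) (unpair z).2 := ⟨_, rfl⟩
  have hgp : Poly g := by
    rw [hg]
    exact poly_pairBits (poly_cut (hμ.toPoly.comp poly_u2) poly_u1) poly_u2
  have hν : UPoly (fun z => p.eval (g z).length) := UPoly.eval (UPoly.length hgp) p
  refine ⟨fun z => V (TT g (fun z => p.eval (g z).length) k z),
    m + p.comp (2 * m + 1 + Polynomial.X), hV.precomp (poly_TT hgp hν.toPoly k), fun y => ?_⟩
  obtain ⟨M, hM⟩ : ∃ M, M = (m + p.comp (2 * m + 1 + Polynomial.X)).eval y.length := ⟨_, rfl⟩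
  rw [← hM]
  have hM' : M = m.eval y.length + p.eval (2 * m.eval y.length + 1 + y.length) := by
    rw [hM]
    simp [Polynomial.eval_comp]
  have key : ∀ w, Quant M (fun z => V (TT g (fun z => p.eval (g z).length) k z)) k false
      (pairBits w y) ↔ R' (pairBits (cut (μ y) w) y) := by
    intro w
    have e1 : g (pairBits w y) = pairBits (cut (μ y) w) y := by rw [hg]; simp only [unpair1, unpair2]
    have e2 := quant_TT V g (fun z => p.eval (g z).length) M k 0 false (pairBits w y) (by
      show p.eval (g (pairBits w y)).length ≤ M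
      rw [e1, len_pair, hM']
      have h1 := cut_le (μ y) w
      have h2 := hm y
      have h3 : p.eval (2 * (cut (μ y) w).length + 1 + y.length) ≤
          p.eval (2 * m.eval y.length + 1 + y.length) := eval_mono p (by omega)
      omega)
    have e3 : Quant M (fun z => V (TT g (fun z => p.eval (g z).length) k z)) k false
      (pairBits w y) ↔ Quant (p.eval (g (pairBits w y)).length) V k false (g (pairBits w y)) := e2
    rw [e3, ← h, e1]
  simp only [Quant, key]
  constructor
  · rintro ⟨w, hw, hR⟩
    refine ⟨w, ?_, by rw [cut_of_le hw]; exact hR⟩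
    have := hm y
    omega
  · rintro ⟨w, hw, hR⟩
    exact ⟨cut (μ y) w, cut_le _ _, hR⟩

/-- negation of the output -/
def ng (x : List Bool) : List Bool := if x = [true] then [] else [true]

theorem poly_ng : Poly ng :=
  Poly.ite (p := fun x : List Bool => x = [true]) (Poly.decide_eq Poly.id (NPC.Poly.const _))
    (NPC.Poly.const []) (NPC.Poly.const [true])

theorem ng_iff (x : List Bool) : ng x = [true] ↔ ¬ x = [true] := by
  unfold ng
  split_ifs with h <;> simp [h]

theorem quant_ng (V : List Bool → List Bool) (M : ℕ) : ∀ (k : ℕ) (b : Bool) (y : List Bool),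
    Quant M (fun z => ng (V z)) k (!b) y ↔ ¬ Quant M V k b y := by
  intro k
  induction k with
  | zero => intro b y; simp only [Quant, ng_iff]
  | succ k ih =>
    intro b y
    cases b with
    | true =>
      have h1 := fun w => ih false (pairBits w y)
      simp only [Bool.not_false] at h1
      simp only [Bool.not_true, Quant, h1, not_exists, not_and]
    | false =>
      have h1 := fun w => ih true (pairBits w y)
      simp only [Bool.not_true] at h1
      simp only [Bool.not_false, Quant, h1, not_forall, exists_prop]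

theorem QC.neg {R : List Bool → Prop} (h : QC A k b R) : QC A k (!b) (fun y => ¬ R y) := by
  obtain ⟨V, p, hV, h⟩ := h
  refine ⟨fun z => ng (V z), p, IsFP.comp (IsFP.of_poly poly_ng) hV, fun y => ?_⟩
  rw [quant_ng]
  exact not_congr (h y)

theorem QC.neg' {R : List Bool → Prop} (h : QC A k (!b) (fun y => ¬ R y)) : QC A k b R := by
  have h1 := h.neg
  rw [Bool.not_not] at h1
  exact h1.congr fun y => not_not

theorem QC.splitF {R : List Bool → Prop} (h : QC A (k + 1) false R) :
    ∃ (R' : List Bool → Prop) (p : Polynomial ℕ), QC A k true R' ∧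
      ∀ y, R y ↔ ∀ w : List Bool, w.length ≤ p.eval y.length → R' (pairBits w y) := by
  obtain ⟨R', p, h1, h2⟩ := QC.split (R := fun y => ¬ R y) (k := k) h.neg
  refine ⟨fun y => ¬ R' y, p, h1.neg, fun y => ?_⟩
  have h3 := not_congr (h2 y)
  rw [not_not] at h3
  rw [h3]
  simp only [not_exists, not_and]

theorem QC.uniF {R' : List Bool → Prop} (h : QC A k true R') {μ : List Bool → ℕ}
    (hμ : UPoly μ) :
    QC A (k + 1) false (fun y => ∀ w : List Bool, w.length ≤ μ y → R' (pairBits w y)) := by
  have h1 : QC A (k + 1) true _ := QC.uni (R' := fun y => ¬ R' y) h.neg hμ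
  have h2 := h1.neg
  refine h2.congr fun y => ?_
  simp only [not_exists, not_and, not_not]

theorem QC.lvl0 {R : List Bool → Prop} (h : QC A 0 b R) (b' : Bool) : QC A 0 b' R := by
  obtain ⟨V, p, hV, h⟩ := h
  exact ⟨V, p, hV, fun y => (h y).trans (by simp only [Quant])⟩

theorem QC.inc {R : List Bool → Prop} (h : QC A k b R) : QC A (k + 1) b R := by
  induction k generalizing b R with
  | zero =>
    cases b with
    | true =>
      refine (QC.uni (μ := fun _ => 0) ((h.lvl0 false).red poly_u2) (UPoly.const 0)).congr
        fun y => ?_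
      simp only [unpair2]
      exact ⟨fun ⟨_, _, h⟩ => h, fun h => ⟨[], Nat.zero_le _, h⟩⟩
    | false =>
      refine (QC.uniF (μ := fun _ => 0) ((h.lvl0 true).red poly_u2) (UPoly.const 0)).congr
        fun y => ?_
      simp only [unpair2]
      exact ⟨fun h => h [] (Nat.zero_le _), fun h _ _ => h⟩
  | succ k ih =>
    cases b with
    | true =>
      obtain ⟨R', p, h1, h2⟩ := h.split
      exact (QC.uni (ih h1) (UPoly.eval (UPoly.length Poly.id) p)).congr
        fun y => (h2 y).symm
    | false =>
      obtain ⟨R', p, h1, h2⟩ := h.splitF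
      exact (QC.uniF (ih h1) (UPoly.eval (UPoly.length Poly.id) p)).congr
        fun y => (h2 y).symm

theorem QC.falseP : QC A k b (fun _ => False) := by
  refine ⟨fun _ => [], 0, IsFP.of_poly (NPC.Poly.const []), fun y => ?_⟩
  have key : ∀ (k : ℕ) (b : Bool) (m : ℕ) (y : List Bool),
      False ↔ Quant m (fun _ => []) k b y := by
    intro k
    induction k with
    | zero => intro b m y; simp [Quant]
    | succ k ih =>
      intro b m y
      cases b with
      | true => simp only [Quant, ← ih, and_false, exists_false]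
      | false =>
        simp only [Quant, ← ih, imp_false, false_iff, not_forall, not_not]
        exact ⟨[], Nat.zero_le _⟩
  exact key k b _ y

end EQAx

end Pool.Agent.H490R3.LH
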