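import Pool.Agent.H490R3.LH.EQA1

/-!
# Closure under case distinctions and bounded conjunctions (helper724)
-/

set_option autoImplicit false

namespace Pool.Agent.H490R3.LH

namespace EQAx

open Pool.Agent.NPC
open Pool.Agent.H620R2.Gauge (Oracle Quant IsFP IsSigma)
open Pool.Agent.H622R2 (poly_pairBits)

variable {A : Oracle} {k : ℕ} {b : Bool}

theorem QC.ite0 {R₁ R₂ : List Bool → Prop} {c : List Bool → Bool} (hc : Poly c)
    (h₁ : QC A 0 b R₁) (h₂ : QC A 0 b R₂) :
    QC A 0 b (fun y => (c y = true ∧ R₁ y) ∨ (c y = false ∧ R₂ y)) := by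
  obtain ⟨V₁, p₁, hV₁, h₁⟩ := h₁
  obtain ⟨V₂, p₂, hV₂, h₂⟩ := h₂
  have h3 : IsFP A (fun y => if c y = true then V₁ y else V₂ y) :=
    IsFP.seq (φ := fun p => p.1) (ψ := fun q => if c q.1 = true then q.2.1 else q.2.2) hV₁ hV₂
      (Poly.fst Poly.id)
      (Poly.ite (p := fun q : List Bool × List Bool × List Bool => c q.1 = true)
        (Poly.decide_bool (hc.comp (Poly.fst Poly.id))) (Poly.fst (Poly.snd Poly.id))
        (Poly.snd (Poly.snd Poly.id)))
  refine ⟨_, 0, h3, fun y => ?_⟩
  simp only [Quant] at h₁ h₂ ⊢
  rw [h₁, h₂]
  cases c y <;> simp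

theorem QC.ite {R₁ R₂ : List Bool → Prop} {c : List Bool → Bool} (hc : Poly c)
    (h₁ : QC A k b R₁) (h₂ : QC A k b R₂) :
    QC A k b (fun y => (c y = true ∧ R₁ y) ∨ (c y = false ∧ R₂ y)) := by
  induction k generalizing b R₁ R₂ c with
  | zero => exact QC.ite0 hc h₁ h₂
  | succ k ih =>
    have hT : ∀ R₁ R₂ : List Bool → Prop, QC A (k + 1) true R₁ → QC A (k + 1) true R₂ →
        QC A (k + 1) true (fun y => (c y = true ∧ R₁ y) ∨ (c y = false ∧ R₂ y)) := by
      intro R₁ R₂ h₁ h₂
      obtain ⟨S₁, p₁, hS₁, e₁⟩ := h₁.split
      obtain ⟨S₂, p₂, hS₂, e₂⟩ := h₂.split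
      have g : ∀ p : Polynomial ℕ, Poly (fun z : List Bool =>
          pairBits (cut (p.eval (unpair z).2.length) (unpair z).1) (unpair z).2) := fun p =>
        poly_pairBits (poly_cut (UPoly.eval (UPoly.length poly_u2) p).toPoly poly_u1) poly_u2
      have h3 := QC.uni (ih (c := fun z => c (unpair z).2) (hc.comp poly_u2) (hS₁.red (g p₁))
        (hS₂.red (g p₂))) (μ := fun y => (p₁ + p₂).eval y.length)
        (UPoly.eval (UPoly.length Poly.id) (p₁ + p₂))
      refine h3.congr fun y => ?_
      simp only [unpair1, unpair2, Polynomial.eval_add]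
      rw [e₁, e₂]
      cases hcy : c y with
      | true =>
        simp only [true_and, Bool.true_eq_false, false_and, or_false]
        constructor
        · rintro ⟨w, -, h⟩
          exact ⟨_, cut_le _ _, h⟩
        · rintro ⟨w, hw, h⟩
          exact ⟨w, by omega, by rw [cut_of_le hw]; exact h⟩
      | false =>
        simp only [true_and, Bool.false_eq_true, false_and, false_or]
        constructor
        · rintro ⟨w, -, h⟩
          exact ⟨_, cut_le _ _, h⟩
        · rintro ⟨w, hw, h⟩
          exact ⟨w, by omega, by rw [cut_of_le hw]; exact h⟩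
    cases b with
    | true => exact hT R₁ R₂ h₁ h₂
    | false =>
      refine QC.neg' ?_
      refine (hT (fun y => ¬ R₁ y) (fun y => ¬ R₂ y) h₁.neg h₂.neg).congr fun y => ?_
      cases c y <;> simp

/-- strings of ones -/
def ones (i : ℕ) : List Bool := List.replicate i true

theorem len_ones (i : ℕ) : (ones i).length = i := List.length_replicate

theorem poly_ones {α : Type} [TEnc α] {n : α → ℕ} (hn : UPoly n) :
    Poly (fun a => ones (n a)) :=
  (NPC.Poly.map (F := fun _ _ => true) hn (NPC.Poly.const true)).congr fun a => by
    rw [List.map_replicate]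
    rfl

theorem QC.conj0 {R : List Bool → Prop} {τ : List Bool → ℕ} (hτ : UPoly τ)
    (h : QC A 0 b R) : QC A 0 b (fun y => ∀ i < τ y, R (pairBits (ones i) y)) := by
  obtain ⟨V, p, hV, h⟩ := h
  obtain ⟨T, hT⟩ := upoly_bound hτ
  have hcd : Poly (fun z : List Bool =>
      decide ((unpair z).1.length < τ (unpair z).2)) :=
    Poly.decide_lt (Poly.length poly_u1) (hτ.toPoly.comp poly_u2)
  have h3 : IsFP A (fun z => if (unpair z).1.length < τ (unpair z).2 then V z else [true]) :=
    IsFP.seq (φ := fun p => p.1) (ψ := fun q => if (unpair q.1).1.length < τ (unpair q.1).2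
      then q.2.1 else [true]) hV hV (Poly.fst Poly.id)
      (Poly.ite (p := fun q : List Bool × List Bool × List Bool =>
        (unpair q.1).1.length < τ (unpair q.1).2) (hcd.comp (Poly.fst Poly.id))
        (Poly.fst (Poly.snd Poly.id)) (NPC.Poly.const [true]))
  have hTu : UPoly (fun q : (ℕ × List Bool) × List Bool => T.eval q.1.2.length) :=
    UPoly.eval (UPoly.length (Poly.snd (Poly.fst Poly.id))) T
  have hmin : UPoly (fun q : (ℕ × List Bool) × List Bool => min q.1.1 (T.eval q.1.2.length)) :=
    UPoly.of_le (Poly.min (Poly.fst (Poly.fst Poly.id)) hTu.toPoly) hTu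
      (fun _ => min_le_right _ _)
  have h4 := IsFP.votes h3 T (Q := fun _ => []) (NPC.Poly.const [])
    (W := fun q => pairBits (ones (min q.1.1 (T.eval q.1.2.length))) q.1.2)
    (poly_pairBits (poly_ones hmin) (Poly.snd (Poly.fst Poly.id)))
    (H := fun q => if (q.2.all fun b => b) = true then [true] else [])
    (Poly.ite (p := fun q : List Bool × List Bool => (q.2.all fun b => b) = true)
      (Poly.decide_bool (Poly.all (p := fun _ b => b) (Poly.snd Poly.id) (Poly.snd Poly.id)))
      (NPC.Poly.const [true]) (NPC.Poly.const []))
  refine ⟨_, 0, h4, fun y => ?_⟩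
  simp only [Quant] at h ⊢
  have h5 : (if (((List.range (T.eval y.length)).map (fun i => decide
      ((fun z => if (unpair z).1.length < τ (unpair z).2 then V z else [true])
        (pairBits (ones (min i (T.eval y.length))) y) = [true]))).all fun b => b) = true
      then [true] else ([] : List Bool)) = [true] ↔
      ∀ i < T.eval y.length, ((if (ones (min i (T.eval y.length))).length < τ y then
        V (pairBits (ones (min i (T.eval y.length))) y) else [true]) = [true]) := by
    rw [show ∀ c : Prop, ∀ [Decidable c], ((if c then [true] else ([] : List Bool)) = [true] ↔ c)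
      from fun c _ => by by_cases hc : c <;> simp [hc]]
    simp only [List.all_eq_true, List.mem_map, List.mem_range, forall_exists_index, and_imp,
      forall_apply_eq_imp_iff₂, decide_eq_true_eq, unpair1, unpair2]
  refine Iff.trans ?_ h5.symm
  constructor
  · intro h6 i hi
    rw [min_eq_left hi.le, len_ones]
    split_ifs with h7
    · exact (h _).1 (h6 i h7)
    · rfl
  · intro h6 i hi
    have h7 := h6 i (lt_of_lt_of_le hi (hT y))
    rw [min_eq_left (lt_of_lt_of_le hi (hT y)).le, len_ones, if_pos hi] at h7
    exact (h _).2 h7

/-- component of a coded list -/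
noncomputable def comp (W : List Bool) (i : ℕ) : List Bool :=
  ((unbits (List (List Bool)) W).getD []).getD i []

theorem comp_bits (l : List (List Bool)) (i : ℕ) : comp (bits l) i = l.getD i [] := by
  unfold comp
  rw [unbits_bits]
  rfl

theorem poly_comp {α : Type} [TEnc α] {W : α → List Bool} {i : α → ℕ} (hW : Poly W)
    (hi : Poly i) : Poly (fun a => comp (W a) (i a)) := by
  have h1 : Poly (fun a => (unbits (List (List Bool)) (W a)).getD []) :=
    (Poly.optCases (o := fun a => unbits (List (List Bool)) (W a))
      (g := fun _ => ([] : List (List Bool))) (h := fun _ b => b)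
      (poly_unbits.comp hW) (NPC.Poly.const _) (Poly.snd Poly.id)).congr fun a => by
        cases unbits (List (List Bool)) (W a) <;> rfl
  exact Poly.getD h1 hi (NPC.Poly.const [])

theorem QC.conj {R : List Bool → Prop} {τ : List Bool → ℕ} (hτ : UPoly τ)
    (h : QC A k b R) : QC A k b (fun y => ∀ i < τ y, R (pairBits (ones i) y)) := by
  induction k generalizing b R τ with
  | zero => exact QC.conj0 hτ h
  | succ k ih =>
    have hτ' : UPoly (fun z => τ (unpair z).2) := UPoly.comp hτ poly_u2
    have hY : Poly (fun z : List Bool => pairBits (unpair z).1 (unpair (unpair z).2).2) :=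
      poly_pairBits poly_u1 (poly_u2.comp poly_u2)
    have hB : ∀ p : Polynomial ℕ, UPoly (fun y : List Bool => p.eval (2 * τ y + 1 + y.length)) :=
      fun p => UPoly.eval (UPoly.add (UPoly.add (UPoly.mul (UPoly.const 2) hτ) (UPoly.const 1))
        (UPoly.length Poly.id)) p
    cases b with
    | true =>
      obtain ⟨R', p, h1, h2⟩ := h.split
      have hf : Poly (fun z : List Bool => pairBits
          (cut (p.eval (pairBits (unpair z).1 (unpair (unpair z).2).2).length)
            (comp (unpair (unpair z).2).1 (unpair z).1.length))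
          (pairBits (unpair z).1 (unpair (unpair z).2).2)) :=
        poly_pairBits (poly_cut (UPoly.eval (UPoly.length hY) p).toPoly
          (poly_comp (poly_u1.comp poly_u2) (Poly.length poly_u1))) hY
      have h3 := QC.uni (ih hτ' (h1.red hf)) (μ := fun y => τ y *
        (4 * p.eval (2 * τ y + 1 + y.length) + 2) + 1)
        (UPoly.add (UPoly.mul hτ (UPoly.add (UPoly.mul (UPoly.const 4) (hB p))
          (UPoly.const 2))) (UPoly.const 1))
      refine h3.congr fun y => ?_
      simp only [unpair1, unpair2, len_ones]
      constructor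
      · rintro ⟨W, -, hW⟩ i hi
        rw [h2]
        exact ⟨_, cut_le _ _, hW i hi⟩
      · intro h4
        have h5 : ∀ i, ∃ w : List Bool, i < τ y → w.length ≤ p.eval (pairBits (ones i) y).length ∧
            R' (pairBits w (pairBits (ones i) y)) := by
          intro i
          by_cases hi : i < τ y
          · obtain ⟨w, hw⟩ := (h2 _).1 (h4 i hi)
            exact ⟨w, fun _ => hw⟩
          · exact ⟨[], fun h => absurd h hi⟩
        choose w hw using h5
        refine ⟨bits ((List.range (τ y)).map w), ?_, ?_⟩
        · rw [bits_length]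
          have h6 := sz_le_length_mul ((List.range (τ y)).map w)
            (4 * p.eval (2 * τ y + 1 + y.length) + 1) (by
              intro a ha
              obtain ⟨i, hi, rfl⟩ := List.mem_map.1 ha
              rw [List.mem_range] at hi
              have h7 := (hw i hi).1
              rw [len_pair, len_ones] at h7
              have h8 : p.eval (2 * i + 1 + y.length) ≤ p.eval (2 * τ y + 1 + y.length) :=
                eval_mono p (by omega)
              have h9 := sz_listBool_le (w i)
              omega)
          rw [List.length_map, List.length_range] at h6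
          exact h6
        · intro i hi
          have h6 : comp (bits ((List.range (τ y)).map w)) i = w i := by
            rw [comp_bits, List.getD_eq_getElem?_getD, List.getElem?_map,
              List.getElem?_range hi]
            rfl
          rw [h6, cut_of_le (hw i hi).1]
          exact (hw i hi).2
    | false =>
      obtain ⟨R', p, h1, h2⟩ := h.splitF
      have hf : Poly (fun z : List Bool => pairBits
          (cut (p.eval (pairBits (unpair z).1 (unpair (unpair z).2).2).length)
            (unpair (unpair z).2).1)
          (pairBits (unpair z).1 (unpair (unpair z).2).2)) :=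
        poly_pairBits (poly_cut (UPoly.eval (UPoly.length hY) p).toPoly
          (poly_u1.comp poly_u2)) hY
      have h3 := QC.uniF (ih hτ' (h1.red hf)) (hB p)
      refine h3.congr fun y => ?_
      simp only [unpair1, unpair2]
      constructor
      · intro h4 i hi
        rw [h2]
        intro w hw
        have h5 : w.length ≤ p.eval (2 * τ y + 1 + y.length) := by
          refine hw.trans (eval_mono p ?_)
          rw [len_pair, len_ones]
          omega
        have h6 := h4 w h5 i hi
        rwa [cut_of_le hw] at h6
      · intro h4 w hw i hi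
        exact (h2 _).1 (h4 i hi) _ (cut_le _ _)

end EQAx

end Pool.Agent.H490R3.LH
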