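import Pool.Agent.H490R3.LH.Stm
import Pool.Agent.H628R3.RO.M3
import Pool.Agent.H628R3.RO.M4

/-!
# B1: relative to almost every oracle the tally set `TB` is not in `coNP`
-/

set_option autoImplicit false

namespace Pool.Agent.H490R3.LH

open Pool.Agent.NPC Pool.Agent.H628R3.RO MeasureTheory

/-- polynomials are smaller than exponentials -/
private theorem B1_poly (P : Polynomial ℕ) :
    ∀ C : ℕ, ∃ n0, ∀ n ≥ n0, C * P.eval n ≤ 2 ^ n := by
  induction P using Polynomial.induction_on' with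
  | add p q hp hq =>
    intro C
    obtain ⟨a, ha⟩ := hp (2 * C)
    obtain ⟨b, hb⟩ := hq (2 * C)
    refine ⟨max a b, fun n hn => ?_⟩
    have h1 := ha n (le_trans (le_max_left _ _) hn)
    have h2 := hb n (le_trans (le_max_right _ _) hn)
    rw [Polynomial.eval_add]
    nlinarith
  | monomial k a =>
    intro C
    have h := tendsto_pow_const_div_const_pow_of_one_lt k (show (1 : ℝ) < 2 by norm_num)
    have h2 : ∀ᶠ n : ℕ in Filter.atTop, (n : ℝ) ^ k / 2 ^ n < 1 / ((C : ℝ) * a + 1) :=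
      h.eventually (gt_mem_nhds (by positivity))
    obtain ⟨n0, hn0⟩ := Filter.eventually_atTop.mp h2
    refine ⟨n0, fun n hn => ?_⟩
    have h3 := hn0 n hn
    rw [div_lt_div_iff₀ (by positivity) (by positivity)] at h3
    rw [Polynomial.eval_monomial]
    have h4 : ((C * (a * n ^ k) : ℕ) : ℝ) ≤ ((2 ^ n : ℕ) : ℝ) := by
      push_cast
      have : (0 : ℝ) ≤ (n : ℝ) ^ k := by positivity
      nlinarith
    exact_mod_cast h4

/-- few candidates are touched by few questions -/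
private theorem B1_touch (W : Finset Cand) (m : ℕ) (Q : Finset (List Bool)) : ∃ T : Finset Cand,
    T.card ≤ Q.card ∧ ∀ h ⊆ W, Disjoint h T → ∀ (B : Oracle), ∀ q ∈ Q,
      plant (allSpots m h) B q = B q := by
  classical
  refine ⟨W.filter (fun κ => ∃ i < m, pos κ.1 i κ.2 ∈ Q), ?_, ?_⟩
  · have h1 : ∀ κ ∈ W.filter (fun κ => ∃ i < m, pos κ.1 i κ.2 ∈ Q),
        ∃ i, i < m ∧ pos κ.1 i κ.2 ∈ Q := by
      intro κ hκ
      exact (Finset.mem_filter.mp hκ).2
    choose! i hi using h1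
    refine Finset.card_le_card_of_injOn (fun κ => pos κ.1 (i κ) κ.2)
      (fun κ hκ => (hi κ hκ).2) ?_
    intro κ _ κ' _ he
    obtain ⟨h1, -, h3⟩ := pos_inj he
    exact Prod.ext h1 h3
  · intro h hW hd B q hq
    unfold plant
    rw [if_neg]
    intro hmem
    obtain ⟨κ, hκ, hs⟩ := M2.mem_allSpots.mp hmem
    obtain ⟨i, hi, rfl⟩ := M2.mem_spots.mp hs
    exact Finset.disjoint_left.mp hd hκ (Finset.mem_filter.mpr ⟨hW hκ, i, hi, hq⟩)

private theorem B1_countable : Countable (Polynomial ℕ) := by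
  have : Function.Injective (fun p : Polynomial ℕ => (p.toFinsupp.coeff : ℕ →₀ ℕ)) := by
    intro p q h
    ext n
    exact DFunLike.congr_fun h n
  exact this.countable

/-- the candidates of stage `n` -/
private def B1_W (n : ℕ) : Finset Cand := cands {0} n

private theorem B1_mem {n : ℕ} {κ : Cand} : κ ∈ B1_W n ↔ κ.1 = 0 ∧ κ.2.length = n := by
  unfold B1_W cands
  rw [Finset.mem_product, Finset.mem_singleton, Finset.mem_image]
  refine and_congr_right fun _ => ?_
  constructor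
  · rintro ⟨v, -, hv⟩
    rw [← hv, List.length_ofFn]
  · rintro rfl
    exact ⟨fun i => κ.2.get i, Finset.mem_univ _, List.ofFn_get _⟩

private theorem B1_TB (n : ℕ) (X : Oracle) :
    List.replicate n true ∈ TB X ↔ X ∉ NoHit n (B1_W n) := by
  unfold TB NoHit
  simp only [Set.mem_ofPred_eq, not_forall, not_not]
  constructor
  · rintro ⟨n', w, h1, h2, h3⟩
    have h4 : n = n' := by
      have := congrArg List.length h1
      simpa using this
    subst h4
    exact ⟨(0, w), B1_mem.2 ⟨rfl, h2⟩, h3⟩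
  · rintro ⟨⟨c, w⟩, hκ, h⟩
    obtain ⟨h1, h2⟩ := B1_mem.1 hκ
    simp only at h1 h2
    subst h1
    exact ⟨n, w, rfl, h2, h⟩

/-- the inputs accepted with a short witness -/
private def B1_Z (M : Alg) (p : Polynomial ℕ) (n : ℕ) : Set Oracle :=
  {X | ∃ w : List Bool, w.length ≤ p.eval n ∧
    M.out X (pairBits (List.replicate n true) w) = some [true]}

/-- the verifier is correct at stage `n` -/
private def B1_S (M : Alg) (p : Polynomial ℕ) (n : ℕ) : Set Oracle :=
  {X | X ∈ NoHit n (B1_W n) ↔ X ∈ B1_Z M p n}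

private theorem B1_pos_length (c i : ℕ) (w : List Bool) :
    (pos c i w).length = c + i + w.length + 2 := by
  unfold pos
  simp only [List.length_append, List.length_replicate, List.length_cons]
  omega

private theorem B1_loc (M : Alg) (p : Polynomial ℕ) (n : ℕ) : ∃ R : ℕ,
    Loc {x | x.length ≤ R} (B1_Z M p n) ∧ Loc {x | x.length ≤ R} (NoHit n (B1_W n)) ∧
    ∀ κ ∈ B1_W n, ∀ i < n, pos κ.1 i κ.2 ∈ {x : List Bool | x.length ≤ R} := by
  obtain ⟨qb, hqb⟩ := M.out_local
  have hW : ∀ κ ∈ B1_W n, ∀ i < n,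
      pos κ.1 i κ.2 ∈ {x : List Bool | x.length ≤ qb.eval (2 * n + 1 + p.eval n) + (2 * n + 2)} := by
    intro κ hκ i hi
    obtain ⟨h1, h2⟩ := B1_mem.1 hκ
    rw [Set.mem_ofPred_eq, B1_pos_length, h1, h2]
    omega
  refine ⟨qb.eval (2 * n + 1 + p.eval n) + (2 * n + 2), ?_, M2.loc_noHit hW, hW⟩
  have key : ∀ A A' : Oracle, (∀ x : List Bool,
      x.length ≤ qb.eval (2 * n + 1 + p.eval n) + (2 * n + 2) → A x = A' x) →
      A ∈ B1_Z M p n → A' ∈ B1_Z M p n := by
    rintro A A' hA ⟨w, hw, ho⟩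
    refine ⟨w, hw, ?_⟩
    obtain ⟨Q, -, hQ2, hQ3⟩ := hqb A (pairBits (List.replicate n true) w)
    rw [hQ3 A' ?_]
    · exact ho
    · intro q hq
      symm
      apply hA
      have h1 := hQ2 q hq
      rw [length_pairBits, List.length_replicate] at h1
      have h2 := eval_mono qb (show 2 * n + 1 + w.length ≤ 2 * n + 1 + p.eval n by omega)
      omega
  intro A A' hA
  exact ⟨key A A' hA, key A' A fun x hx => (hA x hx).symm⟩

private theorem B1_meas (M : Alg) (p : Polynomial ℕ) (n : ℕ) : MeasurableSet (B1_S M p n) := by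
  obtain ⟨R, h1, h2, -⟩ := B1_loc M p n
  refine measurableSet_of_loc (finite_short R) (S := B1_S M p n) ?_
  intro A A' hA
  exact iff_congr (h2 A A' hA) (h1 A A' hA)

private theorem B1_zero (M : Alg) (p : Polynomial ℕ) :
    prob (⋂ n, B1_S M p n) = 0 := by
  classical
  by_contra hne
  set S : Set Oracle := ⋂ n, B1_S M p n with hS
  have hSm : MeasurableSet S := MeasurableSet.iInter fun n => B1_meas M p n
  have hpos : 0 < prob S := lt_of_le_of_ne (M2.prob_nonneg _) (Ne.symm hne)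
  obtain ⟨t, L, hτ0, hτS⟩ := exists_cyl hSm hpos (δ := 1 / 32) (by norm_num)
  set τ := cyl t L with hτdef
  obtain ⟨n0, hn0⟩ := B1_poly
    (M.p.comp (2 * Polynomial.X + 1 + p)) 32
  set n := max n0 (t + 1) with hn
  have hnt : t + 1 ≤ n := le_max_right _ _
  have hn1 : 1 ≤ n := by omega
  set P := M.p.eval (2 * n + 1 + p.eval n) with hP
  have hPn : 32 * P ≤ 2 ^ n := by
    have h := hn0 n (le_max_left _ _)
    rw [Polynomial.eval_comp] at h
    simpa using h
  obtain ⟨R, hZ, hN, hW⟩ := B1_loc M p n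
  have hK : {x : List Bool | x.length ≤ max R t}.Finite := finite_short _
  have hsubR : {x : List Bool | x.length ≤ R} ⊆ {x : List Bool | x.length ≤ max R t} :=
    fun x (hx : x.length ≤ R) => hx.trans (le_max_left _ _)
  have hsubt : {x : List Bool | x.length ≤ t} ⊆ {x : List Bool | x.length ≤ max R t} :=
    fun x (hx : x.length ≤ t) => hx.trans (le_max_right _ _)
  have hcyl : Loc {x : List Bool | x.length ≤ t} τ := loc_cyl_aux t L
  -- the spots are long
  have hlong : ∀ κ ∈ B1_W n, ∀ i < n, pos κ.1 i κ.2 ∉ {x : List Bool | x.length ≤ t} := by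
    intro κ hκ i hi hmem
    obtain ⟨h1, h2⟩ := B1_mem.1 hκ
    rw [Set.mem_ofPred_eq, B1_pos_length, h1, h2] at hmem
    omega
  have hτ' : ∀ (B : Oracle) (h : Finset Cand), h ⊆ B1_W n →
      (plant (allSpots n h) B ∈ τ ↔ B ∈ τ) := by
    intro B h hh
    apply hcyl
    intro x hx
    unfold plant
    rw [if_neg]
    intro hmem
    obtain ⟨κ, hκ, hs⟩ := M2.mem_allSpots.mp hmem
    obtain ⟨i, hi, rfl⟩ := M2.mem_spots.mp hs
    exact hlong κ (hh hκ) i hi hx
  have hkey : ∀ B ∈ NoHit n (B1_W n), B ∈ B1_Z M p n → ∃ T : Finset Cand, T.card ≤ P ∧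
      ∀ h ⊆ B1_W n, h.Nonempty → Disjoint h T → plant (allSpots n h) B ∈ B1_Z M p n := by
    rintro B - ⟨w, hw, ho⟩
    obtain ⟨qb, hqb⟩ := M.out_local
    obtain ⟨Q, hQ1, -, hQ3⟩ := hqb B (pairBits (List.replicate n true) w)
    obtain ⟨T, hT1, hT2⟩ := B1_touch (B1_W n) n Q
    refine ⟨T, ?_, ?_⟩
    · refine hT1.trans (hQ1.trans ?_)
      rw [length_pairBits, List.length_replicate]
      exact eval_mono M.p (by omega)
    · intro h hh _ hd
      refine ⟨w, hw, ?_⟩
      rw [hQ3 _ (hT2 h hh hd B)]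
      exact ho
  have hmain := key_taut hK (Loc.monoM hsubR hZ) (Loc.monoM hsubR hZ) (Loc.monoM hsubt hcyl) (B1_W n) hn1 P
    (fun κ hκ i hi => hsubR (hW κ hκ i hi)) hτ' hkey
  -- numbers
  have hcard : (B1_W n).card = 1 * 2 ^ n := by
    unfold B1_W
    rw [card_cands, Finset.card_singleton]
  set c : ℝ := (1 - (1 / 2) ^ n) ^ (B1_W n).card with hc
  have hc1 : 1 / 4 ≤ c := by
    have := sat_ge hn1 1
    rw [hc, hcard]
    simpa using this
  have hc2 : c ≤ 1 / 2 := by
    have := sat_le n 1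
    rw [hc, hcard]
    simpa using this
  have hPq : (P : ℝ) * (1 / 2) ^ n ≤ 1 / 32 := by
    have h1 : (32 : ℝ) * P ≤ 2 ^ n := by exact_mod_cast hPn
    have h2 : (0 : ℝ) < 2 ^ n := by positivity
    rw [one_div_pow, mul_one_div, div_le_div_iff₀ h2 (by norm_num)]
    linarith
  have hτm : MeasurableSet τ := measurableSet_cyl t L
  -- the part of the cylinder outside of `S`
  have hout : prob (τ ∩ Sᶜ) ≤ 1 / 32 * prob τ := by
    have h1 := M2.prob_inter_add_compl τ hSm
    rw [Set.inter_comm τ S] at h1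
    linarith
  have hnohit : prob (τ ∩ NoHit n (B1_W n)) = prob τ * c :=
    prob_noHit_inter (finite_short t) hcyl n (B1_W n) hlong
  have hSn : ∀ X ∈ S, (X ∈ NoHit n (B1_W n) ↔ X ∈ B1_Z M p n) := by
    intro X hX
    exact Set.mem_iInter.1 hX n
  have hlow : prob τ * c ≤ prob (B1_Z M p n ∩ τ ∩ NoHit n (B1_W n)) + 1 / 32 * prob τ := by
    rw [← hnohit]
    have hsub : τ ∩ NoHit n (B1_W n) ⊆ (B1_Z M p n ∩ τ ∩ NoHit n (B1_W n)) ∪ (τ ∩ Sᶜ) := by
      rintro X ⟨hX1, hX2⟩
      by_cases hX : X ∈ S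
      · exact Or.inl ⟨⟨(hSn X hX).1 hX2, hX1⟩, hX2⟩
      · exact Or.inr ⟨hX1, hX⟩
    exact (M2.prob_mono hsub).trans ((M2.prob_union_le _ _).trans (by linarith))
  have hup : prob (B1_Z M p n ∩ τ ∩ (NoHit n (B1_W n))ᶜ) ≤ 1 / 32 * prob τ := by
    refine (M2.prob_mono ?_).trans hout
    rintro X ⟨⟨hX1, hX2⟩, hX3⟩
    refine ⟨hX2, fun hX => hX3 ((hSn X hX).2 hX1)⟩
  set a := prob (B1_Z M p n ∩ τ ∩ NoHit n (B1_W n)) with ha
  set b := prob (B1_Z M p n ∩ τ ∩ (NoHit n (B1_W n))ᶜ) with hb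
  have h1 : (prob τ * c - 1 / 32 * prob τ) * (1 - c) ≤ a * (1 - c) :=
    mul_le_mul_of_nonneg_right (by linarith) (by linarith)
  have h2 : (b + P * (1 / 2) ^ n * prob τ) * c ≤ (1 / 32 * prob τ + 1 / 32 * prob τ) * c := by
    apply mul_le_mul_of_nonneg_right _ (by linarith)
    have := mul_le_mul_of_nonneg_right hPq hτ0.le
    linarith
  have h3 : (prob τ * c - 1 / 32 * prob τ) * (1 - c) ≤ (1 / 32 * prob τ + 1 / 32 * prob τ) * c :=
    h1.trans (hmain.trans h2)
  have h4 : prob τ * ((c - 1 / 32) * (1 - c)) ≤ prob τ * (1 / 16 * c) := by linarith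
  have h5 : (c - 1 / 32) * (1 - c) ≤ 1 / 16 * c := le_of_mul_le_mul_left h4 hτ0
  nlinarith

/-- B1 -/
theorem t_B1 : S_B1 := by
  have := B1_countable
  have h1 : ∀ᵐ X ∂randomOracle, ∀ r : Alg × Polynomial ℕ, X ∉ ⋂ n, B1_S r.1 r.2 n := by
    rw [ae_all_iff]
    intro r
    have h2 : randomOracle (⋂ n, B1_S r.1 r.2 n) = 0 := by
      have h3 := B1_zero r.1 r.2
      unfold prob at h3
      exact (measureReal_eq_zero_iff).1 h3
    exact measure_eq_zero_iff_ae_notMem.1 h2
  filter_upwards [h1] with X hX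
  rintro ⟨V, p, ⟨M, hM⟩, hV⟩
  apply hX (M, p)
  rw [Set.mem_iInter]
  intro n
  show X ∈ NoHit n (B1_W n) ↔ X ∈ B1_Z M p n
  have h3 := hV (List.replicate n true)
  rw [Set.mem_compl_iff, B1_TB, not_not] at h3
  rw [h3, List.length_replicate]
  unfold B1_Z
  rw [Set.mem_ofPred_eq]
  refine exists_congr fun w => and_congr_right fun _ => ?_
  rw [hM, Option.some_inj]

end Pool.Agent.H490R3.LH
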