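import Pool.Agent.H490R3.LH.Stm
import Pool.Agent.H628R3.RO.M4

set_option autoImplicit false

namespace Pool.Agent.H490R3.LH

open Pool.Agent.NPC Pool.Agent.H628R3.RO MeasureTheory

theorem B2_prob (b : ℕ) : prob (NoHit b (cands {1} (2 * b))) ≤ (1 / 2) ^ (2 ^ b) := by
  have h := prob_noHit_inter (K := ∅) Set.finite_empty (S := Set.univ) (fun _ _ _ => Iff.rfl)
    b (cands {1} (2 * b)) (fun _ _ _ _ h => h)
  rw [Set.univ_inter] at h
  have h1 : prob Set.univ = 1 := by
    unfold prob
    haveI : IsProbabilityMeasure randomOracle := by unfold randomOracle; infer_instance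
    exact probReal_univ
  rw [h, h1, one_mul, card_cands, Finset.card_singleton, one_mul, two_mul, pow_add]
  exact sat_le b (2 ^ b)

theorem t_B2 (h1 : S_BT) : S_B2 := by
  unfold S_B2
  haveI : IsProbabilityMeasure randomOracle := by unfold randomOracle; infer_instance
  have hsum : ∑' l : ℕ, randomOracle (NoHit (bt.eval l) (cands {1} (2 * bt.eval l))) ≠ ⊤ := by
    have hle : ∀ l : ℕ, randomOracle (NoHit (bt.eval l) (cands {1} (2 * bt.eval l))) ≤
        ENNReal.ofReal ((1 / 2) ^ l) := by
      intro l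
      rw [← ENNReal.ofReal_toReal (measure_ne_top randomOracle _)]
      apply ENNReal.ofReal_le_ofReal
      refine (B2_prob (bt.eval l)).trans ?_
      apply pow_le_pow_of_le_one (by norm_num) (by norm_num)
      have h2 := h1.1 l
      have h3 : bt.eval l < 2 ^ bt.eval l := Nat.lt_two_pow_self
      have h4 : l ≤ bt.eval l := by
        have : 0 ≤ l ^ 2 := Nat.zero_le _
        omega
      omega
    refine ne_top_of_le_ne_top ?_ (ENNReal.tsum_le_tsum hle)
    rw [← ENNReal.ofReal_tsum_of_nonneg (fun l => by positivity)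
      (summable_geometric_of_lt_one (by norm_num) (by norm_num))]
    exact ENNReal.ofReal_ne_top
  filter_upwards [ae_eventually_notMem hsum] with X hX
  obtain ⟨l₀, hl₀⟩ := Filter.eventually_atTop.1 hX
  refine ⟨l₀, fun l hl => ?_⟩
  have h2 := hl₀ l hl
  unfold NoHit at h2
  simp only [Set.mem_ofPred_eq, not_forall, not_not] at h2
  obtain ⟨κ, hκ, hh⟩ := h2
  obtain ⟨c, w⟩ := κ
  unfold cands at hκ
  rw [Finset.mem_product] at hκ
  obtain ⟨hc, hw⟩ := hκ
  simp only [Finset.mem_singleton] at hc
  subst hc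
  obtain ⟨v, -, hv⟩ := Finset.mem_image.1 hw
  refine ⟨w, ?_, hh⟩
  simp only at hv
  rw [← hv, List.length_ofFn]

end Pool.Agent.H490R3.LH
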