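import Pool.Agent.H490R3.LH.Stm
import Pool.Agent.H628R3.RO.M3
import Pool.Agent.H628R3.RO.M4

set_option autoImplicit false

namespace Pool.Agent.H490R3.LH

open Pool.Agent.NPC Pool.Agent.H628R3.RO MeasureTheory
open Pool.Agent.H583R2.S2 (chr IsP Mk gc Ys dl NN)
open Pool.Agent.H673R2.OneTT (KA uA)

/-! ### Numbers -/

theorem B3_eval_le (p : Polynomial ℕ) (m : ℕ) (hm : 1 ≤ m) :
    p.eval m ≤ p.eval 1 * m ^ p.natDegree := by
  rw [Polynomial.eval_eq_sum_range, Polynomial.eval_eq_sum_range, Finset.sum_mul]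
  refine Finset.sum_le_sum fun i hi => ?_
  rw [one_pow, mul_one]
  exact Nat.mul_le_mul_left _ (Nat.pow_le_pow_right hm (by
    rw [Finset.mem_range] at hi; omega))

theorem B3_poly (p : Polynomial ℕ) (C : ℕ) :
    ∃ k0, ∀ k ≥ k0, C * p.eval (2 ^ k) ≤ 2 ^ (k ^ 2) := by
  refine ⟨max (p.natDegree + 1) (C * p.eval 1), fun k hk => ?_⟩
  have h1 : p.natDegree + 1 ≤ k := (le_max_left _ _).trans hk
  have h2 : C * p.eval 1 ≤ k := (le_max_right _ _).trans hk
  have h3 : C * p.eval 1 ≤ 2 ^ k := h2.trans Nat.lt_two_pow_self.le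
  calc C * p.eval (2 ^ k) ≤ C * (p.eval 1 * (2 ^ k) ^ p.natDegree) :=
        Nat.mul_le_mul_left _ (B3_eval_le p _ Nat.one_le_two_pow)
    _ = (C * p.eval 1) * (2 ^ k) ^ p.natDegree := by ring
    _ ≤ 2 ^ k * (2 ^ k) ^ p.natDegree := Nat.mul_le_mul_right _ h3
    _ = 2 ^ (k * (p.natDegree + 1)) := by rw [← pow_succ', ← pow_mul]
    _ ≤ 2 ^ (k ^ 2) := by
        apply Nat.pow_le_pow_right (by norm_num)
        rw [sq]
        exact Nat.mul_le_mul_left _ h1

/-! ### Locality -/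

theorem B3_chr_congr {K K' : Set (List Bool)} {z : List Bool} (h : z ∈ K ↔ z ∈ K') :
    chr K z = chr K' z := by
  unfold chr
  exact decide_eq_decide.mpr h

theorem B3_bt_mono (hBT : S_BT) {l l' : ℕ} (h : l ≤ l') : bt.eval l ≤ bt.eval l' := by
  rcases h.eq_or_lt with rfl | h
  · exact le_rfl
  · exact (hBT.2.1 _ _ h).le

theorem B3_key_congr {R : ℕ} {X X' : Oracle} (h : ∀ q : List Bool, q.length ≤ R → X q = X' q)
    {l : ℕ} {w : List Bool} (hl : 3 * bt.eval l + 3 ≤ R) (hk : Key X l w) : Key X' l w := by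
  refine ⟨hk.1, fun i hi => ?_⟩
  have h1 := hk.2 i hi
  have hw := hk.1
  rw [← h _ (by
    rw [length_pos]
    change 1 + i + w.length + 2 ≤ R
    omega)]
  exact h1

theorem B3_LK_loc (hBT : S_BT) (l₀ B : ℕ) {X X' : Oracle}
    (h : ∀ q : List Bool, q.length ≤ 3 * bt.eval B + 3 → X q = X' q) {z : List Bool}
    (hz : z.length ≤ B) (hzL : z ∈ LK l₀ X) : z ∈ LK l₀ X' := by
  obtain ⟨x, w, rfl, hx, hk⟩ := hzL
  rw [length_pairBits] at hz
  have hxB : x.length ≤ B := by omega
  have hm : bt.eval x.length ≤ bt.eval B := B3_bt_mono hBT hxB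
  refine ⟨x, w, rfl, ?_, ?_⟩
  · exact (hBT.2.2 x.length X X' (fun q hq => h q (by omega)) x le_rfl).mp hx
  · rcases hk with hk | hk
    · exact Or.inl hk
    · exact Or.inr (B3_key_congr h (by omega) hk)

theorem B3_LKs_loc (hBT : S_BT) (hL : S_LKL) (l₀ l : ℕ) {X X' : Oracle}
    (h : ∀ q : List Bool, q.length ≤ 3 * bt.eval l + 3 → X q = X' q) :
    LKs l₀ l X = LKs l₀ l X' := by
  refine hL l₀ l X X' (fun q hq => h q (by omega)) ?_
  intro j hj i hi w hw
  have := B3_bt_mono hBT hj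
  exact h _ (by rw [length_pos]; omega)

theorem B3_out_loc (hQ : S_QRY) (M : Alg) (x : List Bool) (G : Oracle → Set (List Bool))
    (R0 : ℕ → ℕ) (hG : ∀ (B : ℕ) (X X' : Oracle), (∀ q : List Bool, q.length ≤ R0 B → X q = X' q) →
      ∀ z : List Bool, z.length ≤ B → (z ∈ G X ↔ z ∈ G X')) :
    ∃ R : ℕ, ∀ X X' : Oracle, (∀ q : List Bool, q.length ≤ R → X q = X' q) →
      M.out (join X (G X)) x = M.out (join X' (G X')) x := by
  obtain ⟨-, ⟨b, hb⟩, h3⟩ := hQ M
  refine ⟨b.eval x.length + R0 (b.eval x.length), fun X X' h => ?_⟩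
  refine ((h3 (join X (G X)) (join X' (G X')) x ?_).2).symm
  intro q hq
  have hl := hb _ _ q hq
  rcases q with _ | ⟨_ | _, q⟩
  · rfl
  · rw [List.length_cons] at hl
    change X' q = X q
    exact (h q (by omega)).symm
  · rw [List.length_cons] at hl
    change chr (G X') q = chr (G X) q
    exact B3_chr_congr (hG (b.eval x.length) X' X (fun q' hq' => (h q' (by omega)).symm) q (by omega))

/-! ### The events -/

theorem B3_TB (n : ℕ) (X : Oracle) :
    List.replicate n true ∈ TB X ↔ X ∉ NoHit n (cands {0} n) := by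
  constructor
  · rintro ⟨n', w, he, hw, hh⟩ hno
    have hn : n' = n := by
      have := congrArg List.length he
      simpa using this.symm
    subst hn
    exact hno (0, w) (mem_cands.2 ⟨Finset.mem_singleton_self _, hw⟩) hh
  · intro h
    by_contra hc
    apply h
    rintro ⟨c, w⟩ hκ hh
    rw [mem_cands, Finset.mem_singleton] at hκ
    obtain ⟨h1, h2⟩ := hκ
    simp only at h1 h2
    subst h1
    exact hc ⟨n, w, rfl, h2, hh⟩

/-- the algorithm works on `1ⁿ` -/
def B3_Wk (l₀ : ℕ) (M : Alg) (n : ℕ) : Set Oracle :=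
  {X | List.replicate n true ∈ TB X ↔
    M.out (join X (LK l₀ X)) (List.replicate n true) = some [true]}

theorem B3_spot_len {n : ℕ} {κ : Cand} (hκ : κ ∈ cands {0} n) (i : ℕ) :
    (pos κ.1 i κ.2).length = i + n + 2 := by
  rw [mem_cands, Finset.mem_singleton] at hκ
  rw [length_pos, hκ.1, hκ.2]
  omega

theorem B3_meas (hQ : S_QRY) (hBT : S_BT) (l₀ : ℕ) (M : Alg) (n : ℕ) :
    MeasurableSet (B3_Wk l₀ M n) := by
  obtain ⟨R, hR⟩ := B3_out_loc hQ M (List.replicate n true) (LK l₀)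
    (fun B => 3 * bt.eval B + 3) (fun B X X' h z hz =>
      ⟨B3_LK_loc hBT l₀ B h hz, B3_LK_loc hBT l₀ B (fun q hq => (h q hq).symm) hz⟩)
  have hloc : Loc {x | x.length ≤ R + (2 * n + 2)} (B3_Wk l₀ M n) := by
    intro A A' h
    have h1 := hR A A' (fun q hq => h q (by
      change q.length ≤ _
      omega))
    have h2 : A ∈ NoHit n (cands {0} n) ↔ A' ∈ NoHit n (cands {0} n) := by
      refine M2.loc_noHit (K := {x | x.length ≤ R + (2 * n + 2)}) ?_ A A' h
      intro κ hκ i hi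
      change (pos κ.1 i κ.2).length ≤ _
      rw [B3_spot_len hκ]
      omega
    change (List.replicate n true ∈ TB A ↔ _) ↔ (List.replicate n true ∈ TB A' ↔ _)
    rw [B3_TB, B3_TB, h1, h2]
  exact measurableSet_of_loc (finite_short _) hloc

theorem B3_main (hQ : S_QRY) (hBT : S_BT) (hL : S_LKL) (hFd : S_FND) (l₀ : ℕ) (M : Alg)
    (t : ℕ) (L : List (List Bool)) (hpos : 0 < prob (cyl t L)) (S : Set Oracle)
    (hSm : MeasurableSet S) (hS : ∀ X ∈ S, ∀ n, X ∈ B3_Wk l₀ M n)
    (hcyl : (1 - 1 / 32) * prob (cyl t L) ≤ prob (S ∩ cyl t L)) : False := by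
  classical
  set P := prob (cyl t L) with hP
  obtain ⟨C, hC⟩ := exists_nat_gt (64 / P)
  have hC0 : (0 : ℝ) < C := lt_trans (by positivity) hC
  obtain ⟨k1, hk1⟩ := Pool.Agent.H673R2.OneOne.mul_poly_le_two_pow' (bt + 1) 1
  obtain ⟨k2, hk2⟩ := Pool.Agent.H673R2.OneOne.mul_poly_le_two_pow' M.p 64
  obtain ⟨k3, hk3⟩ := B3_poly M.p C
  set k := k1 + k2 + k3 + l₀ + t + 1 with hk
  have hkn : k < 2 ^ k := Nat.lt_two_pow_self
  set n := 2 ^ k with hn
  have hn1 : 1 ≤ n := Nat.one_le_two_pow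
  have hbt : bt.eval k < n := by
    have := hk1 k (by omega)
    simp only [Polynomial.eval_add, Polynomial.eval_one] at this
    omega
  set x : List Bool := List.replicate n true with hx
  have hxl : x.length = n := by rw [hx, List.length_replicate]
  have hε : ((M.p.eval x.length : ℕ) : ℝ) * (1 / 2) ^ n ≤ 1 / 64 := by
    have h1 := hk2 n (by omega)
    have h2 : (64 : ℝ) * ((M.p.eval n : ℕ) : ℝ) ≤ 2 ^ n := by exact_mod_cast h1
    rw [hxl]
    have h3 : (1 / 2 : ℝ) ^ n * 2 ^ n = 1 := by rw [← mul_pow]; norm_num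
    have h4 : (0 : ℝ) < (1 / 2) ^ n := by positivity
    nlinarith
  set F : Set Oracle := {X | ∃ y w, true :: pairBits y w ∈ qry M (join X (LKs l₀ k X)) x ∧
    k < y.length ∧ Key X y.length w} with hF
  have hFp : prob F ≤ 1 / 64 * P := by
    refine (hFd M l₀ k x).trans ?_
    have h1 := hk3 k (by omega)
    have h2 : (C : ℝ) * ((M.p.eval n : ℕ) : ℝ) ≤ 2 ^ (k ^ 2) := by exact_mod_cast h1
    have h3 : (1 / 2 : ℝ) ^ bt.eval k ≤ (1 / 2) ^ (k ^ 2) := by
      apply pow_le_pow_of_le_one (by norm_num) (by norm_num)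
      have := hBT.1 k
      omega
    have h4 : (1 / 2 : ℝ) ^ (k ^ 2) * 2 ^ (k ^ 2) = 1 := by rw [← mul_pow]; norm_num
    have h5 : (0 : ℝ) < (1 / 2) ^ (k ^ 2) := by positivity
    rw [hxl]
    have h6 : ((M.p.eval n : ℕ) : ℝ) * (1 / 2) ^ bt.eval k ≤ ((M.p.eval n : ℕ) : ℝ) * (1 / 2) ^ (k ^ 2) := by
      gcongr
    refine h6.trans ?_
    have h7 : (C : ℝ) * (((M.p.eval n : ℕ) : ℝ) * (1 / 2) ^ (k ^ 2)) ≤ 1 := by
      calc (C : ℝ) * (((M.p.eval n : ℕ) : ℝ) * (1 / 2) ^ (k ^ 2))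
          = ((C : ℝ) * ((M.p.eval n : ℕ) : ℝ)) * (1 / 2) ^ (k ^ 2) := by ring
        _ ≤ 2 ^ (k ^ 2) * (1 / 2) ^ (k ^ 2) := by gcongr
        _ = 1 := by rw [mul_comm]; exact h4
    have h8 : 64 < C * P := by
      rw [div_lt_iff₀ hpos] at hC
      exact hC
    have h9 : ((M.p.eval n : ℕ) : ℝ) * (1 / 2) ^ (k ^ 2) ≤ 1 / C := by
      rw [le_div_iff₀ hC0]
      linarith
    refine h9.trans ?_
    rw [div_le_iff₀ hC0]
    linarith
  set W : Finset Cand := cands {0} n with hW
  have hWc : W.card = 1 * 2 ^ n := by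
    rw [hW, card_cands, Finset.card_singleton]
  set c : ℝ := (1 - (1 / 2) ^ n) ^ W.card with hc
  have hc1 : 1 / 4 ≤ c := by
    have := sat_ge hn1 1
    rw [pow_one] at this
    rw [hc, hWc]
    exact this
  have hc2 : c ≤ 1 / 2 := by
    have := sat_le n 1
    rw [pow_one] at this
    rw [hc, hWc]
    exact this
  set Z : Set Oracle := {X | M.out (join X (LKs l₀ k X)) x ≠ some [true]} with hZ
  -- what happens on `S`
  have hSF : ∀ X ∈ S, X ∉ F → (X ∈ Z ↔ X ∈ NoHit n W) := by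
    intro X hXS hXF
    have h1 : M.out (join X (LK l₀ X)) x = M.out (join X (LKs l₀ k X)) x := by
      refine ((hQ M).2.2 (join X (LKs l₀ k X)) (join X (LK l₀ X)) x ?_).2
      intro q hq
      rcases q with _ | ⟨_ | _, q⟩
      · rfl
      · rfl
      · change chr (LK l₀ X) q = chr (LKs l₀ k X) q
        apply B3_chr_congr
        constructor
        · rintro ⟨y, w, rfl, hy, hkey⟩
          by_cases hyk : y.length ≤ k
          · exact ⟨y, w, rfl, hyk, hy, hkey⟩
          · exfalso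
            apply hXF
            rcases hkey with hlt | hkey
            · omega
            · exact ⟨y, w, hq, by omega, hkey⟩
        · rintro ⟨y, w, rfl, -, hy, hkey⟩
          exact ⟨y, w, rfl, hy, hkey⟩
    have h2 : x ∈ TB X ↔ M.out (join X (LK l₀ X)) x = some [true] := hS X hXS n
    rw [hx, B3_TB, ← hx, h1] at h2
    change M.out (join X (LKs l₀ k X)) x ≠ some [true] ↔ _
    rw [Ne, ← h2]
    exact not_not
  -- the location of the spots
  have hspot : ∀ h : Finset Cand, h ⊆ W → ∀ s ∈ allSpots n h, n + 2 ≤ s.length ∧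
      ∃ κ ∈ h, s ∈ spots n κ ∧ ∃ i, s = pos 0 i κ.2 := by
    intro h hh s hs
    obtain ⟨κ, hκ, hs'⟩ := M2.mem_allSpots.1 hs
    obtain ⟨i, hi, rfl⟩ := M2.mem_spots.1 hs'
    refine ⟨?_, κ, hκ, hs', i, ?_⟩
    · rw [B3_spot_len (hh hκ)]
      omega
    · have := (mem_cands.1 (hh hκ)).1
      rw [Finset.mem_singleton] at this
      rw [this]
  have hplant : ∀ (h : Finset Cand), h ⊆ W → ∀ (B : Oracle) (q : List Bool), q.length ≤ n + 1 →
      plant (allSpots n h) B q = B q := by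
    intro h hh B q hq
    unfold plant
    rw [if_neg]
    intro hs
    have := (hspot h hh q hs).1
    omega
  have hτ' : ∀ (B : Oracle) (h : Finset Cand), h ⊆ W →
      (plant (allSpots n h) B ∈ cyl t L ↔ B ∈ cyl t L) := by
    intro B h hh
    refine loc_cyl_aux t L _ _ fun q hq => ?_
    have hq' : q.length ≤ t := hq
    exact hplant h hh B q (by omega)
  have hτN : prob (cyl t L ∩ NoHit n W) = P * c := by
    refine prob_noHit_inter (finite_short t) (loc_cyl_aux t L) n W ?_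
    intro κ hκ i hi hmem
    have h1 : (pos κ.1 i κ.2).length ≤ t := hmem
    rw [B3_spot_len hκ] at h1
    omega
  -- the key inequality
  obtain ⟨R, hR⟩ := B3_out_loc hQ M x (LKs l₀ k) (fun _ => 3 * bt.eval k + 3)
    (fun _ X X' h z _ => by rw [B3_LKs_loc hBT hL l₀ k h])
  have hZloc : Loc {q | q.length ≤ R + t + (2 * n + 2)} Z := by
    intro A A' h
    have h1 := hR A A' (fun q hq => h q (by
      change q.length ≤ _
      omega))
    change M.out (join A (LKs l₀ k A)) x ≠ some [true] ↔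
      M.out (join A' (LKs l₀ k A')) x ≠ some [true]
    rw [h1]
  have hτloc : Loc {q | q.length ≤ R + t + (2 * n + 2)} (cyl t L) := by
    intro A A' h
    refine loc_cyl_aux t L A A' fun q hq => h q ?_
    have hq' : q.length ≤ t := hq
    change q.length ≤ _
    omega
  have hkey := key_taut (finite_short (R + t + (2 * n + 2))) hZloc hZloc hτloc W hn1
    (M.p.eval x.length) (by
      intro κ hκ i hi
      change (pos κ.1 i κ.2).length ≤ _
      rw [B3_spot_len hκ]
      omega) hτ' (by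
      intro B hB hBZ
      refine ⟨W.filter (fun κ => ∃ s ∈ spots n κ, (false :: s) ∈
        qry M (join B (LKs l₀ k B)) x), ?_, ?_⟩
      · have hex : ∀ κ ∈ W.filter (fun κ => ∃ s ∈ spots n κ, (false :: s) ∈
            qry M (join B (LKs l₀ k B)) x), ∃ s, s ∈ spots n κ ∧ (false :: s) ∈
            qry M (join B (LKs l₀ k B)) x := by
          intro κ hκ
          obtain ⟨-, s, hs1, hs2⟩ := Finset.mem_filter.1 hκ
          exact ⟨s, hs1, hs2⟩
        choose! s hs using hex
        refine le_trans (Finset.card_le_card_of_injOn (fun κ => false :: s κ)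
          (t := (qry M (join B (LKs l₀ k B)) x).toFinset) ?_ ?_) ?_
        · intro κ hκ
          exact List.mem_toFinset.2 (hs κ hκ).2
        · intro κ hκ κ' hκ' he
          simp only [List.cons.injEq, true_and] at he
          have h1 := (hs κ hκ).1
          have h2 := (hs κ' hκ').1
          rw [← he] at h2
          exact M2.spots_disjoint h1 h2
        · exact (List.toFinset_card_le _).trans ((hQ M).1 _ _)
      · intro h hh _ hdis
        have hLK : LKs l₀ k (plant (allSpots n h) B) = LKs l₀ k B := by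
          refine hL l₀ k _ _ (fun q hq => hplant h hh B q (by omega)) ?_
          intro j hj i hi w hw
          unfold plant
          rw [if_neg]
          intro hs
          obtain ⟨-, κ, -, -, i', he⟩ := hspot h hh _ hs
          have := (M2.pos_inj he).1
          omega
        have hout : M.out (join (plant (allSpots n h) B) (LKs l₀ k (plant (allSpots n h) B))) x =
            M.out (join B (LKs l₀ k B)) x := by
          refine ((hQ M).2.2 (join B (LKs l₀ k B)) _ x ?_).2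
          intro q hq
          rw [hLK]
          rcases q with _ | ⟨_ | _, q⟩
          · rfl
          · change plant (allSpots n h) B q = B q
            unfold plant
            rw [if_neg]
            intro hs
            obtain ⟨-, κ, hκ, hsκ, -⟩ := hspot h hh _ hs
            exact Finset.disjoint_left.1 hdis hκ
              (Finset.mem_filter.2 ⟨hh hκ, q, hsκ, hq⟩)
          · rfl
        change M.out (join (plant (allSpots n h) B) (LKs l₀ k (plant (allSpots n h) B))) x ≠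
          some [true]
        rw [hout]
        exact hBZ)
  -- the numbers
  have hcomp : prob (cyl t L ∩ Sᶜ) ≤ 1 / 32 * P := by
    have h1 := M2.prob_inter_add_compl (cyl t L) hSm
    rw [Set.inter_comm] at h1
    linarith
  have ha : P * c ≤ prob (Z ∩ cyl t L ∩ NoHit n W) + 1 / 32 * P + 1 / 64 * P := by
    rw [← hτN]
    have h1 : cyl t L ∩ NoHit n W ⊆ (Z ∩ cyl t L ∩ NoHit n W) ∪ ((cyl t L ∩ Sᶜ) ∪ F) := by
      rintro X ⟨h2, h3⟩
      by_cases h4 : X ∈ S
      · by_cases h5 : X ∈ F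
        · exact Or.inr (Or.inr h5)
        · exact Or.inl ⟨⟨(hSF X h4 h5).2 h3, h2⟩, h3⟩
      · exact Or.inr (Or.inl ⟨h2, h4⟩)
    have h2 := M2.prob_mono h1
    have h3 := M2.prob_union_le (Z ∩ cyl t L ∩ NoHit n W) ((cyl t L ∩ Sᶜ) ∪ F)
    have h4 := M2.prob_union_le (cyl t L ∩ Sᶜ) F
    linarith
  have hb : prob (Z ∩ cyl t L ∩ (NoHit n W)ᶜ) ≤ 1 / 32 * P + 1 / 64 * P := by
    have h1 : Z ∩ cyl t L ∩ (NoHit n W)ᶜ ⊆ (cyl t L ∩ Sᶜ) ∪ F := by
      rintro X ⟨⟨h2, h3⟩, h4⟩
      by_cases h5 : X ∈ S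
      · by_cases h6 : X ∈ F
        · exact Or.inr h6
        · exact absurd ((hSF X h5 h6).1 h2) h4
      · exact Or.inl ⟨h3, h5⟩
    have h2 := M2.prob_mono h1
    have h4 := M2.prob_union_le (cyl t L ∩ Sᶜ) F
    linarith
  rw [← hc, ← hP] at hkey
  set a := prob (Z ∩ cyl t L ∩ NoHit n W)
  set b := prob (Z ∩ cyl t L ∩ (NoHit n W)ᶜ)
  have hb0 : 0 ≤ b := M2.prob_nonneg _
  have h1 : 13 / 64 * P ≤ a := by nlinarith
  have h2 : 13 / 64 * P * (1 / 2) ≤ a * (1 - c) := by
    apply mul_le_mul h1 (by linarith) (by norm_num) (by nlinarith)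
  have h3 : b + ((M.p.eval x.length : ℕ) : ℝ) * (1 / 2) ^ n * P ≤ 4 / 64 * P := by nlinarith
  have h4 : (b + ((M.p.eval x.length : ℕ) : ℝ) * (1 / 2) ^ n * P) * c ≤ 4 / 64 * P * (1 / 2) := by
    apply mul_le_mul h3 hc2 (by linarith) (by positivity)
  linarith

/-- B3 -/
theorem t_B3 (h1 : S_QRY) (h2 : S_BT) (h3 : S_LKL) (h4 : S_FND) : S_B3 := by
  have key : ∀ᵐ X ∂randomOracle, ∀ (l₀ : ℕ) (M : Alg), ∃ n, X ∉ B3_Wk l₀ M n := by
    rw [ae_all_iff]
    intro l₀
    rw [ae_all_iff]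
    intro M
    rw [ae_iff]
    have e1 : {X : Oracle | ¬ ∃ n, X ∉ B3_Wk l₀ M n} = ⋂ n, B3_Wk l₀ M n := by
      ext A
      simp
    rw [e1]
    have hm : MeasurableSet (⋂ n, B3_Wk l₀ M n) :=
      MeasurableSet.iInter fun n => B3_meas h1 h2 l₀ M n
    by_contra hne
    have hpos : 0 < prob (⋂ n, B3_Wk l₀ M n) := by
      unfold prob
      rw [measureReal_def]
      exact ENNReal.toReal_pos hne (measure_ne_top _ _)
    obtain ⟨t, L, hL, h5⟩ := exists_cyl hm hpos (δ := 1 / 32) (by norm_num)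
    exact B3_main h1 h2 h3 h4 l₀ M t L hL _ hm (fun X hX n => Set.mem_iInter.1 hX n) h5
  filter_upwards [key] with X hX l₀
  rintro ⟨F, ⟨M, hM⟩, hF⟩
  obtain ⟨n, hn⟩ := hX l₀ M
  apply hn
  change _ ↔ _
  rw [hF, hM]
  simp

end Pool.Agent.H490R3.LH
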