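import Pool.Agent.H490R3.LH.Stm
import Pool.Agent.H583R2.S2.Num

/-!
# Task B4: few marked strings (helper501)
-/

set_option autoImplicit false

namespace Pool.Agent.H490R3.LH

open Pool.Agent.NPC Pool.Agent.H628R3.RO MeasureTheory
open Pool.Agent.H583R2.S2 (chr IsP Mk gc Ys dl NN card_Ys dl_pos Num_NNdl_le)
open Pool.Agent.H583R2.NC (wl)
open Pool.Agent.H673R2.OneTT (KA uA)

theorem B4_length {n : ℕ} {y : List Bool} (hy : y ∈ Ys n) : y.length = 2 * n := by
  unfold Pool.Agent.H583R2.S2.Ys at hy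
  rw [Finset.mem_filter, Finset.mem_image] at hy
  obtain ⟨⟨v, _, rfl⟩, _⟩ := hy
  simp

/-- the cells are disjoint -/
theorem B4_disj {n : ℕ} {y y' : List Bool} (hy : y ∈ Ys n) (hy' : y' ∈ Ys n) (h : y ≠ y') :
    Disjoint (gc n 0 y) (gc n 0 y') := by
  rw [Finset.disjoint_left]
  rintro ⟨c, w⟩ h1 h2
  unfold Pool.Agent.H583R2.S2.gc at h1 h2
  rw [Finset.mem_product, Finset.mem_image] at h1 h2
  obtain ⟨_, v, _, hv⟩ := h1
  obtain ⟨_, v', _, hv'⟩ := h2
  apply h
  have h3 : y ++ List.ofFn v = y' ++ List.ofFn v' := by rw [hv, hv']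
  exact (List.append_inj h3 (by rw [B4_length hy, B4_length hy'])).1

theorem B4_card_gc (n : ℕ) (y : List Bool) : (gc n 0 y).card = n * 2 ^ wl n := by
  unfold Pool.Agent.H583R2.S2.gc
  rw [Finset.card_product, Nat.card_Ico, Finset.card_image_of_injective]
  · simp
  · intro v v' hvv
    exact List.ofFn_injective (List.append_cancel_left hvv)

/-- the probability that all strings of `K` are marked -/
theorem B4_prob (n : ℕ) (K : Finset (List Bool)) (hK : K ⊆ Ys n) :
    prob {X | ∀ y ∈ K, X ∈ Mk n 0 y} = dl n ^ K.card := by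
  classical
  have h1 : {X : Oracle | ∀ y ∈ K, X ∈ Mk n 0 y} =
      Set.univ ∩ NoHit (wl n) (K.biUnion (gc n 0)) := by
    ext X
    rw [Set.univ_inter]
    constructor
    · intro h κ hκ
      rw [Finset.mem_biUnion] at hκ
      obtain ⟨y, hy, hκy⟩ := hκ
      exact h y hy κ hκy
    · intro h y hy κ hκ
      exact h κ (Finset.mem_biUnion.2 ⟨y, hy, hκ⟩)
  have h2 : Loc (∅ : Set (List Bool)) (Set.univ : Set Oracle) := by
    intro A A' _
    exact Iff.rfl
  rw [h1, prob_noHit_inter Set.finite_empty h2 (wl n) _ (fun κ _ i _ => Set.notMem_empty _)]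
  have h3 : (K.biUnion (gc n 0)).card = (n * 2 ^ wl n) * K.card := by
    rw [Finset.card_biUnion]
    · simp only [B4_card_gc, Finset.sum_const, smul_eq_mul]
      ring
    · intro y hy y' hy' hne
      exact B4_disj (hK hy) (hK hy') hne
  have h4 : prob (Set.univ : Set Oracle) = 1 := by
    unfold prob
    simp
  rw [h3, h4, one_mul, pow_mul]
  rfl

open Classical in
/-- at least `n` marked strings at stage `n` -/
def B4_Bad (n : ℕ) : Set Oracle := {X | n ≤ ((Ys n).filter (fun y => X ∈ Mk n 0 y)).card}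

theorem B4_bad (n : ℕ) : prob (B4_Bad n) ≤ 1 ^ n / (n.factorial : ℝ) := by
  classical
  have h1 : B4_Bad n ⊆ ⋃ K ∈ Finset.powersetCard n (Ys n), {X : Oracle | ∀ y ∈ K, X ∈ Mk n 0 y} := by
    intro X hX
    have hX' : n ≤ ((Ys n).filter (fun y => X ∈ Mk n 0 y)).card := by
      have hX2 : n ≤ (@Finset.filter _ (fun y => X ∈ Mk n 0 y)
        (fun y => Classical.propDecidable _) (Ys n)).card := hX
      convert hX2 using 3
    obtain ⟨K, hK, hKn⟩ := Finset.exists_subset_card_eq hX'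
    rw [Set.mem_iUnion₂]
    refine ⟨K, Finset.mem_powersetCard.2 ⟨hK.trans (Finset.filter_subset _ _), hKn⟩, ?_⟩
    intro y hy
    exact (Finset.mem_filter.1 (hK hy)).2
  have h2 : prob (B4_Bad n) ≤
      ∑ K ∈ Finset.powersetCard n (Ys n), prob {X : Oracle | ∀ y ∈ K, X ∈ Mk n 0 y} :=
    (measureReal_mono h1 (measure_ne_top _ _)).trans (measureReal_biUnion_finset_le _ _)
  refine h2.trans ?_
  have h3 : ∑ K ∈ Finset.powersetCard n (Ys n), prob {X : Oracle | ∀ y ∈ K, X ∈ Mk n 0 y} =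
      ((NN n).choose n : ℝ) * dl n ^ n := by
    rw [Finset.sum_congr rfl (g := fun _ => dl n ^ n), Finset.sum_const, Finset.card_powersetCard,
      card_Ys, nsmul_eq_mul]
    intro K hK
    rw [Finset.mem_powersetCard] at hK
    rw [B4_prob n K hK.1, hK.2]
  rw [h3]
  have h4 : ((NN n).choose n : ℝ) ≤ (NN n : ℝ) ^ n / (n.factorial : ℝ) := Nat.choose_le_pow_div n (NN n)
  have h5 : (0 : ℝ) ≤ dl n ^ n := pow_nonneg (dl_pos n).le _
  have h6 : ((NN n : ℝ) * dl n) ^ n ≤ 1 ^ n :=
    pow_le_pow_left₀ (mul_nonneg (Nat.cast_nonneg _) (dl_pos n).le) (Num_NNdl_le n) n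
  calc ((NN n).choose n : ℝ) * dl n ^ n ≤ (NN n : ℝ) ^ n / (n.factorial : ℝ) * dl n ^ n :=
        mul_le_mul_of_nonneg_right h4 h5
    _ = ((NN n : ℝ) * dl n) ^ n / (n.factorial : ℝ) := by rw [mul_pow]; ring
    _ ≤ 1 ^ n / (n.factorial : ℝ) := by
        apply div_le_div_of_nonneg_right h6
        positivity

theorem t_B4 : S_B4 := by
  classical
  have hsum : Summable (fun n : ℕ => (1 : ℝ) ^ n / (n.factorial : ℝ)) :=
    Real.summable_pow_div_factorial 1
  have hBC : ∀ᵐ X ∂randomOracle, ∀ᶠ n in Filter.atTop, X ∉ B4_Bad n := by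
    apply ae_eventually_notMem
    refine ne_top_of_le_ne_top hsum.tsum_ofReal_ne_top (ENNReal.tsum_le_tsum fun n => ?_)
    have h1 := B4_bad n
    unfold prob at h1
    rw [← ENNReal.ofReal_toReal (measure_ne_top randomOracle (B4_Bad n))]
    exact ENNReal.ofReal_le_ofReal h1
  filter_upwards [hBC] with X hX
  obtain ⟨n₀, hn₀⟩ := Filter.eventually_atTop.1 hX
  refine ⟨Polynomial.X + Polynomial.C (∑ n ∈ Finset.range n₀, (Ys n).card), fun n => ?_⟩
  have h1 : {y | y ∈ Ys n ∧ X ∈ Mk n 0 y} =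
      (((Ys n).filter (fun y => X ∈ Mk n 0 y) : Finset (List Bool)) : Set (List Bool)) := by
    ext y
    simp
  rw [h1, Set.ncard_coe_finset, Polynomial.eval_add, Polynomial.eval_X, Polynomial.eval_C]
  rcases le_or_gt n₀ n with h | h
  · have h2 := hn₀ n h
    have h3 : ((Ys n).filter (fun y => X ∈ Mk n 0 y)).card < n := by
      by_contra h4
      push Not at h4
      apply h2
      show n ≤ (@Finset.filter _ (fun y => X ∈ Mk n 0 y)
        (fun y => Classical.propDecidable _) (Ys n)).card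
      convert h4 using 3
    omega
  · have h2 : ((Ys n).filter (fun y => X ∈ Mk n 0 y)).card ≤ (Ys n).card := Finset.card_filter_le _ _
    have h3 : (Ys n).card ≤ ∑ n ∈ Finset.range n₀, (Ys n).card :=
      Finset.single_le_sum (f := fun n => (Ys n).card) (fun i _ => Nat.zero_le _)
        (Finset.mem_range.2 h)
    omega

end Pool.Agent.H490R3.LH
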