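import Pool.Agent.H490R3.LH.Stm
import Pool.Agent.H628R3.RO.M3

/-!
# B5: almost surely, the set `EE` is not in `Σ₂`
-/

set_option autoImplicit false

namespace Pool.Agent.H490R3.LH

open Pool.Agent.NPC Pool.Agent.H628R3.RO MeasureTheory
open Pool.Agent.H583R2.S2 (chr IsP Mk gc Ys dl NN)
open Pool.Agent.H583R2.NC (wl)

instance B5_prob : IsProbabilityMeasure randomOracle := isProbabilityMeasure_randomOracle_aux

theorem B5_measEn (n : ℕ) : MeasurableSet (En n) := by
  have h : En n = ⋂ y ∈ Ys n, (Mk n 0 y)ᶜ := by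
    ext X
    simp [En]
  rw [h]
  exact Finset.measurableSet_biInter _ (fun y _ => (M2.measurableSet_noHit _ _).compl)

theorem B5_measOut (V : Alg) (z : List Bool) (o : Option (List Bool)) :
    MeasurableSet {X : Oracle | V.out X z = o} := by
  obtain ⟨qb, hqb⟩ := V.out_local
  refine measurableSet_of_loc_aux (finite_short (qb.eval z.length)) ?_
  intro A A' hA
  obtain ⟨Q, -, hQ, hQ'⟩ := hqb A z
  have h := hQ' A' (fun q hq => (hA q (hQ q hq)).symm)
  simp only [Set.mem_ofPred_eq]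
  rw [h]

theorem B5_measFn (V : Alg) (p : Polynomial ℕ) (n : ℕ) : MeasurableSet (Fn V p n) := by
  have h : Fn V p n = ⋃ u ∈ {u : List Bool | u.length ≤ p.eval n},
      ⋂ w ∈ {w : List Bool | w.length ≤ p.eval n},
        {X : Oracle | V.out X (pairBits (pairBits (List.replicate n true) u) w) =
          some [true]} := by
    ext X
    simp [Fn]
  rw [h]
  exact MeasurableSet.biUnion (Set.to_countable _) fun u _ =>
    MeasurableSet.biInter (Set.to_countable _) fun w _ => B5_measOut _ _ _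

theorem B5_measIff (V : Alg) (p : Polynomial ℕ) :
    MeasurableSet {X : Oracle | ∀ n, (X ∈ En n ↔ X ∈ Fn V p n)} := by
  have h : {X : Oracle | ∀ n, (X ∈ En n ↔ X ∈ Fn V p n)} =
      ⋂ n, ((En n ∩ Fn V p n) ∪ ((En n)ᶜ ∩ (Fn V p n)ᶜ)) := by
    ext X
    simp only [Set.mem_ofPred_eq, Set.mem_iInter, Set.mem_union, Set.mem_inter_iff,
      Set.mem_compl_iff]
    exact forall_congr' fun n => iff_iff_and_or_not_and_not
  rw [h]
  exact MeasurableSet.iInter fun n => ((B5_measEn n).inter (B5_measFn V p n)).union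
    ((B5_measEn n).compl.inter (B5_measFn V p n).compl)

theorem B5_zero (h1 : S_STG) (h2 : S_PEN) (V : Alg) (p : Polynomial ℕ) :
    prob {X : Oracle | ∀ n, (X ∈ En n ↔ X ∈ Fn V p n)} = 0 := by
  set S : Set Oracle := {X : Oracle | ∀ n, (X ∈ En n ↔ X ∈ Fn V p n)} with hS
  have hSm : MeasurableSet S := B5_measIff V p
  by_contra hne
  have hpos : 0 < prob S := lt_of_le_of_ne (M2.prob_nonneg S) (Ne.symm hne)
  obtain ⟨t, L, hτ, hL⟩ := exists_cyl hSm hpos (δ := 1 / 32) (by norm_num)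
  obtain ⟨n, hn1, hn2⟩ := ((h1 V p t).and (h2 t)).exists
  have hs := hn1 L
  have hp := hn2 L
  have e1 : prob (cyl t L) = prob (cyl t L ∩ S) + prob (cyl t L ∩ Sᶜ) := by
    have := M2.prob_inter_add_compl (cyl t L) hSm
    linarith
  have e2 : prob (cyl t L ∩ S) = prob (S ∩ cyl t L) := by rw [Set.inter_comm]
  have e3 : prob (cyl t L ∩ Sᶜ) ≤ 1 / 32 * prob (cyl t L) := by linarith
  have e4 : prob (En n ∩ cyl t L) ≤ prob (Fn V p n ∩ En n ∩ cyl t L) + prob (cyl t L ∩ Sᶜ) := by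
    refine (M2.prob_mono ?_).trans (M2.prob_union_le _ _)
    rintro X ⟨hE, hc⟩
    by_cases hX : X ∈ S
    · exact Or.inl ⟨⟨(hX n).1 hE, hE⟩, hc⟩
    · exact Or.inr ⟨hc, hX⟩
  have e5 : prob (Fn V p n ∩ (En n)ᶜ ∩ cyl t L) ≤ prob (cyl t L ∩ Sᶜ) := by
    refine M2.prob_mono ?_
    rintro X ⟨⟨hF, hE⟩, hc⟩
    exact ⟨hc, fun hX => hE ((hX n).2 hF)⟩
  linarith

theorem t_B5 (h1 : S_STG) (h2 : S_PEN) : S_B5 := by
  have hc : Countable (Alg × Polynomial ℕ) := by
    have h2 : Countable (Polynomial ℕ) := by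
      have : Function.Injective (fun p : Polynomial ℕ => (p.toFinsupp.coeff : ℕ →₀ ℕ)) := by
        intro p q h
        ext n
        exact DFunLike.congr_fun h n
      exact this.countable
    infer_instance
  have h : ∀ᵐ X ∂randomOracle, ∀ m : Alg × Polynomial ℕ,
      ¬ ∀ n, (X ∈ En n ↔ X ∈ Fn m.1 m.2 n) := by
    rw [ae_all_iff]
    intro m
    rw [ae_iff]
    have h0 := B5_zero h1 h2 m.1 m.2
    unfold prob at h0
    rw [measureReal_eq_zero_iff] at h0
    simpa only [not_not] using h0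
  filter_upwards [h] with X hX V p
  exact hX (V, p)

end Pool.Agent.H490R3.LH
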