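import Pool.Agent.H490R3.LH.Stm

/-!
# The polynomial `bt`
-/

set_option autoImplicit false

namespace Pool.Agent.H490R3.LH

open Pool.Agent.NPC Pool.Agent.H628R3.RO
open Pool.Agent.H673R2.OneTT (KA uA)

theorem BT_mono (p : Polynomial ℕ) {m n : ℕ} (h : m ≤ n) : p.eval m ≤ p.eval n := by
  rw [Polynomial.eval_eq_sum, Polynomial.eval_eq_sum]
  exact Finset.sum_le_sum fun i _ => Nat.mul_le_mul_left _ (Nat.pow_le_pow_left h i)

theorem BT_eval (l : ℕ) : bt.eval l = qU.eval (3 * l + 1) + l ^ 2 + l + 1 := by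
  unfold bt
  simp [Polynomial.eval_comp]

theorem BT_out {A A' : Oracle} {x : List Bool} (h : ∀ q : List Bool, q.length ≤ qU.eval x.length →
    A' q = A q) : uA.out A' x = uA.out A x := by
  obtain ⟨Q, -, h1, h2⟩ := (Alg.out_local uA).choose_spec A x
  exact h2 A' fun q hq => h q (h1 q hq)

theorem BT_sub {l : ℕ} {X X' : Oracle} (h : ∀ q : List Bool, q.length ≤ bt.eval l → X q = X' q)
    {x : List Bool} (hx : x.length ≤ l) (hm : x ∈ KA X) : x ∈ KA X' := by
  obtain ⟨w, hw, h1⟩ := hm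
  refine ⟨w, hw, ?_⟩
  rw [← h1]
  refine BT_out fun q hq => (h q ?_).symm
  have h2 : (pairBits x w).length ≤ 3 * l + 1 := by
    rw [length_pairBits]
    omega
  have h3 := BT_mono qU h2
  rw [BT_eval]
  omega

theorem t_BT : S_BT := by
  refine ⟨fun l => ?_, fun l l' h => ?_, fun l X X' h x hx => ?_⟩
  · rw [BT_eval]
    omega
  · rw [BT_eval, BT_eval]
    have h1 := BT_mono qU (m := 3 * l + 1) (n := 3 * l' + 1) (by omega)
    have h2 : l ^ 2 ≤ l' ^ 2 := Nat.pow_le_pow_left h.le 2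
    omega
  · exact ⟨BT_sub h hx, BT_sub (fun q hq => (h q hq).symm) hx⟩

end Pool.Agent.H490R3.LH
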