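import Pool.Agent.H490R3.LH.Stm
import Pool.Agent.H628R3.RO.A3
import Pool.Agent.H671R2.PolyAuto

/-!
# An oracle in `NP ∩ coNP` can be removed
-/

set_option autoImplicit false

namespace Pool.Agent.H490R3.LH

open Pool.Agent.NPC Pool.Agent.H628R3.RO Pool.Agent.H622R2 MeasureTheory
open Pool.Agent.H583R2.S2 (chr IsP Mk gc Ys dl NN)
open Pool.Agent.H583R2.NC (wl)
open Pool.Agent.H673R2.OneTT (KA uA)

/-! ### Polynomial-time functions -/

theorem C1_take_eq {β : Type} (l : List β) : ∀ (k n : ℕ),
    l.take n = ((l.zipIdx k).filter (fun p => decide (p.2 < k + n))).map Prod.fst := by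
  induction l with
  | nil => intro k n; simp
  | cons b l ih =>
    intro k n
    rw [List.zipIdx_cons]
    cases n with
    | zero =>
      have h : ((l.zipIdx (k + 1)).filter (fun p => decide (p.2 < k + 0))) = [] := by
        rw [List.filter_eq_nil_iff]
        intro p hp
        have := List.le_snd_of_mem_zipIdx hp
        simp only [Nat.add_zero, decide_eq_true_eq, not_lt]
        omega
      rw [List.filter_cons_of_neg (by simp), h]
      simp
    | succ n =>
      rw [List.take_succ_cons, List.filter_cons_of_pos (by simp), List.map_cons, ih (k + 1) n]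
      have : k + 1 + n = k + (n + 1) := by omega
      rw [this]

theorem C1_take {α β : Type} [TEnc α] [TEnc β] {l : α → List β} {n : α → ℕ} (hl : Poly l)
    (hn : Poly n) : Poly (fun a => (l a).take (n a)) := by
  have h : Poly (fun a => ((l a).zipIdx.filter (fun p => decide (p.2 < 0 + n a))).map
      (fun p => p.1)) := by fun_prop
  exact h.congr fun a => (C1_take_eq (l a) 0 (n a)).symm

theorem C1_eval {α : Type} [TEnc α] (p : Polynomial ℕ) {l : α → List Bool} (hl : Poly l) :
    Poly (fun a => p.eval (l a).length) := (UPoly.eval (UPoly.length hl) p).toPoly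

theorem C1_range {α β : Type} [TEnc α] [TEnc β] {l : α → List β} (hl : Poly l) :
    Poly (fun a => List.range (l a).length) := (UPoly.length hl).range

theorem C1_unpair {α : Type} [TEnc α] {l : α → List Bool} (hl : Poly l) :
    Poly (fun a => (unpair (l a)).1) := Poly.fst (poly_unpair.comp hl)

theorem C1_pairBits {α : Type} [TEnc α] {x w : α → List Bool} (hx : Poly x) (hw : Poly w) :
    Poly (fun a => pairBits (x a) (w a)) := H622R2.poly_pairBits hx hw

/-- the decoded witness -/
def C1_dec (z : List Bool) : List Bool × List Bool × List (List Bool) :=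
  (unbits (List Bool × List Bool × List (List Bool)) (unpair z).2).getD ([], [], [])

theorem C1_dec_poly {α : Type} [TEnc α] {l : α → List Bool} (hl : Poly l) :
    Poly (fun a => C1_dec (l a)) := by
  have h : Poly C1_dec := Poly.optGetD (poly_unbits.comp (Poly.snd poly_unpair))
    (NPC.Poly.const _)
  exact h.comp hl

attribute [local fun_prop] C1_take C1_eval C1_range C1_dec_poly

theorem C1_dec_pair (x : List Bool) (t : List Bool × List Bool × List (List Bool)) :
    C1_dec (pairBits x (bits t)) = t := by
  unfold C1_dec
  rw [unpair_pairBits, unbits_bits, Option.getD_some]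

/-- the action of the algorithm after the first `i` answers -/
def C1_act (D : List Bool → List Bool) (i : ℕ) (z : List Bool) : List Bool :=
  D (pairBits (pairBits (unpair z).1 (C1_dec z).1) ((C1_dec z).2.1.take i))

theorem C1_act_poly {D : List Bool → List Bool} (hD : Poly D) {α : Type} [TEnc α]
    {i : α → ℕ} {l : α → List Bool} (hi : Poly i) (hl : Poly l) :
    Poly (fun a => C1_act D (i a) (l a)) := by
  unfold C1_act
  exact hD.comp (C1_pairBits (C1_pairBits (C1_unpair hl) (by fun_prop)) (by fun_prop))

/-- the instance of the combined verifier for the `i`-th question -/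
def C1_W (D : List Bool → List Bool) (p : ℕ × List Bool) : List Bool :=
  (C1_dec p.2).2.1.getD p.1 false ::
    pairBits (C1_act D p.1 p.2).tail ((C1_dec p.2).2.2.getD p.1 [])

theorem C1_W_poly {D : List Bool → List Bool} (hD : Poly D) : Poly (C1_W D) := by
  unfold C1_W
  have h := C1_act_poly hD (α := ℕ × List Bool) (Poly.fst Poly.id) (Poly.snd Poly.id)
  exact Poly.cons (by fun_prop) (C1_pairBits (by fun_prop) (by fun_prop))

/-- the test -/
def C1_test (D : List Bool → List Bool) (p p0 p1 : Polynomial ℕ) (q : List Bool × List Bool) :
    Bool :=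
  decide ((C1_dec q.1).1.length ≤ p.eval (unpair q.1).1.length) &&
  (decide ((C1_dec q.1).2.1.length ≤ q.2.length) &&
  (decide (C1_act D (C1_dec q.1).2.1.length q.1 = [true, true]) &&
  (List.range (C1_dec q.1).2.1.length).all (fun i =>
    decide ((C1_act D i q.1).head? = some false) && (q.2.getD i false &&
      (bif (C1_dec q.1).2.1.getD i false then
        decide (((C1_dec q.1).2.2.getD i []).length ≤ p1.eval (C1_act D i q.1).tail.length)
      else decide (((C1_dec q.1).2.2.getD i []).length ≤
        p0.eval (C1_act D i q.1).tail.length))))))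

theorem C1_test_poly {D : List Bool → List Bool} (hD : Poly D) (p p0 p1 : Polynomial ℕ) :
    Poly (C1_test D p p0 p1) := by
  have h1 : Poly (fun q : List Bool × List Bool => C1_act D (C1_dec q.1).2.1.length q.1) :=
    C1_act_poly hD (by fun_prop) (by fun_prop)
  have h2 : Poly (fun q : (List Bool × List Bool) × ℕ => C1_act D q.2 q.1.1) :=
    C1_act_poly hD (by fun_prop) (by fun_prop)
  have h3 : Poly (fun q : (List Bool × List Bool) × ℕ =>
      decide ((C1_act D q.2 q.1.1).head? = some false) && (q.1.2.getD q.2 false &&
      (bif (C1_dec q.1.1).2.1.getD q.2 false then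
        decide (((C1_dec q.1.1).2.2.getD q.2 []).length ≤ p1.eval (C1_act D q.2 q.1.1).tail.length)
      else decide (((C1_dec q.1.1).2.2.getD q.2 []).length ≤
        p0.eval (C1_act D q.2 q.1.1).tail.length)))) := by
    refine Poly.and (by fun_prop) (Poly.and (by fun_prop) (Poly.cond (by fun_prop) ?_ ?_))
    · exact Poly.decide_le (by fun_prop) (C1_eval p1 (by fun_prop))
    · exact Poly.decide_le (by fun_prop) (C1_eval p0 (by fun_prop))
  unfold C1_test
  refine Poly.and (Poly.decide_le (by fun_prop) (C1_eval p (C1_unpair (by fun_prop))))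
    (Poly.and (by fun_prop) (Poly.and (by fun_prop) ?_))
  exact Poly.all (p := fun (q : List Bool × List Bool) (i : ℕ) =>
      decide ((C1_act D i q.1).head? = some false) && (q.2.getD i false &&
      (bif (C1_dec q.1).2.1.getD i false then
        decide (((C1_dec q.1).2.2.getD i []).length ≤ p1.eval (C1_act D i q.1).tail.length)
      else decide (((C1_dec q.1).2.2.getD i []).length ≤
        p0.eval (C1_act D i q.1).tail.length)))) (by fun_prop) h3

/-! ### Runs -/

/-- the answers `a` are the answers of the oracle, and the algorithm stops with output `true` -/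
def C1_Good (M : Alg) (A : Oracle) (y a : List Bool) : Prop :=
  M.D (pairBits y a) = [true, true] ∧ ∀ i, i < a.length → ∃ q,
    M.D (pairBits y (a.take i)) = false :: q ∧ a.getD i false = A q

theorem C1_run {M : Alg} {A : Oracle} {y a : List Bool} (h : C1_Good M A y a) :
    ∀ n i, i ≤ a.length → M.run A y n (a.take i) = none ∨
      M.run A y n (a.take i) = some [true] := by
  intro n
  induction n with
  | zero => intro i _; exact Or.inl rfl
  | succ n ih =>
    intro i hi
    rcases Nat.lt_or_ge i a.length with hlt | hge
    · obtain ⟨q, hq1, hq2⟩ := h.2 i hlt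
      rw [Alg.run, hq1]
      have e : a.take i ++ [A q] = a.take (i + 1) := by
        rw [← hq2, List.take_succ_eq_append_getElem hlt, List.getD_eq_getElem _ _ hlt]
      show M.run A y n (a.take i ++ [A q]) = none ∨ M.run A y n (a.take i ++ [A q]) = some [true]
      rw [e]
      exact ih (i + 1) hlt
    · right
      rw [List.take_of_length_le hge, Alg.run, h.1]

theorem C1_ans {M : Alg} {A : Oracle} {y : List Bool} : ∀ n (a0 : List Bool),
    M.run A y n a0 = some [true] → ∃ a, a0 <+: a ∧ a.length < a0.length + n ∧
      M.D (pairBits y a) = [true, true] ∧ ∀ i, a0.length ≤ i → i < a.length → ∃ q,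
        M.D (pairBits y (a.take i)) = false :: q ∧ a.getD i false = A q := by
  intro n
  induction n with
  | zero => intro a0 h; simp [Alg.run] at h
  | succ n ih =>
    intro a0 h
    rw [Alg.run] at h
    cases hD : M.D (pairBits y a0) with
    | nil => rw [hD] at h; simp at h
    | cons b q =>
      rw [hD] at h
      cases b with
      | true =>
        simp only [Option.some.injEq] at h
        refine ⟨a0, List.prefix_rfl, by omega, by rw [hD, h], fun i h1 h2 => by omega⟩
      | false =>
        simp only at h
        obtain ⟨a, ha1, ha2, ha3, ha4⟩ := ih _ h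
        rw [List.length_append, List.length_singleton] at ha2 ha4
        refine ⟨a, (List.prefix_append _ _).trans ha1, by omega, ha3, fun i h1 h2 => ?_⟩
        rcases Nat.lt_or_ge a0.length i with hlt | hge
        · exact ha4 i hlt h2
        · have hi : i = a0.length := by omega
          obtain ⟨t, rfl⟩ := ha1
          refine ⟨q, ?_, ?_⟩
          · rw [hi, List.append_assoc, List.take_left, hD]
          · rw [hi, List.append_assoc, List.getD_eq_getElem?_getD,
              List.getElem?_append_right le_rfl]
            simp

/-! ### The theorem -/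

/-- the combined verifier -/
theorem C1_Vc {O : Oracle} {V0 V1 : List Bool → List Bool} (h0 : IsFP O V0) (h1 : IsFP O V1) :
    ∃ V : List Bool → List Bool, IsFP O V ∧ (∀ y, V (true :: y) = V1 y) ∧
      ∀ y, V (false :: y) = V0 y := by
  refine ⟨addSys V1 V0 id, addSys_isFP h1 h0 (IsFP.of_poly Poly.id), fun y => ?_, fun y => ?_⟩
  · rw [addSys_true]
    rfl
  · unfold addSys
    rw [if_neg (by simp)]
    rfl

theorem t_C1 (hVOT : S_VOT) : S_C1 := by
  intro O K L hK hK' hL
  obtain ⟨V1, p1, hV1, hK1⟩ := hK
  obtain ⟨V0, p0, hV0, hK0⟩ := hK'
  obtain ⟨V, p, ⟨M, hM⟩, hL⟩ := hL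
  obtain ⟨Vc, hVc, hVt, hVf⟩ := C1_Vc hV0 hV1
  have hD : Poly M.D := poly_of_polyTime M.poly
  obtain ⟨b, hb⟩ := A2.act_bound M
  obtain ⟨ys, hys⟩ : ∃ ys : Polynomial ℕ, ys = 2 * Polynomial.X + 1 + p := ⟨_, rfl⟩
  obtain ⟨cb, hcb⟩ : ∃ cb : Polynomial ℕ, cb = (p0 + p1).comp (b.comp ys) := ⟨_, rfl⟩
  refine ⟨fun z => [C1_test M.D p p0 p1 (z, (List.range ((Polynomial.X : Polynomial ℕ).eval
      z.length)).map (fun i => decide (Vc (C1_W M.D (i, z)) = [true])))],
    (4 * p + 1) + ((4 * (M.p.comp ys) + 1) + ((M.p.comp ys) * (4 * cb + 1 + 1) + 1) + 1) + 1,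
    hVOT O Vc hVc Polynomial.X (C1_W M.D) (C1_W_poly hD)
      (fun q => [C1_test M.D p p0 p1 q]) (Poly.cons (C1_test_poly hD p p0 p1) (NPC.Poly.const _)),
    fun x => ?_⟩
  have hchr : ∀ q, chr K q = true ↔ q ∈ K := by
    intro q
    simp [chr]
  constructor
  · -- completeness
    intro hx
    obtain ⟨w, hw, hVw⟩ := (hL x).1 hx
    obtain ⟨y, hy⟩ : ∃ y, y = pairBits x w := ⟨_, rfl⟩
    have hout : M.run (chr K) y (M.p.eval y.length) [] = some [true] := by
      have := hM y
      rw [hy, hVw, ← hy] at this
      exact this
    obtain ⟨a, -, ha1, ha2, ha3⟩ := C1_ans _ _ hout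
    rw [List.length_nil, Nat.zero_add] at ha1
    have hylen : y.length ≤ ys.eval x.length := by
      rw [hy, length_pairBits, hys]
      simp only [Polynomial.eval_add, Polynomial.eval_mul, Polynomial.eval_X,
        Polynomial.eval_one, Polynomial.eval_ofNat]
      omega
    -- certificates
    have hcert : ∀ i, ∃ c : List Bool, i < a.length →
        (M.D (pairBits y (a.take i))).head? = some false ∧
        Vc (a.getD i false :: pairBits (M.D (pairBits y (a.take i))).tail c) = [true] ∧
        (bif a.getD i false then
          decide (c.length ≤ p1.eval (M.D (pairBits y (a.take i))).tail.length)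
        else decide (c.length ≤ p0.eval (M.D (pairBits y (a.take i))).tail.length)) = true := by
      intro i
      by_cases hi : i < a.length
      · obtain ⟨q, hq1, hq2⟩ := ha3 i (Nat.zero_le _) hi
        rw [hq1, hq2]
        cases hA : chr K q with
        | true =>
          obtain ⟨c, hc1, hc2⟩ := (hK1 q).1 ((hchr q).1 hA)
          refine ⟨c, fun _ => ⟨rfl, ?_, ?_⟩⟩
          · rw [hVt]
            exact hc2
          · exact decide_eq_true hc1
        | false =>
          have hq' : q ∈ Kᶜ := fun h => by
            rw [← hchr, hA] at h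
            exact Bool.false_ne_true h
          obtain ⟨c, hc1, hc2⟩ := (hK0 q).1 hq'
          refine ⟨c, fun _ => ⟨rfl, ?_, ?_⟩⟩
          · rw [hVf]
            exact hc2
          · exact decide_eq_true hc1
      · exact ⟨[], fun h => absurd h hi⟩
    choose c hc using hcert
    obtain ⟨cs, hcs⟩ : ∃ cs : List (List Bool), cs = (List.range a.length).map c := ⟨_, rfl⟩
    have hcsD : ∀ i, i < a.length → cs.getD i [] = c i := by
      intro i hi
      rw [hcs, List.getD_eq_getElem?_getD, List.getElem?_map, List.getElem?_range hi]
      rfl
    refine ⟨bits (w, a, cs), ?_, ?_⟩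
    · -- length
      rw [bits_length, sz_pair, sz_pair]
      simp only [Polynomial.eval_add, Polynomial.eval_mul, Polynomial.eval_one,
        Polynomial.eval_ofNat]
      have e1 : sz w ≤ 4 * p.eval x.length + 1 := by
        have := sz_listBool_le w
        omega
      have e2 : a.length ≤ (M.p.comp ys).eval x.length := by
        rw [Polynomial.eval_comp]
        exact ha1.le.trans (eval_mono _ hylen)
      have e3 : sz a ≤ 4 * (M.p.comp ys).eval x.length + 1 := by
        have := sz_listBool_le a
        omega
      have e4 : ∀ d ∈ cs, sz d ≤ 4 * cb.eval x.length + 1 := by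
        intro d hd
        rw [hcs, List.mem_map] at hd
        obtain ⟨i, hi, rfl⟩ := hd
        rw [List.mem_range] at hi
        have h1 := (hc i hi).2.2
        have h2 : (M.D (pairBits y (a.take i))).tail.length ≤ (b.comp ys).eval x.length := by
          rw [List.length_tail, Polynomial.eval_comp]
          have h3 := hb y (a.take i) (by
            rw [List.length_take]
            omega)
          have h4 := eval_mono b hylen
          omega
        have h3 : (c i).length ≤ cb.eval x.length := by
          rw [hcb, Polynomial.eval_comp, Polynomial.eval_add]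
          cases hai : a.getD i false with
          | true =>
            rw [hai] at h1
            simp only [cond_true, decide_eq_true_eq] at h1
            have := eval_mono p1 h2
            omega
          | false =>
            rw [hai] at h1
            simp only [cond_false, decide_eq_true_eq] at h1
            have := eval_mono p0 h2
            omega
        have := sz_listBool_le (c i)
        omega
      have e5 := sz_le_length_mul cs _ e4
      have e6 : cs.length = a.length := by rw [hcs, List.length_map, List.length_range]
      rw [e6] at e5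
      have e7 : a.length * (4 * cb.eval x.length + 1 + 1) ≤
          (M.p.comp ys).eval x.length * (4 * cb.eval x.length + 1 + 1) :=
        Nat.mul_le_mul_right _ e2
      omega
    · -- the test
      have hdec : C1_dec (pairBits x (bits (w, a, cs))) = (w, a, cs) := C1_dec_pair x _
      have hun : (unpair (pairBits x (bits (w, a, cs)))).1 = x := by rw [unpair_pairBits]
      have hact : ∀ i, C1_act M.D i (pairBits x (bits (w, a, cs))) =
          M.D (pairBits y (a.take i)) := by
        intro i
        unfold C1_act
        rw [hdec, hun, hy]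
      have hlen : a.length < (pairBits x (bits (w, a, cs))).length := by
        rw [length_pairBits, bits_length, sz_pair, sz_pair]
        have := length_lt_sz a
        omega
      show [C1_test M.D p p0 p1 _] = [true]
      congr 1
      unfold C1_test
      simp only [hdec, hun, hact]
      rw [Bool.and_eq_true, Bool.and_eq_true, Bool.and_eq_true]
      refine ⟨decide_eq_true hw, decide_eq_true ?_, decide_eq_true ?_, ?_⟩
      · rw [List.length_map, List.length_range, Polynomial.eval_X]
        exact hlen.le
      · rw [List.take_of_length_le le_rfl]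
        exact ha2
      · rw [List.all_eq_true]
        intro i hi
        rw [List.mem_range] at hi
        obtain ⟨h1, h2, h3⟩ := hc i hi
        rw [Bool.and_eq_true, Bool.and_eq_true]
        refine ⟨decide_eq_true h1, ?_, ?_⟩
        · rw [List.getD_eq_getElem?_getD, List.getElem?_map, List.getElem?_range (by
            rw [Polynomial.eval_X]; omega)]
          show decide (Vc (C1_W M.D (i, _)) = [true]) = true
          refine decide_eq_true ?_
          unfold C1_W
          simp only [hdec, hact]
          rw [hcsD i hi]
          exact h2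
        · rw [hcsD i hi]
          exact h3
  · -- soundness
    rintro ⟨ω, -, hω⟩
    obtain ⟨z, hz⟩ : ∃ z, z = pairBits x ω := ⟨_, rfl⟩
    rw [← hz] at hω
    have hω' : C1_test M.D p p0 p1 (z, (List.range ((Polynomial.X : Polynomial ℕ).eval
      z.length)).map (fun i => decide (Vc (C1_W M.D (i, z)) = [true]))) = true := by
      simpa using hω
    obtain ⟨w, a, cs, hdec⟩ : ∃ w a cs, C1_dec z = (w, a, cs) := ⟨_, _, _, rfl⟩
    have hun : (unpair z).1 = x := by rw [hz, unpair_pairBits]
    obtain ⟨y, hy⟩ : ∃ y, y = pairBits x w := ⟨_, rfl⟩
    have hact : ∀ i, C1_act M.D i z = M.D (pairBits y (a.take i)) := by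
      intro i
      unfold C1_act
      rw [hdec, hun, hy]
    unfold C1_test at hω'
    simp only [hdec, hun, hact] at hω'
    rw [Bool.and_eq_true, Bool.and_eq_true, Bool.and_eq_true, decide_eq_true_eq,
      decide_eq_true_eq, decide_eq_true_eq, List.all_eq_true] at hω'
    obtain ⟨hw, hal, hend, hall⟩ := hω'
    rw [List.length_map, List.length_range, Polynomial.eval_X] at hal
    rw [List.take_of_length_le le_rfl] at hend
    have hgood : C1_Good M (chr K) y a := by
      refine ⟨hend, fun i hi => ?_⟩
      have h1 := hall i (List.mem_range.2 hi)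
      rw [Bool.and_eq_true, Bool.and_eq_true, decide_eq_true_eq] at h1
      obtain ⟨h2, h3, h4⟩ := h1
      obtain ⟨q, hq⟩ : ∃ q, M.D (pairBits y (a.take i)) = false :: q := by
        cases hDi : M.D (pairBits y (a.take i)) with
        | nil => rw [hDi] at h2; simp at h2
        | cons c q =>
          rw [hDi] at h2
          simp only [List.head?_cons, Option.some.injEq] at h2
          exact ⟨q, by rw [h2]⟩
      refine ⟨q, hq, ?_⟩
      rw [List.getD_eq_getElem?_getD, List.getElem?_map, List.getElem?_range (by
        rw [Polynomial.eval_X]; omega)] at h3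
      have h5 : Vc (C1_W M.D (i, z)) = [true] := by
        have h6 : decide (Vc (C1_W M.D (i, z)) = [true]) = true := h3
        exact of_decide_eq_true h6
      unfold C1_W at h5
      simp only [hdec, hact] at h5
      rw [hq, List.tail_cons] at h4 h5
      cases hai : a.getD i false with
      | true =>
        rw [hai] at h4 h5
        simp only [cond_true, decide_eq_true_eq] at h4
        rw [hVt] at h5
        exact ((hchr q).2 ((hK1 q).2 ⟨_, h4, h5⟩)).symm
      | false =>
        rw [hai] at h4 h5
        simp only [cond_false, decide_eq_true_eq] at h4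
        rw [hVf] at h5
        have h6 : q ∈ Kᶜ := (hK0 q).2 ⟨_, h4, h5⟩
        symm
        rw [Bool.eq_false_iff]
        exact fun h => h6 ((hchr q).1 h)
    refine (hL x).2 ⟨w, hw, ?_⟩
    have h1 := hM y
    have h2 := C1_run hgood (M.p.eval y.length) 0 (Nat.zero_le _)
    rw [List.take_zero] at h2
    have h3 : M.run (chr K) y (M.p.eval y.length) [] = some (V y) := h1
    rw [h3] at h2
    rcases h2 with h2 | h2
    · exact absurd h2 (by simp)
    · rw [← hy]
      exact Option.some.inj h2

end Pool.Agent.H490R3.LH
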