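import Pool.Agent.H490R3.LH.Stm

/-! Task CMB: the combinatorial inequality. -/

set_option autoImplicit false

namespace Pool.Agent.H490R3.LH

open Classical in
theorem CMB_pt {α β U : Type} [DecidableEq α] [DecidableEq β] [Fintype U]
    (Y : Finset β) (cell : β → Finset α) (P r : ℕ) (f : U → Finset α → Prop) (w : ℝ) (hw : 0 ≤ w)
    (h : Finset α) :
    ((Y.card : ℝ) - (2 * P + 1) * r) * (if (∃ u, f u h) ∧ Gd Y cell h then w ^ h.card else 0) ≤
      Y.card * (∑ u : U, if f u h ∧ (2 * P + 1) * r ≤ (Y.filter (fun y => ¬ f u (h \ cell y))).card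
        then w ^ h.card else 0) +
      (if Gd Y cell h then
        w ^ h.card * ((Y.filter (fun y => ∃ u, f u (h \ cell y))).card : ℝ) else 0) := by
  have hwp : 0 ≤ w ^ h.card := pow_nonneg hw _
  have hS : ∀ u : U, 0 ≤ (if f u h ∧ (2 * P + 1) * r ≤
      (Y.filter (fun y => ¬ f u (h \ cell y))).card then w ^ h.card else 0) := by
    intro u
    split_ifs
    · exact hwp
    · exact le_refl _
  have hsum : 0 ≤ ∑ u : U, (if f u h ∧ (2 * P + 1) * r ≤
      (Y.filter (fun y => ¬ f u (h \ cell y))).card then w ^ h.card else 0) :=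
    Finset.sum_nonneg fun u _ => hS u
  have hY : (0 : ℝ) ≤ Y.card := Nat.cast_nonneg _
  by_cases hc : (∃ u, f u h) ∧ Gd Y cell h
  · rw [if_pos hc, if_pos hc.2]
    obtain ⟨⟨u, hu⟩, hg⟩ := hc
    by_cases hb : (2 * P + 1) * r ≤ (Y.filter (fun y => ¬ f u (h \ cell y))).card
    · have h1 : w ^ h.card ≤ ∑ u : U, (if f u h ∧ (2 * P + 1) * r ≤
          (Y.filter (fun y => ¬ f u (h \ cell y))).card then w ^ h.card else 0) := by
        refine le_trans ?_ (Finset.single_le_sum (fun u _ => hS u) (Finset.mem_univ u))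
        rw [if_pos ⟨hu, hb⟩]
      have h2 : ((Y.card : ℝ) - (2 * P + 1) * r) * w ^ h.card ≤ Y.card * w ^ h.card := by
        apply mul_le_mul_of_nonneg_right _ hwp
        have : (0 : ℝ) ≤ (2 * P + 1) * r := by positivity
        linarith
      have h3 : (Y.card : ℝ) * w ^ h.card ≤ Y.card * _ := mul_le_mul_of_nonneg_left h1 hY
      have h4 : 0 ≤ w ^ h.card * ((Y.filter (fun y => ∃ u, f u (h \ cell y))).card : ℝ) := by
        positivity
      linarith
    · have h1 : (Y.filter (fun y => f u (h \ cell y))).card +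
          (Y.filter (fun y => ¬ f u (h \ cell y))).card = Y.card :=
        Finset.card_filter_add_card_filter_not _
      have h2 : (Y.filter (fun y => f u (h \ cell y))).card ≤
          (Y.filter (fun y => ∃ u, f u (h \ cell y))).card := by
        apply Finset.card_le_card
        intro y hy
        rw [Finset.mem_filter] at hy ⊢
        exact ⟨hy.1, u, hy.2⟩
      have h3 : Y.card ≤ (Y.filter (fun y => ∃ u, f u (h \ cell y))).card + (2 * P + 1) * r := by
        omega
      have h4 : (Y.card : ℝ) - (2 * P + 1) * r ≤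
          ((Y.filter (fun y => ∃ u, f u (h \ cell y))).card : ℝ) := by
        have h5 : (Y.card : ℝ) ≤ ((Y.filter (fun y => ∃ u, f u (h \ cell y))).card : ℝ) +
            (2 * P + 1) * r := by exact_mod_cast h3
        linarith
      have h5 := mul_le_mul_of_nonneg_right h4 hwp
      have h6 : 0 ≤ (Y.card : ℝ) * ∑ u : U, (if f u h ∧ (2 * P + 1) * r ≤
          (Y.filter (fun y => ¬ f u (h \ cell y))).card then w ^ h.card else 0) :=
        mul_nonneg hY hsum
      calc _ ≤ _ := h5
        _ = w ^ h.card * ((Y.filter (fun y => ∃ u, f u (h \ cell y))).card : ℝ) := by ring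
        _ ≤ _ := by linarith
  · rw [if_neg hc, mul_zero]
    have h6 : 0 ≤ (Y.card : ℝ) * ∑ u : U, (if f u h ∧ (2 * P + 1) * r ≤
        (Y.filter (fun y => ¬ f u (h \ cell y))).card then w ^ h.card else 0) :=
      mul_nonneg hY hsum
    have h7 : 0 ≤ (if Gd Y cell h then
        w ^ h.card * ((Y.filter (fun y => ∃ u, f u (h \ cell y))).card : ℝ) else 0) := by
      split_ifs
      · positivity
      · exact le_refl _
    linarith

open Classical in
theorem t_CMB (h1 : S_SNS) (h2 : S_TRN) : S_CMB := by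
  intro α β U _ _ _ W Y cell c P r f w hw hf hcell hdis
  have hY : (0 : ℝ) ≤ Y.card := Nat.cast_nonneg _
  have hB : (∑ u : U, Wt w W (fun h => f u h ∧
        (2 * P + 1) * r ≤ (Y.filter (fun y => ¬ f u (h \ cell y))).card)) ≤
      Fintype.card U * ((Y.card : ℝ) ^ r * (P * w) ^ r * (1 + w) ^ W.card) := by
    calc _ ≤ ∑ _u : U, ((Y.card : ℝ) ^ r * (P * w) ^ r * (1 + w) ^ W.card) := by
          apply Finset.sum_le_sum
          intro u _
          refine le_trans (le_of_eq ?_)
            (h1 α β W Y cell P r (f u) w hw (hf u) (fun y hy => (hcell y hy).1) hdis)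
          congr!
      _ = _ := by rw [Finset.sum_const, Finset.card_univ, nsmul_eq_mul]
  have hC := h2 α β W Y cell c (fun h => ∃ u, f u h) w hw hcell hdis
  refine le_trans ?_ (add_le_add (mul_le_mul_of_nonneg_left hB hY) hC)
  unfold Wt
  rw [Finset.sum_comm, Finset.mul_sum, Finset.mul_sum, ← Finset.sum_add_distrib]
  apply Finset.sum_le_sum
  intro h _
  have := CMB_pt Y cell P r f w hw h
  refine le_trans (le_of_eq ?_) (le_trans this (le_of_eq ?_))
  · congr!
  · congr!

end Pool.Agent.H490R3.LH
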