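import Pool.Agent.H490R3.LH.Stm
import Pool.Agent.H628R3.RO.A3
import Pool.Agent.H620R2.GaugeR.R1
import Pool.Agent.H943R5.GC.U6

/-!
# Task CP: an oracle in `P` can be removed
-/

set_option autoImplicit false

namespace Pool.Agent.H490R3.LH

open Pool.Agent.NPC Pool.Agent.H628R3.RO Pool.Agent.H622R2
open Pool.Agent.H583R2.S2 (chr IsP)
open Pool.Agent.H943R5.GC

section CP

variable (D : List Bool → List Bool)

/-- the question -/
def CP_q (s : List Bool) : List Bool :=
  (D (pairBits (unpair s).1 (unpair s).2.tail)).tail

/-- the new state, where `t` is the output of the algorithm for the question -/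
def CP_new (p : List Bool × List Bool) : List Bool :=
  if (unpair p.1).2.head? = some false then
    if (D (pairBits (unpair p.1).1 (unpair p.1).2.tail)).head? = some false then
      pairBits (unpair p.1).1 ((unpair p.1).2 ++ [decide (p.2 = [true])]) else
      pairBits (unpair p.1).1 (true :: (D (pairBits (unpair p.1).1 (unpair p.1).2.tail)).tail)
  else p.1

variable {D}

theorem CP_poly_q (hD : Poly D) : Poly (CP_q D) :=
  Poly.tail (hD.comp (poly_pairBits (Poly.fst poly_unpair) (Poly.tail (Poly.snd poly_unpair))))

theorem CP_poly_new (hD : Poly D) : Poly (CP_new D) := by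
  have h0 : Poly (fun p : List Bool × List Bool => unpair p.1) :=
    poly_unpair.comp (Poly.fst Poly.id)
  have hx : Poly (fun p : List Bool × List Bool => (unpair p.1).1) := Poly.fst h0
  have ht : Poly (fun p : List Bool × List Bool => (unpair p.1).2) := Poly.snd h0
  have hd : Poly (fun p : List Bool × List Bool =>
      D (pairBits (unpair p.1).1 (unpair p.1).2.tail)) :=
    hD.comp (poly_pairBits hx (Poly.tail ht))
  exact Poly.ite (Poly.decide_eq (Poly.head? ht) (NPC.Poly.const _))
    (Poly.ite (Poly.decide_eq (Poly.head? hd) (NPC.Poly.const _))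
      (poly_pairBits hx (Poly.append ht (Poly.cons
        (Poly.decide_eq (Poly.snd Poly.id) (NPC.Poly.const _)) (NPC.Poly.const []))))
      (poly_pairBits hx (Poly.cons (NPC.Poly.const true) (Poly.tail hd))))
    (Poly.fst Poly.id)

variable (D)

/-- one step -/
def CP_S (G : List Bool → List Bool) (s : List Bool) : List Bool :=
  CP_new D (s, G (CP_q D s))

theorem CP_S_ask (G : List Bool → List Bool) (x a : List Bool)
    (h : (D (pairBits x a)).head? = some false) :
    CP_S D G (pairBits x (false :: a)) =
      pairBits x (false :: (a ++ [decide (G (D (pairBits x a)).tail = [true])])) := by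
  unfold CP_S CP_new CP_q
  simp only [unpair_pairBits, List.tail_cons]
  rw [if_pos (by simp), if_pos h]
  rfl

theorem CP_S_stop (G : List Bool → List Bool) (x a : List Bool)
    (h : (D (pairBits x a)).head? ≠ some false) :
    CP_S D G (pairBits x (false :: a)) = pairBits x (true :: (D (pairBits x a)).tail) := by
  unfold CP_S CP_new CP_q
  simp only [unpair_pairBits, List.tail_cons]
  rw [if_pos (by simp), if_neg h]

theorem CP_S_fin (G : List Bool → List Bool) (x z : List Bool) :
    CP_S D G (pairBits x (true :: z)) = pairBits x (true :: z) := by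
  unfold CP_S CP_new
  simp only [unpair_pairBits]
  rw [if_neg (by simp)]

theorem CP_S_fin_iter (G : List Bool → List Bool) (x z : List Bool) (n : ℕ) :
    (CP_S D G)^[n] (pairBits x (true :: z)) = pairBits x (true :: z) := by
  induction n with
  | zero => rfl
  | succ n ih => rw [Function.iterate_succ_apply, CP_S_fin, ih]

end CP

theorem CP_run (M : Alg) (G : List Bool → List Bool) (K : Set (List Bool))
    (hG : ∀ q, chr K q = decide (G q = [true])) (x z : List Bool) : ∀ (n : ℕ) (a : List Bool),
    M.run (chr K) x n a = some z →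
      (CP_S M.D G)^[n] (pairBits x (false :: a)) = pairBits x (true :: z) := by
  intro n
  induction n with
  | zero => intro a h; simp [Alg.run] at h
  | succ n ih =>
    intro a h
    rw [A2.run_succ] at h
    rw [Function.iterate_succ_apply]
    by_cases h1 : (M.D (pairBits x a)).head? = some false
    · rw [if_pos h1, hG] at h
      rw [CP_S_ask M.D G x a h1]
      exact ih _ h
    · rw [if_neg h1] at h
      simp only [Option.some.injEq] at h
      rw [CP_S_stop M.D G x a h1, h, CP_S_fin_iter]

theorem CP_form (M : Alg) (G : List Bool → List Bool) (b0 : Polynomial ℕ)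
    (hb0 : ∀ x a : List Bool, a.length ≤ M.p.eval x.length →
      (M.D (pairBits x a)).length ≤ b0.eval x.length) (x : List Bool) : ∀ i : ℕ,
    i ≤ M.p.eval x.length →
      (∃ a : List Bool, a.length = i ∧
        (CP_S M.D G)^[i] (pairBits x [false]) = pairBits x (false :: a)) ∨
      ∃ z : List Bool, z.length ≤ b0.eval x.length ∧
        (CP_S M.D G)^[i] (pairBits x [false]) = pairBits x (true :: z) := by
  intro i
  induction i with
  | zero => intro _; exact Or.inl ⟨[], rfl, rfl⟩
  | succ i ih =>
    intro hi
    rw [Function.iterate_succ_apply']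
    rcases ih (by omega) with ⟨a, ha, h⟩ | ⟨z, hz, h⟩
    · rw [h]
      by_cases h1 : (M.D (pairBits x a)).head? = some false
      · left
        rw [CP_S_ask M.D G x a h1]
        exact ⟨_, by rw [List.length_append, ha]; rfl, rfl⟩
      · right
        rw [CP_S_stop M.D G x a h1]
        refine ⟨_, ?_, rfl⟩
        rw [List.length_tail]
        have := hb0 x a (by omega)
        omega
    · right
      rw [h, CP_S_fin]
      exact ⟨z, hz, rfl⟩

/-- CP: an oracle in `P` can be removed -/
theorem t_CP : S_CP := by
  intro O K F hK hF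
  obtain ⟨G, hGfp, hG⟩ := hK
  obtain ⟨M, hM⟩ := hF
  obtain ⟨b0, hb0⟩ := A2.act_bound M
  have hD : Poly M.D := poly_of_polyTime M.poly
  have hchr : ∀ q, chr K q = decide (G q = [true]) := by
    intro q
    rw [Bool.eq_iff_iff]
    unfold chr
    simp only [decide_eq_true_eq]
    exact hG q
  have hS : IsFP O (CP_S M.D G) :=
    IsFP.seq (φ := fun p => CP_q M.D p.1) (ψ := fun p => CP_new M.D (p.1, p.2.2))
      (IsFP.of_poly Poly.id) hGfp ((CP_poly_q hD).comp (Poly.fst Poly.id))
      ((CP_poly_new hD).comp (Poly.pair (Poly.fst Poly.id) (Poly.snd (Poly.snd Poly.id))))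
  have hg : Poly (fun x : List Bool => pairBits x [false]) :=
    poly_pairBits Poly.id (NPC.Poly.const _)
  have h5 := Pool.Agent.H620R2.Gauge.IsFP.loop (U6.isFP_ofRO hS) hg M.p
    (2 * Polynomial.X + 2 + M.p + b0) (by
      intro x i hi
      rcases CP_form M G b0 hb0 x i hi with ⟨a, ha, h⟩ | ⟨z, hz, h⟩
      · rw [h, A2.length_pairBits, List.length_cons]
        simp only [Polynomial.eval_add, Polynomial.eval_mul, Polynomial.eval_ofNat,
          Polynomial.eval_X]
        omega
      · rw [h, A2.length_pairBits, List.length_cons]
        simp only [Polynomial.eval_add, Polynomial.eval_mul, Polynomial.eval_ofNat,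
          Polynomial.eval_X]
        omega)
  have h6 := IsFP.comp (IsFP.of_poly (A := O) (F := fun s => (unpair s).2.tail)
    (Poly.tail (Poly.snd poly_unpair))) (U6.isFP_toRO h5)
  have e : F = fun x => (unpair ((CP_S M.D G)^[M.p.eval x.length] (pairBits x [false]))).2.tail := by
    funext x
    have h7 := CP_run M G K hchr x (F x) (M.p.eval x.length) [] (hM x)
    rw [h7, unpair_pairBits, List.tail_cons]
  rw [e]
  exact h6

end Pool.Agent.H490R3.LH
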