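import Pool.Agent.H490R3.LH.Stm

/-! Task ENC: the main lemma (encoding) -/

set_option autoImplicit false

namespace Pool.Agent.H490R3.LH

open Classical in
lemma ENC_union {α ι : Type} [DecidableEq α] (W : Finset α) (w : ℝ) (hw : 0 ≤ w) (C : Finset ι)
    (S : Finset α → Prop) (R : ι → Finset α → Prop)
    (h : ∀ h ⊆ W, S h → ∃ κ ∈ C, R κ h) : Wt w W S ≤ ∑ κ ∈ C, Wt w W (R κ) := by
  unfold Wt
  rw [Finset.sum_comm]
  apply Finset.sum_le_sum
  intro a ha
  rw [Finset.mem_powerset] at ha
  have hnn : ∀ κ ∈ C, (0 : ℝ) ≤ if R κ a then w ^ a.card else 0 := by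
    intro κ _
    split_ifs
    · positivity
    · exact le_refl 0
  by_cases hS : S a
  · obtain ⟨κ, hκ, hR⟩ := h a ha hS
    rw [if_pos hS]
    have := Finset.single_le_sum hnn hκ
    rwa [if_pos hR] at this
  · rw [if_neg hS]
    exact Finset.sum_nonneg hnn

lemma ENC_pow {α : Type} (s : Finset α) (w : ℝ) :
    ∑ t ∈ s.powerset, w ^ t.card = (1 + w) ^ s.card := by
  have := Finset.sum_pow_mul_eq_add_pow w 1 s
  simp only [one_pow, mul_one] at this
  rw [this, add_comm]

lemma ENC_Wt {α : Type} [DecidableEq α] (W : Finset α) (w : ℝ) (R : Finset α → Prop)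
    [DecidablePred R] : Wt w W R = ∑ h ∈ W.powerset.filter R, w ^ h.card := by
  unfold Wt
  rw [Finset.sum_filter]
  apply Finset.sum_congr rfl
  intro h _
  by_cases hR : R h
  · rw [if_pos hR, if_pos hR]
  · rw [if_neg hR, if_neg hR]

open Classical in
lemma ENC_base {α : Type} [DecidableEq α] (W U g : Finset α) (w : ℝ) (hw : 0 ≤ w)
    (E : Finset α → Prop) :
    Wt w W (fun h => E h ∧ h \ U = g \ U ∧ g ⊆ h) ≤ w ^ g.card * (1 + w) ^ U.card := by
  rw [ENC_Wt, ← ENC_pow U w, Finset.mul_sum]
  have hinj : Set.InjOn (fun h : Finset α => h \ g)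
      (W.powerset.filter (fun h => E h ∧ h \ U = g \ U ∧ g ⊆ h) : Finset (Finset α)) := by
    intro a ha b hb hab
    simp only [Finset.coe_filter, Set.mem_setOf_eq] at ha hb
    have h1 : a = g ∪ (a \ g) := (Finset.union_sdiff_of_subset ha.2.2.2).symm
    have h2 : b = g ∪ (b \ g) := (Finset.union_sdiff_of_subset hb.2.2.2).symm
    have hab' : a \ g = b \ g := hab
    rw [h1, h2, hab']
  calc ∑ h ∈ W.powerset.filter (fun h => E h ∧ h \ U = g \ U ∧ g ⊆ h), w ^ h.card
      = ∑ h ∈ W.powerset.filter (fun h => E h ∧ h \ U = g \ U ∧ g ⊆ h),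
          w ^ g.card * w ^ (h \ g).card := by
        apply Finset.sum_congr rfl
        intro h hh
        rw [Finset.mem_filter] at hh
        rw [← pow_add]
        congr 1
        have := Finset.card_sdiff_add_card_eq_card hh.2.2.2
        omega
    _ = ∑ s ∈ (W.powerset.filter (fun h => E h ∧ h \ U = g \ U ∧ g ⊆ h)).image
          (fun h => h \ g), w ^ g.card * w ^ s.card := by
        rw [Finset.sum_image hinj]
    _ ≤ ∑ s ∈ U.powerset, w ^ g.card * w ^ s.card := by
        apply Finset.sum_le_sum_of_subset_of_nonneg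
        · intro s hs
          rw [Finset.mem_image] at hs
          obtain ⟨h, hh, rfl⟩ := hs
          rw [Finset.mem_filter] at hh
          rw [Finset.mem_powerset]
          intro x hx
          rw [Finset.mem_sdiff] at hx
          by_contra hxU
          have h3 : x ∈ h \ U := Finset.mem_sdiff.2 ⟨hx.1, hxU⟩
          rw [hh.2.2.1] at h3
          exact hx.2 (Finset.mem_sdiff.1 h3).1
        · intro s _ _
          positivity

theorem t_ENC : S_ENC := by
  intro α β _ _ W cell K P f w hw hcnf hcell hdisj
  classical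
  -- the union of the cells
  obtain ⟨U, hU⟩ : ∃ U : Finset α, U = K.biUnion cell := ⟨_, rfl⟩
  have hUW : U ⊆ W := by
    rw [hU]
    exact Finset.biUnion_subset.2 hcell
  obtain ⟨E, hE⟩ : ∃ E : Finset α → Prop, E = fun h => f h ∧ ∀ y ∈ K, ∃ T : Finset α,
      T.card ≤ P ∧ (∀ h' ⊆ W, h' ∩ T = (h \ cell y) ∩ T → ¬ f h') ∧
      ∀ y' ∈ K, y' ≠ y → Disjoint (h ∩ cell y') T := ⟨_, rfl⟩
  have key : ∀ j : ℕ, ∀ g ⊆ W, (K.filter (fun y => (g ∩ cell y).Nonempty)).card + j ≤ K.card →
      Wt w W (fun h => E h ∧ h \ U = g \ U ∧ g ⊆ h) ≤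
        (P * w) ^ j * (w ^ g.card * (1 + w) ^ U.card) := by
    intro j
    induction j with
    | zero =>
      intro g _ _
      rw [pow_zero, one_mul]
      exact ENC_base W U g w hw E
    | succ j ih =>
      intro g hg hcard
      have hRHS : 0 ≤ (P * w) ^ (j + 1) * (w ^ g.card * (1 + w) ^ U.card) := by positivity
      by_cases hex : ∃ h ⊆ W, E h ∧ h \ U = g \ U ∧ g ⊆ h
      · -- `f g` is false
        have hy : ∃ y ∈ K, ¬ (g ∩ cell y).Nonempty := by
          by_contra hcon
          push Not at hcon
          have : K.filter (fun y => (g ∩ cell y).Nonempty) = K :=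
            Finset.filter_true_of_mem hcon
          rw [this] at hcard
          omega
        obtain ⟨y, hyK, hy⟩ := hy
        rw [Finset.not_nonempty_iff_eq_empty] at hy
        have hfg : ¬ f g := by
          obtain ⟨h, hh, hEh, hhU, hgh⟩ := hex
          rw [hE] at hEh
          obtain ⟨T, _, hT2, hT3⟩ := hEh.2 y hyK
          apply hT2 g hg
          ext x
          simp only [Finset.mem_inter, Finset.mem_sdiff]
          constructor
          · rintro ⟨hxg, hxT⟩
            refine ⟨⟨hgh hxg, fun hxc => ?_⟩, hxT⟩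
            have : x ∈ g ∩ cell y := Finset.mem_inter.2 ⟨hxg, hxc⟩
            rw [hy] at this
            exact Finset.notMem_empty x this
          · rintro ⟨⟨hxh, hxc⟩, hxT⟩
            refine ⟨?_, hxT⟩
            have hxU : x ∉ U := by
              intro hxU
              rw [hU, Finset.mem_biUnion] at hxU
              obtain ⟨y', hy', hxy'⟩ := hxU
              have hne : y' ≠ y := by
                rintro rfl
                exact hxc hxy'
              have := hT3 y' hy' hne
              exact Finset.disjoint_left.1 this (Finset.mem_inter.2 ⟨hxh, hxy'⟩) hxT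
            have : x ∈ h \ U := Finset.mem_sdiff.2 ⟨hxh, hxU⟩
            rw [hhU] at this
            exact (Finset.mem_sdiff.1 this).1
        obtain ⟨T, hTP, hT⟩ := hcnf g hg hfg
        obtain ⟨C, hC⟩ : ∃ C : Finset α, C = (T ∩ U) \ g := ⟨_, rfl⟩
        have hCP : C.card ≤ P := by
          rw [hC]
          exact (Finset.card_le_card (Finset.sdiff_subset.trans Finset.inter_subset_left)).trans hTP
        have h1 : Wt w W (fun h => E h ∧ h \ U = g \ U ∧ g ⊆ h) ≤
            ∑ κ ∈ C, Wt w W (fun h => E h ∧ h \ U = (insert κ g) \ U ∧ insert κ g ⊆ h) := by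
          apply ENC_union W w hw
          rintro h hh ⟨hEh, hhU, hgh⟩
          have hfh : f h := by
            rw [hE] at hEh
            exact hEh.1
          -- some element of `T` is in `h \ g`
          have h2 : ∃ κ ∈ T, κ ∈ h ∧ κ ∉ g := by
            by_contra hcon
            push Not at hcon
            apply hT h hh _ hfh
            ext x
            simp only [Finset.mem_inter]
            constructor
            · rintro ⟨hxh, hxT⟩
              exact ⟨hcon x hxT hxh, hxT⟩
            · rintro ⟨hxg, hxT⟩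
              exact ⟨hgh hxg, hxT⟩
          obtain ⟨κ, hκT, hκh, hκg⟩ := h2
          have hκU : κ ∈ U := by
            by_contra hκU
            have : κ ∈ h \ U := Finset.mem_sdiff.2 ⟨hκh, hκU⟩
            rw [hhU] at this
            exact hκg (Finset.mem_sdiff.1 this).1
          refine ⟨κ, ?_, hEh, ?_, ?_⟩
          · rw [hC]
            exact Finset.mem_sdiff.2 ⟨Finset.mem_inter.2 ⟨hκT, hκU⟩, hκg⟩
          · rw [hhU, Finset.insert_sdiff_of_mem _ hκU]
          · exact Finset.insert_subset hκh hgh
        have h3 : ∀ κ ∈ C, Wt w W (fun h => E h ∧ h \ U = (insert κ g) \ U ∧ insert κ g ⊆ h) ≤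
            (P * w) ^ j * (w ^ (g.card + 1) * (1 + w) ^ U.card) := by
          intro κ hκ
          rw [hC, Finset.mem_sdiff, Finset.mem_inter] at hκ
          have hκU := hκ.1.2
          have h4 := ih (insert κ g) (Finset.insert_subset (hUW hκU) hg) (by
            rw [hU, Finset.mem_biUnion] at hκU
            obtain ⟨y₀, hy₀, hκy₀⟩ := hκU
            have h5 : K.filter (fun y => (insert κ g ∩ cell y).Nonempty) ⊆
                insert y₀ (K.filter (fun y => (g ∩ cell y).Nonempty)) := by
              intro y' hy'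
              rw [Finset.mem_filter] at hy'
              obtain ⟨hy'K, x, hx⟩ := hy'
              rw [Finset.mem_inter, Finset.mem_insert] at hx
              rw [Finset.mem_insert, Finset.mem_filter]
              rcases hx.1 with rfl | hxg
              · left
                by_contra hne
                exact Finset.disjoint_left.1 (hdisj y' hy'K y₀ hy₀ hne) hx.2 hκy₀
              · right
                exact ⟨hy'K, x, Finset.mem_inter.2 ⟨hxg, hx.2⟩⟩
            have h6 := (Finset.card_le_card h5).trans (Finset.card_insert_le _ _)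
            omega)
          rwa [Finset.card_insert_of_notMem hκ.2] at h4
        calc _ ≤ ∑ κ ∈ C, Wt w W (fun h => E h ∧ h \ U = (insert κ g) \ U ∧ insert κ g ⊆ h) := h1
          _ ≤ ∑ _κ ∈ C, (P * w) ^ j * (w ^ (g.card + 1) * (1 + w) ^ U.card) :=
              Finset.sum_le_sum h3
          _ = C.card * ((P * w) ^ j * (w ^ (g.card + 1) * (1 + w) ^ U.card)) := by
              rw [Finset.sum_const, nsmul_eq_mul]
          _ ≤ P * ((P * w) ^ j * (w ^ (g.card + 1) * (1 + w) ^ U.card)) := by
              apply mul_le_mul_of_nonneg_right _ (by positivity)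
              exact_mod_cast hCP
          _ = _ := by ring
      · -- no such `h`
        have h0 : Wt w W (fun h => E h ∧ h \ U = g \ U ∧ g ⊆ h) = 0 := by
          unfold Wt
          apply Finset.sum_eq_zero
          intro h hh
          rw [if_neg]
          intro hcon
          exact hex ⟨h, Finset.mem_powerset.1 hh, hcon⟩
        rw [h0]
        exact hRHS
  have h1 : Wt w W E ≤ ∑ b ∈ (W \ U).powerset,
      Wt w W (fun h => E h ∧ h \ U = b \ U ∧ b ⊆ h) := by
    apply ENC_union W w hw
    intro h hh hEh
    refine ⟨h \ U, ?_, hEh, ?_, Finset.sdiff_subset⟩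
    · rw [Finset.mem_powerset]
      exact Finset.sdiff_subset_sdiff hh (Finset.Subset.refl U)
    · rw [Finset.sdiff_idem]
  have h2 : ∀ b ∈ (W \ U).powerset, Wt w W (fun h => E h ∧ h \ U = b \ U ∧ b ⊆ h) ≤
      (P * w) ^ K.card * (w ^ b.card * (1 + w) ^ U.card) := by
    intro b hb
    rw [Finset.mem_powerset] at hb
    apply key K.card b (hb.trans Finset.sdiff_subset)
    have : K.filter (fun y => (b ∩ cell y).Nonempty) = ∅ := by
      rw [Finset.filter_eq_empty_iff]
      rintro y hy ⟨x, hx⟩
      rw [Finset.mem_inter] at hx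
      have h3 := hb hx.1
      rw [Finset.mem_sdiff] at h3
      apply h3.2
      rw [hU, Finset.mem_biUnion]
      exact ⟨y, hy, hx.2⟩
    rw [this, Finset.card_empty, zero_add]
  have h3 : Wt w W E ≤ (P * w) ^ K.card * (1 + w) ^ W.card := by
    calc _ ≤ _ := h1
      _ ≤ ∑ b ∈ (W \ U).powerset, (P * w) ^ K.card * (w ^ b.card * (1 + w) ^ U.card) :=
          Finset.sum_le_sum h2
      _ = (P * w) ^ K.card * ((∑ b ∈ (W \ U).powerset, w ^ b.card) * (1 + w) ^ U.card) := by
          rw [Finset.sum_mul, Finset.mul_sum]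
      _ = (P * w) ^ K.card * ((1 + w) ^ (W \ U).card * (1 + w) ^ U.card) := by
          rw [ENC_pow]
      _ = _ := by
          rw [← pow_add, Finset.card_sdiff_add_card_eq_card hUW]
  rw [hE] at h3
  exact h3

end Pool.Agent.H490R3.LH
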