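import Pool.Agent.H490R3.LH.Stm
import Pool.Agent.H673R2.OneOne.Fp

/-!
# FN: the converse of the normal form
-/

set_option autoImplicit false

namespace Pool.Agent.H490R3.LH

open Pool.Agent.NPC Pool.Agent.H628R3.RO
open Pool.Agent.H583R2.S2 (chr IsP)

theorem FN_first (O : Oracle) (V : List Bool → List Bool) (p : Polynomial ℕ) (hV : IsFP O V) :
    IsNP O {y | ∃ w : List Bool, w.length ≤ p.eval (unpair y).1.length ∧
      V (pairBits y w) ≠ [true]} := by
  obtain ⟨b, hb⟩ := IsFP.length_le
    (IsFP.of_poly (A := O) (F := fun y => (unpair y).1) (Poly.fst poly_unpair))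
  have h1 : IsFP O (fun t => pairBits (V t) t) := IsFP.pair hV (IsFP.of_poly Poly.id)
  have h2 : Poly (fun t : List Bool => [!(decide ((unpair t).1 = [true])) &&
      decide ((unpair (unpair t).2).2.length ≤
        p.eval (unpair (unpair (unpair t).2).1).1.length)]) := by
    have g1 : Poly (fun t : List Bool => unpair (unpair t).2) :=
      poly_unpair.comp (Poly.snd poly_unpair)
    have g2 : Poly (fun t : List Bool => (unpair (unpair (unpair t).2).1).1) :=
      Poly.fst (poly_unpair.comp (Poly.fst g1))
    exact Poly.cons (Poly.and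
      (Poly.not (Poly.decide_eq (Poly.fst poly_unpair) (NPC.Poly.const [true])))
      (Poly.decide_le (Poly.length (Poly.snd g1)) (UPoly.eval (UPoly.length g2) p).toPoly))
      (NPC.Poly.const [])
  have h3 := IsFP.comp (IsFP.of_poly (A := O) h2) h1
  simp only [unpair_pairBits] at h3
  refine ⟨_, p.comp b, h3, fun y => ?_⟩
  simp only [Set.mem_ofPred_eq, unpair_pairBits, Polynomial.eval_comp, List.cons.injEq, and_true,
    Bool.and_eq_true, Bool.not_eq_true', decide_eq_false_iff_not, decide_eq_true_eq]
  constructor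
  · rintro ⟨w, hw, h⟩
    exact ⟨w, hw.trans (eval_mono p (hb y)), h, hw⟩
  · rintro ⟨w, -, h, hw⟩
    exact ⟨w, hw, h⟩

theorem t_FN : S_FN := by
  intro O L V p hV hL
  refine ⟨_, FN_first O V p hV, ?_⟩
  set K : Set (List Bool) := {y | ∃ w : List Bool, w.length ≤ p.eval (unpair y).1.length ∧
    V (pairBits y w) ≠ [true]} with hK
  have h1 : IsFP (chr K) (fun x => (fun q : List Bool × List Bool =>
      [!(decide (q.2 = [true]))]) (x, ((fun y : List Bool => [y]) x).map (chr K))) :=
    IsFP.tt (A := chr K) (Q := fun y => [y]) (H := fun q => [!(decide (q.2 = [true]))])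
      (Poly.cons Poly.id (NPC.Poly.const []))
      (Poly.cons (Poly.not (Poly.decide_eq (Poly.snd Poly.id) (NPC.Poly.const [true])))
        (NPC.Poly.const []))
  refine ⟨_, p, h1, fun x => ?_⟩
  rw [hL]
  refine exists_congr fun u => and_congr_right fun _ => ?_
  simp only [List.map_cons, List.map_nil, List.cons.injEq, and_true, Bool.not_eq_true',
    decide_eq_false_iff_not, chr, decide_eq_true_eq, hK, Set.mem_ofPred_eq, unpair_pairBits]
  push Not
  rfl

end Pool.Agent.H490R3.LH
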