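import Pool.Agent.H490R3.LH.Stm
import Pool.Agent.H628R3.RO.A3

set_option autoImplicit false

namespace Pool.Agent.H490R3.LH

open Pool.Agent.NPC Pool.Agent.H628R3.RO
open Pool.Agent.H583R2.S2 (chr IsP)
open Pool.Agent.H673R2.OneTT (KA uA)

theorem t_H1 (h1 : S_C1) (h2 : S_SB) (h3 : S_SJ) (h4 : S_MLK) (h5 : S_HLK) : S_H1 := by
  intro X l₀ hkey
  refine ⟨h4 l₀ X, fun L => ?_⟩
  rintro ⟨K, hK, hKL⟩
  have hK1 : IsNP X K := (h2.2.1 X K).1 hK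
  rw [h2.2.1]
  obtain ⟨F, hF, hFK⟩ := Pool.Agent.H673R2.OneTT.hard_KA X K hK1
  refine h1 _ K L ((h3 X (LK l₀ X)).2.1 K hK1) ?_ hKL
  have hred : Red (join X (LK l₀ X)) Kᶜ (KA X)ᶜ :=
    ⟨F, (h3 X (LK l₀ X)).1 F hF, fun x => by
      rw [Set.mem_compl_iff, Set.mem_compl_iff, hFK x]⟩
  exact Pool.Agent.H673R2.OneOne.IsNP.red hred (h5 X l₀ hkey)

end Pool.Agent.H490R3.LH
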