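import Pool.Agent.H490R3.LH.Stm
import Pool.Agent.H628R3.RO.G1

/-! # LH: task HLK -/

set_option autoImplicit false

namespace Pool.Agent.H490R3.LH

open Pool.Agent.NPC Pool.Agent.H628R3.RO
open Pool.Agent.H583R2.S2 (chr IsP Mk gc Ys dl NN)
open Pool.Agent.H673R2.OneTT (KA uA)

open Classical in
theorem HLK_false (X : Oracle) (l₀ : ℕ) (x w : List Bool) (h : x ∉ KA X) :
    join X (LK l₀ X) (true :: pairBits x w) = false := by
  show chr (LK l₀ X) (pairBits x w) = false
  unfold chr
  rw [decide_eq_false_iff_not]
  rintro ⟨x', w', h1, h2, -⟩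
  have h3 := congrArg unpair h1
  rw [unpair_pairBits, unpair_pairBits, Prod.mk.injEq] at h3
  rw [h3.1] at h
  exact h h2

open Classical in
theorem HLK_true (X : Oracle) (l₀ : ℕ) (x w : List Bool) (h : x ∈ KA X)
    (hw : x.length < l₀ ∨ Key X x.length w) :
    join X (LK l₀ X) (true :: pairBits x w) = true := by
  show chr (LK l₀ X) (pairBits x w) = true
  unfold chr
  rw [decide_eq_true_iff]
  exact ⟨x, w, rfl, h, hw⟩

theorem t_HLK : S_HLK := by
  intro X l₀ hk
  refine isNP_of_tt _ _
    (Q := fun p => (true :: pairBits p.1 p.2) ::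
      (asks (bt.eval p.1.length) 1 p.2).map (fun s => false :: s))
    (T := fun p => decide (p.2.head? = some false) && (decide (p.1.1.length < l₀) ||
      (decide (p.1.2.length = 2 * bt.eval p.1.1.length) && p.2.tail.all id))) ?_ ?_
    (2 * bt) fun x => ?_
  · have h1 : NPC.Poly (fun p : List Bool × List Bool => p.1) := Poly.fst Poly.id
    have h2 : NPC.Poly (fun p : List Bool × List Bool => p.2) := Poly.snd Poly.id
    refine Poly.cons (Poly.cons (NPC.Poly.const true) (H622R2.poly_pairBits h1 h2)) ?_
    exact NPC.Poly.map (F := fun _ s => false :: s)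
      (p_asks (UPoly.eval (UPoly.length h1) bt) (UPoly.const 1) h2)
      (Poly.cons (NPC.Poly.const false) (Poly.snd Poly.id))
  · have h1 : NPC.Poly (fun p : (List Bool × List Bool) × List Bool => p.1.1) :=
      Poly.fst (Poly.fst Poly.id)
    have h2 : NPC.Poly (fun p : (List Bool × List Bool) × List Bool => p.1.2) :=
      Poly.snd (Poly.fst Poly.id)
    have h3 : NPC.Poly (fun p : (List Bool × List Bool) × List Bool => p.2) := Poly.snd Poly.id
    refine Poly.and (Poly.decide_eq (Poly.head? h3) (NPC.Poly.const _)) ?_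
    refine Poly.or (Poly.decide_lt (Poly.length h1) (NPC.Poly.const l₀)) ?_
    exact Poly.and (Poly.decide_eq (Poly.length h2)
      (Poly.mul (NPC.Poly.const 2) (UPoly.eval (UPoly.length h1) bt).toPoly))
      (p_all_id (Poly.tail h3))
  · have hmap : ∀ w : List Bool,
        ((asks (bt.eval x.length) 1 w).map (fun s => false :: s)).map (join X (LK l₀ X)) =
          (asks (bt.eval x.length) 1 w).map X := by
      intro w
      rw [List.map_map]
      rfl
    simp only [List.map_cons, List.head?_cons, List.tail_cons, hmap, Bool.and_eq_true,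
      Bool.or_eq_true, decide_eq_true_eq, asks_all, Option.some.injEq, Polynomial.eval_mul,
      Set.mem_compl_iff]
    have h2 : Polynomial.eval x.length (2 : Polynomial ℕ) = 2 := by
      rw [show (2 : Polynomial ℕ) = Polynomial.C 2 from rfl, Polynomial.eval_C]
    rw [h2]
    constructor
    · intro hx
      rcases Nat.lt_or_ge x.length l₀ with h | h
      · exact ⟨[], Nat.zero_le _, HLK_false X l₀ x [] hx, Or.inl h⟩
      · obtain ⟨w, hw⟩ := hk x.length h
        exact ⟨w, hw.1.le, HLK_false X l₀ x w hx, Or.inr ⟨hw.1, hw.2⟩⟩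
    · rintro ⟨w, -, hw, h⟩ hx
      have h3 := HLK_true X l₀ x w hx h
      rw [hw] at h3
      exact Bool.false_ne_true h3

end Pool.Agent.H490R3.LH
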