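import Pool.Agent.H490R3.LH.Stm
import Pool.Agent.H628R3.RO.A3

set_option autoImplicit false

namespace Pool.Agent.H490R3.LH

open Pool.Agent.NPC Pool.Agent.H628R3.RO
open Pool.Agent.H583R2.S2 (chr IsP)

theorem INC_self (K : Set (List Bool)) : IsP (chr K) K := by
  have h := IsFP.tt (A := chr K) (Q := fun x : List Bool => [x])
    (H := fun y : List Bool × List Bool => y.2)
    (Poly.cons Poly.id (NPC.Poly.const [])) (Poly.snd Poly.id)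
  refine ⟨_, h, fun x => ?_⟩
  simp [chr]

theorem t_INC (h1 : S_C1) (h2 : S_SB) : S_INC := by
  intro X k
  refine ⟨?_, ?_, ?_, ?_⟩
  · rintro A ⟨hA, hL⟩
    refine ⟨hA, fun L => ?_⟩
    rintro ⟨K, hK, hKL⟩
    exact ⟨K, hL K hK, hKL⟩
  · rintro A ⟨hA, hL⟩
    refine ⟨hA, fun L => ?_⟩
    rintro ⟨K, hK, hKL⟩
    obtain ⟨K', hK', hKK'⟩ := hL K ⟨K, hK, INC_self K⟩
    obtain ⟨h3, h4⟩ := h2.1 _ _ hKK'
    exact ⟨K', hK', h1 _ _ _ h3 h4 hKL⟩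
  · rintro A ⟨hA, hL⟩
    refine ⟨hA, fun L => ?_⟩
    rintro ⟨K, hK, hKL⟩
    exact ⟨K, hL K hK, hKL⟩
  · rintro A ⟨hA, hL⟩
    refine ⟨hA, fun L => ?_⟩
    rintro ⟨K, hK, hKL⟩
    obtain ⟨K', hK', hKK'⟩ := hL K ⟨K, hK, INC_self K⟩
    obtain ⟨h3, h4⟩ := h2.1 _ _ hKK'
    exact ⟨K', hK', h1 _ _ _ h3 h4 hKL⟩

end Pool.Agent.H490R3.LH
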