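import Pool.Agent.H490R3.LH.Stm

/-!
# IND: independent sets in directed graphs (helper439)
-/

set_option autoImplicit false

namespace Pool.Agent.H490R3.LH

theorem t_IND : S_IND := by
  intro β _ S d P r
  induction r generalizing S with
  | zero =>
    intro _ _
    exact ⟨∅, Finset.empty_subset _, rfl, fun y hy => absurd hy (Finset.notMem_empty y)⟩
  | succ r ih =>
    intro hd hc
    have hne : S.Nonempty := by
      rw [← Finset.card_pos]
      have : 0 < (2 * P + 1) * (r + 1) := by positivity
      omega
    have hsum : ∑ y ∈ S, (S.filter (fun y' => y ∈ d y')).card ≤ ∑ _y ∈ S, P := by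
      have h1 : ∑ y ∈ S, (S.filter (fun y' => y ∈ d y')).card =
          ∑ y' ∈ S, (S.filter (fun y => y ∈ d y')).card := by
        simp only [Finset.card_filter]
        exact Finset.sum_comm
      rw [h1]
      refine Finset.sum_le_sum fun y' hy' => ?_
      refine le_trans (Finset.card_le_card ?_) (hd y' hy')
      intro y hy
      exact (Finset.mem_filter.1 hy).2
    obtain ⟨y, hy, hyP⟩ := Finset.exists_le_of_sum_le hne hsum
    set R : Finset β := insert y (d y ∪ S.filter (fun y' => y ∈ d y')) with hR
    have hRc : R.card ≤ 2 * P + 1 := by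
      have h1 := Finset.card_insert_le y (d y ∪ S.filter (fun y' => y ∈ d y'))
      have h2 := Finset.card_union_le (d y) (S.filter (fun y' => y ∈ d y'))
      have h3 := hd y hy
      rw [hR]
      omega
    have hSc : S.card - R.card ≤ (S \ R).card := Finset.le_card_sdiff R S
    have hmul : (2 * P + 1) * (r + 1) = (2 * P + 1) * r + (2 * P + 1) := by ring
    obtain ⟨K, hK, hKc, hKi⟩ := ih (S \ R) (fun z hz => hd z (Finset.mem_sdiff.1 hz).1) (by omega)
    have hyK : y ∉ K := fun h => (Finset.mem_sdiff.1 (hK h)).2 (Finset.mem_insert_self _ _)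
    refine ⟨insert y K, ?_, by rw [Finset.card_insert_of_notMem hyK, hKc], ?_⟩
    · intro z hz
      rcases Finset.mem_insert.1 hz with rfl | hz
      · exact hy
      · exact (Finset.mem_sdiff.1 (hK hz)).1
    · intro z hz z' hz' hne'
      rcases Finset.mem_insert.1 hz with hzy | hzK
      · rcases Finset.mem_insert.1 hz' with hzy' | hzK'
        · exact absurd (hzy'.trans hzy.symm) hne'
        · intro hmem
          rw [hzy] at hmem
          exact (Finset.mem_sdiff.1 (hK hzK')).2 (Finset.mem_insert_of_mem
            (Finset.mem_union_left _ hmem))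
      · rcases Finset.mem_insert.1 hz' with hzy' | hzK'
        · intro hmem
          rw [hzy'] at hmem
          exact (Finset.mem_sdiff.1 (hK hzK)).2 (Finset.mem_insert_of_mem
            (Finset.mem_union_right _ (Finset.mem_filter.2 ⟨(Finset.mem_sdiff.1 (hK hzK)).1, hmem⟩)))
        · exact hKi z hzK z' hzK' hne'

end Pool.Agent.H490R3.LH
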