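import Pool.Agent.H490R3.LH.Stm
import Pool.Agent.H628R3.RO.M2

/-! Task INT: from sets of hits to oracles. -/

set_option autoImplicit false

namespace Pool.Agent.H490R3.LH

open Pool.Agent.NPC Pool.Agent.H628R3.RO Pool.Agent.H628R3.RO.M2
open MeasureTheory

theorem INT_wt (w : ℝ) (W : Finset Cand) (m : ℕ) (S : Set Oracle) (B : Oracle) :
    Wt w W (fun h => plant (allSpots m h) B ∈ S) =
      ∑ h ∈ W.powerset, (plant (allSpots m h) ⁻¹' S).indicator (fun _ => w ^ h.card) B := by
  unfold Wt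
  refine Finset.sum_congr rfl fun h _ => ?_
  by_cases hB : plant (allSpots m h) B ∈ S
  · rw [if_pos hB, Set.indicator_of_mem (show B ∈ plant (allSpots m h) ⁻¹' S from hB)]
  · rw [if_neg hB, Set.indicator_of_notMem (show B ∉ plant (allSpots m h) ⁻¹' S from hB)]

theorem INT_int {S τ : Set Oracle} (hS : MeasurableSet S) (hτ : MeasurableSet τ)
    (W : Finset Cand) (m : ℕ) (w : ℝ) (hm : 1 ≤ m)
    (hw : w = (1 / 2) ^ m / (1 - (1 / 2) ^ m))
    (hinv : ∀ (B : Oracle) (h : Finset Cand), h ⊆ W → (plant (allSpots m h) B ∈ τ ↔ B ∈ τ)) :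
    Integrable (fun B => Wt w W (fun h => plant (allSpots m h) B ∈ S))
      (randomOracle.restrict (NoHit m W ∩ τ)) ∧
    ∫ B in NoHit m W ∩ τ, Wt w W (fun h => plant (allSpots m h) B ∈ S) ∂randomOracle =
      prob (S ∩ τ) := by
  have hq : (0 : ℝ) < 1 - (1 / 2) ^ m := by
    have : ((1 : ℝ) / 2) ^ m ≤ (1 / 2) ^ 1 :=
      pow_le_pow_of_le_one (by norm_num) (by norm_num) hm
    norm_num at this ⊢
    linarith
  have hmeas : ∀ h : Finset Cand, MeasurableSet (plant (allSpots m h) ⁻¹' S) := fun h =>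
    measurable_plant _ hS
  have hint : ∀ h ∈ W.powerset, Integrable (fun B =>
      (plant (allSpots m h) ⁻¹' S).indicator (fun _ => w ^ h.card) B)
      (randomOracle.restrict (NoHit m W ∩ τ)) := fun h _ =>
    (integrable_const (w ^ h.card)).indicator (hmeas h)
  simp only [INT_wt]
  refine ⟨integrable_finsetSum _ hint, ?_⟩
  rw [integral_finsetSum _ hint, prob_eq_sum (hS.inter hτ) m W]
  refine Finset.sum_congr rfl fun h hh => ?_
  have hhW : h ⊆ W := Finset.mem_powerset.1 hh
  have h1 := prob_hitSet (hS.inter hτ) m hhW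
  have h2 : plant (allSpots m h) ⁻¹' (S ∩ τ) ∩ NoHit m W =
      plant (allSpots m h) ⁻¹' S ∩ (NoHit m W ∩ τ) := by
    ext B
    simp only [Set.mem_inter_iff, Set.mem_preimage, hinv B h hhW]
    tauto
  rw [h2] at h1
  rw [integral_indicator_const _ (hmeas h), measureReal_restrict_apply (hmeas h), smul_eq_mul]
  have h3 : prob (S ∩ τ ∩ HitSet m W h) =
      w ^ h.card * prob (plant (allSpots m h) ⁻¹' S ∩ (NoHit m W ∩ τ)) := by
    rw [hw, div_pow, div_mul_eq_mul_div, ← h1, mul_div_assoc, div_self (pow_pos hq _).ne', mul_one]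
  rw [h3, mul_comm]
  rfl

theorem t_INT : S_INT := by
  intro K S₁ S₂ τ W m a b ε w hK hS₁ hS₂ hτ hm ha hb hε hw hinv hineq
  have m1 := measurableSet_of_loc hK hS₁
  have m2 := measurableSet_of_loc hK hS₂
  have mτ := measurableSet_of_loc hK hτ
  obtain ⟨i1, e1⟩ := INT_int m1 mτ W m w hm hw hinv
  obtain ⟨i2, e2⟩ := INT_int m2 mτ W m w hm hw hinv
  obtain ⟨_, e0⟩ := INT_int MeasurableSet.univ mτ W m w hm hw hinv
  have hD : MeasurableSet (NoHit m W ∩ τ) := (measurableSet_noHit m W).inter mτ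
  have e3 : prob τ = ∫ _ in NoHit m W ∩ τ, (1 + w) ^ W.card ∂randomOracle := by
    rw [Set.univ_inter] at e0
    rw [← e0]
    refine setIntegral_congr_fun hD fun B _ => ?_
    simp only [Wt, Set.mem_univ, if_true]
    have := Finset.sum_pow_mul_eq_add_pow w 1 W
    simp only [one_pow, mul_one] at this
    rw [this, add_comm]
  rw [← e1, ← e2, e3, ← integral_const_mul, ← integral_const_mul, ← integral_const_mul,
    ← integral_add ((integrable_const _).const_mul _) (i2.const_mul _)]
  refine setIntegral_mono_on (i1.const_mul _)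
    (((integrable_const _).const_mul _).add (i2.const_mul _)) hD fun B hB => ?_
  exact hineq B hB.1

end Pool.Agent.H490R3.LH
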