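import Pool.Agent.H490R3.LH.Stm

/-!
# LCV: the clauses of a verifier
-/

set_option autoImplicit false

namespace Pool.Agent.H490R3.LH

open Pool.Agent.NPC Pool.Agent.H628R3.RO MeasureTheory
open Pool.Agent.H583R2.S2 (chr IsP Mk gc Ys dl NN)
open Pool.Agent.H583R2.NC (wl)
open Finset

theorem LCV_mem_iff {m : ℕ} {W h h' T : Finset Cand} {Q : Finset (List Bool)}
    (hT : ∀ κ ∈ W, (∃ q ∈ Q, q ∈ spots m κ) → κ ∈ T) (hh : h ⊆ W) (hh' : h' ⊆ W)
    (he : h' ∩ T = h ∩ T) {q : List Bool} (hq : q ∈ Q) :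
    q ∈ allSpots m h' ↔ q ∈ allSpots m h := by
  rw [M2.mem_allSpots, M2.mem_allSpots]
  have hx : ∀ κ, κ ∈ T → (κ ∈ h' ↔ κ ∈ h) := by
    intro κ hκ
    constructor
    · intro h1
      have : κ ∈ h ∩ T := by rw [← he]; exact mem_inter.2 ⟨h1, hκ⟩
      exact (mem_inter.1 this).1
    · intro h1
      have : κ ∈ h' ∩ T := by rw [he]; exact mem_inter.2 ⟨h1, hκ⟩
      exact (mem_inter.1 this).1
  constructor
  · rintro ⟨κ, hκ, hs⟩
    exact ⟨κ, (hx κ (hT κ (hh' hκ) ⟨q, hq, hs⟩)).1 hκ, hs⟩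
  · rintro ⟨κ, hκ, hs⟩
    exact ⟨κ, (hx κ (hT κ (hh hκ) ⟨q, hq, hs⟩)).2 hκ, hs⟩

open Classical in
theorem LCV_card {m : ℕ} (W : Finset Cand) (Q : Finset (List Bool)) :
    (W.filter (fun κ => ∃ q ∈ Q, q ∈ spots m κ)).card ≤ Q.card := by
  let g : Cand → List Bool := fun κ =>
    if hx : ∃ q ∈ Q, q ∈ spots m κ then hx.choose else []
  have hg : ∀ κ, (∃ q ∈ Q, q ∈ spots m κ) → g κ ∈ Q ∧ g κ ∈ spots m κ := by
    intro κ hx
    have h1 : g κ = hx.choose := dif_pos hx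
    rw [h1]
    exact hx.choose_spec
  apply card_le_card_of_injOn g
  · intro κ hκ
    exact (hg κ (mem_filter.1 hκ).2).1
  · intro κ hκ κ' hκ' he
    have h1 := (hg κ (mem_filter.1 hκ).2).2
    have h2 := (hg κ' (mem_filter.1 hκ').2).2
    rw [he] at h1
    exact M2.spots_disjoint h1 h2

theorem t_LCV : S_LCV := by
  classical
  intro V p n B u hu h hh hf
  rw [not_forall] at hf
  obtain ⟨w, hw⟩ := hf
  rw [Classical.not_imp] at hw
  obtain ⟨hw, hne⟩ := hw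
  obtain ⟨qb, hqb⟩ := Alg.out_local V
  obtain ⟨Q, hQc, _, hQ⟩ := hqb (plant (allSpots (wl n) h) B)
    (pairBits (pairBits (List.replicate n true) u) w)
  refine ⟨(Wn n).filter (fun κ => ∃ q ∈ Q, q ∈ spots (wl n) κ), ?_, ?_⟩
  · refine (LCV_card (Wn n) Q).trans (hQc.trans ?_)
    unfold Pn
    apply eval_mono
    rw [length_pairBits, length_pairBits, List.length_replicate]
    omega
  · intro h' hh' he hcon
    apply hne
    rw [← hcon w hw]
    symm
    apply hQ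
    intro q hq
    have hiff := LCV_mem_iff (m := wl n) (W := Wn n) (h := h) (h' := h')
      (T := (Wn n).filter (fun κ => ∃ q ∈ Q, q ∈ spots (wl n) κ)) (Q := Q)
      (fun κ hκ hx => mem_filter.2 ⟨hκ, hx⟩) hh hh' he hq
    unfold plant
    by_cases hc : q ∈ allSpots (wl n) h
    · rw [if_pos hc, if_pos (hiff.2 hc)]
    · rw [if_neg hc, if_neg (fun hd => hc (hiff.1 hd))]

end Pool.Agent.H490R3.LH
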