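import Pool.Agent.H490R3.LH.Stm

set_option autoImplicit false

namespace Pool.Agent.H490R3.LH

open Pool.Agent.NPC Pool.Agent.H628R3.RO MeasureTheory
open Pool.Agent.H673R2.OneTT (KA uA)

theorem LKL_key {j : ℕ} {X X' : Oracle}
    (h : ∀ i < bt.eval j, ∀ w : List Bool, w.length = 2 * bt.eval j →
      X (pos 1 i w) = X' (pos 1 i w)) (w : List Bool) : Key X j w ↔ Key X' j w := by
  unfold Key
  constructor
  · rintro ⟨h1, h2⟩
    refine ⟨h1, fun i hi => ?_⟩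
    rw [← h i hi w h1]; exact h2 i hi
  · rintro ⟨h1, h2⟩
    refine ⟨h1, fun i hi => ?_⟩
    rw [h i hi w h1]; exact h2 i hi

theorem t_LKL (h1 : S_BT) : S_LKL := by
  intro l₀ l X X' hX hK
  have hKA := h1.2.2 l X X' hX
  ext z
  constructor
  · rintro ⟨x, w, rfl, hl, hx, h⟩
    exact ⟨x, w, rfl, hl, (hKA x hl).1 hx, h.imp id (LKL_key (hK _ hl) w).1⟩
  · rintro ⟨x, w, rfl, hl, hx, h⟩
    exact ⟨x, w, rfl, hl, (hKA x hl).2 hx, h.imp id (LKL_key (hK _ hl) w).2⟩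

end Pool.Agent.H490R3.LH
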