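import Pool.Agent.H490R3.LH.Stm
import Pool.Agent.H583R2.S2.MemK
import Pool.Agent.H583R2.S2.Par

/-!
Task MCC (helper48): the co-sparse set `CC` is in `NP`.
-/

set_option autoImplicit false

namespace Pool.Agent.H490R3.LH

open MeasureTheory Pool.Agent.NPC Pool.Agent.H628R3.RO Pool.Agent.H628R3.RO.G2
open Pool.Agent.H583R2.S2 (Mk gc Ys NN p_NN)
open Pool.Agent.H583R2.NC (wl)

theorem MCC_mem_Ys {n : ℕ} {y : List Bool} : y ∈ Ys n ↔ y.length = 2 * n ∧ valB y < NN n := by
  unfold Ys
  rw [Finset.mem_filter, Finset.mem_image]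
  constructor
  · rintro ⟨⟨v, -, rfl⟩, h2⟩
    exact ⟨List.length_ofFn, h2⟩
  · rintro ⟨h1, h2⟩
    refine ⟨⟨fun i => y.get (i.cast h1.symm), Finset.mem_univ _, ?_⟩, h2⟩
    apply List.ext_get
    · rw [List.length_ofFn, h1]
    · intro i h5 h6
      simp

/-- the input names a string in use -/
def MCC_ok (x : List Bool) : Bool :=
  (decide (pairBits (unpair x).1 (unpair x).2 = x) && (unpair x).1.all (fun b => b)) &&
    (decide ((unpair x).2.length = 2 * (unpair x).1.length) &&
      decide (valB (unpair x).2 < NN (unpair x).1.length))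

theorem MCC_ok_iff (x : List Bool) : MCC_ok x = true ↔
    x = pairBits (List.replicate (unpair x).1.length true) (unpair x).2 ∧
      (unpair x).2 ∈ Ys (unpair x).1.length := by
  unfold MCC_ok
  rw [MCC_mem_Ys]
  simp only [Bool.and_eq_true, decide_eq_true_eq, List.all_eq_true]
  constructor
  · rintro ⟨⟨h1, h2⟩, h3, h4⟩
    refine ⟨?_, h3, h4⟩
    have h5 : List.replicate (unpair x).1.length true = (unpair x).1 :=
      (List.eq_replicate_iff.2 ⟨rfl, h2⟩).symm
    rw [h5]
    exact h1.symm
  · rintro ⟨h1, h3, h4⟩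
    have h5 : (unpair x).1 = List.replicate (unpair x).1.length true := by
      conv_lhs => rw [h1, unpair_pairBits]
    refine ⟨⟨?_, ?_⟩, h3, h4⟩
    · conv_rhs => rw [h1]
      rw [← h5]
    · intro b hb
      rw [h5] at hb
      exact List.eq_of_mem_replicate hb

theorem MCC_mem (X : Oracle) (x : List Bool) : x ∈ CC X ↔
    (MCC_ok x = true → X ∉ Mk (unpair x).1.length 0 (unpair x).2) := by
  constructor
  · intro h hok
    rw [MCC_ok_iff] at hok
    exact h _ _ hok.1 hok.2
  · intro h n y hx hy
    have h1 : unpair x = (List.replicate n true, y) := by rw [hx, unpair_pairBits]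
    have h2 : MCC_ok x = true := by
      rw [MCC_ok_iff, h1]
      simp only [List.length_replicate]
      exact ⟨hx, hy⟩
    have h3 := h h2
    rw [h1] at h3
    simpa only [List.length_replicate] using h3

/-- the test -/
def MCC_g (p : List Bool × List Bool) : Bool :=
  !(MCC_ok p.1) || (decide ((unpair p.2).1.length < (unpair p.1).1.length) &&
    decide ((unpair p.2).2.length = wl (unpair p.1).1.length))

/-- the questions -/
def MCC_q (p : List Bool × List Bool) : List (List Bool) :=
  bif MCC_ok p.1 then H583R2.NC.Mem.sps (unpair p.1).1.length (unpair p.2).1.length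
    ((unpair p.1).2 ++ (unpair p.2).2) else []

theorem MCC_u_wl {α : Type} [TEnc α] {n : α → ℕ} (hn : UPoly n) :
    UPoly (fun a => wl (n a)) :=
  (UPoly.add (UPoly.mul (UPoly.const 2) hn) (UPoly.const 8)).congr fun _ => rfl

theorem MCC_poly_ok : Poly MCC_ok := by
  unfold MCC_ok
  have h1 : Poly (fun x : List Bool => (unpair x).1) := Poly.fst poly_unpair
  have h2 : Poly (fun x : List Bool => (unpair x).2) := Poly.snd poly_unpair
  refine Poly.and (Poly.and (Poly.decide_eq (H622R2.poly_pairBits h1 h2) Poly.id)
    (Poly.all (p := fun _ (b : Bool) => b) h1 (Poly.snd Poly.id)))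
    (Poly.and (Poly.decide_eq (Poly.length h2) (Poly.mul (NPC.Poly.const 2) (Poly.length h1)))
      (Poly.decide_lt (Poly.valBits h2) (p_NN (UPoly.length h1))))

theorem MCC_poly_g : Poly MCC_g := by
  unfold MCC_g
  have h1 : Poly (fun p : List Bool × List Bool => unpair p.1) :=
    poly_unpair.comp (Poly.fst Poly.id)
  have h2 : Poly (fun p : List Bool × List Bool => unpair p.2) :=
    poly_unpair.comp (Poly.snd Poly.id)
  exact Poly.or (Poly.not (MCC_poly_ok.comp (Poly.fst Poly.id)))
    (Poly.and (Poly.decide_lt (Poly.length (Poly.fst h2)) (Poly.length (Poly.fst h1)))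
      (Poly.decide_eq (Poly.length (Poly.snd h2))
        (MCC_u_wl (UPoly.length (Poly.fst h1))).toPoly))

theorem MCC_poly_q : Poly MCC_q := by
  unfold MCC_q
  have h1 : Poly (fun p : List Bool × List Bool => unpair p.1) :=
    poly_unpair.comp (Poly.fst Poly.id)
  have h2 : Poly (fun p : List Bool × List Bool => unpair p.2) :=
    poly_unpair.comp (Poly.snd Poly.id)
  exact Poly.cond (MCC_poly_ok.comp (Poly.fst Poly.id))
    (p_spots (UPoly.length (Poly.fst h2)) (MCC_u_wl (UPoly.length (Poly.fst h1)))
      (Poly.append (Poly.snd h1) (Poly.snd h2))) (NPC.Poly.const _)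

theorem MCC_key {A : Oracle} {x w : List Bool} :
    (MCC_g (x, w) = true ∧ ∀ z ∈ MCC_q (x, w), A z = true) ↔
      (MCC_ok x = true → ((unpair w).1.length < (unpair x).1.length ∧
        (unpair w).2.length = wl (unpair x).1.length ∧
        Hit (wl (unpair x).1.length) ((unpair w).1.length, (unpair x).2 ++ (unpair w).2) A)) := by
  unfold MCC_g MCC_q
  cases hok : MCC_ok x with
  | false => simp
  | true =>
    simp only [Bool.not_true, Bool.false_or, Bool.and_eq_true, decide_eq_true_eq, cond_true,
      true_imp_iff]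
    rw [show (∀ z ∈ H583R2.NC.Mem.sps (unpair x).1.length (unpair w).1.length
        ((unpair x).2 ++ (unpair w).2), A z = true) ↔
      Hit (wl (unpair x).1.length) ((unpair w).1.length, (unpair x).2 ++ (unpair w).2) A from
      forall_spots]
    tauto

theorem t_MCC : S_MCC := by
  intro X
  refine ⟨ver X MCC_g MCC_q, Polynomial.C 4 * Polynomial.X + Polynomial.C 9,
    ver_isFP X MCC_poly_g MCC_poly_q, fun x => ?_⟩
  rw [MCC_mem]
  constructor
  · intro h
    cases hok : MCC_ok x with
    | false =>
      refine ⟨[], by simp, ?_⟩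
      rw [ver_iff, MCC_key, hok]
      intro h1
      exact absurd h1 (by simp)
    | true =>
      obtain ⟨c, z, h3, h4, h5, h6⟩ := H583R2.S2.MemK.notMem_Mk.1 (h hok)
      rw [zero_add, one_mul] at h4
      refine ⟨pairBits (List.replicate c true) z, ?_, ?_⟩
      · rw [A2.length_pairBits, List.length_replicate, h5]
        have hx := (MCC_ok_iff x).1 hok
        have hn : (unpair x).1.length ≤ x.length := by
          conv_rhs => rw [hx.1]
          rw [A2.length_pairBits, List.length_replicate]
          omega
        simp only [Polynomial.eval_add, Polynomial.eval_mul, Polynomial.eval_C,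
          Polynomial.eval_X]
        have h8 : wl (unpair x).1.length = 2 * (unpair x).1.length + 8 := rfl
        rw [h8]
        omega
      · rw [ver_iff, MCC_key]
        simp only [unpair_pairBits, List.length_replicate]
        exact fun _ => ⟨h4, h5, h6⟩
  · rintro ⟨w, -, h⟩ hok
    rw [ver_iff, MCC_key] at h
    obtain ⟨h1, h2, h3⟩ := h hok
    exact H583R2.S2.MemK.notMem_Mk.2 ⟨_, _, by omega, by omega, h2, h3⟩

end Pool.Agent.H490R3.LH
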