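import Pool.Agent.H490R3.LH.Stm
import Pool.Agent.H583R2.S2.Mem

/-! Task MEE (helper613): the complement of `EE` is in `NP` relative to `CC`. -/

set_option autoImplicit false

namespace Pool.Agent.H490R3.LH

open Pool.Agent.NPC Pool.Agent.H628R3.RO MeasureTheory
open Pool.Agent.H583R2.S2 (chr IsP Mk gc Ys dl NN)

/-- the final test -/
def MEE_H (p : List Bool × List Bool) : List Bool :=
  if (!((unpair p.1).1.all (fun b => b)) ||
    ((decide ((unpair p.1).2.length = 2 * (unpair p.1).1.length) &&
      decide (valB (unpair p.1).2 < NN (unpair p.1).1.length)) &&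
      decide (p.2.head? = some false))) = true then [true] else []

/-- the question -/
def MEE_Q (z : List Bool) : List (List Bool) :=
  [true :: pairBits (unpair z).1 (unpair z).2]

theorem MEE_polyQ : Poly MEE_Q := by
  unfold MEE_Q
  exact Poly.cons (Poly.cons (NPC.Poly.const true)
    (H622R2.poly_pairBits (Poly.fst poly_unpair) (Poly.snd poly_unpair))) (NPC.Poly.const [])

theorem MEE_polyH : Poly MEE_H := by
  have h1 : Poly (fun p : List Bool × List Bool => unpair p.1) :=
    poly_unpair.comp (Poly.fst Poly.id)
  have h2 : Poly (fun p : List Bool × List Bool => (unpair p.1).1) := Poly.fst h1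
  have h3 : Poly (fun p : List Bool × List Bool => (unpair p.1).2) := Poly.snd h1
  unfold MEE_H
  refine Poly.ite ?_ (NPC.Poly.const _) (NPC.Poly.const _)
  refine Poly.congr (f := fun p : List Bool × List Bool =>
    (!((unpair p.1).1.all (fun b => b)) ||
    ((decide ((unpair p.1).2.length = 2 * (unpair p.1).1.length) &&
      decide (valB (unpair p.1).2 < NN (unpair p.1).1.length)) &&
      decide (p.2.head? = some false)))) ?_ (fun p => (Bool.decide_coe _).symm)
  refine Poly.or (Poly.not (Poly.all (p := fun _ b => b) h2 (Poly.snd Poly.id))) (Poly.and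
    (Poly.and (Poly.decide_eq (Poly.length h3) (Poly.mul (NPC.Poly.const 2) (Poly.length h2)))
      (Poly.decide_lt (Poly.valBits h3) (Pool.Agent.H583R2.S2.p_NN (UPoly.length h2))))
    (Poly.decide_eq (Poly.head? (Poly.snd Poly.id)) (NPC.Poly.const _)))

theorem MEE_pair_inj {x y x' y' : List Bool} (h : pairBits x y = pairBits x' y') :
    x = x' ∧ y = y' := by
  have h1 := congrArg unpair h
  rw [unpair_pairBits, unpair_pairBits] at h1
  exact ⟨congrArg Prod.fst h1, congrArg Prod.snd h1⟩

theorem MEE_CC {X : Oracle} {n : ℕ} {y : List Bool} (hy : y ∈ Ys n) :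
    pairBits (List.replicate n true) y ∈ CC X ↔ X ∉ Mk n 0 y := by
  constructor
  · intro h
    exact h n y rfl hy
  · intro h n' y' he _
    obtain ⟨h1, h2⟩ := MEE_pair_inj he
    have h3 : n = n' := by
      have := congrArg List.length h1
      simpa using this
    subst h3
    subst h2
    exact h

theorem t_MEE : S_MEE := by
  intro X
  refine ⟨fun z => MEE_H (z, (MEE_Q z).map (join X (CC X))), Polynomial.C 2 * Polynomial.X,
    IsFP.tt MEE_polyQ MEE_polyH, fun x => ?_⟩
  have hV : ∀ w : List Bool, MEE_H (pairBits x w, (MEE_Q (pairBits x w)).map (join X (CC X))) =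
      [true] ↔ ((¬ ∀ b ∈ x, b = true) ∨ ((w.length = 2 * x.length ∧ valB w < NN x.length) ∧
        pairBits x w ∉ CC X)) := by
    intro w
    unfold MEE_H MEE_Q
    simp only [unpair_pairBits, List.map_cons, List.map_nil, List.head?_cons, join, chr]
    by_cases hx : ∀ b ∈ x, b = true
    · have h1 : x.all (fun b => b) = true := List.all_eq_true.mpr hx
      rw [h1]
      have hf : false ∉ x := fun h => absurd (hx false h) (by simp)
      by_cases h2 : pairBits x w ∈ CC X <;> simp [hf, h2]
    · have h1 : x.all (fun b => b) = false := by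
        by_contra h
        exact hx (List.all_eq_true.mp (by simpa using h))
      rw [h1]
      simp only [Bool.not_false, Bool.true_or, if_true, true_iff]
      exact Or.inl hx
  have hone : (∀ b ∈ x, b = true) → x = List.replicate x.length true := fun h =>
    List.eq_replicate_iff.mpr ⟨rfl, h⟩
  constructor
  · intro hx
    by_cases h1 : ∀ b ∈ x, b = true
    · have hx1 := hone h1
      have h2 : ∃ y ∈ Ys x.length, X ∈ Mk x.length 0 y := by
        by_contra hcon
        push Not at hcon
        exact hx ⟨x.length, hx1, hcon⟩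
      obtain ⟨y, hy, hM⟩ := h2
      have hy' := Pool.Agent.H583R2.S2.Mem.mem_Ys'.mp hy
      refine ⟨y, ?_, ?_⟩
      · rw [hy'.1]; simp
      · rw [hV]
        refine Or.inr ⟨hy', ?_⟩
        rw [hx1]
        intro hc
        rw [hx1] at hy
        rw [List.length_replicate] at hy
        exact (MEE_CC hy).mp hc hM
    · refine ⟨[], Nat.zero_le _, ?_⟩
      rw [hV]
      exact Or.inl h1
  · rintro ⟨w, -, hw⟩ ⟨n, hn, hall⟩
    rw [hV] at hw
    rcases hw with hw | ⟨hw1, hw2⟩
    · apply hw
      rw [hn]
      intro b hb
      exact List.eq_of_mem_replicate hb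
    · rw [hn, List.length_replicate] at hw1
      have hy : w ∈ Ys n := Pool.Agent.H583R2.S2.Mem.mem_Ys'.mpr hw1
      rw [hn] at hw2
      exact hw2 ((MEE_CC hy).mpr (hall w hy))

end Pool.Agent.H490R3.LH
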