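import Pool.Agent.H490R3.LH.Stm
import Pool.Agent.H673R2.OneOne.Fp
import Pool.Agent.H673R2.OneTT.Kset

/-!
# The locked set is in `NP`
-/

set_option autoImplicit false

namespace Pool.Agent.H490R3.LH

open Pool.Agent.NPC Pool.Agent.H628R3.RO MeasureTheory
open Pool.Agent.H583R2.S2 (chr IsP Mk gc Ys dl NN)
open Pool.Agent.H673R2.OneTT (KA uA isNP_KA)

/-- The condition for the keys. -/
def MLKset (l₀ : ℕ) (X : Oracle) : Set (List Bool) :=
  {z | pairBits (unpair z).1 (unpair z).2 = z ∧
    ((unpair z).1.length < l₀ ∨ Key X (unpair z).1.length (unpair z).2)}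

theorem MLK_all_iff {m : ℕ} {w : List Bool} {A : Oracle} :
    ((Pool.Agent.H628R3.RO.asks m 1 w).map A).all (fun b => b) = true ↔ Hit m (1, w) A := by
  unfold Pool.Agent.H628R3.RO.asks Hit
  simp only [List.map_map, List.all_eq_true, List.mem_map, List.mem_range, Function.comp]
  constructor
  · intro h i hi
    exact h _ ⟨i, hi, rfl⟩
  · rintro h _ ⟨i, hi, rfl⟩
    exact h i hi

theorem MLK_P (l₀ : ℕ) (X : Oracle) : IsNP X (MLKset l₀ X) := by
  refine isNP_of_tt X _
    (Q := fun p => Pool.Agent.H628R3.RO.asks (bt.eval (unpair p.1).1.length) 1 (unpair p.1).2)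
    (T := fun p => decide (pairBits (unpair p.1.1).1 (unpair p.1.1).2 = p.1.1) &&
      (decide ((unpair p.1.1).1.length < l₀) ||
        (decide ((unpair p.1.1).2.length = 2 * bt.eval (unpair p.1.1).1.length) &&
          p.2.all (fun b => b)))) ?_ ?_ 0 fun x => ?_
  · have h1 : Poly (fun p : List Bool × List Bool => unpair p.1) :=
      poly_unpair.comp (Poly.fst Poly.id)
    exact p_asks (UPoly.eval (UPoly.length (Poly.fst h1)) bt) (UPoly.const 1) (Poly.snd h1)
  · have h0 : Poly (fun p : (List Bool × List Bool) × List Bool => p.1.1) :=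
      Poly.fst (Poly.fst Poly.id)
    have h1 : Poly (fun p : (List Bool × List Bool) × List Bool => unpair p.1.1) :=
      poly_unpair.comp h0
    have h2 : UPoly (fun p : (List Bool × List Bool) × List Bool =>
      2 * bt.eval (unpair p.1.1).1.length) :=
      UPoly.mul (UPoly.const 2) (UPoly.eval (UPoly.length (Poly.fst h1)) bt)
    exact Poly.and (Poly.decide_eq (H622R2.poly_pairBits (Poly.fst h1) (Poly.snd h1)) h0)
      (Poly.or (Poly.decide_lt (Poly.length (Poly.fst h1)) (NPC.Poly.const l₀))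
        (Poly.and (Poly.decide_eq (Poly.length (Poly.snd h1)) h2.toPoly)
          (Poly.all (p := fun _ b => b) (Poly.snd Poly.id) (Poly.snd Poly.id))))
  · simp only [Bool.and_eq_true, Bool.or_eq_true, decide_eq_true_eq]
    rw [MLK_all_iff]
    unfold MLKset Key
    constructor
    · rintro ⟨h1, h2⟩
      exact ⟨[], by simp, h1, h2⟩
    · rintro ⟨w, -, h1, h2⟩
      exact ⟨h1, h2⟩

theorem t_MLK : S_MLK := by
  intro l₀ X
  have h1 : IsNP X {z | (unpair z).1 ∈ KA X} :=
    Pool.Agent.H673R2.OneOne.IsNP.red (L' := KA X)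
      ⟨fun z => (unpair z).1, IsFP.of_poly (Poly.fst poly_unpair), fun _ => Iff.rfl⟩ (isNP_KA X)
  have h2 := Pool.Agent.H673R2.OneOne.IsNP.inter h1 (MLK_P l₀ X)
  have h3 : LK l₀ X = {z | (unpair z).1 ∈ KA X} ∩ MLKset l₀ X := by
    ext z
    simp only [LK, MLKset, Set.mem_inter_iff, Set.mem_ofPred_eq]
    constructor
    · rintro ⟨x, w, rfl, hx, hk⟩
      simp only [unpair_pairBits]
      exact ⟨hx, trivial, hk⟩
    · rintro ⟨hx, hz, hk⟩
      exact ⟨_, _, hz.symm, hx, hk⟩
  rw [h3]
  exact h2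

end Pool.Agent.H490R3.LH
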