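import Pool.Agent.H490R3.LH.Stm
import Pool.Agent.H673R2.OneOne.Fp

set_option autoImplicit false

namespace Pool.Agent.H490R3.LH

open Pool.Agent.NPC Pool.Agent.H628R3.RO
open Pool.Agent.H673R2.OneOne (asks_map rd)

theorem t_MTB : S_MTB := by
  intro X
  refine isNP_of_tt X (TB X) (Q := fun p => asks p.1.length 0 p.2)
    (T := fun p => (decide (p.1.1 = List.replicate p.1.1.length true) &&
      decide (p.1.2.length = p.1.1.length)) &&
      decide (p.2 = List.replicate p.1.1.length true)) ?_ ?_ Polynomial.X fun x => ?_
  · exact p_asks (UPoly.length (Poly.fst Poly.id)) (UPoly.const 0) (Poly.snd Poly.id)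
  · have h1 : Poly (fun p : (List Bool × List Bool) × List Bool => p.1.1) :=
      Poly.fst (Poly.fst Poly.id)
    have h2 : Poly (fun p : (List Bool × List Bool) × List Bool => p.1.2) :=
      Poly.snd (Poly.fst Poly.id)
    have h3 : Poly (fun p : (List Bool × List Bool) × List Bool =>
        List.replicate p.1.1.length true) := p_replicate (UPoly.length h1) true
    exact Poly.and (Poly.and (Poly.decide_eq h1 h3) (Poly.decide_eq (Poly.length h2)
      (Poly.length h1))) (Poly.decide_eq (Poly.snd Poly.id) h3)
  · simp only [Bool.and_eq_true, decide_eq_true_eq, asks_map, Polynomial.eval_X]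
    constructor
    · rintro ⟨n, w, rfl, hw, hH⟩
      refine ⟨w, ?_, ⟨?_, ?_⟩, ?_⟩
      · simp [hw]
      · simp
      · simp [hw]
      · rw [List.length_replicate, List.eq_replicate_iff]
        unfold rd
        refine ⟨by simp, ?_⟩
        intro b hb
        obtain ⟨i, hi, rfl⟩ := List.mem_map.1 hb
        exact hH i (List.mem_range.1 hi)
    · rintro ⟨w, -, ⟨h1, h2⟩, h3⟩
      refine ⟨x.length, w, h1, h2, ?_⟩
      intro i hi
      rw [List.eq_replicate_iff] at h3
      apply h3.2
      unfold rd
      exact List.mem_map.2 ⟨i, List.mem_range.2 hi, rfl⟩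

end Pool.Agent.H490R3.LH
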