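import Pool.Agent.H490R3.LH.Stm
import Pool.Agent.H628R3.RO.A3

/-!
# The normal form of the languages in `Σ₂`
-/

set_option autoImplicit false

namespace Pool.Agent.H490R3.LH

open Pool.Agent.NPC Pool.Agent.H622R2 Pool.Agent.H628R3.RO
open Pool.Agent.H583R2.S2 (chr IsP)

namespace NF

/-! ### Runs -/

theorem run_some (M : Alg) (A : Oracle) (y z : List Bool) : ∀ (n : ℕ) (a0 : List Bool),
    M.run A y n a0 = some z → ∃ a : List Bool, a.length < n ∧
      (∀ i < a.length, (M.D (pairBits y (a0 ++ a.take i))).head? = some false ∧
        a[i]? = some (A (M.D (pairBits y (a0 ++ a.take i))).tail)) ∧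
      (M.D (pairBits y (a0 ++ a))).head? ≠ some false ∧ (M.D (pairBits y (a0 ++ a))).tail = z := by
  intro n
  induction n with
  | zero => intro a0 h; simp [Alg.run] at h
  | succ n ih =>
    intro a0 h
    rw [A2.run_succ] at h
    split_ifs at h with h1
    · obtain ⟨a, h2, h3, h4, h5⟩ := ih _ h
      refine ⟨A (M.D (pairBits y a0)).tail :: a, by simpa using h2, ?_, ?_, ?_⟩
      · intro i hi
        cases i with
        | zero => simpa using h1
        | succ i =>
          have h6 := h3 i (by simpa using hi)
          simp only [List.append_assoc, List.singleton_append] at h6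
          simpa using h6
      · simpa using h4
      · simpa using h5
    · refine ⟨[], by simp, by simp, by simpa using h1, ?_⟩
      simpa using h

theorem some_run (M : Alg) (A : Oracle) (y z : List Bool) : ∀ (a : List Bool) (n : ℕ)
    (a0 : List Bool), a.length < n →
      (∀ i < a.length, (M.D (pairBits y (a0 ++ a.take i))).head? = some false ∧
        a[i]? = some (A (M.D (pairBits y (a0 ++ a.take i))).tail)) →
      (M.D (pairBits y (a0 ++ a))).head? ≠ some false → (M.D (pairBits y (a0 ++ a))).tail = z →
      M.run A y n a0 = some z := by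
  intro a
  induction a with
  | nil =>
    intro n a0 hn _ h4 h5
    obtain ⟨n, rfl⟩ : ∃ m, n = m + 1 := ⟨n - 1, by simp at hn; omega⟩
    rw [A2.run_succ, if_neg (by simpa using h4)]
    simpa using h5
  | cons b a ih =>
    intro n a0 hn h3 h4 h5
    obtain ⟨n, rfl⟩ : ∃ m, n = m + 1 := ⟨n - 1, by simp at hn; omega⟩
    have h0 := h3 0 (by simp)
    simp only [List.take_zero, List.append_nil, List.getElem?_cons_zero, Option.some.injEq] at h0
    rw [A2.run_succ, if_pos h0.1, ← h0.2]
    refine ih n _ (by simpa using hn) ?_ (by simpa using h4) (by simpa using h5)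
    intro i hi
    have h6 := h3 (i + 1) (by simpa using hi)
    simpa using h6

/-! ### Polynomial-time functions -/

theorem take_eq {α : Type} (l : List α) (n : ℕ) :
    (l.zip (List.replicate n ())).map Prod.fst = l.take n := by
  induction l generalizing n with
  | nil => simp
  | cons a l ih =>
    cases n with
    | zero => simp
    | succ n => simp [List.replicate_succ, ih]

theorem poly_take {α β : Type} [TEnc α] [TEnc β] {l : α → List β} {n : α → ℕ} (hl : Poly l)
    (hn : Poly n) : Poly (fun a => (l a).take (n a)) := by
  have h : UPoly (fun a => Min.min (n a) (l a).length) :=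
    UPoly.of_le (Poly.min hn (Poly.length hl)) (UPoly.length hl) (fun a => min_le_right _ _)
  refine (NPC.Poly.map (F := fun _ p => p.1) (Poly.zip hl h)
    (Poly.fst (Poly.snd Poly.id))).congr ?_
  intro a
  change ((l a).zip (List.replicate (Min.min (n a) (l a).length) ())).map Prod.fst = _
  rw [take_eq]
  rcases le_total (n a) (l a).length with h1 | h1
  · rw [min_eq_left h1]
  · rw [min_eq_right h1, List.take_length, List.take_of_length_le h1]

theorem poly_eval {α β : Type} [TEnc α] [TEnc β] {l : α → List β} (hl : Poly l)
    (p : Polynomial ℕ) : Poly (fun a => p.eval (l a).length) :=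
  ((UPoly.length hl).eval p).toPoly

/-- the decoded witness -/
def dc (u : List Bool) : List Bool × List (Bool × List Bool) :=
  (unbits (List Bool × List (Bool × List Bool)) u).getD ([], [])

theorem poly_dc : Poly dc := by
  refine (Poly.optCases (o := unbits (List Bool × List (Bool × List Bool)))
    (g := fun _ => ([], [])) (h := fun _ a => a) poly_unbits (NPC.Poly.const _)
    (Poly.snd Poly.id)).congr fun u => ?_
  unfold dc
  cases unbits (List Bool × List (Bool × List Bool)) u <;> rfl

theorem dc_bits (d : List Bool × List (Bool × List Bool)) : dc (bits d) = d := by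
  unfold dc
  rw [unbits_bits]
  rfl

theorem dc_length (u : List Bool) : (dc u).2.length ≤ u.length := by
  unfold dc
  cases h : unbits (List Bool × List (Bool × List Bool)) u with
  | none => simp
  | some d =>
    have h1 := bits_of_unbits h
    have h2 := length_lt_sz d.2
    rw [← h1, bits_length]
    obtain ⟨d1, d2⟩ := d
    simp only [Option.getD_some, sz_pair] at h2 ⊢
    omega

variable (D : List Bool → List Bool) (P1 P2 PM : Polynomial ℕ)

def xx (z : List Bool) : List Bool := (unpair (unpair z).1).1
def uu (z : List Bool) : List Bool × List (Bool × List Bool) := dc (unpair (unpair z).1).2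
def ww (z : List Bool) : List Bool := (unpair z).2
def yy (z : List Bool) : List Bool := pairBits (xx z) (uu z).1
def aa (z : List Bool) : List Bool := (uu z).2.map (fun s => s.1)
def act (z : List Bool) (i : ℕ) : List Bool := D (pairBits (yy z) ((aa z).take i))
def it (z : List Bool) (i : ℕ) : Bool × List Bool := (uu z).2.getD i (false, [])
def Wf (s : ℕ × List Bool) : List Bool :=
  pairBits (act D s.2 s.1).tail (if (it s.2 s.1).1 = true then (it s.2 s.1).2 else ww s.2)

noncomputable def tst (s : List Bool × List Bool) (i : ℕ) : Bool :=
  decide ((act D s.1 i).head? = some false) &&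
    (if (it s.1 i).1 = true then
      (decide ((it s.1 i).2.length ≤ P1.eval (act D s.1 i).tail.length) && s.2.getD i false) else
      (decide (P1.eval (act D s.1 i).tail.length < (ww s.1).length) || !(s.2.getD i false)))

noncomputable def chk (s : List Bool × List Bool) : Bool :=
  decide ((uu s.1).1.length ≤ P2.eval (xx s.1).length) &&
    (decide ((uu s.1).2.length < PM.eval (yy s.1).length) &&
    (decide (act D s.1 (uu s.1).2.length = [true, true]) &&
    (List.range (uu s.1).2.length).all (fun i => tst D P1 s i)))

theorem poly_xx : Poly xx := Poly.fst (poly_unpair.comp (Poly.fst poly_unpair))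
theorem poly_uu : Poly uu := poly_dc.comp (Poly.snd (poly_unpair.comp (Poly.fst poly_unpair)))
theorem poly_ww : Poly ww := Poly.snd poly_unpair
theorem poly_yy : Poly yy := poly_pairBits poly_xx (Poly.fst poly_uu)
theorem poly_aa : Poly aa := by
  have h1 : Poly (fun z : List Bool => (uu z).2) := Poly.snd poly_uu
  have h2 : Poly (fun p : List Bool × (Bool × List Bool) => p.2.1) := Poly.fst (Poly.snd Poly.id)
  exact NPC.Poly.map (l := fun z : List Bool => (uu z).2)
    (F := fun (_ : List Bool) (s : Bool × List Bool) => s.1) h1 h2

variable {D}

theorem poly_act (hD : Poly D) {α : Type} [TEnc α] {z : α → List Bool} {i : α → ℕ} (hz : Poly z)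
    (hi : Poly i) : Poly (fun a => act D (z a) (i a)) :=
  hD.comp (poly_pairBits (poly_yy.comp hz) (poly_take (poly_aa.comp hz) hi))

theorem poly_it {α : Type} [TEnc α] {z : α → List Bool} {i : α → ℕ} (hz : Poly z)
    (hi : Poly i) : Poly (fun a => it (z a) (i a)) :=
  Poly.getD (Poly.snd (poly_uu.comp hz)) hi (NPC.Poly.const _)

theorem poly_Wf (hD : Poly D) : Poly (Wf D) := by
  have hz : Poly (fun s : ℕ × List Bool => s.2) := Poly.snd Poly.id
  have hi : Poly (fun s : ℕ × List Bool => s.1) := Poly.fst Poly.id
  exact poly_pairBits (Poly.tail (poly_act hD hz hi))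
    (Poly.ite (Poly.decide_bool (Poly.fst (poly_it hz hi))) (Poly.snd (poly_it hz hi))
      (poly_ww.comp hz))

theorem poly_tst (hD : Poly D) : Poly (fun s : (List Bool × List Bool) × ℕ =>
    tst D P1 s.1 s.2) := by
  have hz : Poly (fun s : (List Bool × List Bool) × ℕ => s.1.1) := Poly.fst (Poly.fst Poly.id)
  have hr : Poly (fun s : (List Bool × List Bool) × ℕ => s.1.2) := Poly.snd (Poly.fst Poly.id)
  have hi : Poly (fun s : (List Bool × List Bool) × ℕ => s.2) := Poly.snd Poly.id
  have ha := poly_act hD hz hi
  have hd : Poly (fun s : (List Bool × List Bool) × ℕ => s.1.2.getD s.2 false) :=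
    Poly.getD hr hi (NPC.Poly.const _)
  have hq : Poly (fun s : (List Bool × List Bool) × ℕ =>
      P1.eval (act D s.1.1 s.2).tail.length) := poly_eval (Poly.tail ha) P1
  exact Poly.and (Poly.decide_eq (Poly.head? ha) (NPC.Poly.const _))
    (Poly.ite (Poly.decide_bool (Poly.fst (poly_it hz hi)))
      (Poly.and (Poly.decide_le (Poly.length (Poly.snd (poly_it hz hi))) hq) hd)
      (Poly.or (Poly.decide_lt hq (Poly.length (poly_ww.comp hz))) (Poly.not hd)))

theorem poly_chk (hD : Poly D) : Poly (chk D P1 P2 PM) := by
  have hz : Poly (fun s : List Bool × List Bool => s.1) := Poly.fst Poly.id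
  have hu : Poly (fun s : List Bool × List Bool => uu s.1) := poly_uu.comp hz
  have hn : Poly (fun s : List Bool × List Bool => (uu s.1).2.length) :=
    Poly.length (Poly.snd hu)
  exact Poly.and (Poly.decide_le (Poly.length (Poly.fst hu)) (poly_eval (poly_xx.comp hz) P2))
    (Poly.and (Poly.decide_lt hn (poly_eval (poly_yy.comp hz) PM))
      (Poly.and (Poly.decide_eq (poly_act hD hz hn) (NPC.Poly.const _))
        (Poly.all (l := fun s : List Bool × List Bool => List.range (uu s.1).2.length)
          (p := fun s i => tst D P1 s i) (UPoly.length (Poly.snd hu)).range (poly_tst P1 hD))))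

/-- the verifier -/
noncomputable def Vf (D V1 : List Bool → List Bool) (P1 P2 PM : Polynomial ℕ) (z : List Bool) :
    List Bool :=
  [chk D P1 P2 PM (z, (List.range ((Polynomial.X : Polynomial ℕ).eval z.length)).map
      (fun i => decide (V1 (Wf D (i, z)) = [true])))]

theorem Vf_iff (D V1 : List Bool → List Bool) (P1 P2 PM : Polynomial ℕ) (x u w : List Bool) :
    Vf D V1 P1 P2 PM (pairBits (pairBits x u) w) = [true] ↔
      (dc u).1.length ≤ P2.eval x.length ∧
      (dc u).2.length < PM.eval (pairBits x (dc u).1).length ∧
      D (pairBits (pairBits x (dc u).1) ((dc u).2.map (fun s => s.1))) = [true, true] ∧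
      ∀ i < (dc u).2.length,
        (D (pairBits (pairBits x (dc u).1) (((dc u).2.map (fun s => s.1)).take i))).head? =
          some false ∧
        if ((dc u).2.getD i (false, [])).1 = true then
          ((dc u).2.getD i (false, [])).2.length ≤ P1.eval
            (D (pairBits (pairBits x (dc u).1)
              (((dc u).2.map (fun s => s.1)).take i))).tail.length ∧
          V1 (pairBits (D (pairBits (pairBits x (dc u).1)
              (((dc u).2.map (fun s => s.1)).take i))).tail
            ((dc u).2.getD i (false, [])).2) = [true]
        else (w.length ≤ P1.eval (D (pairBits (pairBits x (dc u).1)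
              (((dc u).2.map (fun s => s.1)).take i))).tail.length →
          V1 (pairBits (D (pairBits (pairBits x (dc u).1)
              (((dc u).2.map (fun s => s.1)).take i))).tail w) ≠ [true]) := by
  have hxx : xx (pairBits (pairBits x u) w) = x := by simp [xx, unpair_pairBits]
  have huu : uu (pairBits (pairBits x u) w) = dc u := by simp [uu, unpair_pairBits]
  have hww : ww (pairBits (pairBits x u) w) = w := by simp [ww, unpair_pairBits]
  have hyy : yy (pairBits (pairBits x u) w) = pairBits x (dc u).1 := by simp [yy, hxx, huu]
  have haa : aa (pairBits (pairBits x u) w) = (dc u).2.map (fun s => s.1) := by simp [aa, huu]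
  have hlen : (dc u).2.length ≤ (pairBits (pairBits x u) w).length := by
    have h1 := dc_length u
    rw [A2.length_pairBits, A2.length_pairBits]
    omega
  have htake : ((dc u).2.map (fun s => s.1)).take (dc u).2.length =
      (dc u).2.map (fun s => s.1) := List.take_of_length_le (by simp)
  unfold Vf chk
  simp only [List.cons.injEq, and_true, Bool.and_eq_true, decide_eq_true_eq, List.all_eq_true,
    List.mem_range, hxx, huu, hyy, act, haa, htake]
  refine and_congr Iff.rfl (and_congr Iff.rfl (and_congr Iff.rfl ?_))
  refine forall_congr' fun i => forall_congr' fun hi => ?_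
  have hr : ((List.range ((Polynomial.X : Polynomial ℕ).eval
      (pairBits (pairBits x u) w).length)).map
      (fun i => decide (V1 (Wf D (i, pairBits (pairBits x u) w)) = [true]))).getD i false =
      decide (V1 (Wf D (i, pairBits (pairBits x u) w)) = [true]) := by
    rw [Polynomial.eval_X, List.getD_eq_getElem?_getD, List.getElem?_map,
      List.getElem?_range (by omega)]
    rfl
  unfold tst
  simp only [Bool.and_eq_true, decide_eq_true_eq, hr, act, hyy, haa, it, huu, hww]
  refine and_congr Iff.rfl ?_
  have hW : Wf D (i, pairBits (pairBits x u) w) = pairBits (D (pairBits (pairBits x (dc u).1)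
      (((dc u).2.map (fun s => s.1)).take i))).tail
      (if ((dc u).2.getD i (false, [])).1 = true then ((dc u).2.getD i (false, [])).2 else w) := by
    simp only [Wf, act, it, hyy, haa, huu, hww]
  rw [hW]
  by_cases hb : ((dc u).2.getD i (false, [])).1 = true
  · simp only [hb, if_true, Bool.and_eq_true, decide_eq_true_eq]
  · simp only [if_neg hb, Bool.or_eq_true, decide_eq_true_eq, Bool.not_eq_true',
      decide_eq_false_iff_not]
    constructor
    · rintro (h | h) h'
      · omega
      · exact h
    · intro h
      by_cases h' : w.length ≤ P1.eval (D (pairBits (pairBits x (dc u).1)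
              (((dc u).2.map (fun s => s.1)).take i))).tail.length
      · exact Or.inr (h h')
      · left; omega

end NF

theorem t_NF (hVOT : S_VOT) : S_NF := by
  classical
  intro O K L hK hL
  obtain ⟨V1, P1, hV1, hK'⟩ := hK
  obtain ⟨V2, P2, ⟨M, hM⟩, hL'⟩ := hL
  obtain ⟨b, hb⟩ := A2.act_bound M
  have hD : Poly M.D := poly_of_polyTime M.poly
  -- bound for `y`
  set Y : Polynomial ℕ := Polynomial.C 2 * Polynomial.X + P2 + Polynomial.C 1 with hY
  set Q : Polynomial ℕ := P1.comp (b.comp Y) with hQ
  set p : Polynomial ℕ := (Polynomial.C 4 * P2 + Polynomial.C 2) + ((M.p.comp Y) *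
    (Polynomial.C 4 * Q + Polynomial.C 7) + Polynomial.C 1) + Q with hp
  refine ⟨NF.Vf M.D V1 P1 P2 M.p, p, ?_, ?_⟩
  · exact hVOT O V1 hV1 Polynomial.X (NF.Wf M.D) (NF.poly_Wf hD)
      (fun s => [NF.chk M.D P1 P2 M.p s])
      (Poly.cons (NF.poly_chk P1 P2 M.p hD) (NPC.Poly.const _))
  intro x
  have hYx : ∀ w0 : List Bool, w0.length ≤ P2.eval x.length →
      (pairBits x w0).length ≤ Y.eval x.length := by
    intro w0 hw0
    rw [A2.length_pairBits, hY]
    simp only [Polynomial.eval_add, Polynomial.eval_mul, Polynomial.eval_C, Polynomial.eval_X]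
    omega
  have hqb : ∀ w0 a : List Bool, w0.length ≤ P2.eval x.length →
      a.length ≤ M.p.eval (pairBits x w0).length →
      P1.eval (M.D (pairBits (pairBits x w0) a)).tail.length ≤ Q.eval x.length := by
    intro w0 a h1 h2
    have h3 := hb (pairBits x w0) a h2
    rw [hQ, Polynomial.eval_comp, Polynomial.eval_comp]
    apply eval_mono
    have h4 : (M.D (pairBits (pairBits x w0) a)).tail.length ≤
        (M.D (pairBits (pairBits x w0) a)).length := by
      rw [List.length_tail]; omega
    exact h4.trans (h3.trans (eval_mono b (hYx w0 h1)))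
  constructor
  · intro hx
    obtain ⟨w0, hw0, hVw⟩ := (hL' x).1 hx
    have hout : M.run (chr K) (pairBits x w0) (M.p.eval (pairBits x w0).length) [] =
        some [true] := by
      have := hM (pairBits x w0)
      rw [hVw] at this
      exact this
    obtain ⟨a, ha1, ha2, ha3, ha4⟩ := NF.run_some M (chr K) _ _ _ _ hout
    simp only [List.nil_append] at ha2 ha3 ha4
    have hcert : ∀ q : List Bool, ∃ c : List Bool, c.length ≤ P1.eval q.length ∧
        (q ∈ K → V1 (pairBits q c) = [true]) := by
      intro q
      by_cases hq : q ∈ K
      · obtain ⟨c, hc, hc'⟩ := (hK' q).1 hq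
        exact ⟨c, hc, fun _ => hc'⟩
      · exact ⟨[], by simp, fun h => absurd h hq⟩
    choose cert hc1 hc2 using hcert
    set d : List (Bool × List Bool) := (List.range a.length).map (fun i =>
      (a.getD i false, cert (M.D (pairBits (pairBits x w0) (a.take i))).tail)) with hd
    have hdl : d.length = a.length := by simp [hd]
    have hda : d.map (fun s => s.1) = a := by
      apply List.ext_getElem
      · simp [hd]
      · intro i h1 h2
        simp [hd, List.getElem?_eq_getElem h2]
    have hdg : ∀ i < a.length, d.getD i (false, []) =
        (a.getD i false, cert (M.D (pairBits (pairBits x w0) (a.take i))).tail) := by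
      intro i hi
      rw [hd, List.getD_eq_getElem?_getD, List.getElem?_map, List.getElem?_range hi]
      rfl
    refine ⟨bits (w0, d), ?_, ?_⟩
    · rw [bits_length, sz_pair]
      have h1 := sz_listBool_le w0
      have h2 : sz d ≤ d.length * ((4 * Q.eval x.length + 6) + 1) + 1 := by
        refine sz_le_length_mul d _ ?_
        intro s hs
        obtain ⟨i, hi, rfl⟩ := List.mem_map.1 hs
        rw [List.mem_range] at hi
        rw [sz_pair]
        have h3 := sz_bool_le (a.getD i false)
        have h4 := sz_listBool_le (cert (M.D (pairBits (pairBits x w0) (a.take i))).tail)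
        have h5 := hc1 (M.D (pairBits (pairBits x w0) (a.take i))).tail
        have h6 := hqb w0 (a.take i) hw0 (by
          rw [List.length_take]; omega)
        omega
      have h3 : d.length ≤ (M.p.comp Y).eval x.length := by
        rw [hdl, Polynomial.eval_comp]
        exact ha1.le.trans (eval_mono M.p (hYx w0 hw0))
      have h4 : d.length * ((4 * Q.eval x.length + 6) + 1) ≤
          (M.p.comp Y).eval x.length * (4 * Q.eval x.length + 7) := by
        apply Nat.mul_le_mul h3
        omega
      rw [hp]
      simp only [Polynomial.eval_add, Polynomial.eval_mul, Polynomial.eval_C]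
      omega
    · intro w _
      rw [NF.Vf_iff, NF.dc_bits]
      simp only [hdl, hda]
      refine ⟨hw0, ha1, ?_, ?_⟩
      · cases h : M.D (pairBits (pairBits x w0) a) with
        | nil => rw [h] at ha4; simp at ha4
        | cons c t =>
          rw [h] at ha3 ha4
          simp only [List.tail_cons] at ha4
          simp only [List.head?_cons, ne_eq, Option.some.injEq, Bool.not_eq_false] at ha3
          rw [ha3, ha4]
      · intro i hi
        obtain ⟨h1, h2⟩ := ha2 i hi
        refine ⟨h1, ?_⟩
        rw [hdg i hi]
        have h3 : a.getD i false = chr K (M.D (pairBits (pairBits x w0) (a.take i))).tail := by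
          rw [List.getD_eq_getElem?_getD, h2]
          rfl
        have h4 := hc1 (M.D (pairBits (pairBits x w0) (a.take i))).tail
        have h5 := hc2 (M.D (pairBits (pairBits x w0) (a.take i))).tail
        by_cases hq : (M.D (pairBits (pairBits x w0) (a.take i))).tail ∈ K
        · have h6 : a.getD i false = true := by
            rw [h3]; simp [chr, hq]
          simp only [h6, if_true]
          exact ⟨h4, h5 hq⟩
        · have h6 : a.getD i false = false := by
            rw [h3]; simp [chr, hq]
          simp only [h6, Bool.false_eq_true, if_false]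
          intro h7 h8
          exact hq ((hK' _).2 ⟨w, h7, h8⟩)
  · rintro ⟨u, _, hu⟩
    have h0 := (NF.Vf_iff M.D V1 P1 P2 M.p x u []).1 (hu [] (by simp))
    obtain ⟨h1, h2, h3, h4⟩ := h0
    set w0 := (NF.dc u).1 with hw0
    set d := (NF.dc u).2 with hd
    set a := d.map (fun s => s.1) with ha
    have hal : a.length = d.length := by simp [ha]
    refine (hL' x).2 ⟨w0, h1, ?_⟩
    have hrun : M.out (chr K) (pairBits x w0) = some [true] := by
      refine NF.some_run M (chr K) (pairBits x w0) [true] a _ [] (by rw [hal]; exact h2) ?_ ?_ ?_
      · intro i hi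
        rw [List.nil_append]
        rw [hal] at hi
        obtain ⟨h5, h6⟩ := h4 i hi
        refine ⟨h5, ?_⟩
        have h7 : a[i]? = some (d.getD i (false, [])).1 := by
          rw [ha, List.getElem?_map, List.getD_eq_getElem?_getD, List.getElem?_eq_getElem hi]
          rfl
        rw [h7]
        congr 1
        by_cases hbi : (d.getD i (false, [])).1 = true
        · rw [if_pos hbi] at h6
          rw [hbi]
          have : (M.D (pairBits (pairBits x w0) (a.take i))).tail ∈ K :=
            (hK' _).2 ⟨_, h6.1, h6.2⟩
          simp [chr, this]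
        · have hbf : (d.getD i (false, [])).1 = false := by simpa using hbi
          rw [hbf]
          have hnot : (M.D (pairBits (pairBits x w0) (a.take i))).tail ∉ K := by
            intro hmem
            obtain ⟨w, hw, hw'⟩ := (hK' _).1 hmem
            have h8 : w.length ≤ p.eval x.length := by
              have h9 := hqb w0 (a.take i) h1 (by
                rw [List.length_take, hal]
                omega)
              rw [hp]
              simp only [Polynomial.eval_add]
              omega
            have h9 := ((NF.Vf_iff M.D V1 P1 P2 M.p x u w).1 (hu w h8)).2.2.2 i hi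
            rw [← hw0, ← hd, ← ha, if_neg hbi] at h9
            exact h9.2 hw hw'
          simp [chr, hnot]
      · rw [List.nil_append, h3]
        simp
      · rw [List.nil_append, h3]
        simp
    have := hM (pairBits x w0)
    rw [hrun] at this
    exact (Option.some.inj this).symm

end Pool.Agent.H490R3.LH
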