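import Pool.Agent.H490R3.LH.Stm
import Pool.Agent.H583R2.S2.Loc
import Pool.Agent.H628R3.RO.D1

/-!
# PEN: the probability that no string is marked
-/

set_option autoImplicit false

namespace Pool.Agent.H490R3.LH

open Pool.Agent.NPC Pool.Agent.H628R3.RO MeasureTheory
open Pool.Agent.H583R2.S2 (chr IsP Mk gc Ys dl NN)
open Pool.Agent.H583R2.NC (wl)
open Pool.Agent.H673R2.OneTT (KA uA)

theorem PEN_loc (n : ℕ) :
    Loc (((Ys n).biUnion (fun y => allSpots (wl n) (gc n 0 y)) : Finset (List Bool)) :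
      Set (List Bool)) (En n) := by
  intro A A' h
  unfold En
  simp only [Set.mem_ofPred_eq]
  refine forall₂_congr fun y hy => not_congr
    (Pool.Agent.H583R2.S2.loc_Mk n 0 y A A' fun z hz => h z ?_)
  rw [Finset.mem_coe, Finset.mem_biUnion]
  exact ⟨y, hy, Finset.mem_coe.1 hz⟩

theorem PEN_prob (n : ℕ) : prob (En n) = (1 - dl n) ^ (Ys n).card := by
  classical
  have h := Pool.Agent.H583R2.S2.prob_pairs n ((Ys n).map ⟨fun y => ((0 : ℕ), y),
    fun a b hab => (Prod.ext_iff.1 hab).2⟩) (by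
      intro x hx
      rw [Finset.mem_map] at hx
      obtain ⟨y, hy, rfl⟩ := hx
      exact (Pool.Agent.H583R2.S2.mem_Ys.1 hy).1)
  rw [Finset.card_map] at h
  rw [← h]
  congr 1
  ext A
  unfold En
  simp only [Set.mem_ofPred_eq, Finset.mem_map, Function.Embedding.coeFn_mk]
  constructor
  · rintro hA x ⟨y, hy, rfl⟩
    exact hA y hy
  · intro hA y hy
    exact hA (0, y) ⟨y, hy, rfl⟩

theorem t_PEN (h1 : S_NUM) : S_PEN := by
  classical
  intro t
  filter_upwards [h1 uA 0, Filter.eventually_ge_atTop t] with n hn hnt S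
  obtain ⟨-, -, -, -, h4⟩ := hn
  have hd : Disjoint (((Ys n).biUnion (fun y => allSpots (wl n) (gc n 0 y)) :
      Finset (List Bool)) : Set (List Bool)) {x : List Bool | x.length ≤ t} := by
    rw [Set.disjoint_left]
    intro z hz hz'
    rw [Finset.mem_coe, Finset.mem_biUnion] at hz
    obtain ⟨y, hy, hz⟩ := hz
    obtain ⟨κ, hκ, l, hl, rfl⟩ := mem_allSpots.1 hz
    rw [Set.mem_ofPred_eq] at hz'
    have h5 := Pool.Agent.H583R2.S2.S6_length (Pool.Agent.H583R2.S2.mem_Ys.1 hy).1 hκ
    have h6 : κ.2.length ≤ (pos κ.1 l κ.2).length := by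
      unfold pos
      simp only [List.length_append, List.length_cons, List.length_replicate]
      omega
    omega
  have h2 := prob_inter_of_disjoint (Finset.finite_toSet _) (finite_length_le t) hd
    (PEN_loc n) (loc_cyl t S)
  rw [h2, PEN_prob]
  exact mul_le_mul_of_nonneg_right h4 measureReal_nonneg

end Pool.Agent.H490R3.LH
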