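import Pool.Agent.H490R3.LH.Stm

set_option autoImplicit false

namespace Pool.Agent.H490R3.LH

open Pool.Agent.NPC Pool.Agent.H628R3.RO

theorem QRY_len (M : Alg) (A : Oracle) (x : List Bool) (n : ℕ) (a : List Bool) :
    (qs M A x n a).length ≤ n := by
  induction n generalizing a with
  | zero => simp [qs]
  | succ n ih =>
    rcases hq : M.D (pairBits x a) with _ | ⟨c, q⟩
    · simp [qs, hq]
    · cases c with
      | true => simp [qs, hq]
      | false =>
        simp only [qs, hq, List.length_cons]
        have := ih (a ++ [A q])
        omega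

theorem QRY_mem (M : Alg) (b : Polynomial ℕ)
    (hb : ∀ x a : List Bool, a.length ≤ M.p.eval x.length →
      (M.D (pairBits x a)).length ≤ b.eval x.length)
    (A : Oracle) (x : List Bool) (n : ℕ) (a : List Bool)
    (ha : a.length + n ≤ M.p.eval x.length) :
    ∀ q ∈ qs M A x n a, q.length ≤ b.eval x.length := by
  induction n generalizing a with
  | zero => intro q hq; simp [qs] at hq
  | succ n ih =>
    intro r hr
    have hD := hb x a (by omega)
    rcases hq : M.D (pairBits x a) with _ | ⟨c, q⟩
    · simp [qs, hq] at hr
    · cases c with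
      | true => simp [qs, hq] at hr
      | false =>
        simp only [qs, hq, List.mem_cons] at hr
        rcases hr with rfl | hr
        · rw [hq, List.length_cons] at hD
          omega
        · exact ih (a ++ [A q]) (by
            rw [List.length_append, List.length_singleton]; omega) r hr

theorem QRY_loc (M : Alg) (A A' : Oracle) (x : List Bool) (n : ℕ) (a : List Bool)
    (h : ∀ q ∈ qs M A x n a, A' q = A q) :
    qs M A' x n a = qs M A x n a ∧ M.run A' x n a = M.run A x n a := by
  induction n generalizing a with
  | zero => exact ⟨rfl, rfl⟩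
  | succ n ih =>
    rcases hq : M.D (pairBits x a) with _ | ⟨c, q⟩
    · simp [qs, hq, Alg.run]
    · cases c with
      | true => simp [qs, hq, Alg.run]
      | false =>
        simp only [qs, hq, List.mem_cons, forall_eq_or_imp] at h
        obtain ⟨h1, h2⟩ := h
        have h3 := ih (a ++ [A q]) h2
        simp only [qs, hq, Alg.run]
        rw [h1]
        exact ⟨by rw [h3.1], h3.2⟩

theorem t_QRY : S_QRY := by
  intro M
  refine ⟨fun A x => QRY_len M A x _ _, ?_, fun A A' x h => QRY_loc M A A' x _ _ h⟩
  obtain ⟨b, hb⟩ := M.next_length
  exact ⟨b, fun A x => QRY_mem M b hb A x _ _ (by simp)⟩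

end Pool.Agent.H490R3.LH
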