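import Pool.Agent.H490R3.LH.Stm
import Pool.Agent.H628R3.RO.A2
import Pool.Agent.NPC.Dec
import Pool.Agent.H622R2.CoNP

/-!
# Task QT: translated and simulated questions
-/

set_option autoImplicit false

namespace Pool.Agent.H490R3.LH

open Pool.Agent.NPC Pool.Agent.H628R3.RO Pool.Agent.H622R2

section QT

variable (D : List Bool → List Bool) (c v : List Bool × List Bool → Bool)
  (tr : List Bool × List Bool → List Bool) (dec : List Bool → List Bool)

/-- one step of the conversion of the answers -/
def QT_step (y s : List Bool) (b : Bool) : List Bool :=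
  s ++ [if c (y, (D (pairBits (dec y) s)).tail) = true then
    v (y, (D (pairBits (dec y) s)).tail) else b]

/-- the answers that the simulated algorithm gets -/
def QT_conv (y a : List Bool) : List Bool := a.foldl (QT_step D c v dec y) []

theorem QT_conv_concat (y a : List Bool) (b : Bool) : QT_conv D c v dec y (a ++ [b]) =
    QT_step D c v dec y (QT_conv D c v dec y a) b := by
  simp [QT_conv, List.foldl_append]

theorem QT_conv_length (y a : List Bool) : (QT_conv D c v dec y a).length = a.length := by
  induction a using List.reverseRecOn with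
  | nil => rfl
  | append_singleton a b ih =>
    rw [QT_conv_concat, QT_step, List.length_append, ih]
    simp

/-- the next action of the simulation -/
def QT_D (p : Polynomial ℕ) (w : List Bool) : List Bool :=
  if p.eval (dec (unpair w).1).length ≤ (unpair w).2.length then [] else
    if (D (pairBits (dec (unpair w).1)
        (QT_conv D c v dec (unpair w).1 (unpair w).2))).head? = some false then
      false :: tr ((unpair w).1, (D (pairBits (dec (unpair w).1)
        (QT_conv D c v dec (unpair w).1 (unpair w).2))).tail) else
      D (pairBits (dec (unpair w).1) (QT_conv D c v dec (unpair w).1 (unpair w).2))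

variable {D c v tr dec}

theorem QT_poly_conv (hD : Poly D) (hc : Poly c) (hv : Poly v) (hdec : Poly dec) :
    Poly (fun q : List Bool × List Bool => QT_conv D c v dec q.1 q.2) := by
  have hstep : Poly (fun q : (List Bool × List Bool) × List Bool × Bool =>
      QT_step D c v dec q.1.1 q.2.1 q.2.2) := by
    have h1 : Poly (fun q : (List Bool × List Bool) × List Bool × Bool => q.1.1) :=
      Poly.fst (Poly.fst Poly.id)
    have h2 : Poly (fun q : (List Bool × List Bool) × List Bool × Bool => q.2.1) :=
      Poly.fst (Poly.snd Poly.id)
    have h3 : Poly (fun q : (List Bool × List Bool) × List Bool × Bool => q.2.2) :=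
      Poly.snd (Poly.snd Poly.id)
    have h4 : Poly (fun q : (List Bool × List Bool) × List Bool × Bool =>
        (q.1.1, (D (pairBits (dec q.1.1) q.2.1)).tail)) :=
      Poly.pair h1 (Poly.tail (hD.comp (poly_pairBits (hdec.comp h1) h2)))
    have h5 : Poly (fun q : (List Bool × List Bool) × List Bool × Bool =>
        if c (q.1.1, (D (pairBits (dec q.1.1) q.2.1)).tail) = true then
          v (q.1.1, (D (pairBits (dec q.1.1) q.2.1)).tail) else q.2.2) :=
      Poly.ite (Poly.decide_eq (hc.comp h4) (NPC.Poly.const true)) (hv.comp h4) h3
    exact Poly.append h2 (Poly.cons h5 (NPC.Poly.const []))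
  refine Poly.foldl (l := fun q : List Bool × List Bool => q.2)
    (s := fun _ => ([] : List Bool)) (F := fun q => QT_step D c v dec q.1)
    (Poly.snd Poly.id) (NPC.Poly.const _) hstep (Polynomial.C 2 * Polynomial.X) ?_
  intro a k _
  have h1 := QT_conv_length D c v dec a.1 (a.2.take k)
  have h2 := sz_listBool_le (QT_conv D c v dec a.1 (a.2.take k))
  have h3 := sz_listBool_ge a.2
  have h4 : (a.2.take k).length ≤ a.2.length := by
    rw [List.length_take]
    exact min_le_right _ _
  change sz (QT_conv D c v dec a.1 (a.2.take k)) ≤ _
  obtain ⟨u, w⟩ := a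
  simp only [sz_pair, Polynomial.eval_mul, Polynomial.eval_X, Polynomial.eval_C] at *
  omega

theorem QT_poly_D (hD : Poly D) (hc : Poly c) (hv : Poly v) (htr : Poly tr) (hdec : Poly dec)
    (p : Polynomial ℕ) : Poly (QT_D D c v tr dec p) := by
  have hx : Poly (fun y => (unpair y).1) := Poly.fst poly_unpair
  have hw : Poly (fun y => (unpair y).2) := Poly.snd poly_unpair
  have hd : Poly (fun w => D (pairBits (dec (unpair w).1)
      (QT_conv D c v dec (unpair w).1 (unpair w).2))) :=
    hD.comp (poly_pairBits (hdec.comp hx)
      ((QT_poly_conv hD hc hv hdec).comp (Poly.pair hx hw)))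
  exact Poly.ite (Poly.decide_le (UPoly.toPoly (UPoly.eval (UPoly.length (hdec.comp hx)) p))
      (Poly.length hw)) (NPC.Poly.const [])
    (Poly.ite (Poly.decide_eq (Poly.head? hd) (NPC.Poly.const _))
      (Poly.cons (NPC.Poly.const false) (htr.comp (Poly.pair hx (Poly.tail hd)))) hd)

end QT

/-- QT: some questions are translated, some are answered by a computation -/
theorem t_QT : S_QT := by
  intro M c v tr dec hc hv htr hdec K
  obtain ⟨q, hq⟩ := hdec.sz_le
  set r : Polynomial ℕ := q.comp (Polynomial.C 4 * Polynomial.X + Polynomial.C 1) with hr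
  have hD : Poly M.D := poly_of_polyTime M.poly
  let M' : Alg := {
    D := QT_D M.D c v tr dec M.p
    poly := polyTime_of_poly_list (QT_poly_D hD hc hv htr hdec M.p)
    p := M.p.comp r + Polynomial.C 1 }
  refine ⟨M', fun y => ?_⟩
  set O : Oracle := fun z => if c (y, z) = true then v (y, z) else K (tr (y, z)) with hO
  have key : ∀ (n n' : ℕ) (a : List Bool), n + 1 ≤ n' →
      n + a.length = M.p.eval (dec y).length →
      M'.run K y n' a = some ((M.run O (dec y) n (QT_conv M.D c v dec y a)).getD []) := by
    intro n
    induction n with
    | zero =>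
      intro n' a hn ha
      obtain ⟨m, rfl⟩ : ∃ m, n' = m + 1 := ⟨n' - 1, by omega⟩
      have hD' : M'.D (pairBits y a) = [] := by
        change QT_D M.D c v tr dec M.p (pairBits y a) = _
        unfold QT_D
        rw [unpair_pairBits]
        exact if_pos (show M.p.eval (dec y).length ≤ a.length by omega)
      rw [A2.run_succ, hD']
      simp [Alg.run]
    | succ n ih =>
      intro n' a hn ha
      obtain ⟨m, rfl⟩ : ∃ m, n' = m + 1 := ⟨n' - 1, by omega⟩
      have hD' : M'.D (pairBits y a) =
          if (M.D (pairBits (dec y) (QT_conv M.D c v dec y a))).head? = some false then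
            false :: tr (y, (M.D (pairBits (dec y) (QT_conv M.D c v dec y a))).tail) else
            M.D (pairBits (dec y) (QT_conv M.D c v dec y a)) := by
        change QT_D M.D c v tr dec M.p (pairBits y a) = _
        unfold QT_D
        rw [unpair_pairBits]
        exact if_neg (show ¬ M.p.eval (dec y).length ≤ a.length by omega)
      rw [A2.run_succ, A2.run_succ, hD']
      by_cases h : (M.D (pairBits (dec y) (QT_conv M.D c v dec y a))).head? = some false
      · rw [if_pos h, if_pos h, if_pos (by simp), List.tail_cons,
          ih m _ (by omega) (by rw [List.length_append]; simp; omega), QT_conv_concat]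
        rfl
      · rw [if_neg h, if_neg h, if_neg h]
        rfl
  have h1 : (dec y).length ≤ r.eval y.length := by
    have h4 := length_lt_sz (dec y)
    have h5 := hq y
    have h7 := sz_listBool_le y
    refine h4.le.trans (h5.trans ?_)
    rw [hr, Polynomial.eval_comp]
    apply eval_mono
    simp only [Polynomial.eval_add, Polynomial.eval_mul, Polynomial.eval_C, Polynomial.eval_X]
    omega
  have h2 := eval_mono M.p h1
  refine key (M.p.eval (dec y).length) _ [] ?_ (by simp)
  change M.p.eval (dec y).length + 1 ≤ (M.p.comp r + Polynomial.C 1).eval y.length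
  rw [Polynomial.eval_add, Polynomial.eval_comp, Polynomial.eval_C]
  omega

end Pool.Agent.H490R3.LH
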