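import Pool.Agent.H490R3.LH.Stm
import Pool.Agent.H628R3.RO.A3

/-!
# SB: the first levels (helper880)
-/

set_option autoImplicit false

namespace Pool.Agent.H490R3.LH

open Pool.Agent.NPC Pool.Agent.H628R3.RO
open Pool.Agent.H583R2.S2 (chr IsP)

theorem SB_neg : Poly (fun z : List Bool => if z = [true] then ([] : List Bool) else [true]) :=
  Poly.ite (Poly.decide_eq Poly.id (NPC.Poly.const _)) (NPC.Poly.const _) (NPC.Poly.const _)

theorem SB_one {O : Oracle} {L : Set (List Bool)} (h : IsP O L) : IsNP O L ∧ IsCoNP O L := by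
  obtain ⟨F, hF, hL⟩ := h
  have h1 : Poly (fun y : List Bool => (unpair y).1) := Poly.fst poly_unpair
  have hF' : IsFP O (fun y => F (unpair y).1) := IsFP.comp hF (IsFP.of_poly h1)
  refine ⟨⟨fun y => F (unpair y).1, 0, hF', fun x => ?_⟩,
    ⟨fun y => if F (unpair y).1 = [true] then ([] : List Bool) else [true], 0,
      IsFP.comp (G := fun z : List Bool => if z = [true] then ([] : List Bool) else [true])
        (IsFP.of_poly SB_neg) hF', fun x => ?_⟩⟩
  · rw [hL]
    constructor
    · intro h
      exact ⟨[], by simp, by simpa [unpair_pairBits] using h⟩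
    · rintro ⟨w, -, hw⟩
      simpa [unpair_pairBits] using hw
  · rw [Set.mem_compl_iff, hL]
    constructor
    · intro h
      exact ⟨[], by simp, by simpa [unpair_pairBits] using h⟩
    · rintro ⟨w, -, hw⟩ hx
      simp only [unpair_pairBits, hx] at hw
      simp at hw

theorem SB_chr (O : Oracle) : chr {u | O u = true} = O := by
  funext u
  unfold chr
  cases h : O u <;> simp [h]

theorem SB_self (O : Oracle) : IsP O {u | O u = true} := by
  refine ⟨fun u => [O u], ?_, fun x => ?_⟩
  · have h := IsFP.tt (A := O) (Q := fun x => [x]) (H := fun p => p.2)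
      (Poly.cons Poly.id (NPC.Poly.const _)) (Poly.snd Poly.id)
    simpa using h
  · simp

theorem t_SB (h1 : S_C1) (h2 : S_CP) : S_SB := by
  refine ⟨fun O L h => SB_one h, fun O L => ⟨?_, ?_⟩, fun O L => ⟨?_, ?_⟩⟩
  · rintro ⟨K, hK, hL⟩
    have hK' : IsP O K := hK
    exact h1 O K L (SB_one hK').1 (SB_one hK').2 hL
  · intro h
    refine ⟨{u | O u = true}, SB_self O, ?_⟩
    rw [SB_chr]
    exact h
  · rintro ⟨K, hK, F, hF, hL⟩
    exact ⟨F, h2 O K F hK hF, hL⟩
  · intro h
    refine ⟨{u | O u = true}, SB_self O, ?_⟩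
    rw [SB_chr]
    exact h

end Pool.Agent.H490R3.LH
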