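import Pool.Agent.H490R3.LH.Stm
import Pool.Agent.H673R2.OneTT.Sep5

/-!
# SJ: the join
-/

set_option autoImplicit false

namespace Pool.Agent.H490R3.LH

open Pool.Agent.NPC Pool.Agent.H628R3.RO MeasureTheory
open Pool.Agent.H583R2.S2 (chr IsP)
open Pool.Agent.H673R2.OneTT Pool.Agent.H673R2.OneOne

theorem SJ_join_eq (X : Oracle) (A : Set (List Bool)) :
    join X A = Pool.Agent.H673R2.OneTT.join X A := by
  funext q
  rcases q with _ | ⟨b, q⟩
  · rfl
  · cases b
    · rfl
    · rfl

theorem SJ_lift {X : Oracle} (A : Set (List Bool)) {F : List Bool → List Bool}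
    (hF : IsFP X F) : IsFP (join X A) F := by
  rw [SJ_join_eq]
  exact isFP_lift A hF

theorem SJ_isNP_of_isFP {X : Oracle} {F : List Bool → List Bool} (hF : IsFP X F) :
    IsNP X {x | F x = [true]} := by
  refine ⟨fun t => F (unpair t).1, 0, IsFP.comp hF (IsFP.of_poly (Poly.fst poly_unpair)),
    fun x => ?_⟩
  simp only [Set.mem_ofPred_eq, Polynomial.eval_zero, Nat.le_zero, List.length_eq_zero_iff,
    exists_eq_left, unpair_pairBits]

theorem SJ_ask (X : Oracle) {H : List Bool × List Bool → List Bool} (hH : Poly H) :
    IsFP X (fun z => H (z, [X z.tail])) :=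
  IsFP.tt (Q := fun z => [z.tail]) (H := H)
    (Poly.cons (Poly.tail Poly.id) (NPC.Poly.const [])) hH

/-- SJ: the join -/
theorem t_SJ : S_SJ := by
  intro X A
  refine ⟨fun F hF => SJ_lift A hF, ?_, ?_, ?_⟩
  · rintro L ⟨V, p, hV, hL⟩
    exact ⟨V, p, SJ_lift A hV, hL⟩
  · refine ⟨fun x => [join X A (true :: x)], ?_, ?_⟩
    · exact IsFP.tt (A := join X A) (Q := fun x => [true :: x]) (H := fun p => p.2)
        (Poly.cons (Poly.cons (NPC.Poly.const true) Poly.id) (NPC.Poly.const []))
        (Poly.snd Poly.id)
    · intro x
      simp [join, chr]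
  · intro hA hA'
    have hhead : Poly (fun p : List Bool × List Bool => p.1.head?) :=
      Poly.head? (Poly.fst Poly.id)
    have hans : Poly (fun p : List Bool × List Bool => p.2.head?) :=
      Poly.head? (Poly.snd Poly.id)
    have hT : IsNP X {z : List Bool | decide (z.head? = some true) = true} :=
      isNP_of_poly X (Poly.decide_eq (Poly.head? Poly.id) (NPC.Poly.const _))
    have htail : IsFP X (fun z : List Bool => z.tail) := IsFP.of_poly (Poly.tail Poly.id)
    constructor
    · have h1 := SJ_isNP_of_isFP (SJ_ask X
        (H := fun p => [decide (p.1.head? = some false) && decide (p.2.head? = some true)])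
        (Poly.cons (Poly.and (Poly.decide_eq hhead (NPC.Poly.const _))
          (Poly.decide_eq hans (NPC.Poly.const _))) (NPC.Poly.const [])))
      have h2 : IsNP X {z : List Bool | z.tail ∈ A} :=
        IsNP.red ⟨fun z => z.tail, htail, fun _ => Iff.rfl⟩ hA
      have h3 := IsNP.union h1 (IsNP.inter hT h2)
      have he : {z | join X A z = true} = {x : List Bool |
          [decide (x.head? = some false) && decide ([X x.tail].head? = some true)] = [true]} ∪
          ({z : List Bool | decide (z.head? = some true) = true} ∩
            {z : List Bool | z.tail ∈ A}) := by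
        ext z
        rcases z with _ | ⟨b, z⟩
        · simp [join]
        · cases b <;> simp [join, chr]
      rw [he]
      exact h3
    · have h1 := SJ_isNP_of_isFP (SJ_ask X
        (H := fun p => if p.1.head? = none then [true] else
          [decide (p.1.head? = some false) && decide (p.2.head? = some false)])
        (Poly.ite (Poly.decide_eq hhead (NPC.Poly.const _)) (NPC.Poly.const _)
          (Poly.cons (Poly.and (Poly.decide_eq hhead (NPC.Poly.const _))
          (Poly.decide_eq hans (NPC.Poly.const _))) (NPC.Poly.const []))))
      have h2 : IsNP X {z : List Bool | z.tail ∈ Aᶜ} :=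
        IsNP.red ⟨fun z => z.tail, htail, fun _ => Iff.rfl⟩ hA'
      have h3 := IsNP.union h1 (IsNP.inter hT h2)
      have he : {z | join X A z = true}ᶜ = {x : List Bool |
          (if x.head? = none then [true] else
            [decide (x.head? = some false) && decide ([X x.tail].head? = some false)]) =
              [true]} ∪
          ({z : List Bool | decide (z.head? = some true) = true} ∩
            {z : List Bool | z.tail ∈ Aᶜ}) := by
        ext z
        rcases z with _ | ⟨b, z⟩
        · simp [join]
        · cases b <;> simp [join, chr]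
      change IsNP X {z | join X A z = true}ᶜ
      rw [he]
      exact h3

end Pool.Agent.H490R3.LH
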