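import Pool.Agent.H490R3.LH.Stm

/-!
# SNS: many sensitive cells are improbable
-/

set_option autoImplicit false

namespace Pool.Agent.H490R3.LH

open Finset

/-- the event of the encoding lemma for the set `K` of cells -/
def SNSev {α β : Type} [DecidableEq α] (W : Finset α) (cell : β → Finset α) (P : ℕ)
    (f : Finset α → Prop) (K : Finset β) (h : Finset α) : Prop :=
  f h ∧ ∀ y ∈ K, ∃ T : Finset α, T.card ≤ P ∧
      (∀ h' ⊆ W, h' ∩ T = (h \ cell y) ∩ T → ¬ f h') ∧
      ∀ y' ∈ K, y' ≠ y → Disjoint (h ∩ cell y') T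

/-- many sensitive cells: there is a set of `r` cells to which the encoding lemma applies -/
theorem SNS_exists (hIND : S_IND) {α β : Type} [DecidableEq α] [DecidableEq β] (W : Finset α)
    (Y : Finset β) (cell : β → Finset α) (P r : ℕ) (f : Finset α → Prop)
    (hf : Cnf W P f)
    (hdisj : ∀ y ∈ Y, ∀ y' ∈ Y, y ≠ y' → Disjoint (cell y) (cell y'))
    (h : Finset α) (hW : h ⊆ W) (hfh : f h) (S : Finset β)
    (hS : ∀ y ∈ S, y ∈ Y ∧ ¬ f (h \ cell y)) (hr : (2 * P + 1) * r ≤ S.card) :
    ∃ K ∈ Y.powersetCard r, SNSev W cell P f K h := by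
  classical
  -- the certificates
  have hT : ∀ y : β, ∃ T : Finset α, y ∈ S → T.card ≤ P ∧
      ∀ h' ⊆ W, h' ∩ T = (h \ cell y) ∩ T → ¬ f h' := by
    intro y
    by_cases hy : y ∈ S
    · obtain ⟨T, hT1, hT2⟩ := hf (h \ cell y) (sdiff_subset.trans hW) (hS y hy).2
      exact ⟨T, fun _ => ⟨hT1, hT2⟩⟩
    · exact ⟨∅, fun h => absurd h hy⟩
  choose T hT using hT
  let d : β → Finset β := fun y => S.filter (fun y' => ¬ Disjoint (h ∩ cell y') (T y))
  have hd : ∀ y ∈ S, (d y).card ≤ P := by
    intro y hy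
    -- an injection from d y into T y
    have hex : ∀ y' : β, ∃ a : α, y' ∈ d y → a ∈ T y ∧ a ∈ cell y' := by
      intro y'
      by_cases hy' : y' ∈ d y
      · have := (mem_filter.1 hy').2
        rw [Finset.not_disjoint_iff] at this
        obtain ⟨a, ha1, ha2⟩ := this
        exact ⟨a, fun _ => ⟨ha2, (mem_inter.1 ha1).2⟩⟩
      · by_cases hne : Nonempty α
        · exact ⟨hne.some, fun h => absurd h hy'⟩
        · exfalso
          apply hne
          -- α is empty, so f is decided by the empty set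
          exact False.elim (by
            have hall : h \ cell y = h := by
              ext a; exact (hne ⟨a⟩).elim
            exact (hS y hy).2 (by rw [hall]; exact hfh))
    choose g hg using hex
    refine le_trans ?_ (hT y hy).1
    refine Finset.card_le_card_of_injOn g (fun y' hy' => (hg y' hy').1) ?_
    intro y1 hy1 y2 hy2 he
    by_contra hne
    have h1 : y1 ∈ Y := (hS y1 (mem_filter.1 (mem_coe.1 hy1)).1).1
    have h2 : y2 ∈ Y := (hS y2 (mem_filter.1 (mem_coe.1 hy2)).1).1
    have hdj := hdisj y1 h1 y2 h2 hne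
    rw [Finset.disjoint_left] at hdj
    have ha := (hg y1 (mem_coe.1 hy1)).2
    have hb := (hg y2 (mem_coe.1 hy2)).2
    rw [← he] at hb
    exact hdj ha hb
  obtain ⟨K, hKS, hKr, hK⟩ := hIND β S d P r hd hr
  refine ⟨K, ?_, hfh, ?_⟩
  · rw [mem_powersetCard]
    exact ⟨fun y hy => (hS y (hKS hy)).1, hKr⟩
  · intro y hy
    refine ⟨T y, (hT y (hKS hy)).1, (hT y (hKS hy)).2, ?_⟩
    intro y' hy' hne
    have := hK y hy y' hy' hne
    by_contra hnd
    exact this (mem_filter.2 ⟨hKS hy', hnd⟩)

open Classical in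
theorem t_SNS (hIND : S_IND) (hENC : S_ENC) : S_SNS := by
  intro α β _ _ W Y cell P r f w hw hf hcell hdisj
  have hstep : Wt w W (fun h => f h ∧
      (2 * P + 1) * r ≤ (Y.filter (fun y => ¬ f (h \ cell y))).card) ≤
      ∑ K ∈ Y.powersetCard r, Wt w W (SNSev W cell P f K) := by
    unfold Wt
    rw [Finset.sum_comm]
    refine Finset.sum_le_sum ?_
    intro h hh
    rw [mem_powerset] at hh
    split_ifs with hc
    · obtain ⟨K, hK1, hK2⟩ := SNS_exists hIND W Y cell P r f hf hdisj h hh hc.1
        (Y.filter (fun y => ¬ f (h \ cell y))) (fun y hy => mem_filter.1 hy) hc.2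
      have := Finset.single_le_sum (f := fun K => if SNSev W cell P f K h then w ^ h.card else 0)
        (s := Y.powersetCard r) (fun K _ => by
          show (0 : ℝ) ≤ if SNSev W cell P f K h then w ^ h.card else 0
          split_ifs
          · exact pow_nonneg hw _
          · exact le_rfl) hK1
      simp only [if_pos hK2] at this
      exact this
    · refine Finset.sum_nonneg ?_
      intro K _
      split_ifs
      · exact pow_nonneg hw _
      · exact le_rfl
  refine hstep.trans ?_
  have hb : ∀ K ∈ Y.powersetCard r, Wt w W (SNSev W cell P f K) ≤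
      (P * w) ^ r * (1 + w) ^ W.card := by
    intro K hK
    rw [mem_powersetCard] at hK
    have := hENC α β W cell K P f w hw hf (fun y hy => hcell y (hK.1 hy))
      (fun y hy y' hy' => hdisj y (hK.1 hy) y' (hK.1 hy'))
    rw [hK.2] at this
    exact this
  refine (Finset.sum_le_card_nsmul _ _ _ hb).trans ?_
  rw [nsmul_eq_mul, card_powersetCard, mul_assoc]
  have hc : ((Y.card.choose r : ℕ) : ℝ) ≤ (Y.card : ℝ) ^ r := by
    exact_mod_cast Nat.choose_le_pow Y.card r
  refine mul_le_mul_of_nonneg_right hc ?_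
  have : (0 : ℝ) ≤ P * w := mul_nonneg (Nat.cast_nonneg _) hw
  positivity

end Pool.Agent.H490R3.LH
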