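import Pool.Agent.H490R3.LH.Stm

set_option autoImplicit false

namespace Pool.Agent.H490R3.LH

open Pool.Agent.NPC Pool.Agent.H628R3.RO
open Pool.Agent.H583R2.S2 (chr IsP Mk gc Ys dl NN)

theorem SPC_mono (q : Polynomial ℕ) {m n : ℕ} (h : m ≤ n) : q.eval m ≤ q.eval n := by
  rw [Polynomial.eval_eq_sum_range, Polynomial.eval_eq_sum_range]
  exact Finset.sum_le_sum fun i _ => Nat.mul_le_mul_left _ (Nat.pow_le_pow_left h i)

theorem t_SPC : S_SPC := by
  classical
  intro X q hq
  refine ⟨(Polynomial.X + 1) * q, fun n => ?_⟩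
  let T : ℕ → Finset (List Bool) := fun m => (Ys m).filter (fun y => X ∈ Mk m 0 y)
  let U : Finset (List Bool) := (Finset.range (n + 1)).biUnion
    (fun m => (T m).image (fun y => pairBits (List.replicate m true) y))
  have hsub : {z | z ∈ (CC X)ᶜ ∧ z.length ≤ n} ⊆ (U : Set (List Bool)) := by
    rintro z ⟨hz, hn⟩
    have h1 : ∃ m y, z = pairBits (List.replicate m true) y ∧ y ∈ Ys m ∧ X ∈ Mk m 0 y := by
      by_contra hcon
      apply hz
      intro m y h2 h3 h4
      exact hcon ⟨m, y, h2, h3, h4⟩
    obtain ⟨m, y, h2, h3, h4⟩ := h1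
    have hm : m ≤ n := by
      have : (List.replicate m true).length ≤ z.length := by
        rw [h2]
        simp [pairBits]
        try omega
      rw [List.length_replicate] at this
      omega
    rw [Finset.mem_coe, Finset.mem_biUnion]
    refine ⟨m, Finset.mem_range.mpr (by omega), ?_⟩
    rw [Finset.mem_image]
    exact ⟨y, Finset.mem_filter.mpr ⟨h3, h4⟩, h2.symm⟩
  have hT : ∀ m, (T m).card ≤ q.eval m := by
    intro m
    refine le_trans (le_of_eq ?_) (hq m)
    rw [← Set.ncard_coe_finset]
    congr 1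
    ext y
    simp [T]
  have key : {z | z ∈ (CC X)ᶜ ∧ z.length ≤ n}.ncard ≤ ((Polynomial.X + 1) * q).eval n := calc
    {z | z ∈ (CC X)ᶜ ∧ z.length ≤ n}.ncard ≤ (U : Set (List Bool)).ncard :=
        Set.ncard_le_ncard hsub U.finite_toSet
    _ = U.card := Set.ncard_coe_finset U
    _ ≤ ∑ m ∈ Finset.range (n + 1), ((T m).image (fun y => pairBits (List.replicate m true) y)).card :=
        Finset.card_biUnion_le
    _ ≤ ∑ _m ∈ Finset.range (n + 1), q.eval n := by
        refine Finset.sum_le_sum fun m hm => ?_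
        rw [Finset.mem_range] at hm
        exact Finset.card_image_le.trans ((hT m).trans (SPC_mono q (by omega)))
    _ = ((Polynomial.X + 1) * q).eval n := by
        simp
  exact key

end Pool.Agent.H490R3.LH
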