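import Pool.Agent.H490R3.LH.Stm
import Pool.Agent.H583R2.S2.Loc
import Pool.Agent.H628R3.RO.M3

/-!
# STG: the inequality for one stage
-/

set_option autoImplicit false

namespace Pool.Agent.H490R3.LH

open Pool.Agent.NPC Pool.Agent.H628R3.RO MeasureTheory
open Pool.Agent.H583R2.S2 (chr IsP Mk gc Ys dl NN)
open Pool.Agent.H583R2.NC (wl)

/-- the short strings, as a type: a length and the bits -/
abbrev STG_U (k : ℕ) : Type := Σ j : Fin (k + 1), (Fin (j : ℕ) → Bool)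

theorem STG_card_U (k : ℕ) : Fintype.card (STG_U k) ≤ 2 ^ (k + 1) := by
  have h : ∀ n : ℕ, ∑ i ∈ Finset.range n, 2 ^ i + 1 = 2 ^ n := by
    intro n
    induction n with
    | zero => rfl
    | succ n ih => rw [Finset.sum_range_succ, pow_succ]; omega
  rw [Fintype.card_sigma]
  have h1 : ∑ j : Fin (k + 1), Fintype.card (Fin (j : ℕ) → Bool) =
      ∑ i ∈ Finset.range (k + 1), 2 ^ i := by
    rw [← Fin.sum_univ_eq_sum_range]
    refine Finset.sum_congr rfl fun j _ => ?_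
    rw [Fintype.card_fun, Fintype.card_bool, Fintype.card_fin]
  rw [h1]
  have := h (k + 1)
  omega

theorem STG_exists_U (k : ℕ) (S : List Bool → Prop) :
    (∃ u : STG_U k, S (List.ofFn u.2)) ↔ ∃ u : List Bool, u.length ≤ k ∧ S u := by
  constructor
  · rintro ⟨⟨j, v⟩, h⟩
    refine ⟨List.ofFn v, ?_, h⟩
    rw [List.length_ofFn]
    have := j.2
    omega
  · rintro ⟨u, hu, h⟩
    refine ⟨⟨⟨u.length, by omega⟩, fun i => u.get i⟩, ?_⟩
    have e : List.ofFn (fun i : Fin u.length => u.get i) = u := List.ofFn_get u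
    show S (List.ofFn (fun i : Fin u.length => u.get i))
    rw [e]
    exact h

theorem STG_Wt_congr {α : Type} [DecidableEq α] (w : ℝ) (W : Finset α)
    (S S' : Finset α → Prop) (h : ∀ g ⊆ W, (S g ↔ S' g)) : Wt w W S = Wt w W S' := by
  classical
  unfold Wt
  refine Finset.sum_congr rfl fun g hg => ?_
  rw [Finset.mem_powerset] at hg
  by_cases hs : S g
  · rw [if_pos hs, if_pos ((h g hg).1 hs)]
  · rw [if_neg hs, if_neg (fun h' => hs ((h g hg).2 h'))]

theorem STG_Wt_nonneg {α : Type} [DecidableEq α] (w : ℝ) (hw : 0 ≤ w) (W : Finset α)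
    (S : Finset α → Prop) : 0 ≤ Wt w W S := by
  classical
  unfold Wt
  refine Finset.sum_nonneg fun g _ => ?_
  split_ifs
  · exact pow_nonneg hw _
  · exact le_refl _

theorem STG_gc_sub {n : ℕ} {y : List Bool} (hy : y ∈ Ys n) : gc n 0 y ⊆ Wn n := by
  unfold Wn
  exact Finset.subset_biUnion_of_mem (gc n 0) hy

theorem STG_En_plant (n : ℕ) (B : Oracle) (hB : B ∈ NoHit (wl n) (Wn n)) (h : Finset Cand) :
    plant (allSpots (wl n) h) B ∈ En n ↔ Gd (Ys n) (gc n 0) h := by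
  unfold En Gd
  rw [Set.mem_ofPred_eq]
  refine forall₂_congr fun y hy => ?_
  unfold Mk
  constructor
  · intro h1
    unfold NoHit at h1
    rw [Set.mem_ofPred_eq] at h1
    push Not at h1
    obtain ⟨κ, hκ, hit⟩ := h1
    by_cases hκh : κ ∈ h
    · exact ⟨κ, Finset.mem_inter.2 ⟨hκh, hκ⟩⟩
    · rw [M2.hit_plant hκh] at hit
      exact absurd hit (hB κ (STG_gc_sub hy hκ))
  · rintro ⟨κ, hκ⟩ h1
    rw [Finset.mem_inter] at hκ
    exact h1 κ hκ.2 (M2.hit_plant_self hκ.1 B)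

theorem STG_spot_length {n : ℕ} {h : Finset Cand} (hh : h ⊆ Wn n) {x : List Bool}
    (hx : x ∈ allSpots (wl n) h) : 2 * n ≤ x.length := by
  rw [M2.mem_allSpots] at hx
  obtain ⟨κ, hκ, hx⟩ := hx
  rw [M2.mem_spots] at hx
  obtain ⟨i, _, rfl⟩ := hx
  have h1 := hh hκ
  unfold Wn at h1
  rw [Finset.mem_biUnion] at h1
  obtain ⟨y, hy, h2⟩ := h1
  rw [Pool.Agent.H583R2.S2.mem_gc] at h2
  obtain ⟨_, _, z, _, h3⟩ := h2
  have h4 := (Pool.Agent.H583R2.S2.mem_Ys.1 hy).1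
  unfold pos
  rw [h3]
  simp only [List.length_append, List.length_cons, List.length_replicate]
  omega

theorem STG_cyl_plant (n t : ℕ) (S : List (List Bool)) (hn : t < n) (B : Oracle)
    (h : Finset Cand) (hh : h ⊆ Wn n) :
    plant (allSpots (wl n) h) B ∈ cyl t S ↔ B ∈ cyl t S := by
  unfold cyl
  rw [Set.mem_ofPred_eq, Set.mem_ofPred_eq]
  refine forall₂_congr fun x hx => ?_
  have : x ∉ allSpots (wl n) h := by
    intro h1
    have := STG_spot_length hh h1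
    omega
  unfold plant
  rw [if_neg this]

theorem STG_loc_Fn (V : Alg) (p : Polynomial ℕ) (n : ℕ) :
    ∃ K : Set (List Bool), K.Finite ∧ Loc K (Fn V p n) := by
  obtain ⟨qb, hqb⟩ := V.out_local
  refine ⟨{x | x.length ≤ qb.eval (2 * (2 * n + 1 + p.eval n) + 1 + p.eval n)},
    finite_short _, ?_⟩
  intro A A' hA
  unfold Fn
  rw [Set.mem_ofPred_eq, Set.mem_ofPred_eq]
  refine exists_congr fun u => and_congr_right fun hu => forall₂_congr fun w hw => ?_
  obtain ⟨Q, _, hQ, hQ'⟩ := hqb A (pairBits (pairBits (List.replicate n true) u) w)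
  have hlen : (pairBits (pairBits (List.replicate n true) u) w).length ≤
      2 * (2 * n + 1 + p.eval n) + 1 + p.eval n := by
    rw [length_pairBits, length_pairBits, List.length_replicate]
    omega
  have h1 := hQ' A' (fun q hq => (hA q ((hQ q hq).trans (eval_mono _ hlen))).symm)
  rw [h1]

theorem STG_loc_En (n : ℕ) : ∃ K : Set (List Bool), K.Finite ∧ Loc K (En n) := by
  refine ⟨(allSpots (wl n) (Wn n) : Finset (List Bool)), Finset.finite_toSet _, ?_⟩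
  intro A A' hA
  unfold En
  rw [Set.mem_ofPred_eq, Set.mem_ofPred_eq]
  refine forall₂_congr fun y hy => not_congr ?_
  refine M2.loc_noHit (K := ((allSpots (wl n) (Wn n) : Finset (List Bool)) : Set (List Bool)))
    (fun κ hκ i hi => ?_) A A' hA
  rw [Finset.mem_coe, M2.mem_allSpots]
  exact ⟨κ, STG_gc_sub hy hκ, M2.mem_spots.2 ⟨i, hi, rfl⟩⟩

theorem STG_w0_nonneg (n : ℕ) : 0 ≤ w0 n := by
  unfold w0
  have h1 : ((1 : ℝ) / 2) ^ wl n ≤ 1 := pow_le_one₀ (by norm_num) (by norm_num)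
  have h2 : (0 : ℝ) ≤ (1 / 2) ^ wl n := by positivity
  exact div_nonneg h2 (by linarith)

theorem STG_comb (hCMB : S_CMB) (hLCV : S_LCV) (V : Alg) (p : Polynomial ℕ) (n : ℕ)
    (h1 : (2 : ℝ) ^ (p.eval n + 1) * (((Ys n).card : ℝ) ^ (p.eval n + n) *
      (Pn V p n * w0 n) ^ (p.eval n + n)) ≤ 1 / 64)
    (h2 : 8 * ((2 * (Pn V p n : ℝ) + 1) * ((p.eval n + n : ℕ) : ℝ)) ≤ (Ys n).card)
    (h3 : (1 + w0 n) ^ (n * 2 ^ wl n) - 1 ≤ 2 * (Ys n).card) (h4 : (0 : ℝ) < (Ys n).card)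
    (B : Oracle) (hB : B ∈ NoHit (wl n) (Wn n)) :
    7 / 8 * Wt (w0 n) (Wn n) (fun h => plant (allSpots (wl n) h) B ∈ Fn V p n ∩ En n) ≤
      1 / 64 * (1 + w0 n) ^ (Wn n).card +
        2 * Wt (w0 n) (Wn n) (fun h => plant (allSpots (wl n) h) B ∈ Fn V p n ∩ (En n)ᶜ) := by
  classical
  have hw := STG_w0_nonneg n
  have hc := hCMB Cand (List Bool) (STG_U (p.eval n)) (Wn n) (Ys n) (gc n 0) (n * 2 ^ wl n)
    (Pn V p n) (p.eval n + n)
    (fun u h => ∀ w : List Bool, w.length ≤ p.eval n → V.out (plant (allSpots (wl n) h) B)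
        (pairBits (pairBits (List.replicate n true) (List.ofFn u.2)) w) = some [true])
    (w0 n) hw
    (fun u => hLCV V p n B (List.ofFn u.2) (by
      rw [List.length_ofFn]
      have := u.1.2
      omega))
    (fun y hy => ⟨STG_gc_sub hy, Pool.Agent.H583R2.S2.card_gc n 0 y⟩)
    (fun y hy y' hy' hne => Pool.Agent.H583R2.S2.gc_disjoint
      (by rw [(Pool.Agent.H583R2.S2.mem_Ys.1 hy).1, (Pool.Agent.H583R2.S2.mem_Ys.1 hy').1])
      (fun he => hne (Prod.ext_iff.1 he).2))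
  have hF : ∀ h : Finset Cand, (∃ u : STG_U (p.eval n), ∀ w : List Bool, w.length ≤ p.eval n →
      V.out (plant (allSpots (wl n) h) B)
        (pairBits (pairBits (List.replicate n true) (List.ofFn u.2)) w) = some [true]) ↔
      plant (allSpots (wl n) h) B ∈ Fn V p n := by
    intro h
    unfold Fn
    rw [Set.mem_ofPred_eq]
    exact STG_exists_U (p.eval n) (fun u => ∀ w : List Bool, w.length ≤ p.eval n →
      V.out (plant (allSpots (wl n) h) B)
        (pairBits (pairBits (List.replicate n true) u) w) = some [true])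
  rw [STG_Wt_congr (w0 n) (Wn n) _
      (fun h => plant (allSpots (wl n) h) B ∈ Fn V p n ∩ En n)
      (fun h _ => and_congr (hF h) (STG_En_plant n B hB h).symm),
    STG_Wt_congr (w0 n) (Wn n)
      (fun h => (∃ u : STG_U (p.eval n), ∀ w : List Bool, w.length ≤ p.eval n →
        V.out (plant (allSpots (wl n) h) B)
          (pairBits (pairBits (List.replicate n true) (List.ofFn u.2)) w) = some [true]) ∧
        ¬ Gd (Ys n) (gc n 0) h)
      (fun h => plant (allSpots (wl n) h) B ∈ Fn V p n ∩ (En n)ᶜ)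
      (fun h _ => and_congr (hF h) (not_congr (STG_En_plant n B hB h).symm))] at hc
  have hW1 := STG_Wt_nonneg (w0 n) hw (Wn n)
    (fun h => plant (allSpots (wl n) h) B ∈ Fn V p n ∩ En n)
  have hW2 := STG_Wt_nonneg (w0 n) hw (Wn n)
    (fun h => plant (allSpots (wl n) h) B ∈ Fn V p n ∩ (En n)ᶜ)
  generalize Wt (w0 n) (Wn n) (fun h => plant (allSpots (wl n) h) B ∈ Fn V p n ∩ En n) = X1
    at hc hW1 ⊢
  generalize Wt (w0 n) (Wn n) (fun h => plant (allSpots (wl n) h) B ∈ Fn V p n ∩ (En n)ᶜ) = X2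
    at hc hW2 ⊢
  have hU : (Fintype.card (STG_U (p.eval n)) : ℝ) ≤ 2 ^ (p.eval n + 1) := by
    exact_mod_cast STG_card_U (p.eval n)
  have hG : (0 : ℝ) ≤ (1 + w0 n) ^ (Wn n).card := pow_nonneg (by linarith) _
  have hA0 : (0 : ℝ) ≤ ((Ys n).card : ℝ) ^ (p.eval n + n) *
      ((Pn V p n : ℝ) * w0 n) ^ (p.eval n + n) :=
    mul_nonneg (pow_nonneg h4.le _) (pow_nonneg (mul_nonneg (Nat.cast_nonneg _) hw) _)
  have e1 : (Fintype.card (STG_U (p.eval n)) : ℝ) * (((Ys n).card : ℝ) ^ (p.eval n + n) *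
      ((Pn V p n : ℝ) * w0 n) ^ (p.eval n + n) * (1 + w0 n) ^ (Wn n).card) ≤
      1 / 64 * (1 + w0 n) ^ (Wn n).card := by
    calc (Fintype.card (STG_U (p.eval n)) : ℝ) * (((Ys n).card : ℝ) ^ (p.eval n + n) *
        ((Pn V p n : ℝ) * w0 n) ^ (p.eval n + n) * (1 + w0 n) ^ (Wn n).card)
        = (Fintype.card (STG_U (p.eval n)) : ℝ) * (((Ys n).card : ℝ) ^ (p.eval n + n) *
        ((Pn V p n : ℝ) * w0 n) ^ (p.eval n + n)) * (1 + w0 n) ^ (Wn n).card := by ring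
      _ ≤ 2 ^ (p.eval n + 1) * (((Ys n).card : ℝ) ^ (p.eval n + n) *
        ((Pn V p n : ℝ) * w0 n) ^ (p.eval n + n)) * (1 + w0 n) ^ (Wn n).card :=
          mul_le_mul_of_nonneg_right (mul_le_mul_of_nonneg_right hU hA0) hG
      _ ≤ 1 / 64 * (1 + w0 n) ^ (Wn n).card := mul_le_mul_of_nonneg_right h1 hG
  have e2 : 7 / 8 * ((Ys n).card : ℝ) * X1 ≤
      (((Ys n).card : ℝ) - (2 * (Pn V p n : ℝ) + 1) * ((p.eval n + n : ℕ) : ℝ)) * X1 := by
    apply mul_le_mul_of_nonneg_right _ hW1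
    linarith
  have e3 : ((1 + w0 n) ^ (n * 2 ^ wl n) - 1) * X2 ≤ 2 * ((Ys n).card : ℝ) * X2 :=
    mul_le_mul_of_nonneg_right h3 hW2
  have e4 : ((Ys n).card : ℝ) * ((Fintype.card (STG_U (p.eval n)) : ℝ) *
      (((Ys n).card : ℝ) ^ (p.eval n + n) *
      ((Pn V p n : ℝ) * w0 n) ^ (p.eval n + n) * (1 + w0 n) ^ (Wn n).card)) ≤
      ((Ys n).card : ℝ) * (1 / 64 * (1 + w0 n) ^ (Wn n).card) :=
    mul_le_mul_of_nonneg_left e1 h4.le
  have e5 : ((Ys n).card : ℝ) * (7 / 8 * X1) ≤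
      ((Ys n).card : ℝ) * (1 / 64 * (1 + w0 n) ^ (Wn n).card + 2 * X2) := by
    calc ((Ys n).card : ℝ) * (7 / 8 * X1) = 7 / 8 * ((Ys n).card : ℝ) * X1 := by ring
      _ ≤ _ := e2
      _ ≤ _ := hc
      _ ≤ ((Ys n).card : ℝ) * (1 / 64 * (1 + w0 n) ^ (Wn n).card) +
          2 * ((Ys n).card : ℝ) * X2 := add_le_add e4 e3
      _ = _ := by ring
  exact le_of_mul_le_mul_left e5 h4

theorem t_STG (hCMB : S_CMB) (hINT : S_INT) (hLCV : S_LCV) (hNUM : S_NUM) : S_STG := by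
  intro V p t
  filter_upwards [hNUM V p, Filter.eventually_gt_atTop t] with n hn hnt S
  obtain ⟨h1, h2, h3, h4, -⟩ := hn
  obtain ⟨K1, hK1, hL1⟩ := STG_loc_Fn V p n
  obtain ⟨K2, hK2, hL2⟩ := STG_loc_En n
  have hfin : (K1 ∪ K2 ∪ {x : List Bool | x.length ≤ t}).Finite :=
    (hK1.union hK2).union (finite_short t)
  have hl1 : Loc (K1 ∪ K2 ∪ {x : List Bool | x.length ≤ t}) (Fn V p n) :=
    hL1.monoM (fun x hx => Or.inl (Or.inl hx))
  have hl2 : Loc (K1 ∪ K2 ∪ {x : List Bool | x.length ≤ t}) (En n) :=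
    hL2.monoM (fun x hx => Or.inl (Or.inr hx))
  have hl3 : Loc (K1 ∪ K2 ∪ {x : List Bool | x.length ≤ t}) (cyl t S) :=
    (loc_cyl_aux t S).monoM (fun x hx => Or.inr hx)
  exact hINT (K1 ∪ K2 ∪ {x : List Bool | x.length ≤ t}) (Fn V p n ∩ En n)
    (Fn V p n ∩ (En n)ᶜ) (cyl t S) (Wn n) (wl n) (7 / 8) 2 (1 / 64) (w0 n) hfin
    (M2.Loc.inter hl1 hl2) (M2.Loc.inter hl1 (M2.Loc.compl hl2)) hl3
    (by unfold Pool.Agent.H583R2.NC.wl; omega) (by norm_num) (by norm_num) (by norm_num) rfl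
    (fun B h hh => STG_cyl_plant n t S hnt B h hh)
    (fun B hB => STG_comb hCMB hLCV V p n h1 h2 h3 h4 B hB)

end Pool.Agent.H490R3.LH
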