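import Pool.Agent.H490R3.LH.Stm
import Pool.Agent.H673R2.OneTT.Sep5
import Pool.Agent.H628R3.RO.E1

/-!
# Task T2: tally sets in `NP` are in the class `L̂₂`
-/

set_option autoImplicit false

namespace Pool.Agent.H490R3.LH

open Pool.Agent.NPC Pool.Agent.H628R3.RO Pool.Agent.H673R2.OneOne
open Pool.Agent.H583R2.S2 (chr IsP)
open Pool.Agent.H673R2.OneTT (isNP_of_poly)

attribute [local irreducible] unpair

/-- lookup in a table of a tally set -/
def T2_tbl (a q : List Bool) : Bool :=
  decide (q = List.replicate q.length true) && a.getD q.length false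

/-- the join of `X` and the tally set with the given table -/
def T2_J (X : Oracle) (a : List Bool) : Oracle
  | [] => false
  | false :: q => X q
  | true :: q => T2_tbl a q

/-- the set which replaces the set in `NP` relative to the join -/
def T2_K1 (X : Oracle) (N : Alg) (p : Polynomial ℕ) : Set (List Bool) :=
  {x | ∃ w : List Bool, w.length ≤ p.eval (unpair x.tail).2.length ∧
    (N.out (T2_J X (unpair x.tail).1) (pairBits (unpair x.tail).2 w)).getD [] = [true]}

/-- together with the tally set -/
def T2_K (X : Oracle) (T : Set (List Bool)) (N : Alg) (p : Polynomial ℕ) : Set (List Bool) :=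
  {v | decide (v.head? = some true) = true} ∩ T2_K1 X N p ∪
    {v | decide (v.head? = some false) = true} ∩ {v | v.tail ∈ T}

/-- the questions about the tally set -/
def T2_Q (n : ℕ) : List (List Bool) :=
  (List.range n).map (fun i => false :: List.replicate (min i n) true)

theorem T2_tbl_poly {α : Type} [TEnc α] {a q : α → List Bool} (ha : Poly a) (hq : Poly q) :
    Poly (fun i => T2_tbl (a i) (q i)) := by
  unfold T2_tbl
  exact Poly.and (Poly.decide_eq hq (p_replicate (UPoly.length hq) true))
    (Poly.getD ha (Poly.length hq) (NPC.Poly.const false))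

theorem T2_isNP_K1 (h1 : S_QT) (X : Oracle) (N : Alg) (p : Polynomial ℕ) :
    IsNP X (T2_K1 X N p) := by
  have e1 : Poly (fun y : List Bool × List Bool => (unpair (unpair y.1).1.tail).1) :=
    Poly.fst (poly_unpair.comp (Poly.tail (Poly.fst (poly_unpair.comp (Poly.fst Poly.id)))))
  have hc : Poly (fun y : List Bool × List Bool => !decide (y.2.head? = some false)) :=
    Poly.not (Poly.decide_eq (Poly.head? (Poly.snd Poly.id)) (NPC.Poly.const _))
  have hv : Poly (fun y : List Bool × List Bool => decide (y.2.head? = some true) &&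
      T2_tbl (unpair (unpair y.1).1.tail).1 y.2.tail) :=
    Poly.and (Poly.decide_eq (Poly.head? (Poly.snd Poly.id)) (NPC.Poly.const _))
      (T2_tbl_poly e1 (Poly.tail (Poly.snd Poly.id)))
  have htr : Poly (fun y : List Bool × List Bool => y.2.tail) := Poly.tail (Poly.snd Poly.id)
  have d1 : Poly (fun y : List Bool => (unpair (unpair y).1.tail).2) :=
    Poly.snd (poly_unpair.comp (Poly.tail (Poly.fst poly_unpair)))
  have d2 : Poly (fun y : List Bool => (unpair y).2) := Poly.snd poly_unpair
  have hdec : Poly (fun y : List Bool =>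
      pairBits (unpair (unpair y).1.tail).2 (unpair y).2) := H622R2.poly_pairBits d1 d2
  have h3 := h1 N _ _ _ _ hc hv htr hdec X
  have h4 : IsFP X (fun y => (N.out (T2_J X (unpair (unpair y).1.tail).1)
      (pairBits (unpair (unpair y).1.tail).2 (unpair y).2)).getD []) := by
    convert h3 using 5 with y z
    rcases z with _ | ⟨b, z⟩
    · simp [T2_J]
    · cases b <;> simp [T2_J]
  have h5 := IsFP.pair h4 (IsFP.of_poly (A := X) (F := fun y => y) Poly.id)
  have h6 : Poly (fun t : List Bool => [decide ((unpair t).1 = [true]) &&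
      decide ((unpair (unpair t).2).2.length ≤
        p.eval (unpair (unpair (unpair t).2).1.tail).2.length)]) := by
    have g : Poly (fun t : List Bool => (unpair t).2) := Poly.snd poly_unpair
    exact Poly.cons (Poly.and (Poly.decide_eq (Poly.fst poly_unpair) (NPC.Poly.const [true]))
      (Poly.decide_le (Poly.length (d2.comp g)) (UPoly.eval (UPoly.length (d1.comp g)) p).toPoly))
      (NPC.Poly.const [])
  have h7 := IsFP.comp (IsFP.of_poly (A := X) h6) h5
  simp only [unpair_pairBits] at h7
  have h8 : Poly (fun x : List Bool => (unpair x.tail).2) :=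
    Poly.snd (poly_unpair.comp (Poly.tail Poly.id))
  obtain ⟨b, hb⟩ := (IsFP.of_poly (A := X) h8).length_le
  refine ⟨_, p.comp b, h7, fun x => ?_⟩
  simp only [unpair_pairBits, Polynomial.eval_comp, List.cons.injEq, and_true,
    Bool.and_eq_true, decide_eq_true_eq, T2_K1, Set.mem_ofPred_eq]
  constructor
  · rintro ⟨w, hw, hV⟩
    exact ⟨w, hw.trans (eval_mono p (hb x)), hV, hw⟩
  · rintro ⟨w, -, hV, hw⟩
    exact ⟨w, hw, hV⟩

theorem T2_isNP_K (h1 : S_QT) (X : Oracle) {T : Set (List Bool)} (hT : IsNP X T) (N : Alg)
    (p : Polynomial ℕ) : IsNP X (T2_K X T N p) := by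
  have h0 : IsNP X {v | decide (v.head? = some true) = true} :=
    isNP_of_poly X (Poly.decide_eq (Poly.head? Poly.id) (NPC.Poly.const _))
  have h2 : IsNP X {v | decide (v.head? = some false) = true} :=
    isNP_of_poly X (Poly.decide_eq (Poly.head? Poly.id) (NPC.Poly.const _))
  have h3 : IsNP X {v | v.tail ∈ T} :=
    IsNP.red ⟨fun v => v.tail, IsFP.of_poly (Poly.tail Poly.id), fun _ => Iff.rfl⟩ hT
  exact IsNP.union (IsNP.inter h0 (T2_isNP_K1 h1 X N p)) (IsNP.inter h2 h3)

theorem T2_getD (X : Oracle) (T : Set (List Bool)) (N : Alg) (p : Polynomial ℕ) {n i : ℕ}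
    (hi : i < n) : ((T2_Q n).map (chr (T2_K X T N p))).getD i false =
      chr T (List.replicate i true) := by
  classical
  unfold T2_Q
  rw [List.map_map, List.getD_eq_getElem?_getD, List.getElem?_map, List.getElem?_range hi]
  simp [chr, T2_K, min_eq_left hi.le]

theorem T2_J_eq (X : Oracle) {T : Set (List Bool)}
    (hT : ∀ x ∈ T, ∃ n, x = List.replicate n true) (N : Alg) (p : Polynomial ℕ) {n : ℕ}
    (q : List Bool) (hq : q.length ≤ n) :
    T2_J X ((T2_Q n).map (chr (T2_K X T N p))) q = join X T q := by
  classical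
  rcases q with _ | ⟨b, q⟩
  · rfl
  cases b with
  | false => rfl
  | true =>
    simp only [T2_J, join, T2_tbl]
    rw [T2_getD X T N p (by simpa using hq)]
    by_cases h : q = List.replicate q.length true
    · rw [← h]
      simp
    · have h2 : q ∉ T := by
        intro h3
        obtain ⟨m, hm⟩ := hT q h3
        apply h
        rw [hm]
        simp
      simp [h, chr, h2]

theorem T2_chr (X : Oracle) (T : Set (List Bool)) (N : Alg) (p : Polynomial ℕ)
    (a z : List Bool) : chr (T2_K X T N p) (true :: pairBits a z) =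
      chr {z | ∃ w : List Bool, w.length ≤ p.eval z.length ∧
        (N.out (T2_J X a) (pairBits z w)).getD [] = [true]} z := by
  classical
  unfold chr
  refine decide_eq_decide.2 ?_
  unfold T2_K T2_K1
  simp only [Set.mem_union, Set.mem_inter_iff, Set.mem_ofPred_eq, List.head?_cons, List.tail_cons,
    unpair_pairBits]
  simp

theorem T2_Q_poly (B : Polynomial ℕ) : Poly (fun x : List Bool => T2_Q (B.eval x.length)) := by
  unfold T2_Q
  have hn : UPoly (fun x : List Bool => B.eval x.length) := UPoly.eval (UPoly.length Poly.id) B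
  refine NPC.Poly.map (F := fun (x : List Bool) (i : ℕ) =>
    false :: List.replicate (min i (B.eval x.length)) true) hn.range ?_
  have g1 : Poly (fun p : List Bool × ℕ => p.1) := Poly.fst Poly.id
  have g2 : Poly (fun p : List Bool × ℕ => p.2) := Poly.snd Poly.id
  refine Poly.cons (NPC.Poly.const false) (p_replicate ?_ true)
  exact UPoly.of_le (Poly.min g2 ((hn.comp g1).toPoly)) (hn.comp g1) fun p => min_le_right _ _

theorem t_T2 (h1 : S_QT) (h2 : S_SB) : S_T2 := by
  classical
  intro X T hT hTt
  refine ⟨hT, ?_⟩
  rintro L ⟨K, hK, F, ⟨M, hM⟩, hL⟩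
  have hK' := (h2.2.1 _ _).1 hK
  obtain ⟨V, p, ⟨N, hN⟩, hKV⟩ := hK'
  obtain ⟨qM, hqM⟩ := M.out_local
  obtain ⟨qN, hqN⟩ := N.out_local
  set B : Polynomial ℕ := qN.comp (2 * qM + 1 + p.comp qM) with hB
  -- the algorithm
  refine ⟨T2_K X T N p, (h2.2.1 _ _).2 (T2_isNP_K h1 X hT N p),
    fun x => (M.out (fun z => chr (T2_K X T N p) (true ::
      pairBits ((T2_Q (B.eval x.length)).map (chr (T2_K X T N p))) z)) x).getD [], ?_, ?_⟩
  · have g1 : IsFP (chr (T2_K X T N p))
        (fun x => (T2_Q (B.eval x.length)).map (chr (T2_K X T N p))) :=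
      IsFP.tt (H := fun p => p.2) (T2_Q_poly B) (Poly.snd Poly.id)
    have g2 := IsFP.pair g1 (IsFP.of_poly (A := chr (T2_K X T N p)) (F := fun y => y) Poly.id)
    have hc : Poly (fun _ : List Bool × List Bool => false) := NPC.Poly.const _
    have htr : Poly (fun y : List Bool × List Bool =>
        true :: pairBits (unpair y.1).1 y.2) :=
      Poly.cons (NPC.Poly.const true) (H622R2.poly_pairBits
        (Poly.fst (poly_unpair.comp (Poly.fst Poly.id))) (Poly.snd Poly.id))
    have hdec : Poly (fun y : List Bool => (unpair y).2) := Poly.snd poly_unpair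
    have g3 := h1 M _ _ _ _ hc hc htr hdec (chr (T2_K X T N p))
    have g4 := IsFP.comp g3 g2
    simpa only [unpair_pairBits, Bool.false_eq_true, if_false] using g4
  · intro x
    rw [hL]
    obtain ⟨Q, -, hQ, hQ2⟩ := hqM (chr K) x
    have key : M.out (fun z => chr (T2_K X T N p) (true ::
        pairBits ((T2_Q (B.eval x.length)).map (chr (T2_K X T N p))) z)) x =
        M.out (chr K) x := by
      apply hQ2
      intro z hz
      have hz' := hQ z hz
      rw [T2_chr]
      have h3 : ∀ w : List Bool, w.length ≤ p.eval z.length →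
          N.out (T2_J X ((T2_Q (B.eval x.length)).map (chr (T2_K X T N p)))) (pairBits z w) =
            some (V (pairBits z w)) := by
        intro w hw
        rw [← hN]
        obtain ⟨R, -, hR, hR2⟩ := hqN (join X T) (pairBits z w)
        apply hR2
        intro q hq
        apply T2_J_eq X hTt N p
        refine (hR q hq).trans ?_
        rw [hB, Polynomial.eval_comp]
        apply eval_mono
        rw [H628R3.RO.length_pairBits]
        simp only [Polynomial.eval_add, Polynomial.eval_mul, Polynomial.eval_comp,
          Polynomial.eval_one, Polynomial.eval_ofNat]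
        have h5 := hw.trans (eval_mono p hz')
        omega
      have h4 : z ∈ {z | ∃ w : List Bool, w.length ≤ p.eval z.length ∧
          (N.out (T2_J X ((T2_Q (B.eval x.length)).map (chr (T2_K X T N p))))
            (pairBits z w)).getD [] = [true]} ↔ z ∈ K := by
        rw [hKV z]
        constructor
        · rintro ⟨w, hw, h5⟩
          rw [h3 w hw] at h5
          exact ⟨w, hw, h5⟩
        · rintro ⟨w, hw, h5⟩
          refine ⟨w, hw, ?_⟩
          rw [h3 w hw]
          exact h5
      unfold chr
      exact decide_eq_decide.2 h4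
    simp only [key, hM, Option.getD_some]

end Pool.Agent.H490R3.LH
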