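import Pool.Agent.H490R3.LH.Base

/-!
# The statements of the tasks
-/

set_option autoImplicit false

namespace Pool.Agent.H490R3.LH

open Pool.Agent.NPC Pool.Agent.H628R3.RO MeasureTheory
open Pool.Agent.H583R2.S2 (chr IsP Mk gc Ys dl NN)
open Pool.Agent.H583R2.NC (wl)
open Pool.Agent.H673R2.OneTT (KA uA)

/-! ### A. Oracle algorithms -/

/-- QT: some questions are translated, some are answered by a computation -/
def S_QT : Prop := ∀ (M : Alg) (c v : List Bool × List Bool → Bool)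
    (tr : List Bool × List Bool → List Bool) (dec : List Bool → List Bool),
    Poly c → Poly v → Poly tr → Poly dec → ∀ K : Oracle,
    IsFP K (fun y => (M.out (fun z => if c (y, z) = true then v (y, z) else K (tr (y, z)))
      (dec y)).getD [])

/-- VOT: polynomially many runs -/
def S_VOT : Prop := ∀ (A : Oracle) (V : List Bool → List Bool), IsFP A V → ∀ (T : Polynomial ℕ)
    (W : ℕ × List Bool → List Bool), Poly W → ∀ H : List Bool × List Bool → List Bool, Poly H →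
    IsFP A (fun x => H (x, (List.range (T.eval x.length)).map
      (fun i => decide (V (W (i, x)) = [true]))))

/-- CP: an oracle in `P` can be removed -/
def S_CP : Prop := ∀ (O : Oracle) (K : Set (List Bool)) (F : List Bool → List Bool),
    IsP O K → IsFP (chr K) F → IsFP O F

/-- C1: an oracle in `NP ∩ coNP` can be removed -/
def S_C1 : Prop := ∀ (O : Oracle) (K L : Set (List Bool)),
    IsNP O K → IsCoNP O K → IsNP (chr K) L → IsNP O L

/-- NF: the normal form of the languages in `Σ₂` -/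
def S_NF : Prop := ∀ (O : Oracle) (K L : Set (List Bool)), IsNP O K → IsNP (chr K) L →
    ∃ (V : List Bool → List Bool) (p : Polynomial ℕ), IsFP O V ∧
      ∀ x, x ∈ L ↔ ∃ u : List Bool, u.length ≤ p.eval x.length ∧
        ∀ w : List Bool, w.length ≤ p.eval x.length → V (pairBits (pairBits x u) w) = [true]

/-- FN: the converse -/
def S_FN : Prop := ∀ (O : Oracle) (L : Set (List Bool)) (V : List Bool → List Bool)
    (p : Polynomial ℕ), IsFP O V →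
    (∀ x, x ∈ L ↔ ∃ u : List Bool, u.length ≤ p.eval x.length ∧
        ∀ w : List Bool, w.length ≤ p.eval x.length → V (pairBits (pairBits x u) w) = [true]) →
    ∃ K, IsNP O K ∧ IsNP (chr K) L

/-- SB: the first levels -/
def S_SB : Prop := (∀ (O : Oracle) (L : Set (List Bool)), IsP O L → IsNP O L ∧ IsCoNP O L) ∧
    (∀ (O : Oracle) (L : Set (List Bool)), Sig O 1 L ↔ IsNP O L) ∧
    (∀ (O : Oracle) (L : Set (List Bool)), Del O 1 L ↔ IsP O L)

/-- SJ: the join -/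
def S_SJ : Prop := ∀ (X : Oracle) (A : Set (List Bool)),
    (∀ F, IsFP X F → IsFP (join X A) F) ∧ (∀ L, IsNP X L → IsNP (join X A) L) ∧
    IsP (join X A) A ∧
    (IsNP X A → IsCoNP X A → IsNP X {z | join X A z = true} ∧ IsCoNP X {z | join X A z = true})

/-- INC: the known inclusions -/
def S_INC : Prop := ∀ (X : Oracle) (k : ℕ), Low X k ⊆ LowD X (k + 1) ∧
    LowD X (k + 1) ⊆ Low X (k + 1) ∧ High X k ⊆ HighD X (k + 1) ∧
    HighD X (k + 1) ⊆ High X (k + 1)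

/-- T2: tally sets in `NP` are in `L̂₂` -/
def S_T2 : Prop := ∀ (X : Oracle) (T : Set (List Bool)), IsNP X T →
    (∀ x ∈ T, ∃ n, x = List.replicate n true) → T ∈ LowD X 2

/-- T3A -/
def S_T3A : Prop := ∀ (N : Alg) (p : Polynomial ℕ) (X : Oracle) (C : Set (List Bool)),
    IsNP X C → Sig X 2 (KT N p X C)

/-- T3: co-sparse sets in `NP` are in `L̂₃` -/
def S_T3 : Prop := ∀ (X : Oracle) (C : Set (List Bool)), IsNP X C → Sparse Cᶜ → C ∈ LowD X 3

/-- MTB -/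
def S_MTB : Prop := ∀ X : Oracle, IsNP X (TB X)

/-- MCC -/
def S_MCC : Prop := ∀ X : Oracle, IsNP X (CC X)

/-- MLK -/
def S_MLK : Prop := ∀ (l₀ : ℕ) (X : Oracle), IsNP X (LK l₀ X)

/-- MEE -/
def S_MEE : Prop := ∀ X : Oracle, IsCoNP (join X (CC X)) (EE X)

/-- HLK: if there are keys, the complement of `KA` is in `NP` relative to the locked set -/
def S_HLK : Prop := ∀ (X : Oracle) (l₀ : ℕ), (∀ l ≥ l₀, ∃ w, Key X l w) →
    IsCoNP (join X (LK l₀ X)) (KA X)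

/-- H1: the locked set is in `H₁` -/
def S_H1 : Prop := ∀ (X : Oracle) (l₀ : ℕ), (∀ l ≥ l₀, ∃ w, Key X l w) → LK l₀ X ∈ High X 1

/-- SPC -/
def S_SPC : Prop := ∀ (X : Oracle) (q : Polynomial ℕ),
    (∀ n, {y | y ∈ Ys n ∧ X ∈ Mk n 0 y}.ncard ≤ q.eval n) → Sparse (CC X)ᶜ

/-! ### B. Random oracles -/

/-- B1 -/
def S_B1 : Prop := ∀ᵐ X ∂randomOracle, ¬ IsCoNP X (TB X)

/-- B2 -/
def S_B2 : Prop := ∀ᵐ X ∂randomOracle, ∃ l₀ : ℕ, ∀ l ≥ l₀, ∃ w, Key X l w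

/-- QRY: the questions -/
def S_QRY : Prop := ∀ M : Alg, (∀ A x, (qry M A x).length ≤ M.p.eval x.length) ∧
    (∃ b : Polynomial ℕ, ∀ A x, ∀ q ∈ qry M A x, q.length ≤ b.eval x.length) ∧
    ∀ A A' x, (∀ q ∈ qry M A x, A' q = A q) → qry M A' x = qry M A x ∧ M.out A' x = M.out A x

/-- BT: the polynomial `bt` and the locality of the complete set -/
def S_BT : Prop := (∀ l, l ^ 2 + l + 1 ≤ bt.eval l) ∧ (∀ l l', l < l' → bt.eval l < bt.eval l') ∧
    ∀ (l : ℕ) (X X' : Oracle), (∀ q : List Bool, q.length ≤ bt.eval l → X q = X' q) →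
      ∀ x : List Bool, x.length ≤ l → (x ∈ KA X ↔ x ∈ KA X')

/-- LKL: locality of the locked set -/
def S_LKL : Prop := ∀ (l₀ l : ℕ) (X X' : Oracle),
    (∀ q : List Bool, q.length ≤ bt.eval l → X q = X' q) →
    (∀ j ≤ l, ∀ i < bt.eval j, ∀ w : List Bool, w.length = 2 * bt.eval j →
      X (pos 1 i w) = X' (pos 1 i w)) → LKs l₀ l X = LKs l₀ l X'

/-- FND: it is difficult to find keys -/
def S_FND : Prop := ∀ (M : Alg) (l₀ l : ℕ) (x : List Bool),
    prob {X | ∃ y w, true :: pairBits y w ∈ qry M (join X (LKs l₀ l X)) x ∧ l < y.length ∧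
      Key X y.length w} ≤ M.p.eval x.length * (1 / 2) ^ bt.eval l

/-- B3: relative to the locked set, the tally set is not in `P` -/
def S_B3 : Prop := ∀ᵐ X ∂randomOracle, ∀ l₀ : ℕ, ¬ IsP (join X (LK l₀ X)) (TB X)

/-- B4: the set `CC` is co-sparse -/
def S_B4 : Prop := ∀ᵐ X ∂randomOracle, ∃ q : Polynomial ℕ,
    ∀ n, {y | y ∈ Ys n ∧ X ∈ Mk n 0 y}.ncard ≤ q.eval n

/-- IND: independent sets in directed graphs -/
def S_IND : Prop := ∀ (β : Type) [DecidableEq β] (S : Finset β) (d : β → Finset β) (P r : ℕ),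
    (∀ y ∈ S, (d y).card ≤ P) → (2 * P + 1) * r ≤ S.card →
    ∃ K ⊆ S, K.card = r ∧ ∀ y ∈ K, ∀ y' ∈ K, y' ≠ y → y' ∉ d y

/-- ENC: the main lemma -/
def S_ENC : Prop := ∀ (α β : Type) [DecidableEq α] [DecidableEq β] (W : Finset α)
    (cell : β → Finset α) (K : Finset β) (P : ℕ) (f : Finset α → Prop) (w : ℝ), 0 ≤ w →
    Cnf W P f → (∀ y ∈ K, cell y ⊆ W) →
    (∀ y ∈ K, ∀ y' ∈ K, y ≠ y' → Disjoint (cell y) (cell y')) →
    Wt w W (fun h => f h ∧ ∀ y ∈ K, ∃ T : Finset α, T.card ≤ P ∧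
      (∀ h' ⊆ W, h' ∩ T = (h \ cell y) ∩ T → ¬ f h') ∧
      ∀ y' ∈ K, y' ≠ y → Disjoint (h ∩ cell y') T) ≤
    (P * w) ^ K.card * (1 + w) ^ W.card

open Classical in
/-- SNS: many sensitive cells are improbable -/
def S_SNS : Prop := ∀ (α β : Type) [DecidableEq α] [DecidableEq β] (W : Finset α)
    (Y : Finset β) (cell : β → Finset α) (P r : ℕ) (f : Finset α → Prop) (w : ℝ), 0 ≤ w →
    Cnf W P f → (∀ y ∈ Y, cell y ⊆ W) →
    (∀ y ∈ Y, ∀ y' ∈ Y, y ≠ y' → Disjoint (cell y) (cell y')) →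
    Wt w W (fun h => f h ∧ (2 * P + 1) * r ≤ (Y.filter (fun y => ¬ f (h \ cell y))).card) ≤
    (Y.card : ℝ) ^ r * (P * w) ^ r * (1 + w) ^ W.card

open Classical in
/-- TRN: transport -/
def S_TRN : Prop := ∀ (α β : Type) [DecidableEq α] [DecidableEq β] (W : Finset α)
    (Y : Finset β) (cell : β → Finset α) (c : ℕ) (F : Finset α → Prop) (w : ℝ), 0 ≤ w →
    (∀ y ∈ Y, cell y ⊆ W ∧ (cell y).card = c) →
    (∀ y ∈ Y, ∀ y' ∈ Y, y ≠ y' → Disjoint (cell y) (cell y')) →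
    ∑ h ∈ W.powerset, (if Gd Y cell h then
      w ^ h.card * ((Y.filter (fun y => F (h \ cell y))).card : ℝ) else 0) ≤
    ((1 + w) ^ c - 1) * Wt w W (fun h => F h ∧ ¬ Gd Y cell h)

/-- CMB: the combinatorial inequality -/
def S_CMB : Prop := ∀ (α β U : Type) [DecidableEq α] [DecidableEq β] [Fintype U] (W : Finset α)
    (Y : Finset β) (cell : β → Finset α) (c P r : ℕ) (f : U → Finset α → Prop) (w : ℝ), 0 ≤ w →
    (∀ u, Cnf W P (f u)) → (∀ y ∈ Y, cell y ⊆ W ∧ (cell y).card = c) →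
    (∀ y ∈ Y, ∀ y' ∈ Y, y ≠ y' → Disjoint (cell y) (cell y')) →
    ((Y.card : ℝ) - (2 * P + 1) * r) * Wt w W (fun h => (∃ u, f u h) ∧ Gd Y cell h) ≤
      Y.card * (Fintype.card U * ((Y.card : ℝ) ^ r * (P * w) ^ r * (1 + w) ^ W.card)) +
      ((1 + w) ^ c - 1) * Wt w W (fun h => (∃ u, f u h) ∧ ¬ Gd Y cell h)

/-- INT: from sets of hits to oracles -/
def S_INT : Prop := ∀ (K : Set (List Bool)) (S₁ S₂ τ : Set Oracle) (W : Finset Cand) (m : ℕ)
    (a b ε w : ℝ), K.Finite → Loc K S₁ → Loc K S₂ → Loc K τ → 1 ≤ m → 0 ≤ a → 0 ≤ b → 0 ≤ ε →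
    w = (1 / 2) ^ m / (1 - (1 / 2) ^ m) →
    (∀ (B : Oracle) (h : Finset Cand), h ⊆ W → (plant (allSpots m h) B ∈ τ ↔ B ∈ τ)) →
    (∀ B ∈ NoHit m W, a * Wt w W (fun h => plant (allSpots m h) B ∈ S₁) ≤
      ε * (1 + w) ^ W.card + b * Wt w W (fun h => plant (allSpots m h) B ∈ S₂)) →
    a * prob (S₁ ∩ τ) ≤ ε * prob τ + b * prob (S₂ ∩ τ)

/-- LCV: the clauses of a verifier -/
def S_LCV : Prop := ∀ (V : Alg) (p : Polynomial ℕ) (n : ℕ) (B : Oracle) (u : List Bool),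
    u.length ≤ p.eval n → Cnf (Wn n) (Pn V p n) (fun h => ∀ w : List Bool,
      w.length ≤ p.eval n → V.out (plant (allSpots (wl n) h) B)
        (pairBits (pairBits (List.replicate n true) u) w) = some [true])

/-- NUM: numbers -/
def S_NUM : Prop := ∀ (V : Alg) (p : Polynomial ℕ), ∀ᶠ n : ℕ in Filter.atTop,
    (2 : ℝ) ^ (p.eval n + 1) * (((Ys n).card : ℝ) ^ (p.eval n + n) *
      (Pn V p n * w0 n) ^ (p.eval n + n)) ≤ 1 / 64 ∧
    8 * ((2 * (Pn V p n : ℝ) + 1) * ((p.eval n + n : ℕ) : ℝ)) ≤ (Ys n).card ∧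
    (1 + w0 n) ^ (n * 2 ^ wl n) - 1 ≤ 2 * (Ys n).card ∧ (0 : ℝ) < (Ys n).card ∧
    (1 / 4 : ℝ) ≤ (1 - dl n) ^ (Ys n).card

/-- STG: the inequality for one stage -/
def S_STG : Prop := ∀ (V : Alg) (p : Polynomial ℕ) (t : ℕ), ∀ᶠ n : ℕ in Filter.atTop,
    ∀ S : List (List Bool), 7 / 8 * prob (Fn V p n ∩ En n ∩ cyl t S) ≤
      1 / 64 * prob (cyl t S) + 2 * prob (Fn V p n ∩ (En n)ᶜ ∩ cyl t S)

/-- PEN -/
def S_PEN : Prop := ∀ t : ℕ, ∀ᶠ n : ℕ in Filter.atTop,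
    ∀ S : List (List Bool), 1 / 4 * prob (cyl t S) ≤ prob (En n ∩ cyl t S)

/-- B5: the set `EE` is not in `Σ₂` -/
def S_B5 : Prop := ∀ᵐ X ∂randomOracle, ∀ (V : Alg) (p : Polynomial ℕ),
    ¬ ∀ n, (X ∈ En n ↔ X ∈ Fn V p n)

end Pool.Agent.H490R3.LH
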