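import Mathlib
import Pool.Agent.H490R3.LH.Stm
import Pool.Agent.H628R3.RO.A3
import Pool.Agent.H628R3.RO.M3

set_option autoImplicit false

namespace Pool.Agent.H490R3.LH

open Pool.Agent.NPC Pool.Agent.H628R3.RO
open Pool.Agent.H583R2.S2 (chr IsP)

theorem T3_pair_inj {x w x' w' : List Bool} (h : pairBits x w = pairBits x' w') :
    x = x' ∧ w = w' := by
  have h1 := unpair_pairBits x w
  rw [h, unpair_pairBits] at h1
  have h2 := Prod.mk.inj h1
  exact ⟨h2.1.symm, h2.2.symm⟩

theorem T3_rep_inj {m n : ℕ} (h : List.replicate m true = List.replicate n true) : m = n := by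
  have := congrArg List.length h
  simpa using this

/-- the exceptions of length at most `m` -/
def T3_E (C : Set (List Bool)) (m : ℕ) : Set (List Bool) := {z | z ∈ Cᶜ ∧ z.length ≤ m}

theorem T3_fin (C : Set (List Bool)) (m : ℕ) : (T3_E C m).Finite :=
  (finite_short m).subset fun _ hz => hz.2

theorem T3_good_iff (C : Set (List Bool)) (j m : ℕ) :
    (∃ a, GoodL C j m a) ↔ j ≤ (T3_E C m).ncard := by
  classical
  constructor
  · rintro ⟨a, h1, h2, h3⟩
    have h4 : ((a.toFinset : Finset (List Bool)) : Set (List Bool)) ⊆ T3_E C m := by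
      intro q hq
      have := h3 q (List.mem_toFinset.1 (Finset.mem_coe.1 hq))
      exact ⟨this.2, this.1⟩
    have h5 := Set.ncard_le_ncard h4 (T3_fin C m)
    rw [Set.ncard_coe_finset, List.toFinset_card_of_nodup h1, h2] at h5
    exact h5
  · intro hj
    rw [Set.ncard_eq_toFinset_card _ (T3_fin C m)] at hj
    obtain ⟨t, ht1, ht2⟩ := Finset.exists_subset_card_eq hj
    refine ⟨t.toList, t.nodup_toList, by rw [Finset.length_toList, ht2], ?_⟩
    intro q hq
    have := ht1 (Finset.mem_toList.1 hq)
    rw [Set.Finite.mem_toFinset] at this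
    exact ⟨this.2, this.1⟩

theorem T3_good_full {C : Set (List Bool)} {m : ℕ} {a : List (List Bool)}
    (h : GoodL C (T3_E C m).ncard m a) (q : List Bool) : q ∈ a ↔ (q ∉ C ∧ q.length ≤ m) := by
  classical
  obtain ⟨h1, h2, h3⟩ := h
  have h4 : ((a.toFinset : Finset (List Bool)) : Set (List Bool)) ⊆ T3_E C m := by
    intro q hq
    have := h3 q (List.mem_toFinset.1 (Finset.mem_coe.1 hq))
    exact ⟨this.2, this.1⟩
  have h5 : ((a.toFinset : Finset (List Bool)) : Set (List Bool)) = T3_E C m := by
    refine Set.eq_of_subset_of_ncard_le h4 ?_ (T3_fin C m)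
    rw [Set.ncard_coe_finset, List.toFinset_card_of_nodup h1, h2]
  constructor
  · intro hq
    have := h3 q hq
    exact ⟨this.2, this.1⟩
  · rintro ⟨hq1, hq2⟩
    have : q ∈ ((a.toFinset : Finset (List Bool)) : Set (List Bool)) := by
      rw [h5]
      exact ⟨hq1, hq2⟩
    exact List.mem_toFinset.1 (Finset.mem_coe.1 this)

theorem T3_v (N : Alg) (p : Polynomial ℕ) (X : Oracle) (C : Set (List Bool)) (j m : ℕ) :
    pairBits (pairBits (List.replicate j true) (List.replicate m true)) [] ∈ KT N p X C ↔
      j ≤ (T3_E C m).ncard := by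
  rw [← T3_good_iff]
  constructor
  · rintro (⟨j', m', a, h, ha⟩ | ⟨j', m', z, a, u, h, -⟩)
    · obtain ⟨h1, -⟩ := T3_pair_inj h
      obtain ⟨h2, h3⟩ := T3_pair_inj h1
      rw [T3_rep_inj h2, T3_rep_inj h3]
      exact ⟨a, ha⟩
    · obtain ⟨-, h1⟩ := T3_pair_inj h
      exact absurd h1 (by simp)
  · rintro ⟨a, ha⟩
    exact Or.inl ⟨j, m, a, rfl, ha⟩

theorem T3_z (N : Alg) (p : Polynomial ℕ) (X : Oracle) (C : Set (List Bool)) (j m : ℕ)
    (z : List Bool) :
    pairBits (pairBits (List.replicate j true) (List.replicate m true)) (true :: z) ∈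
      KT N p X C ↔
      ∃ a u, GoodL C j m a ∧ u.length ≤ p.eval z.length ∧
      ∀ w : List Bool, w.length ≤ p.eval z.length →
        N.out (join X {q | q ∉ a}) (pairBits (pairBits z u) w) = some [true] := by
  constructor
  · rintro (⟨j', m', a, h, ha⟩ | ⟨j', m', z', a, u, h, h4, h5, h6⟩)
    · obtain ⟨-, h1⟩ := T3_pair_inj h
      exact absurd h1 (by simp)
    · obtain ⟨h1, h7⟩ := T3_pair_inj h
      obtain ⟨h2, h3⟩ := T3_pair_inj h1
      have h8 : z = z' := by simpa using h7
      subst h8
      rw [T3_rep_inj h2, T3_rep_inj h3]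
      exact ⟨a, u, h4, h5, h6⟩
  · rintro ⟨a, u, h4, h5, h6⟩
    exact Or.inr ⟨j, m, z, a, u, rfl, h4, h5, h6⟩

theorem T3_filter (n e : ℕ) (he : e ≤ n) :
    ((List.range n).map (fun j => decide (j + 1 ≤ e))).filter (fun b => b) =
      List.replicate e true := by
  obtain ⟨d, rfl⟩ := Nat.exists_eq_add_of_le he
  rw [List.range_add, List.map_append, List.filter_append]
  have h1 : ((List.range e).map (fun j => decide (j + 1 ≤ e))) = List.replicate e true := by
    rw [List.eq_replicate_iff]
    refine ⟨by simp, ?_⟩
    intro b hb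
    rw [List.mem_map] at hb
    obtain ⟨j, hj, rfl⟩ := hb
    rw [List.mem_range] at hj
    simpa using hj
  have h2 : (((List.range d).map (fun x => e + x)).map
      (fun j => decide (j + 1 ≤ e))).filter (fun b => b) = [] := by
    rw [List.filter_eq_nil_iff]
    intro b hb
    rw [List.mem_map] at hb
    obtain ⟨j, hj, rfl⟩ := hb
    rw [List.mem_map] at hj
    obtain ⟨k, hk, rfl⟩ := hj
    simp
  rw [h1, h2, List.append_nil, List.filter_eq_self]
  intro b hb
  exact (List.eq_of_mem_replicate hb)

theorem T3_urep {α : Type} [TEnc α] {n : α → ℕ} (hn : UPoly n) :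
    Poly (fun a => List.replicate (n a) true) :=
  (NPC.Poly.map (F := fun _ _ => true) hn (NPC.Poly.const true)).congr fun a => by
    rw [List.map_replicate]

/-- the questions of the first phase -/
noncomputable def T3_Q (S mm : Polynomial ℕ) (x : List Bool) : List (List Bool) :=
  (List.range (S.eval x.length)).map (fun j =>
    pairBits (pairBits (List.replicate (min (j + 1) (S.eval x.length)) true)
      (List.replicate (mm.eval x.length) true)) [])

theorem T3_polyQ (S mm : Polynomial ℕ) : Poly (T3_Q S mm) := by
  have hx : UPoly (fun x : List Bool => S.eval x.length) :=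
    UPoly.eval (UPoly.length Poly.id) S
  have hm : UPoly (fun x : List Bool => mm.eval x.length) :=
    UPoly.eval (UPoly.length Poly.id) mm
  have hx' : UPoly (fun y : List Bool × ℕ => S.eval y.1.length) :=
    UPoly.comp (f := fun y : List Bool × ℕ => y.1) hx (Poly.fst Poly.id)
  have hm' : UPoly (fun y : List Bool × ℕ => mm.eval y.1.length) :=
    UPoly.comp (f := fun y : List Bool × ℕ => y.1) hm (Poly.fst Poly.id)
  have hmin : UPoly (fun y : List Bool × ℕ => min (y.2 + 1) (S.eval y.1.length)) :=
    UPoly.of_le (Poly.min (Poly.succ (Poly.snd Poly.id)) hx'.toPoly) hx'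
      (fun _ => min_le_right _ _)
  exact NPC.Poly.map (F := fun (x : List Bool) (j : ℕ) =>
    pairBits (pairBits (List.replicate (min (j + 1) (S.eval x.length)) true)
      (List.replicate (mm.eval x.length) true)) []) hx.range
    (H622R2.poly_pairBits (H622R2.poly_pairBits (T3_urep hmin) (T3_urep hm'))
      (NPC.Poly.const []))

/-- the first phase -/
noncomputable def T3_G (S mm : Polynomial ℕ) (O : Oracle) (x : List Bool) : List Bool :=
  pairBits x (((T3_Q S mm x).map O).filter (fun b => b))

theorem T3_isFP_G (S mm : Polynomial ℕ) (O : Oracle) : IsFP O (T3_G S mm O) :=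
  IsFP.tt (Q := T3_Q S mm) (H := fun y : List Bool × List Bool =>
    pairBits y.1 (y.2.filter (fun b => b))) (T3_polyQ S mm)
    (H622R2.poly_pairBits (Poly.fst Poly.id)
      (Poly.filter (p := fun (_ : List Bool × List Bool) (b : Bool) => b)
        (Poly.snd Poly.id) (Poly.snd Poly.id)))

theorem T3_answers (N : Alg) (p : Polynomial ℕ) (X : Oracle) (C : Set (List Bool))
    (S mm : Polynomial ℕ) (x : List Bool)
    (hS : (T3_E C (mm.eval x.length)).ncard ≤ S.eval x.length) :
    T3_G S mm (chr (KT N p X C)) x =
      pairBits x (List.replicate (T3_E C (mm.eval x.length)).ncard true) := by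
  unfold T3_G
  rw [← T3_filter _ _ hS]
  have h1 : (T3_Q S mm x).map (chr (KT N p X C)) = (List.range (S.eval x.length)).map
      (fun j => decide (j + 1 ≤ (T3_E C (mm.eval x.length)).ncard)) := by
    unfold T3_Q
    rw [List.map_map]
    refine List.map_congr_left fun j hj => ?_
    rw [List.mem_range] at hj
    have h2 : min (j + 1) (S.eval x.length) = j + 1 := min_eq_left hj
    show chr (KT N p X C) (pairBits (pairBits
      (List.replicate (min (j + 1) (S.eval x.length)) true)
      (List.replicate (mm.eval x.length) true)) []) = _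
    rw [h2]
    unfold chr
    rw [decide_eq_decide]
    exact T3_v N p X C _ _
  rw [h1]

theorem T3_join {X : Oracle} {C : Set (List Bool)} {m : ℕ} {a : List (List Bool)}
    (h : GoodL C (T3_E C m).ncard m a) (r : List Bool) (hr : r.length ≤ m) :
    join X {q | q ∉ a} r = join X C r := by
  match r with
  | [] => rfl
  | false :: q => rfl
  | true :: q =>
    show chr {q | q ∉ a} q = chr C q
    unfold chr
    rw [decide_eq_decide]
    have h1 := T3_good_full h q
    have h2 : q.length ≤ m := by
      rw [List.length_cons] at hr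
      omega
    show q ∉ a ↔ q ∈ C
    rw [h1]
    tauto

theorem t_T3 (hQT : S_QT) (hNF : S_NF) (hSB : S_SB) (hT3A : S_T3A) : S_T3 := by
  intro X C hC hSp
  refine ⟨hC, ?_⟩
  rintro L ⟨K, ⟨K1, hK1, hK⟩, F, ⟨M, hM⟩, hF⟩
  have hK1' : IsNP (join X C) K1 := (hSB.2.1 (join X C) K1).1 hK1
  obtain ⟨V, p, ⟨N, hN⟩, hV⟩ := hNF (join X C) K1 K hK1' hK
  obtain ⟨s, hs⟩ := hSp
  obtain ⟨qM, hqM⟩ := M.out_local
  obtain ⟨qN, hqN⟩ := N.out_local
  set mm : Polynomial ℕ := qN.comp (Polynomial.C 4 * qM + Polynomial.C 3 +
    Polynomial.C 3 * p.comp qM) with hmm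
  refine ⟨KT N p X C, hT3A N p X C hC, F, ?_, hF⟩
  -- the second phase
  have h2 := hQT M (fun _ => false) (fun _ => false)
    (fun y => pairBits (pairBits (unpair y.1).2
      (List.replicate (mm.eval (unpair y.1).1.length) true)) (true :: y.2))
    (fun y => (unpair y).1) (NPC.Poly.const false) (NPC.Poly.const false)
    (by
      have h1 : Poly (fun y : List Bool × List Bool => (unpair y.1).1) :=
        Poly.fst (poly_unpair.comp (Poly.fst Poly.id))
      have h2 : Poly (fun y : List Bool × List Bool => (unpair y.1).2) :=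
        Poly.snd (poly_unpair.comp (Poly.fst Poly.id))
      exact H622R2.poly_pairBits (H622R2.poly_pairBits h2
        (T3_urep (UPoly.eval (UPoly.length h1) mm)))
        (Poly.cons (NPC.Poly.const true) (Poly.snd Poly.id)))
    (Poly.fst poly_unpair) (chr (KT N p X C))
  have h3 := IsFP.comp h2 (T3_isFP_G (s.comp mm) mm (chr (KT N p X C)))
  have h4 : (fun x => (M.out (fun z => if (false : Bool) = true then false else
      chr (KT N p X C) (pairBits (pairBits
        (unpair (T3_G (s.comp mm) mm (chr (KT N p X C)) x)).2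
        (List.replicate (mm.eval
          (unpair (T3_G (s.comp mm) mm (chr (KT N p X C)) x)).1.length) true)) (true :: z)))
      (unpair (T3_G (s.comp mm) mm (chr (KT N p X C)) x)).1).getD []) = F := by
    funext x
    have hG := T3_answers N p X C (s.comp mm) mm x (by
      have h5 : (s.comp mm).eval x.length = s.eval (mm.eval x.length) :=
        Polynomial.eval_comp
      rw [h5]
      exact hs _)
    rw [hG, unpair_pairBits]
    show (M.out (fun z => if (false : Bool) = true then false else
      chr (KT N p X C) (pairBits (pairBits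
        (List.replicate (T3_E C (mm.eval x.length)).ncard true)
        (List.replicate (mm.eval x.length) true)) (true :: z))) x).getD [] = F x
    obtain ⟨Q, -, hQ1, hQ2⟩ := hqM (chr K) x
    rw [hQ2 _ ?_, hM x]
    · rfl
    · intro q hq
      have hql := hQ1 q hq
      show chr (KT N p X C) (pairBits (pairBits
        (List.replicate (T3_E C (mm.eval x.length)).ncard true)
        (List.replicate (mm.eval x.length) true)) (true :: q)) = chr K q
      unfold chr
      rw [decide_eq_decide, T3_z, hV q]
      have hlen : ∀ u w : List Bool, u.length ≤ p.eval q.length → w.length ≤ p.eval q.length →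
          qN.eval (pairBits (pairBits q u) w).length ≤ mm.eval x.length := by
        intro u w hu hw
        rw [hmm, Polynomial.eval_comp]
        apply eval_mono
        rw [length_pairBits, length_pairBits]
        have := eval_mono p hql
        simp only [Polynomial.eval_add, Polynomial.eval_mul, Polynomial.eval_C,
          Polynomial.eval_comp]
        omega
      have hout : ∀ (a : List (List Bool)), GoodL C (T3_E C (mm.eval x.length)).ncard
          (mm.eval x.length) a → ∀ u w : List Bool, u.length ≤ p.eval q.length →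
          w.length ≤ p.eval q.length →
          N.out (join X {q | q ∉ a}) (pairBits (pairBits q u) w) =
            some (V (pairBits (pairBits q u) w)) := by
        intro a ha u w hu hw
        obtain ⟨R, -, hR1, hR2⟩ := hqN (join X C) (pairBits (pairBits q u) w)
        rw [hR2 _ ?_, hN]
        intro r hr
        exact T3_join ha r ((hR1 r hr).trans (hlen u w hu hw))
      constructor
      · rintro ⟨a, u, ha, hu, hw⟩
        refine ⟨u, hu, fun w hwl => ?_⟩
        have h5 := hw w hwl
        rw [hout a ha u w hu hwl] at h5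
        exact Option.some.inj h5
      · rintro ⟨u, hu, hw⟩
        obtain ⟨a, ha⟩ := (T3_good_iff C (T3_E C (mm.eval x.length)).ncard
          (mm.eval x.length)).2 le_rfl
        refine ⟨a, u, ha, hu, fun w hwl => ?_⟩
        rw [hout a ha u w hu hwl, hw w hwl]
  rw [← h4]
  exact h3

end Pool.Agent.H490R3.LH
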