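import Pool.Agent.H490R3.LH.Stm
import Pool.Agent.H628R3.RO.A3

/-!
# The set `KT` is in `Σ₂`
-/

set_option autoImplicit false

namespace Pool.Agent.H490R3.LH

open Pool.Agent.NPC Pool.Agent.H628R3.RO
open Pool.Agent.H583R2.S2 (chr IsP)

/-! ### Polynomial-time tests -/

/-- the test for repetitions -/
def T3A_nd (a : List (List Bool)) : Bool :=
  a.zipIdx.all (fun x => a.zipIdx.all (fun y => !(decide (x.1 = y.1)) || decide (x.2 = y.2)))

theorem T3A_nd_iff (a : List (List Bool)) : T3A_nd a = true ↔ a.Nodup := by
  unfold T3A_nd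
  rw [List.nodup_iff_getElem?_ne_getElem?]
  simp only [List.all_eq_true, Prod.forall, List.mem_zipIdx_iff_getElem?, Bool.or_eq_true,
    Bool.not_eq_true', decide_eq_false_iff_not, decide_eq_true_eq]
  constructor
  · intro h i j hij hj he
    rw [List.getElem?_eq_getElem hj] at he
    have h1 := h _ _ he _ _ (List.getElem?_eq_getElem hj)
    rcases h1 with h1 | h1
    · exact h1 rfl
    · omega
  · intro h x i hx y j hy
    by_contra hc
    rw [not_or, not_not] at hc
    obtain ⟨rfl, hne⟩ := hc
    have hi : i < a.length := (List.getElem?_eq_some_iff.1 hx).1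
    have hj : j < a.length := (List.getElem?_eq_some_iff.1 hy).1
    rcases Nat.lt_or_gt_of_ne hne with h1 | h1
    · exact h i j h1 hj (hx.trans hy.symm)
    · exact h j i h1 hi (hy.trans hx.symm)

theorem T3A_poly_nd {α : Type} [TEnc α] {a : α → List (List Bool)} (ha : Poly a) :
    Poly (fun i => T3A_nd (a i)) := by
  unfold T3A_nd
  have h1 : Poly (fun x : α × (List Bool × ℕ) => (a x.1).zipIdx) :=
    Poly.zipIdx (ha.comp (Poly.fst Poly.id))
  have h2 : Poly (fun x : (α × (List Bool × ℕ)) × (List Bool × ℕ) =>
      !(decide (x.1.2.1 = x.2.1)) || decide (x.1.2.2 = x.2.2)) :=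
    Poly.or (Poly.not (Poly.decide_eq (Poly.fst (Poly.snd (Poly.fst Poly.id)))
      (Poly.fst (Poly.snd Poly.id))))
      (Poly.decide_eq (Poly.snd (Poly.snd (Poly.fst Poly.id))) (Poly.snd (Poly.snd Poly.id)))
  have h3 : Poly (fun x : α × (List Bool × ℕ) => (a x.1).zipIdx.all
      (fun y => !(decide (x.2.1 = y.1)) || decide (x.2.2 = y.2))) := Poly.all h1 h2
  exact Poly.all (Poly.zipIdx ha) h3

theorem T3A_zip (a : List (List Bool)) (n : ℕ) (h : a.length ≤ n) (g : List Bool → Bool)
    (f : List Bool × Bool → Bool) :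
    (a.zip ((List.range n).map (fun i => g (a.getD i [])))).all f = true ↔
      ∀ q ∈ a, f (q, g q) = true := by
  rw [List.all_eq_true]
  constructor
  · intro h1 q hq
    obtain ⟨i, hi, rfl⟩ := List.mem_iff_getElem.1 hq
    refine h1 _ (List.mem_iff_getElem.2 ⟨i, ?_, ?_⟩)
    · simp only [List.length_zip, List.length_map, List.length_range]
      omega
    · rw [List.getElem_zip, List.getElem_map, List.getElem_range, List.getD_eq_getElem _ _ hi]
  · rintro h1 x hx
    obtain ⟨i, hi, rfl⟩ := List.mem_iff_getElem.1 hx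
    rw [List.getElem_zip, List.getElem_map, List.getElem_range]
    simp only [List.length_zip, List.length_map, List.length_range] at hi
    have hi' : i < a.length := by omega
    rw [List.getD_eq_getElem _ _ hi']
    exact h1 _ (List.getElem_mem _)

/-! ### The parts of the input -/

/-- the instance -/
def T3A_v (y : List Bool) : List Bool := (unpair (unpair y).1).1

/-- the number `j` in unary -/
def T3A_s (y : List Bool) : List Bool := (unpair (unpair (T3A_v y)).1).1

/-- the number `m` in unary -/
def T3A_t (y : List Bool) : List Bool := (unpair (unpair (T3A_v y)).1).2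

/-- the rest -/
def T3A_r (y : List Bool) : List Bool := (unpair (T3A_v y)).2

/-- the list and the witness -/
def T3A_au (y : List Bool) : List (List Bool) × List Bool :=
  (unbits (List (List Bool) × List Bool) (unpair (unpair y).1).2).elim ([], []) (fun x => x)

theorem T3A_poly_v : Poly T3A_v := Poly.fst (poly_unpair.comp (Poly.fst poly_unpair))
theorem T3A_poly_s : Poly T3A_s :=
  Poly.fst (poly_unpair.comp (Poly.fst (poly_unpair.comp T3A_poly_v)))
theorem T3A_poly_t : Poly T3A_t :=
  Poly.snd (poly_unpair.comp (Poly.fst (poly_unpair.comp T3A_poly_v)))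
theorem T3A_poly_r : Poly T3A_r := Poly.snd (poly_unpair.comp T3A_poly_v)
theorem T3A_poly_au : Poly T3A_au := by
  unfold T3A_au
  have h1 : Poly (fun y : List Bool =>
      unbits (List (List Bool) × List Bool) (unpair (unpair y).1).2) :=
    poly_unbits.comp (Poly.snd (poly_unpair.comp (Poly.fst poly_unpair)))
  refine (Poly.optCases (g := fun _ => (([], []) : List (List Bool) × List Bool))
    (h := fun _ b => b) h1 (NPC.Poly.const _) (Poly.snd Poly.id)).congr fun a => ?_
  cases unbits (List (List Bool) × List Bool) (unpair (unpair a).1).2 <;> rfl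

theorem T3A_poly_w1 : Poly (fun y : List Bool => (unpair (unpair y).2).1) :=
  Poly.fst (poly_unpair.comp (Poly.snd poly_unpair))
theorem T3A_poly_w2 : Poly (fun y : List Bool => (unpair (unpair y).2).2) :=
  Poly.snd (poly_unpair.comp (Poly.snd poly_unpair))

/-- the test without questions -/
def T3A_t0 (p : Polynomial ℕ) (y : List Bool) : Bool :=
  decide (T3A_v y = pairBits (pairBits (T3A_s y) (T3A_t y)) (T3A_r y)) &&
  (T3A_s y).all (fun b => b) && (T3A_t y).all (fun b => b) && T3A_nd (T3A_au y).1 &&
  decide ((T3A_au y).1.length = (T3A_s y).length) &&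
  (T3A_au y).1.all (fun q => decide (q.length ≤ (T3A_t y).length)) &&
  (decide (T3A_r y = []) || (decide ((T3A_r y).head? = some true) &&
    decide ((T3A_au y).2.length ≤ p.eval (T3A_r y).tail.length)))

theorem T3A_poly_t0 (p : Polynomial ℕ) : Poly (T3A_t0 p) := by
  unfold T3A_t0
  have ha : Poly (fun y => (T3A_au y).1) := Poly.fst T3A_poly_au
  refine Poly.and (Poly.and (Poly.and (Poly.and (Poly.and (Poly.and ?_ ?_) ?_) ?_) ?_) ?_)
    (Poly.or ?_ (Poly.and ?_ ?_))
  · exact Poly.decide_eq T3A_poly_v (Pool.Agent.H622R2.poly_pairBits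
      (Pool.Agent.H622R2.poly_pairBits T3A_poly_s T3A_poly_t) T3A_poly_r)
  · exact Poly.all T3A_poly_s (Poly.snd Poly.id)
  · exact Poly.all T3A_poly_t (Poly.snd Poly.id)
  · exact T3A_poly_nd ha
  · exact Poly.decide_eq (Poly.length ha) (Poly.length T3A_poly_s)
  · exact Poly.all ha (Poly.decide_le (Poly.length (Poly.snd Poly.id))
      (Poly.length (T3A_poly_t.comp (Poly.fst Poly.id))))
  · exact Poly.decide_eq T3A_poly_r (NPC.Poly.const _)
  · exact Poly.decide_eq (Poly.head? T3A_poly_r) (NPC.Poly.const _)
  · exact Poly.decide_le (Poly.length (Poly.snd T3A_poly_au))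
      (UPoly.eval (UPoly.length (Poly.tail T3A_poly_r)) p).toPoly

theorem T3A_all (s : List Bool) (h : s.all (fun b => b) = true) :
    s = List.replicate s.length true := by
  rw [List.all_eq_true] at h
  exact List.eq_replicate_iff.2 ⟨rfl, h⟩

theorem T3A_all' (j : ℕ) : (List.replicate j true).all (fun b => b) = true := by
  rw [List.all_eq_true]
  exact fun b hb => List.eq_of_mem_replicate hb

theorem T3A_t0_iff (p : Polynomial ℕ) (y : List Bool) : T3A_t0 p y = true ↔
    T3A_v y = pairBits (pairBits (T3A_s y) (T3A_t y)) (T3A_r y) ∧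
    T3A_s y = List.replicate (T3A_s y).length true ∧
    T3A_t y = List.replicate (T3A_t y).length true ∧ (T3A_au y).1.Nodup ∧
    (T3A_au y).1.length = (T3A_s y).length ∧ (∀ q ∈ (T3A_au y).1, q.length ≤ (T3A_t y).length) ∧
    (T3A_r y = [] ∨ ((T3A_r y).head? = some true ∧
      (T3A_au y).2.length ≤ p.eval (T3A_r y).tail.length)) := by
  have h1 : ∀ s : List Bool, s.all (fun b => b) = true ↔ s = List.replicate s.length true :=
    fun s => ⟨T3A_all s, fun h => by rw [h]; exact T3A_all' _⟩
  unfold T3A_t0
  simp only [Bool.and_eq_true, Bool.or_eq_true, decide_eq_true_eq, h1, T3A_nd_iff,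
    List.all_eq_true, and_assoc]

/-- the test of the list, from the results of the runs of the verifier -/
def T3A_H (pC : Polynomial ℕ) (z : List Bool × List Bool) : List Bool :=
  [((T3A_au z.1).1.zip z.2).all
    (fun x => !(decide ((unpair (unpair z.1).2).1.length ≤ pC.eval x.1.length) && x.2))]

theorem T3A_poly_H (pC : Polynomial ℕ) : Poly (T3A_H pC) := by
  unfold T3A_H
  refine Poly.cons (Poly.all (p := fun (z : List Bool × List Bool) (x : List Bool × Bool) =>
    !(decide ((unpair (unpair z.1).2).1.length ≤ pC.eval x.1.length) && x.2))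
    (Poly.zip (Poly.fst (T3A_poly_au.comp (Poly.fst Poly.id))) (Poly.snd Poly.id)) ?_)
    (NPC.Poly.const _)
  refine Poly.not (Poly.and (Poly.decide_le (Poly.length (T3A_poly_w1.comp
    (Poly.fst (Poly.fst Poly.id)))) (UPoly.eval (UPoly.length (Poly.fst (Poly.snd Poly.id)))
      pC).toPoly) (Poly.snd (Poly.snd Poly.id)))

/-- the input of a run of the verifier of `C` -/
def T3A_W (z : ℕ × List Bool) : List Bool :=
  pairBits ((T3A_au z.2).1.getD z.1 []) (unpair (unpair z.2).2).1

theorem T3A_poly_W : Poly T3A_W :=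
  Pool.Agent.H622R2.poly_pairBits (Poly.getD (Poly.fst (T3A_poly_au.comp (Poly.snd Poly.id)))
    (Poly.fst Poly.id) (NPC.Poly.const _)) (T3A_poly_w1.comp (Poly.snd Poly.id))

/-- the input of the simulated algorithm -/
def T3A_dec (y : List Bool) : List Bool :=
  pairBits (pairBits (T3A_r y).tail (T3A_au y).2) (unpair (unpair y).2).2

theorem T3A_poly_dec : Poly T3A_dec :=
  Pool.Agent.H622R2.poly_pairBits (Pool.Agent.H622R2.poly_pairBits (Poly.tail T3A_poly_r)
    (Poly.snd T3A_poly_au)) T3A_poly_w2

/-- the final test -/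
def T3A_G (p : Polynomial ℕ) (z : List Bool) : List Bool :=
  if (T3A_t0 p (unpair z).1 && decide ((unpair (unpair z).2).1 = [true]) &&
    (decide (T3A_r (unpair z).1 = []) ||
      decide (p.eval (T3A_r (unpair z).1).tail.length < (unpair (unpair (unpair z).1).2).2.length) ||
      decide ((unpair (unpair z).2).2 = [true]))) = true then [true] else []

theorem T3A_poly_G (p : Polynomial ℕ) : Poly (T3A_G p) := by
  unfold T3A_G
  have h1 : Poly (fun z : List Bool => (unpair z).1) := Poly.fst poly_unpair
  have h2 : Poly (fun z : List Bool => unpair (unpair z).2) := poly_unpair.comp (Poly.snd poly_unpair)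
  refine Poly.ite (Poly.decide_bool (Poly.and (Poly.and ?_ ?_) (Poly.or (Poly.or ?_ ?_) ?_)))
    (NPC.Poly.const _) (NPC.Poly.const _)
  · exact (T3A_poly_t0 p).comp h1
  · exact Poly.decide_eq (Poly.fst h2) (NPC.Poly.const _)
  · exact Poly.decide_eq (T3A_poly_r.comp h1) (NPC.Poly.const _)
  · exact Poly.decide_lt (UPoly.eval (UPoly.length (Poly.tail (T3A_poly_r.comp h1))) p).toPoly
      (Poly.length (T3A_poly_w2.comp h1))
  · exact Poly.decide_eq (Poly.snd h2) (NPC.Poly.const _)

theorem T3A_G_iff (p : Polynomial ℕ) (y f1 f2 : List Bool) :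
    T3A_G p (pairBits y (pairBits f1 f2)) = [true] ↔ T3A_t0 p y = true ∧ f1 = [true] ∧
      (T3A_r y = [] ∨ p.eval (T3A_r y).tail.length < (unpair (unpair y).2).2.length ∨
        f2 = [true]) := by
  unfold T3A_G
  simp only [unpair_pairBits]
  rw [ite_eq_left_iff]
  simp only [Bool.and_eq_true, Bool.or_eq_true, decide_eq_true_eq, and_assoc, or_assoc]
  constructor
  · intro h
    by_contra hc
    exact List.cons_ne_nil _ _ (h hc).symm
  · intro h hc
    exact absurd h hc

/-! ### The questions of the simulated algorithm -/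

/-- is the answer computed? -/
def T3A_c (z : List Bool × List Bool) : Bool := !(decide (z.2.head? = some false))

/-- the computed answer -/
def T3A_a (z : List Bool × List Bool) : Bool :=
  decide (z.2.head? = some true) && !(decide (z.2.tail ∈ (T3A_au z.1).1))

/-- the translated question -/
def T3A_tr (z : List Bool × List Bool) : List Bool := z.2.tail

theorem T3A_poly_c : Poly T3A_c :=
  Poly.not (Poly.decide_eq (Poly.head? (Poly.snd Poly.id)) (NPC.Poly.const _))

theorem T3A_poly_a : Poly T3A_a :=
  Poly.and (Poly.decide_eq (Poly.head? (Poly.snd Poly.id)) (NPC.Poly.const _))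
    (Poly.not ((Poly.decide_mem (Poly.tail (Poly.snd Poly.id))
      (Poly.fst (T3A_poly_au.comp (Poly.fst Poly.id)))).congr fun _ => decide_eq_decide.2 Iff.rfl))

theorem T3A_poly_tr : Poly T3A_tr := Poly.tail (Poly.snd Poly.id)

theorem T3A_join (X : Oracle) (y : List Bool) :
    (fun s => if T3A_c (y, s) = true then T3A_a (y, s) else X (T3A_tr (y, s))) =
      join X {q | q ∉ (T3A_au y).1} := by
  funext s
  unfold T3A_c T3A_a T3A_tr
  rcases s with _ | ⟨b, q⟩
  · simp [join]
  · cases b with
    | false => simp [join]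
    | true => simp [join, chr]

theorem T3A_opt (o : Option (List Bool)) : o.getD [] = [true] ↔ o = some [true] := by
  cases o <;> simp

/-- the verifier -/
noncomputable def T3A_V (N : Alg) (p pC : Polynomial ℕ) (VC : List Bool → List Bool) (X : Oracle)
    (y : List Bool) : List Bool :=
  T3A_G p (pairBits y (pairBits
    (T3A_H pC (y, (List.range ((Polynomial.X : Polynomial ℕ).eval y.length)).map
      (fun i => decide (VC (T3A_W (i, y)) = [true]))))
    ((N.out (fun s => if T3A_c (y, s) = true then T3A_a (y, s) else X (T3A_tr (y, s)))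
      (T3A_dec y)).getD [])))

theorem T3A_len (x w : List Bool) : (pairBits x w).length = 2 * x.length + 1 + w.length :=
  length_pairBits_A3 x w

theorem T3A_V_iff (N : Alg) (p pC : Polynomial ℕ) (VC : List Bool → List Bool) (X : Oracle)
    (v u' w' : List Bool) :
    T3A_V N p pC VC X (pairBits (pairBits v u') w') = [true] ↔
      T3A_t0 p (pairBits (pairBits v u') w') = true ∧
      (∀ q ∈ (T3A_au (pairBits (pairBits v u') w')).1,
        ¬ ((unpair w').1.length ≤ pC.eval q.length ∧ VC (pairBits q (unpair w').1) = [true])) ∧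
      ((unpair v).2 = [] ∨ p.eval (unpair v).2.tail.length < (unpair w').2.length ∨
        N.out (join X {q | q ∉ (T3A_au (pairBits (pairBits v u') w')).1})
          (pairBits (pairBits (unpair v).2.tail (T3A_au (pairBits (pairBits v u') w')).2)
            (unpair w').2) = some [true]) := by
  unfold T3A_V
  rw [T3A_G_iff, T3A_opt, T3A_join]
  refine and_congr_right fun h0 => and_congr ?_ ?_
  · rw [T3A_t0_iff] at h0
    obtain ⟨h1, -, -, -, h2, -, -⟩ := h0
    have h3 : T3A_v (pairBits (pairBits v u') w') = v := by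
      unfold T3A_v
      rw [unpair_pairBits, unpair_pairBits]
    have h4 : (T3A_au (pairBits (pairBits v u') w')).1.length ≤
        (Polynomial.X : Polynomial ℕ).eval (pairBits (pairBits v u') w').length := by
      rw [h3] at h1
      have h5 := congrArg List.length h1
      rw [T3A_len, T3A_len] at h5
      rw [Polynomial.eval_X, T3A_len, T3A_len, h2]
      omega
    unfold T3A_H
    have h6 := T3A_zip (T3A_au (pairBits (pairBits v u') w')).1 _ h4
      (fun q => decide (VC (pairBits q (unpair w').1) = [true]))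
      (fun x => !(decide ((unpair w').1.length ≤ pC.eval x.1.length) && x.2))
    simp only [Bool.not_eq_true', Bool.and_eq_false_iff, decide_eq_false_iff_not] at h6
    unfold T3A_W
    simp only [unpair_pairBits, List.cons.injEq, and_true]
    rw [h6]
    refine forall₂_congr fun q _ => ?_
    rw [not_and_or]
  · unfold T3A_r T3A_v T3A_dec T3A_r T3A_v
    simp only [unpair_pairBits]

theorem T3A_isFP (h1 : S_QT) (h2 : S_VOT) (N : Alg) (p pC : Polynomial ℕ)
    {VC : List Bool → List Bool} {X : Oracle} (hVC : IsFP X VC) :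
    IsFP X (T3A_V N p pC VC X) := by
  have h3 := h2 X VC hVC Polynomial.X T3A_W T3A_poly_W (T3A_H pC) (T3A_poly_H pC)
  have h4 := h1 N T3A_c T3A_a T3A_tr T3A_dec T3A_poly_c T3A_poly_a T3A_poly_tr T3A_poly_dec X
  have h5 : IsFP X (T3A_G p) := IsFP.of_poly (T3A_poly_G p)
  have h6 : IsFP X (fun y => y) := IsFP.of_poly Poly.id
  have h7 := IsFP.comp h5 (IsFP.pair h6 (IsFP.pair h3 h4))
  exact h7

/-- the bound for the lengths -/
noncomputable def T3A_pp (p pC : Polynomial ℕ) : Polynomial ℕ :=
  Polynomial.X * (4 * Polynomial.X + 2) + 4 * p + 2 * pC + 10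

theorem T3A_pp_eval (p pC : Polynomial ℕ) (n : ℕ) :
    (T3A_pp p pC).eval n = n * (4 * n + 2) + 4 * p.eval n + 2 * pC.eval n + 10 := by
  unfold T3A_pp
  simp

theorem T3A_bits (a : List (List Bool)) (u : List Bool) (p pC : Polynomial ℕ) (j m n k : ℕ)
    (ha : a.length = j) (hm : ∀ q ∈ a, q.length ≤ m) (hj : j ≤ n) (hmn : m ≤ n) (hk : k ≤ n)
    (hu : u.length ≤ p.eval k) : (bits (a, u)).length ≤ (T3A_pp p pC).eval n := by
  rw [bits_length, sz_pair, T3A_pp_eval]
  have h1 := sz_le_length_mul a (4 * m + 1) (fun q hq => (sz_listBool_le q).trans (by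
    have := hm q hq
    omega))
  have h2 := sz_listBool_le u
  have h3 := eval_mono p hk
  have h4 : a.length * (4 * m + 1 + 1) ≤ n * (4 * n + 2) :=
    Nat.mul_le_mul (by omega) (by omega)
  omega

theorem T3A_iff (N : Alg) (p pC : Polynomial ℕ) (VC : List Bool → List Bool) (X : Oracle)
    (C : Set (List Bool)) (hC : ∀ x, x ∈ C ↔ ∃ w : List Bool, w.length ≤ pC.eval x.length ∧
      VC (pairBits x w) = [true]) (v : List Bool) :
    v ∈ KT N p X C ↔ ∃ u : List Bool, u.length ≤ (T3A_pp p pC).eval v.length ∧
      ∀ w : List Bool, w.length ≤ (T3A_pp p pC).eval v.length →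
        T3A_V N p pC VC X (pairBits (pairBits v u) w) = [true] := by
  have hau : ∀ (v : List Bool) (a : List (List Bool)) (u w : List Bool),
      T3A_au (pairBits (pairBits v (bits (a, u))) w) = (a, u) := by
    intro v a u w
    unfold T3A_au
    rw [unpair_pairBits, unpair_pairBits, unbits_bits]
    rfl
  have hnotC : ∀ (q w : List Bool), q ∉ C →
      ¬ (w.length ≤ pC.eval q.length ∧ VC (pairBits q w) = [true]) :=
    fun q w hq h => hq ((hC q).2 ⟨w, h⟩)
  constructor
  · rintro (⟨j, m, a, rfl, ha⟩ | ⟨j, m, z, a, u, rfl, ha, hu, hall⟩)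
    · refine ⟨bits (a, ([] : List Bool)), ?_, fun w _ => ?_⟩
      · refine T3A_bits a [] p pC j m _ 0 ha.2.1 (fun q hq => (ha.2.2 q hq).1) ?_ ?_ ?_ ?_
        · simp only [T3A_len, List.length_replicate, List.length_nil]; omega
        · simp only [T3A_len, List.length_replicate, List.length_nil]; omega
        · exact Nat.zero_le _
        · exact Nat.zero_le _
      · rw [T3A_V_iff, T3A_t0_iff, hau]
        unfold T3A_s T3A_t T3A_r T3A_v
        simp only [unpair_pairBits, List.length_replicate, true_and, true_or, and_true]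
        exact ⟨⟨ha.1, ha.2.1, fun q hq => (ha.2.2 q hq).1⟩,
          fun q hq => hnotC _ _ (ha.2.2 q hq).2⟩
    · refine ⟨bits (a, u), ?_, fun w _ => ?_⟩
      · refine T3A_bits a u p pC j m _ z.length ha.2.1 (fun q hq => (ha.2.2 q hq).1) ?_ ?_ ?_ hu
        · simp only [T3A_len, List.length_replicate, List.length_cons]; omega
        · simp only [T3A_len, List.length_replicate, List.length_cons]; omega
        · simp only [T3A_len, List.length_replicate, List.length_cons]; omega
      · rw [T3A_V_iff, T3A_t0_iff, hau]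
        unfold T3A_s T3A_t T3A_r T3A_v
        simp only [unpair_pairBits, List.length_replicate, true_and, List.head?_cons,
          List.tail_cons]
        refine ⟨⟨ha.1, ha.2.1, fun q hq => (ha.2.2 q hq).1, Or.inr hu⟩,
          fun q hq => hnotC _ _ (ha.2.2 q hq).2, ?_⟩
        by_cases h : p.eval z.length < (unpair w).2.length
        · exact Or.inr (Or.inl h)
        · exact Or.inr (Or.inr (hall _ (not_lt.1 h)))
  · rintro ⟨u', hu', hall⟩
    have hall' := fun w hw => (T3A_V_iff N p pC VC X v u' w).1 (hall w hw)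
    have h0 := (hall' [] (Nat.zero_le _)).1
    rw [T3A_t0_iff] at h0
    -- the list does not depend on `w`
    have hauw : ∀ w, T3A_au (pairBits (pairBits v u') w) =
        (unbits (List (List Bool) × List Bool) u').elim ([], []) (fun x => x) := by
      intro w
      unfold T3A_au
      rw [unpair_pairBits, unpair_pairBits]
    simp only [hauw] at h0 hall'
    set au := (unbits (List (List Bool) × List Bool) u').elim ([], []) (fun x => x) with hau'
    unfold T3A_s T3A_t T3A_r T3A_v at h0
    simp only [unpair_pairBits] at h0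
    obtain ⟨hv, hs, ht, hnd, hlen, hle, hr⟩ := h0
    have hvl := congrArg List.length hv
    rw [T3A_len, T3A_len] at hvl
    have hgood : GoodL C (unpair (unpair v).1).1.length (unpair (unpair v).1).2.length au.1 := by
      refine ⟨hnd, hlen, fun q hq => ⟨hle q hq, fun hqC => ?_⟩⟩
      obtain ⟨w, hw, hw1⟩ := (hC q).1 hqC
      have h1 : (pairBits w []).length ≤ (T3A_pp p pC).eval v.length := by
        rw [T3A_len, T3A_pp_eval, List.length_nil]
        have h2 := eval_mono pC ((hle q hq).trans (show (unpair (unpair v).1).2.length ≤ v.length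
          by omega))
        omega
      have h3 := (hall' _ h1).2.1 q hq
      rw [unpair_pairBits] at h3
      exact h3 ⟨hw, hw1⟩
    rcases hr with hr | ⟨hr, hul⟩
    · left
      refine ⟨_, _, au.1, ?_, hgood⟩
      rw [← hs, ← ht, ← hr]
      exact hv
    · right
      obtain ⟨z, hz⟩ : ∃ z, (unpair v).2 = true :: z := by
        rcases hq : (unpair v).2 with _ | ⟨b, z⟩
        · rw [hq] at hr; simp at hr
        · rw [hq] at hr
          simp only [List.head?_cons, Option.some.injEq] at hr
          exact ⟨z, by rw [hr]⟩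
      refine ⟨_, _, z, au.1, au.2, ?_, hgood, ?_, fun w hw => ?_⟩
      · rw [← hs, ← ht, ← hz]
        exact hv
      · rw [hz] at hul
        exact hul
      · rw [hz, List.length_cons] at hvl
        have h1 : (pairBits [] w).length ≤ (T3A_pp p pC).eval v.length := by
          rw [T3A_len, T3A_pp_eval, List.length_nil]
          have h2 := eval_mono p (show z.length ≤ v.length by omega)
          omega
        have h3 := (hall' _ h1).2.2
        rw [unpair_pairBits, hz] at h3
        simp only [List.tail_cons] at h3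
        rcases h3 with h3 | h3 | h3
        · exact absurd h3 (List.cons_ne_nil _ _)
        · omega
        · exact h3

theorem t_T3A (h1 : S_QT) (h2 : S_VOT) (h3 : S_FN) (h4 : S_SB) : S_T3A := by
  rintro N p X C ⟨VC, pC, hVC, hC⟩
  obtain ⟨K, hK, hL⟩ := h3 X (KT N p X C) (T3A_V N p pC VC X) (T3A_pp p pC)
    (T3A_isFP h1 h2 N p pC hVC) (T3A_iff N p pC VC X C hC)
  exact ⟨K, (h4.2.1 X K).2 hK, hL⟩

end Pool.Agent.H490R3.LH
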