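import Pool.Agent.H490R3.LH.Stm

/-!
# TRN: transport (helper439)
-/

set_option autoImplicit false

namespace Pool.Agent.H490R3.LH

section
variable {α β : Type} [DecidableEq α] [DecidableEq β]

theorem TRN_split (W C : Finset α) (hC : C ⊆ W) (f : Finset α → ℝ) :
    ∑ h ∈ W.powerset, f h = ∑ p ∈ (W \ C).powerset ×ˢ C.powerset, f (p.1 ∪ p.2) := by
  refine Finset.sum_nbij' (fun h => (h \ C, h ∩ C)) (fun p => p.1 ∪ p.2) ?_ ?_ ?_ ?_ ?_
  · intro h hh
    rw [Finset.mem_powerset] at hh
    rw [Finset.mem_product, Finset.mem_powerset, Finset.mem_powerset]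
    exact ⟨Finset.sdiff_subset_sdiff hh (Finset.Subset.refl _), Finset.inter_subset_right⟩
  · intro p hp
    rw [Finset.mem_product, Finset.mem_powerset, Finset.mem_powerset] at hp
    rw [Finset.mem_powerset]
    exact Finset.union_subset (hp.1.trans Finset.sdiff_subset) (hp.2.trans hC)
  · intro h _
    exact Finset.sdiff_union_inter h C
  · rintro ⟨a, b⟩ hp
    rw [Finset.mem_product, Finset.mem_powerset, Finset.mem_powerset] at hp
    have ha : ∀ x ∈ a, x ∉ C := fun x hx => (Finset.mem_sdiff.1 (hp.1 hx)).2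
    have hb : ∀ x ∈ b, x ∈ C := fun x hx => hp.2 hx
    refine Prod.ext ?_ ?_
    · ext x
      simp only [Finset.mem_sdiff, Finset.mem_union]
      constructor
      · rintro ⟨h1 | h1, h2⟩
        · exact h1
        · exact absurd (hb x h1) h2
      · intro h1
        exact ⟨Or.inl h1, ha x h1⟩
    · ext x
      simp only [Finset.mem_inter, Finset.mem_union]
      constructor
      · rintro ⟨h1 | h1, h2⟩
        · exact absurd h2 (ha x h1)
        · exact h1
      · intro h1
        exact ⟨Or.inr h1, hb x h1⟩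
  · intro h _
    rw [Finset.sdiff_union_inter]

theorem TRN_bin (C : Finset α) (w : ℝ) :
    ∑ b ∈ C.powerset, (if b.Nonempty then w ^ b.card else 0) = (1 + w) ^ C.card - 1 := by
  have h1 : ∀ b ∈ C.powerset, (if b.Nonempty then w ^ b.card else 0) =
      w ^ b.card * 1 ^ (C.card - b.card) - (if b = ∅ then 1 else 0) := by
    intro b _
    rw [one_pow, mul_one]
    by_cases hb : b = ∅
    · subst hb
      simp
    · rw [if_pos (Finset.nonempty_iff_ne_empty.2 hb), if_neg hb, sub_zero]
  rw [Finset.sum_congr rfl h1, Finset.sum_sub_distrib, Finset.sum_pow_mul_eq_add_pow,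
    Finset.sum_ite_eq' C.powerset (∅ : Finset α) (fun _ => (1 : ℝ)),
    if_pos (Finset.empty_mem_powerset C), add_comm w 1]

end

open Classical in
theorem t_TRN : S_TRN := by
  intro α β _ _ W Y cell c F w hw hcell hdis
  -- the sets met by all cells except `y`
  set A : β → Finset α → Prop := fun y a => F a ∧ (¬ (a ∩ cell y).Nonempty) ∧
    ∀ y' ∈ Y, y' ≠ y → (a ∩ cell y').Nonempty with hA
  -- exchange of the sums
  have h1 : ∑ h ∈ W.powerset, (if Gd Y cell h then
      w ^ h.card * ((Y.filter (fun y => F (h \ cell y))).card : ℝ) else 0) =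
      ∑ y ∈ Y, ∑ h ∈ W.powerset, (if Gd Y cell h ∧ F (h \ cell y) then w ^ h.card else 0) := by
    rw [Finset.sum_comm]
    refine Finset.sum_congr rfl fun h _ => ?_
    by_cases hG : Gd Y cell h
    · rw [if_pos hG, Finset.card_filter, Nat.cast_sum, Finset.mul_sum]
      refine Finset.sum_congr rfl fun y _ => ?_
      by_cases hF : F (h \ cell y)
      · rw [if_pos hF, if_pos ⟨hG, hF⟩, Nat.cast_one, mul_one]
      · rw [if_neg hF, if_neg (fun h' => hF h'.2), Nat.cast_zero, mul_zero]
    · rw [if_neg hG]
      symm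
      refine Finset.sum_eq_zero fun y _ => ?_
      rw [if_neg (fun h' => hG h'.1)]
  -- one cell
  have h2 : ∀ y ∈ Y, ∑ h ∈ W.powerset, (if Gd Y cell h ∧ F (h \ cell y) then w ^ h.card else 0) ≤
      ((1 + w) ^ c - 1) * ∑ h ∈ W.powerset, (if A y h then w ^ h.card else 0) := by
    intro y hy
    obtain ⟨hyW, hyc⟩ := hcell y hy
    rw [TRN_split W (cell y) hyW, Finset.sum_product]
    have h3 : ∀ a ∈ (W \ cell y).powerset, ∑ b ∈ (cell y).powerset,
        (if Gd Y cell (a ∪ b) ∧ F ((a ∪ b) \ cell y) then w ^ (a ∪ b).card else 0) =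
        (if A y a then w ^ a.card else 0) * ((1 + w) ^ c - 1) := by
      intro a ha
      rw [Finset.mem_powerset] at ha
      have haC : ∀ x ∈ a, x ∉ cell y := fun x hx => (Finset.mem_sdiff.1 (ha hx)).2
      rw [← hyc, ← TRN_bin (cell y) w, Finset.mul_sum]
      refine Finset.sum_congr rfl fun b hb => ?_
      rw [Finset.mem_powerset] at hb
      have e1 : (a ∪ b) \ cell y = a := by
        ext x
        simp only [Finset.mem_sdiff, Finset.mem_union]
        constructor
        · rintro ⟨h1 | h1, h2⟩
          · exact h1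
          · exact absurd (hb h1) h2
        · intro h1
          exact ⟨Or.inl h1, haC x h1⟩
      have e2 : (a ∪ b).card = a.card + b.card := by
        apply Finset.card_union_of_disjoint
        rw [Finset.disjoint_left]
        intro x hx hx'
        exact haC x hx (hb hx')
      have e3 : Gd Y cell (a ∪ b) ↔ b.Nonempty ∧ ∀ y' ∈ Y, y' ≠ y → (a ∩ cell y').Nonempty := by
        constructor
        · intro hG
          refine ⟨?_, ?_⟩
          · obtain ⟨x, hx⟩ := hG y hy
            rw [Finset.mem_inter, Finset.mem_union] at hx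
            rcases hx.1 with h | h
            · exact absurd hx.2 (haC x h)
            · exact ⟨x, h⟩
          · intro y' hy' hne
            obtain ⟨x, hx⟩ := hG y' hy'
            rw [Finset.mem_inter, Finset.mem_union] at hx
            rcases hx.1 with h | h
            · exact ⟨x, Finset.mem_inter.2 ⟨h, hx.2⟩⟩
            · exact absurd (hb h) (Finset.disjoint_left.1 (hdis y' hy' y hy hne) hx.2)
        · rintro ⟨hbn, hG⟩ y' hy'
          by_cases hne : y' = y
          · subst hne
            obtain ⟨x, hx⟩ := hbn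
            exact ⟨x, Finset.mem_inter.2 ⟨Finset.mem_union_right _ hx, hb hx⟩⟩
          · obtain ⟨x, hx⟩ := hG y' hy' hne
            rw [Finset.mem_inter] at hx
            exact ⟨x, Finset.mem_inter.2 ⟨Finset.mem_union_left _ hx.1, hx.2⟩⟩
      have e4 : ¬ (a ∩ cell y).Nonempty := by
        rintro ⟨x, hx⟩
        rw [Finset.mem_inter] at hx
        exact haC x hx.1 hx.2
      rw [e1, e2]
      by_cases hbn : b.Nonempty
      · by_cases hAy : A y a
        · rw [if_pos ⟨e3.2 ⟨hbn, hAy.2.2⟩, hAy.1⟩, if_pos hAy, if_pos hbn, pow_add]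
        · rw [if_neg hAy, zero_mul, if_neg]
          rintro ⟨hG, hF⟩
          exact hAy ⟨hF, e4, (e3.1 hG).2⟩
      · rw [if_neg hbn, mul_zero, if_neg]
        rintro ⟨hG, -⟩
        exact hbn (e3.1 hG).1
    rw [Finset.sum_congr rfl h3, ← Finset.sum_mul, mul_comm]
    apply mul_le_mul_of_nonneg_left
    · refine Finset.sum_le_sum_of_subset_of_nonneg
        (Finset.powerset_mono.2 Finset.sdiff_subset) fun h _ _ => ?_
      split_ifs
      · positivity
      · exact le_refl _
    · have : (1 : ℝ) ≤ (1 + w) ^ c := one_le_pow₀ (by linarith)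
      linarith
  rw [h1]
  refine (Finset.sum_le_sum h2).trans ?_
  rw [← Finset.mul_sum, Finset.sum_comm]
  apply mul_le_mul_of_nonneg_left
  · unfold Wt
    refine Finset.sum_le_sum fun h _ => ?_
    by_cases hex : ∃ y ∈ Y, A y h
    · obtain ⟨y, hy, hAy⟩ := hex
      rw [Finset.sum_eq_single y]
      · rw [if_pos hAy, if_pos]
        refine ⟨hAy.1, fun hG => hAy.2.1 (hG y hy)⟩
      · intro y' hy' hne
        rw [if_neg]
        intro hAy'
        exact hAy'.2.1 (hAy.2.2 y' hy' hne)
      · intro hy'
        exact absurd hy hy'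
    · rw [Finset.sum_eq_zero]
      · split_ifs
        · positivity
        · exact le_refl _
      · intro y hy
        rw [if_neg (fun h' => hex ⟨y, hy, h'⟩)]
  · have : (1 : ℝ) ≤ (1 + w) ^ c := one_le_pow₀ (by linarith)
    linarith

end Pool.Agent.H490R3.LH
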