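import Pool.Agent.H490R3.LH.Asm
import Pool.Agent.H490R3.LH.T_B1
import Pool.Agent.H490R3.LH.T_B2
import Pool.Agent.H490R3.LH.T_B3
import Pool.Agent.H490R3.LH.T_B4
import Pool.Agent.H490R3.LH.T_B5
import Pool.Agent.H490R3.LH.T_BT
import Pool.Agent.H490R3.LH.T_C1
import Pool.Agent.H490R3.LH.T_CMB
import Pool.Agent.H490R3.LH.T_CP
import Pool.Agent.H490R3.LH.T_ENC
import Pool.Agent.H490R3.LH.T_FN
import Pool.Agent.H490R3.LH.T_FND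
import Pool.Agent.H490R3.LH.T_H1
import Pool.Agent.H490R3.LH.T_HLK
import Pool.Agent.H490R3.LH.T_INC
import Pool.Agent.H490R3.LH.T_IND
import Pool.Agent.H490R3.LH.T_INT
import Pool.Agent.H490R3.LH.T_LCV
import Pool.Agent.H490R3.LH.T_LKL
import Pool.Agent.H490R3.LH.T_MCC
import Pool.Agent.H490R3.LH.T_MEE
import Pool.Agent.H490R3.LH.T_MLK
import Pool.Agent.H490R3.LH.T_MTB
import Pool.Agent.H490R3.LH.T_NF
import Pool.Agent.H490R3.LH.T_NUM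
import Pool.Agent.H490R3.LH.T_PEN
import Pool.Agent.H490R3.LH.T_QRY
import Pool.Agent.H490R3.LH.T_QT
import Pool.Agent.H490R3.LH.T_SB
import Pool.Agent.H490R3.LH.T_SJ
import Pool.Agent.H490R3.LH.T_SNS
import Pool.Agent.H490R3.LH.T_SPC
import Pool.Agent.H490R3.LH.T_STG
import Pool.Agent.H490R3.LH.T_T2
import Pool.Agent.H490R3.LH.T_T3
import Pool.Agent.H490R3.LH.T_T3A
import Pool.Agent.H490R3.LH.T_TRN
import Pool.Agent.H490R3.LH.T_VOT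

/-!
# Part 1: all statements are proved
-/

set_option autoImplicit false

namespace Pool.Agent.H490R3.LH

open Pool.Agent.NPC Pool.Agent.H628R3.RO MeasureTheory

theorem p_C1 : S_C1 := t_C1 t_VOT
theorem p_NF : S_NF := t_NF t_VOT
theorem p_SB : S_SB := t_SB p_C1 t_CP
theorem p_INC : S_INC := t_INC p_C1 p_SB
theorem p_T2 : S_T2 := t_T2 t_QT p_SB
theorem p_T3A : S_T3A := t_T3A t_QT t_VOT t_FN p_SB
theorem p_T3 : S_T3 := t_T3 t_QT p_NF p_SB p_T3A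
theorem p_H1 : S_H1 := t_H1 p_C1 p_SB t_SJ t_MLK t_HLK
theorem p_B2 : S_B2 := t_B2 t_BT
theorem p_LKL : S_LKL := t_LKL t_BT
theorem p_FND : S_FND := t_FND t_QRY t_BT p_LKL
theorem p_B3 : S_B3 := t_B3 t_QRY t_BT p_LKL p_FND
theorem p_SNS : S_SNS := t_SNS t_IND t_ENC
theorem p_CMB : S_CMB := t_CMB p_SNS t_TRN
theorem p_STG : S_STG := t_STG p_CMB t_INT t_LCV t_NUM
theorem p_PEN : S_PEN := t_PEN t_NUM
theorem p_B5 : S_B5 := t_B5 p_STG p_PEN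

theorem main_one : ∀ᵐ X ∂randomOracle,
    LowD X 1 ⊂ Low X 1 ∧ Low X 1 ⊂ LowD X 2 ∧
    (CC X ∈ LowD X 3 ∧ CC X ∉ Low X 2 ∧ Low X 2 ⊂ LowD X 3) ∧
    HighD X 1 ⊂ High X 1 ∧ IsNP X (CC X) ∧ Sparse (CC X)ᶜ :=
  main p_C1 p_NF p_SB t_SJ p_INC p_T2 p_T3 t_MTB t_MCC t_MEE p_H1 t_SPC t_B1 p_B2 p_B3 t_B4 p_B5

end Pool.Agent.H490R3.LH
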