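import Pool.Agent.H490R3.LH.Base2
import Pool.Agent.H628R3.RO.M3
import Pool.Agent.H628R3.RO.M4

/-!
# Relative to the damaged set, the set of the strings without hit is not in `NP`
-/

set_option autoImplicit false

namespace Pool.Agent.H490R3.LH

open Pool.Agent.NPC Pool.Agent.H628R3.RO MeasureTheory
open Pool.Agent.H628R3.RO.M2
open Pool.Agent.H583R2.S2 (chr IsP Mk gc Ys dl NN)
open Pool.Agent.H583R2.NC (wl)
open Pool.Agent.H673R2.OneTT (KA uA)

/-! ### Strings -/

theorem B6_mem_Ys {n : ℕ} {y : List Bool} : y ∈ Ys n ↔ y.length = 2 * n ∧ valB y < NN n := by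
  unfold Ys
  rw [Finset.mem_filter, Finset.mem_image]
  refine and_congr_left fun _ => ?_
  constructor
  · rintro ⟨v, -, h⟩
    rw [← h, List.length_ofFn]
  · intro h
    rw [← h]
    exact ⟨fun i => y.get i, Finset.mem_univ _, List.ofFn_get y⟩

theorem B6_valB_inj : ∀ l l' : List Bool, l.length = l'.length → valB l = valB l' → l = l'
  | [], [], _, _ => rfl
  | [], b :: l', h, _ => by simp at h
  | b :: l, [], h, _ => by simp at h
  | b :: l, b' :: l', h, hv => by
    rw [valB_cons, valB_cons] at hv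
    have h1 : l.length = l'.length := by simpa using h
    have h2 : b = b' ∧ valB l = valB l' := by
      cases b <;> cases b' <;> simp at hv ⊢ <;> omega
    rw [h2.1, B6_valB_inj l l' h1 h2.2]

theorem B6_pair_inj {x x' w w' : List Bool} (h : pairBits x w = pairBits x' w') :
    x = x' ∧ w = w' := by
  have aux : ∀ (x x' : List Bool) (w w' : List Bool),
      x.flatMap (fun b => [true, b]) ++ false :: w = x'.flatMap (fun b => [true, b]) ++ false :: w' →
        x = x' ∧ w = w' := by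
    intro x
    induction x with
    | nil =>
      intro x' w w' h
      cases x' with
      | nil => simpa using h
      | cons b x' => simp at h
    | cons b x ih =>
      intro x' w w' h
      cases x' with
      | nil => simp at h
      | cons b' x' =>
        simp only [List.flatMap_cons, List.cons_append, List.nil_append, List.cons.injEq,
          true_and] at h
        obtain ⟨h1, h2⟩ := ih x' w w' h.2
        exact ⟨by rw [h.1, h1], h2⟩
  unfold pairBits at h
  exact aux x x' w w' h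

theorem B6_length_pos (c i : ℕ) (w : List Bool) : (pos c i w).length = c + i + 2 + w.length := by
  unfold pos
  simp only [List.length_append, List.length_replicate, List.length_cons]
  omega

theorem B6_card_Rc (n : ℕ) (y : List Bool) : (Rc n y).card = 2 ^ (2 * n + 1) := by
  unfold Rc
  rw [Finset.card_image_of_injective]
  · simp
  · intro v v' h
    simp only [Prod.mk.injEq, true_and] at h
    exact List.ofFn_injective (List.append_cancel_left h)

theorem B6_mem_Rc {n : ℕ} {y : List Bool} {κ : Cand} (h : κ ∈ Rc n y) :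
    κ.1 = 0 ∧ κ.2.length = y.length + (2 * n + 1) := by
  unfold Rc at h
  rw [Finset.mem_image] at h
  obtain ⟨v, -, rfl⟩ := h
  simp

theorem B6_mem_gc {n : ℕ} {y : List Bool} {κ : Cand} (h : κ ∈ gc n 0 y) :
    κ.1 < n ∧ κ.2.length = y.length + wl n := by
  unfold gc at h
  rw [Finset.mem_product, Finset.mem_Ico, Finset.mem_image] at h
  obtain ⟨⟨-, h1⟩, v, -, h2⟩ := h
  refine ⟨by omega, ?_⟩
  rw [← h2]
  simp

/-! ### The sets -/

/-- the verifier accepts -/
def B6_E (V : Alg) (p : Polynomial ℕ) (n : ℕ) (y : List Bool) : Set Oracle :=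
  {X | ∃ w : List Bool, w.length ≤ p.eval (4 * n + 1) ∧
      V.out (join X (DA X)) (pairBits (pairBits (List.replicate n true) y) w) = some [true]}

/-- the verifier is right -/
def B6_S (V : Alg) (p : Polynomial ℕ) : Set Oracle :=
  {X | ∀ n, ∀ y ∈ Ys n, (X ∈ NoHit (2 * n + 1) (Rc n y) ↔ X ∈ B6_E V p n y)}

theorem B6_loc_E (hQ : S_QRY) (hL : S_LCD) (V : Alg) (p : Polynomial ℕ) (n : ℕ) :
    ∃ R : ℕ, ∀ y ∈ Ys n, Loc {x | x.length ≤ R} (B6_E V p n y) := by
  obtain ⟨-, ⟨b, hb⟩, hloc⟩ := hQ V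
  obtain ⟨R, hR⟩ := hL (b.eval (2 * (4 * n + 1) + 1 + p.eval (4 * n + 1)))
  refine ⟨max R (b.eval (2 * (4 * n + 1) + 1 + p.eval (4 * n + 1))), fun y hy => ?_⟩
  have hy' := (B6_mem_Ys.1 hy).1
  have key : ∀ X X' : Oracle, (∀ x ∈ {x : List Bool | x.length ≤
      max R (b.eval (2 * (4 * n + 1) + 1 + p.eval (4 * n + 1)))}, X x = X' x) →
      X ∈ B6_E V p n y → X' ∈ B6_E V p n y := by
    rintro X X' hX ⟨w, hw, hV⟩
    refine ⟨w, hw, ?_⟩
    rw [← hV]
    refine (hloc _ _ _ fun q hq => ?_).2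
    have hlen : (pairBits (pairBits (List.replicate n true) y) w).length ≤
        2 * (4 * n + 1) + 1 + p.eval (4 * n + 1) := by
      rw [length_pairBits, length_pairBits, List.length_replicate]
      omega
    have hq' : q.length ≤ b.eval (2 * (4 * n + 1) + 1 + p.eval (4 * n + 1)) :=
      (hb _ _ q hq).trans (eval_mono b hlen)
    cases q with
    | nil => rfl
    | cons c q =>
      rw [List.length_cons] at hq'
      cases c with
      | false =>
        show X' q = X q
        exact (hX q (show q.length ≤ _ from le_trans (by omega) (le_max_right _ _))).symm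
      | true =>
        show chr (DA X') q = chr (DA X) q
        have := hR X X' (fun q hq => hX q (show q.length ≤ _ from hq.trans (le_max_left _ _))) q
          (by omega)
        unfold chr
        rw [decide_eq_decide]
        exact this.symm
  intro X X' hX
  exact ⟨key X X' hX, key X' X fun x hx => (hX x hx).symm⟩

theorem B6_meas (hQ : S_QRY) (hL : S_LCD) (V : Alg) (p : Polynomial ℕ) :
    MeasurableSet (B6_S V p) := by
  have h1 : B6_S V p = ⋂ n, ⋂ y ∈ Ys n,
      {X | X ∈ NoHit (2 * n + 1) (Rc n y) ↔ X ∈ B6_E V p n y} := by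
    ext X
    simp only [B6_S, Set.mem_ofPred_eq, Set.mem_iInter]
  rw [h1]
  refine MeasurableSet.iInter fun n => Finset.measurableSet_biInter _ fun y hy => ?_
  obtain ⟨R, hR⟩ := B6_loc_E hQ hL V p n
  have hy' := (B6_mem_Ys.1 hy).1
  refine measurableSet_of_loc (K := {x | x.length ≤ max R (8 * n + 8)}) (finite_short _) ?_
  have h2 : Loc {x | x.length ≤ max R (8 * n + 8)} (NoHit (2 * n + 1) (Rc n y)) := by
    refine loc_noHit fun κ hκ i hi => ?_
    obtain ⟨h3, h4⟩ := B6_mem_Rc hκ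
    rw [Set.mem_ofPred_eq, B6_length_pos]
    exact le_trans (by omega) (le_max_right _ _)
  have h3 : Loc {x | x.length ≤ max R (8 * n + 8)} (B6_E V p n y) :=
    Loc.mono (hR y hy) fun x (hx : x.length ≤ R) =>
      show x.length ≤ max R (8 * n + 8) from le_trans hx (le_max_left _ _)
  intro A A' hA
  exact iff_congr (h2 A A' hA) (h3 A A' hA)

theorem B6_of_coNP {X : Oracle} (h : IsCoNP (join X (DA X)) (YY X)) :
    ∃ (V : Alg) (p : Polynomial ℕ), X ∈ B6_S V p := by
  obtain ⟨F, p, ⟨V, hV⟩, hF⟩ := h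
  refine ⟨V, p, fun n y hy => ?_⟩
  have hy' := (B6_mem_Ys.1 hy).1
  have h1 : pairBits (List.replicate n true) y ∈ (YY X)ᶜ ↔ X ∈ NoHit (2 * n + 1) (Rc n y) := by
    constructor
    · intro h2
      by_contra h3
      exact h2 ⟨n, y, rfl, hy, h3⟩
    · rintro h2 ⟨n', y', h3, h4, h5⟩
      obtain ⟨h6, h7⟩ := B6_pair_inj h3
      have h8 : n = n' := by simpa using congrArg List.length h6
      subst h8
      subst h7
      exact h5 h2
  rw [← h1, hF]
  have hlen : (pairBits (List.replicate n true) y).length = 4 * n + 1 := by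
    rw [length_pairBits, List.length_replicate]
    omega
  rw [hlen]
  unfold B6_E
  simp only [Set.mem_ofPred_eq, hV, Option.some.injEq]

/-! ### Planting -/

theorem B6_plant {K : Set (List Bool)} {S : Set Oracle} (hS : Loc K S) (J : Finset (List Bool))
    (hJ : ∀ x ∈ J, x ∉ K) (B : Oracle) : plant J B ∈ S ↔ B ∈ S := by
  apply hS
  intro x hx
  unfold plant
  rw [if_neg]
  exact fun h => hJ x h hx

theorem B6_loc_Mk {n : ℕ} {y y' : List Bool} (hy : y ∈ Ys n) (hy' : y' ∈ Ys n) :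
    Loc {x | x ∉ allSpots (2 * n + 1) (Rc n y)} (Mk n 0 y') := by
  refine loc_noHit fun κ hκ i _ => ?_
  rw [Set.mem_ofPred_eq, M2.mem_allSpots]
  rintro ⟨κ', hκ', h1⟩
  obtain ⟨j, -, h2⟩ := mem_spots.1 h1
  have h3 := congrArg List.length (M2.pos_inj h2).2.2
  have h4 := (B6_mem_gc hκ).2
  have h5 := (B6_mem_Rc hκ').2
  have h6 := (B6_mem_Ys.1 hy).1
  have h7 := (B6_mem_Ys.1 hy').1
  unfold wl at h4
  omega

theorem B6_loc_FM {n : ℕ} {y : List Bool} {K : Set (List Bool)} (hy : y ∈ Ys n)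
    (h : ∀ y' ∈ Ys n, Loc K (Mk n 0 y')) : Loc K (FM n y) := by
  intro A A' hA
  exact and_congr (h y hy A A' hA) (forall₂_congr fun y' hy' =>
    imp_congr_right fun _ => not_congr (h y' hy' A A' hA))

theorem B6_loc_cyl {n t : ℕ} (y : List Bool) (ht : t ≤ n) (L : List (List Bool)) :
    Loc {x | x ∉ allSpots (2 * n + 1) (Rc n y)} (cyl t L) := by
  refine Loc.mono (loc_cyl_aux t L) fun x hx => ?_
  rw [Set.mem_ofPred_eq, M2.mem_allSpots]
  rintro ⟨κ', hκ', h1⟩
  obtain ⟨j, -, h2⟩ := mem_spots.1 h1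
  have h3 := congrArg List.length h2
  rw [B6_length_pos] at h3
  have h5 := (B6_mem_Rc hκ').2
  have h6 : x.length ≤ t := hx
  omega

theorem B6_disj {n : ℕ} {y y' : List Bool} (hy : y ∈ Ys n) (hy' : y' ∈ Ys n) (hne : y ≠ y') :
    Disjoint (FM n y) (FM n y') := by
  rw [Set.disjoint_left]
  intro X h1 h2
  rcases lt_trichotomy (valB y) (valB y') with h | h | h
  · exact h2.2 y hy h h1.1
  · exact hne (B6_valB_inj _ _ ((B6_mem_Ys.1 hy).1.trans (B6_mem_Ys.1 hy').1.symm) h)
  · exact h1.2 y' hy' h h2.1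

theorem B6_union (n : ℕ) : (En n)ᶜ = ⋃ y ∈ Ys n, FM n y := by
  classical
  ext X
  simp only [Set.mem_iUnion, exists_prop, Set.mem_compl_iff]
  constructor
  · intro h
    have h1 : ((Ys n).filter (fun y => X ∈ Mk n 0 y)).Nonempty := by
      by_contra h2
      apply h
      intro y hy hX
      exact h2 ⟨y, Finset.mem_filter.2 ⟨hy, hX⟩⟩
    obtain ⟨y, hy, hmin⟩ := Finset.exists_min_image _ valB h1
    rw [Finset.mem_filter] at hy
    refine ⟨y, hy.1, hy.2, fun y' hy' hlt hX => ?_⟩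
    have := hmin y' (Finset.mem_filter.2 ⟨hy', hX⟩)
    omega
  · rintro ⟨y, hy, hX⟩ h
    exact h y hy hX.1

/-! ### Numbers -/

theorem B6_num (P : Polynomial ℕ) : Filter.Tendsto
    (fun n : ℕ => ((P.eval n : ℕ) : ℝ) * (1 / 2) ^ (2 * n + 1)) Filter.atTop (nhds 0) := by
  induction P using Polynomial.induction_on' with
  | add p q hp hq =>
    have := hp.add hq
    rw [add_zero] at this
    refine this.congr fun n => ?_
    rw [Polynomial.eval_add]
    push_cast
    ring
  | monomial k a =>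
    have h1 := tendsto_pow_const_mul_const_pow_of_abs_lt_one k
      (show |(1 / 4 : ℝ)| < 1 by rw [abs_of_pos] <;> norm_num)
    have h2 := h1.const_mul ((a : ℝ) * (1 / 2))
    rw [mul_zero] at h2
    refine h2.congr fun n => ?_
    rw [Polynomial.eval_monomial, pow_succ, pow_mul]
    push_cast
    norm_num
    ring

/-! ### The main argument -/

theorem B6_zero (hQ : S_QRY) (hP : S_PLT) (hE : S_PEC) (hL : S_LCD) (V : Alg)
    (p : Polynomial ℕ) : prob (B6_S V p) = 0 := by
  classical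
  have := isProbabilityMeasure_randomOracle_aux
  by_contra hne
  have h0 : 0 < prob (B6_S V p) := lt_of_le_of_ne (prob_nonneg _) (Ne.symm hne)
  have hSm := B6_meas hQ hL V p
  obtain ⟨t, L, hC, hd⟩ := exists_cyl hSm h0 (show (0 : ℝ) < 1 / 32 by norm_num)
  obtain ⟨P, hPP⟩ := hP V p
  obtain ⟨n, ⟨hn1, hn2⟩, hn3⟩ := (((hE t).and (Filter.eventually_ge_atTop t)).and
    ((B6_num P).eventually (gt_mem_nhds (show (0 : ℝ) < 1 / 64 by norm_num)))).exists
  have hEn := hn1 L
  set C : Set Oracle := cyl t L with hCdef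
  set m : ℕ := 2 * n + 1 with hm
  set c : ℝ := (1 - (1 / 2) ^ m) ^ (2 ^ m) with hc
  have hc1 : 1 / 4 ≤ c := by
    have := sat_ge (n := m) (by omega) 1
    rwa [one_mul, pow_one] at this
  have hc2 : c ≤ 1 / 2 := by
    have := sat_le m 1
    rwa [one_mul, pow_one] at this
  obtain ⟨R, hR⟩ := B6_loc_E hQ hL V p n
  set K : Set (List Bool) := {x | x.length ≤ R + 20 * n + 20} with hK
  have hKf : K.Finite := finite_short _
  have hKE : ∀ y ∈ Ys n, Loc K (B6_E V p n y) := fun y hy =>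
    Loc.mono (hR y hy) fun x (hx : x.length ≤ R) => show x.length ≤ R + 20 * n + 20 by omega
  have hKM : ∀ y ∈ Ys n, Loc K (Mk n 0 y) := by
    intro y hy
    refine loc_noHit fun κ hκ i hi => ?_
    have h1 := B6_mem_gc hκ
    have h2 := (B6_mem_Ys.1 hy).1
    have h3 : wl n = 2 * n + 8 := rfl
    show (pos κ.1 i κ.2).length ≤ R + 20 * n + 20
    rw [B6_length_pos]
    omega
  have hKC : Loc K C := Loc.mono (loc_cyl_aux t L) fun x (hx : x.length ≤ t) =>
    show x.length ≤ R + 20 * n + 20 by omega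
  have hKF : ∀ y ∈ Ys n, Loc K (FM n y ∩ C) := fun y hy => (B6_loc_FM hy hKM).inter hKC
  have hKW : ∀ y ∈ Ys n, ∀ κ ∈ Rc n y, ∀ i < m, pos κ.1 i κ.2 ∈ K := by
    intro y hy κ hκ i hi
    have h1 := B6_mem_Rc hκ
    have h2 := (B6_mem_Ys.1 hy).1
    show (pos κ.1 i κ.2).length ≤ R + 20 * n + 20
    rw [B6_length_pos]
    omega
  have hFm : ∀ y ∈ Ys n, MeasurableSet (FM n y ∩ C) := fun y hy =>
    measurableSet_of_loc hKf (hKF y hy)
  have hloc' : ∀ y ∈ Ys n, Loc {x | x ∉ allSpots m (Rc n y)} (FM n y ∩ C) := fun y hy =>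
    (B6_loc_FM hy fun y' hy' => B6_loc_Mk hy hy').inter (B6_loc_cyl y hn2 L)
  have hpl : ∀ y ∈ Ys n, ∀ (B : Oracle) (h : Finset Cand), h ⊆ Rc n y →
      (plant (allSpots m h) B ∈ FM n y ∩ C ↔ B ∈ FM n y ∩ C) := by
    intro y hy B h hh
    refine B6_plant (hloc' y hy) _ (fun x hx hx' => ?_) B
    obtain ⟨κ, hκ, h1⟩ := M2.mem_allSpots.1 hx
    exact hx' (M2.mem_allSpots.2 ⟨κ, hh hκ, h1⟩)
  -- the inequality for one string
  have hkt : ∀ y ∈ Ys n, prob ((B6_E V p n y ∩ Mk n 0 y) ∩ (FM n y ∩ C) ∩ NoHit m (Rc n y)) *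
      (1 - c) ≤ (prob (B6_E V p n y ∩ (FM n y ∩ C) ∩ (NoHit m (Rc n y))ᶜ) +
        ((P.eval n : ℕ) : ℝ) * (1 / 2) ^ m * prob (FM n y ∩ C)) * c := by
    intro y hy
    have := key_taut hKf (Z := B6_E V p n y ∩ Mk n 0 y) (E := B6_E V p n y)
      (τ := FM n y ∩ C) ((hKE y hy).inter (hKM y hy)) (hKE y hy) (hKF y hy) (Rc n y)
      (m := m) (by omega) (P.eval n) (hKW y hy) (hpl y hy) (by
        rintro B hB ⟨hB1, hB2⟩
        obtain ⟨T, hT1, hT2⟩ := hPP n y B hy hB2 hB hB1
        exact ⟨T, hT1, fun h hh _ hd => hT2 h hh hd⟩)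
    rwa [B6_card_Rc] at this
  have hno : ∀ y ∈ Ys n, prob ((FM n y ∩ C) ∩ NoHit m (Rc n y)) = prob (FM n y ∩ C) * c := by
    intro y hy
    rw [prob_noHit_aux (hFm y hy), B6_card_Rc]
    intro κ hκ A
    rw [← allSpots_singleton]
    exact hpl y hy A {κ} (Finset.singleton_subset_iff.2 hκ)
  -- the sums
  set T : ℝ := ∑ y ∈ Ys n, prob (FM n y ∩ C) with hT
  set A : ℝ := ∑ y ∈ Ys n,
    prob ((B6_E V p n y ∩ Mk n 0 y) ∩ (FM n y ∩ C) ∩ NoHit m (Rc n y)) with hA
  set B : ℝ := ∑ y ∈ Ys n, prob (B6_E V p n y ∩ (FM n y ∩ C) ∩ (NoHit m (Rc n y))ᶜ) with hB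
  set D : ℝ := ∑ y ∈ Ys n, prob ((FM n y ∩ C) ∩ (B6_S V p)ᶜ) with hD
  have hsum : A * (1 - c) ≤ (B + ((P.eval n : ℕ) : ℝ) * (1 / 2) ^ m * T) * c := by
    rw [hA, hB, hT, Finset.sum_mul, add_mul, Finset.sum_mul, Finset.mul_sum, Finset.sum_mul,
      ← Finset.sum_add_distrib]
    refine Finset.sum_le_sum fun y hy => ?_
    rw [← add_mul]
    exact hkt y hy
  have hT1 : T = prob ((En n)ᶜ ∩ C) := by
    rw [B6_union, Set.iUnion₂_inter]
    unfold prob
    rw [measureReal_biUnion_finset]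
    · rfl
    · intro y hy y' hy' hne
      exact (B6_disj hy hy' hne).mono Set.inter_subset_left Set.inter_subset_left
    · exact hFm
  have hT2 : T ≤ prob C := by
    rw [hT1]
    exact prob_mono Set.inter_subset_right
  have hT3 : 1 / 2 * prob C ≤ T := by rw [hT1]; exact hEn
  have hCS : prob (C ∩ (B6_S V p)ᶜ) ≤ 1 / 32 * prob C := by
    have h1 := prob_inter_add_compl C hSm
    rw [Set.inter_comm] at hd
    linarith
  have hD2 : D = prob (⋃ y ∈ Ys n, ((FM n y ∩ C) ∩ (B6_S V p)ᶜ)) := by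
    rw [hD]
    unfold prob
    rw [measureReal_biUnion_finset]
    · intro y hy y' hy' hne
      exact (B6_disj hy hy' hne).mono (Set.inter_subset_left.trans Set.inter_subset_left)
        (Set.inter_subset_left.trans Set.inter_subset_left)
    · exact fun y hy => (hFm y hy).inter hSm.compl
  have hD1 : D ≤ 1 / 32 * prob C := by
    rw [hD2]
    refine (prob_mono ?_).trans hCS
    intro X hX
    simp only [Set.mem_iUnion, exists_prop] at hX
    obtain ⟨y, -, hX1, hX2⟩ := hX
    exact ⟨hX1.2, hX2⟩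
  have hA1 : c * T ≤ A + D := by
    rw [hT, hA, hD, Finset.mul_sum, ← Finset.sum_add_distrib]
    refine Finset.sum_le_sum fun y hy => ?_
    rw [mul_comm, ← hno y hy]
    refine le_trans (prob_mono ?_) (prob_union_le _ _)
    rintro X ⟨hX1, hX2⟩
    by_cases hX3 : X ∈ B6_S V p
    · left
      exact ⟨⟨⟨(hX3 n y hy).1 hX2, hX1.1.1⟩, hX1⟩, hX2⟩
    · right
      exact ⟨hX1, hX3⟩
  have hB1 : B ≤ D := by
    rw [hB, hD]
    refine Finset.sum_le_sum fun y hy => prob_mono ?_
    rintro X ⟨⟨hX1, hX2⟩, hX3⟩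
    exact ⟨hX2, fun hX4 => hX3 ((hX4 n y hy).2 hX1)⟩
  -- the contradiction
  have hP0 : (0 : ℝ) ≤ ((P.eval n : ℕ) : ℝ) * (1 / 2) ^ m := by positivity
  have hT0 : 0 ≤ T := by linarith
  have e1 : ((P.eval n : ℕ) : ℝ) * (1 / 2 : ℝ) ^ m * T ≤ 1 / 64 * prob C :=
    mul_le_mul hn3.le hT2 hT0 (by norm_num)
  have e2 : (B + ((P.eval n : ℕ) : ℝ) * (1 / 2 : ℝ) ^ m * T) * c ≤
      (1 / 32 * prob C + 1 / 64 * prob C) * (1 / 2) := by
    have hB0 : 0 ≤ B := Finset.sum_nonneg fun y _ => prob_nonneg _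
    refine mul_le_mul (by linarith) hc2 (by linarith) (by linarith)
  have e3 : 3 / 32 * prob C ≤ A := by
    have h1 : 1 / 4 * (1 / 2 * prob C) ≤ c * T := mul_le_mul hc1 hT3 (by linarith) (by linarith)
    linarith
  have e4 : 3 / 32 * prob C * (1 / 2) ≤ A * (1 - c) :=
    mul_le_mul e3 (by linarith) (by norm_num) (by linarith)
  linarith

theorem B6_countable : Countable (Polynomial ℕ) := by
  have : Function.Injective (fun p : Polynomial ℕ => (p.toFinsupp.coeff : ℕ →₀ ℕ)) := by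
    intro p q h
    ext n
    exact DFunLike.congr_fun h n
  exact this.countable

theorem t_B6 (hQ : S_QRY) (hP : S_PLT) (hE : S_PEC) (hL : S_LCD) : S_B6 := by
  have := isProbabilityMeasure_randomOracle_aux
  have := B6_countable
  have h1 : ∀ x : Alg × Polynomial ℕ, ∀ᵐ X ∂randomOracle, X ∉ B6_S x.1 x.2 := by
    intro x
    have h2 := B6_zero hQ hP hE hL x.1 x.2
    unfold prob at h2
    rw [measureReal_eq_zero_iff] at h2
    exact measure_eq_zero_iff_ae_notMem.1 h2
  filter_upwards [ae_all_iff.2 h1] with X hX hco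
  obtain ⟨V, p, h⟩ := B6_of_coNP hco
  exact hX (V, p) h

end Pool.Agent.H490R3.LH
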