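import Pool.Agent.H490R3.LH.Base2
import Pool.Agent.H583R2.S2.Num
import Pool.Agent.H628R3.RO.M2

/-!
# Task BLD: almost surely there are few damaged strings
-/

set_option autoImplicit false

namespace Pool.Agent.H490R3.LH

open Pool.Agent.NPC Pool.Agent.H628R3.RO MeasureTheory
open Pool.Agent.H583R2.S2 (chr IsP Mk gc Ys dl NN card_Ys dl_pos Num_NNdl_le)
open Pool.Agent.H583R2.NC (wl)
open Pool.Agent.H673R2.OneTT (KA uA)

theorem BLD_B4_length {n : ℕ} {y : List Bool} (hy : y ∈ Ys n) : y.length = 2 * n := by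
  unfold Pool.Agent.H583R2.S2.Ys at hy
  rw [Finset.mem_filter, Finset.mem_image] at hy
  obtain ⟨⟨v, _, rfl⟩, _⟩ := hy
  simp

/-- the cells are disjoint -/
theorem BLD_B4_disj {n : ℕ} {y y' : List Bool} (hy : y ∈ Ys n) (hy' : y' ∈ Ys n) (h : y ≠ y') :
    Disjoint (gc n 0 y) (gc n 0 y') := by
  rw [Finset.disjoint_left]
  rintro ⟨c, w⟩ h1 h2
  unfold Pool.Agent.H583R2.S2.gc at h1 h2
  rw [Finset.mem_product, Finset.mem_image] at h1 h2
  obtain ⟨_, v, _, hv⟩ := h1
  obtain ⟨_, v', _, hv'⟩ := h2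
  apply h
  have h3 : y ++ List.ofFn v = y' ++ List.ofFn v' := by rw [hv, hv']
  exact (List.append_inj h3 (by rw [BLD_B4_length hy, BLD_B4_length hy'])).1

theorem BLD_B4_card_gc (n : ℕ) (y : List Bool) : (gc n 0 y).card = n * 2 ^ wl n := by
  unfold Pool.Agent.H583R2.S2.gc
  rw [Finset.card_product, Nat.card_Ico, Finset.card_image_of_injective]
  · simp
  · intro v v' hvv
    exact List.ofFn_injective (List.append_cancel_left hvv)

/-- the probability that all strings of `K` are marked -/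
theorem BLD_B4_prob (n : ℕ) (K : Finset (List Bool)) (hK : K ⊆ Ys n) :
    prob {X | ∀ y ∈ K, X ∈ Mk n 0 y} = dl n ^ K.card := by
  classical
  have h1 : {X : Oracle | ∀ y ∈ K, X ∈ Mk n 0 y} =
      Set.univ ∩ NoHit (wl n) (K.biUnion (gc n 0)) := by
    ext X
    rw [Set.univ_inter]
    constructor
    · intro h κ hκ
      rw [Finset.mem_biUnion] at hκ
      obtain ⟨y, hy, hκy⟩ := hκ
      exact h y hy κ hκy
    · intro h y hy κ hκ
      exact h κ (Finset.mem_biUnion.2 ⟨y, hy, hκ⟩)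
  have h2 : Loc (∅ : Set (List Bool)) (Set.univ : Set Oracle) := by
    intro A A' _
    exact Iff.rfl
  rw [h1, prob_noHit_inter Set.finite_empty h2 (wl n) _ (fun κ _ i _ => Set.notMem_empty _)]
  have h3 : (K.biUnion (gc n 0)).card = (n * 2 ^ wl n) * K.card := by
    rw [Finset.card_biUnion]
    · simp only [BLD_B4_card_gc, Finset.sum_const, smul_eq_mul]
      ring
    · intro y hy y' hy' hne
      exact BLD_B4_disj (hK hy) (hK hy') hne
  have h4 : prob (Set.univ : Set Oracle) = 1 := by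
    unfold prob
    simp
  rw [h3, h4, one_mul, pow_mul]
  rfl

open Classical in
/-- at least `n` marked strings at stage `n` -/
def BLD_B4_Bad (n : ℕ) : Set Oracle := {X | n ≤ ((Ys n).filter (fun y => X ∈ Mk n 0 y)).card}

theorem BLD_B4_bad (n : ℕ) : prob (BLD_B4_Bad n) ≤ 1 ^ n / (n.factorial : ℝ) := by
  classical
  have h1 : BLD_B4_Bad n ⊆ ⋃ K ∈ Finset.powersetCard n (Ys n), {X : Oracle | ∀ y ∈ K, X ∈ Mk n 0 y} := by
    intro X hX
    have hX' : n ≤ ((Ys n).filter (fun y => X ∈ Mk n 0 y)).card := by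
      have hX2 : n ≤ (@Finset.filter _ (fun y => X ∈ Mk n 0 y)
        (fun y => Classical.propDecidable _) (Ys n)).card := hX
      convert hX2 using 3
    obtain ⟨K, hK, hKn⟩ := Finset.exists_subset_card_eq hX'
    rw [Set.mem_iUnion₂]
    refine ⟨K, Finset.mem_powersetCard.2 ⟨hK.trans (Finset.filter_subset _ _), hKn⟩, ?_⟩
    intro y hy
    exact (Finset.mem_filter.1 (hK hy)).2
  have h2 : prob (BLD_B4_Bad n) ≤
      ∑ K ∈ Finset.powersetCard n (Ys n), prob {X : Oracle | ∀ y ∈ K, X ∈ Mk n 0 y} :=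
    (measureReal_mono h1 (measure_ne_top _ _)).trans (measureReal_biUnion_finset_le _ _)
  refine h2.trans ?_
  have h3 : ∑ K ∈ Finset.powersetCard n (Ys n), prob {X : Oracle | ∀ y ∈ K, X ∈ Mk n 0 y} =
      ((NN n).choose n : ℝ) * dl n ^ n := by
    rw [Finset.sum_congr rfl (g := fun _ => dl n ^ n), Finset.sum_const, Finset.card_powersetCard,
      card_Ys, nsmul_eq_mul]
    intro K hK
    rw [Finset.mem_powersetCard] at hK
    rw [BLD_B4_prob n K hK.1, hK.2]
  rw [h3]
  have h4 : ((NN n).choose n : ℝ) ≤ (NN n : ℝ) ^ n / (n.factorial : ℝ) := Nat.choose_le_pow_div n (NN n)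
  have h5 : (0 : ℝ) ≤ dl n ^ n := pow_nonneg (dl_pos n).le _
  have h6 : ((NN n : ℝ) * dl n) ^ n ≤ 1 ^ n :=
    pow_le_pow_left₀ (mul_nonneg (Nat.cast_nonneg _) (dl_pos n).le) (Num_NNdl_le n) n
  calc ((NN n).choose n : ℝ) * dl n ^ n ≤ (NN n : ℝ) ^ n / (n.factorial : ℝ) * dl n ^ n :=
        mul_le_mul_of_nonneg_right h4 h5
    _ = ((NN n : ℝ) * dl n) ^ n / (n.factorial : ℝ) := by rw [mul_pow]; ring
    _ ≤ 1 ^ n / (n.factorial : ℝ) := by
        apply div_le_div_of_nonneg_right h6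
        positivity


/-! ### hits belonging to marked strings -/

theorem BLD_card_Rc (n : ℕ) (y : List Bool) : (Rc n y).card ≤ 2 ^ (2 * n + 1) := by
  unfold Rc
  refine Finset.card_image_le.trans ?_
  simp

theorem BLD_length_Rc {n : ℕ} {y : List Bool} (hy : y ∈ Ys n) {κ : Cand} (hκ : κ ∈ Rc n y) :
    κ.2.length = 4 * n + 1 := by
  unfold Rc at hκ
  rw [Finset.mem_image] at hκ
  obtain ⟨v, _, rfl⟩ := hκ
  simp [BLD_B4_length hy]
  omega

theorem BLD_length_gc {n : ℕ} {y : List Bool} (hy : y ∈ Ys n) {κ : Cand} (hκ : κ ∈ gc n 0 y) :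
    κ.2.length = 4 * n + 8 := by
  unfold Pool.Agent.H583R2.S2.gc at hκ
  rw [Finset.mem_product, Finset.mem_image] at hκ
  obtain ⟨_, v, _, hv⟩ := hκ
  rw [← hv]
  simp [BLD_B4_length hy, wl]
  omega

/-- the probability that `y` is marked and all candidates of `K` are hits -/
theorem BLD_prob (n : ℕ) (y : List Bool) (hy : y ∈ Ys n) (K : Finset Cand) (hK : K ⊆ Rc n y) :
    prob {X | X ∈ Mk n 0 y ∧ ∀ κ ∈ K, Hit (2 * n + 1) κ X} =
      (1 / 2) ^ ((2 * n + 1) * K.card) * dl n := by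
  have h1 : {X : Oracle | X ∈ Mk n 0 y ∧ ∀ κ ∈ K, Hit (2 * n + 1) κ X} =
      {X | ∀ x ∈ allSpots (2 * n + 1) K, X x = true} ∩ Mk n 0 y := by
    ext X
    constructor
    · rintro ⟨h, h'⟩
      refine ⟨fun x hx => ?_, h⟩
      obtain ⟨κ, hκ, hx⟩ := M2.mem_allSpots.1 hx
      exact M2.hit_iff.1 (h' κ hκ) x hx
    · rintro ⟨h, h'⟩
      refine ⟨h', fun κ hκ => M2.hit_iff.2 fun x hx => h x (M2.mem_allSpots.2 ⟨κ, hκ, hx⟩)⟩
  have hmeas : MeasurableSet (Mk n 0 y) := M2.measurableSet_noHit _ _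
  rw [h1, prob_plant hmeas, M2.card_allSpots]
  have h2 : plant (allSpots (2 * n + 1) K) ⁻¹' Mk n 0 y = Mk n 0 y := by
    ext X
    have key : ∀ κ ∈ gc n 0 y, (Hit (wl n) κ (plant (allSpots (2 * n + 1) K) X) ↔
        Hit (wl n) κ X) := by
      intro κ hκ
      unfold Hit
      refine forall₂_congr fun i hi => ?_
      have : pos κ.1 i κ.2 ∉ allSpots (2 * n + 1) K := by
        intro hx
        obtain ⟨κ', hκ', hx⟩ := M2.mem_allSpots.1 hx
        obtain ⟨i', _, h3⟩ := M2.mem_spots.1 hx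
        have h4 := (M2.pos_inj h3).2.2
        have h5 := BLD_length_Rc hy (hK hκ')
        have h6 := BLD_length_gc hy hκ
        rw [h4] at h5
        omega
      unfold plant
      rw [if_neg this]
    constructor
    · intro h κ hκ h3
      exact h κ hκ ((key κ hκ).2 h3)
    · intro h κ hκ h3
      exact h κ hκ ((key κ hκ).1 h3)
  rw [h2]
  have h3 := BLD_B4_prob n {y} (Finset.singleton_subset_iff.2 hy)
  have h4 : {X : Oracle | ∀ y' ∈ ({y} : Finset (List Bool)), X ∈ Mk n 0 y'} = Mk n 0 y := by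
    ext X
    simp
  rw [h4, Finset.card_singleton, pow_one] at h3
  rw [h3]

open Classical in
/-- a marked string with at least `n` hits at stage `n` -/
def BLD_Bad (n : ℕ) : Set Oracle :=
  {X | ∃ y ∈ Ys n, X ∈ Mk n 0 y ∧ n ≤ ((Rc n y).filter (fun κ => Hit (2 * n + 1) κ X)).card}

theorem BLD_bad (n : ℕ) : prob (BLD_Bad n) ≤ 1 ^ n / (n.factorial : ℝ) := by
  classical
  have h1 : BLD_Bad n ⊆ ⋃ y ∈ Ys n, ⋃ K ∈ Finset.powersetCard n (Rc n y),
      {X : Oracle | X ∈ Mk n 0 y ∧ ∀ κ ∈ K, Hit (2 * n + 1) κ X} := by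
    rintro X ⟨y, hy, hm, hX⟩
    have hX' : n ≤ ((Rc n y).filter (fun κ => Hit (2 * n + 1) κ X)).card := by
      convert hX using 3
    obtain ⟨K, hK, hKn⟩ := Finset.exists_subset_card_eq hX'
    rw [Set.mem_iUnion₂]
    refine ⟨y, hy, ?_⟩
    rw [Set.mem_iUnion₂]
    refine ⟨K, Finset.mem_powersetCard.2 ⟨hK.trans (Finset.filter_subset _ _), hKn⟩, hm, ?_⟩
    intro κ hκ
    exact (Finset.mem_filter.1 (hK hκ)).2
  have hdl := (dl_pos n).le
  have h3 : ∀ y ∈ Ys n, prob (⋃ K ∈ Finset.powersetCard n (Rc n y),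
      {X : Oracle | X ∈ Mk n 0 y ∧ ∀ κ ∈ K, Hit (2 * n + 1) κ X}) ≤ dl n / (n.factorial : ℝ) := by
    intro y hy
    refine (measureReal_biUnion_finset_le _ _).trans ?_
    have h4 : ∑ K ∈ Finset.powersetCard n (Rc n y),
        randomOracle.real {X : Oracle | X ∈ Mk n 0 y ∧ ∀ κ ∈ K, Hit (2 * n + 1) κ X} =
        (((Rc n y).card).choose n : ℝ) * ((1 / 2) ^ ((2 * n + 1) * n) * dl n) := by
      rw [Finset.sum_congr rfl (g := fun _ => (1 / 2 : ℝ) ^ ((2 * n + 1) * n) * dl n),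
        Finset.sum_const, Finset.card_powersetCard, nsmul_eq_mul]
      intro K hK
      rw [Finset.mem_powersetCard] at hK
      have h5 := BLD_prob n y hy K hK.1
      rw [hK.2] at h5
      exact h5
    rw [h4]
    have h6 : (((Rc n y).card).choose n : ℝ) ≤ ((Rc n y).card : ℝ) ^ n / (n.factorial : ℝ) :=
      Nat.choose_le_pow_div n _
    have h7 : ((Rc n y).card : ℝ) ≤ 2 ^ (2 * n + 1) := by
      exact_mod_cast BLD_card_Rc n y
    have h8 : ((Rc n y).card : ℝ) ^ n ≤ 2 ^ ((2 * n + 1) * n) := by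
      rw [pow_mul]
      exact pow_le_pow_left₀ (Nat.cast_nonneg _) h7 n
    have h9 : (((Rc n y).card).choose n : ℝ) ≤ 2 ^ ((2 * n + 1) * n) / (n.factorial : ℝ) :=
      h6.trans (div_le_div_of_nonneg_right h8 (by positivity))
    have h10 : (0 : ℝ) ≤ (1 / 2) ^ ((2 * n + 1) * n) * dl n :=
      mul_nonneg (by positivity) hdl
    calc (((Rc n y).card).choose n : ℝ) * ((1 / 2) ^ ((2 * n + 1) * n) * dl n)
        ≤ 2 ^ ((2 * n + 1) * n) / (n.factorial : ℝ) * ((1 / 2) ^ ((2 * n + 1) * n) * dl n) :=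
          mul_le_mul_of_nonneg_right h9 h10
      _ = (2 * (1 / 2)) ^ ((2 * n + 1) * n) * (dl n / (n.factorial : ℝ)) := by
          rw [mul_pow]; ring
      _ = dl n / (n.factorial : ℝ) := by norm_num
  have h2 : prob (BLD_Bad n) ≤ ∑ y ∈ Ys n, prob (⋃ K ∈ Finset.powersetCard n (Rc n y),
      {X : Oracle | X ∈ Mk n 0 y ∧ ∀ κ ∈ K, Hit (2 * n + 1) κ X}) :=
    (measureReal_mono h1 (measure_ne_top _ _)).trans (measureReal_biUnion_finset_le _ _)
  refine h2.trans ((Finset.sum_le_sum h3).trans ?_)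
  rw [Finset.sum_const, card_Ys, nsmul_eq_mul, one_pow, ← mul_div_assoc]
  exact div_le_div_of_nonneg_right (Num_NNdl_le n) (by positivity)

open Classical in
/-- the damaged strings of stage `n` -/
noncomputable def BLD_D (X : Oracle) (n : ℕ) : Finset (List Bool) :=
  ((Ys n).filter (fun y => X ∈ Mk n 0 y)).biUnion (fun y =>
    ((Rc n y).filter (fun κ => Hit (2 * n + 1) κ X)).biUnion (fun κ => spots (2 * n + 1) κ))

/-- an upper bound for the number of strings of stage `n` -/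
noncomputable def BLD_C (n : ℕ) : ℕ := ∑ y ∈ Ys n, (Rc n y).card * (2 * n + 1)

theorem BLD_card_le (X : Oracle) (n : ℕ) : (BLD_D X n).card ≤ BLD_C n := by
  classical
  unfold BLD_D BLD_C
  refine Finset.card_biUnion_le.trans ?_
  refine (Finset.sum_le_sum (g := fun y => (Rc n y).card * (2 * n + 1)) ?_).trans
    (Finset.sum_le_sum_of_subset (Finset.filter_subset _ _))
  intro y _
  refine Finset.card_biUnion_le.trans ?_
  rw [Finset.sum_congr rfl (g := fun _ => 2 * n + 1) fun κ _ => M2.card_spots _ _,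
    Finset.sum_const, smul_eq_mul]
  exact Nat.mul_le_mul_right _ (Finset.card_filter_le _ _)

theorem BLD_card_le' (X : Oracle) (n : ℕ) (h1 : X ∉ BLD_B4_Bad n) (h2 : X ∉ BLD_Bad n) :
    (BLD_D X n).card ≤ n * (n * (2 * n + 1)) := by
  classical
  unfold BLD_D
  refine Finset.card_biUnion_le.trans ?_
  have h3 : ((Ys n).filter (fun y => X ∈ Mk n 0 y)).card ≤ n := by
    by_contra h4
    push Not at h4
    apply h1
    show n ≤ (@Finset.filter _ (fun y => X ∈ Mk n 0 y)
      (fun y => Classical.propDecidable _) (Ys n)).card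
    convert h4.le using 3
  refine (Finset.sum_le_card_nsmul _ _ (n * (2 * n + 1)) ?_).trans ?_
  · intro y hy
    rw [Finset.mem_filter] at hy
    refine Finset.card_biUnion_le.trans ?_
    rw [Finset.sum_congr rfl (g := fun _ => 2 * n + 1) fun κ _ => M2.card_spots _ _,
      Finset.sum_const, smul_eq_mul]
    apply Nat.mul_le_mul_right
    by_contra h4
    push Not at h4
    apply h2
    refine ⟨y, hy.1, hy.2, ?_⟩
    convert h4.le using 3
  · rw [smul_eq_mul]
    exact Nat.mul_le_mul_right _ h3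

theorem BLD_sub (X : Oracle) (l : ℕ) :
    {z | z ∈ Dm X ∧ z.length ≤ l} ⊆
      (((Finset.range (l + 1)).biUnion (BLD_D X) : Finset (List Bool)) : Set (List Bool)) := by
  classical
  rintro z ⟨⟨n, y, κ, hy, hm, hκ, hh, hz⟩, hl⟩
  rw [Finset.mem_coe, Finset.mem_biUnion]
  refine ⟨n, ?_, ?_⟩
  · obtain ⟨i, hi, rfl⟩ := M2.mem_spots.1 hz
    have h1 := BLD_length_Rc hy hκ
    have h2 : (pos κ.1 i κ.2).length = κ.1 + (i + 1 + κ.2.length) + 1 := by
      unfold pos
      simp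
      omega
    rw [Finset.mem_range]
    omega
  · unfold BLD_D
    rw [Finset.mem_biUnion]
    refine ⟨y, Finset.mem_filter.2 ⟨hy, hm⟩, ?_⟩
    rw [Finset.mem_biUnion]
    exact ⟨κ, Finset.mem_filter.2 ⟨hκ, hh⟩, hz⟩

theorem t_BLD : S_BLD := by
  classical
  have hsum : Summable (fun n : ℕ => (1 : ℝ) ^ n / (n.factorial : ℝ)) :=
    Real.summable_pow_div_factorial 1
  have hBC : ∀ᵐ X ∂randomOracle, ∀ᶠ n in Filter.atTop, X ∉ BLD_B4_Bad n := by
    apply ae_eventually_notMem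
    refine ne_top_of_le_ne_top hsum.tsum_ofReal_ne_top (ENNReal.tsum_le_tsum fun n => ?_)
    have h1 := BLD_B4_bad n
    unfold prob at h1
    rw [← ENNReal.ofReal_toReal (measure_ne_top randomOracle (BLD_B4_Bad n))]
    exact ENNReal.ofReal_le_ofReal h1
  have hBC' : ∀ᵐ X ∂randomOracle, ∀ᶠ n in Filter.atTop, X ∉ BLD_Bad n := by
    apply ae_eventually_notMem
    refine ne_top_of_le_ne_top hsum.tsum_ofReal_ne_top (ENNReal.tsum_le_tsum fun n => ?_)
    have h1 := BLD_bad n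
    unfold prob at h1
    rw [← ENNReal.ofReal_toReal (measure_ne_top randomOracle (BLD_Bad n))]
    exact ENNReal.ofReal_le_ofReal h1
  filter_upwards [hBC, hBC'] with X hX hX'
  obtain ⟨n₀, hn₀⟩ := Filter.eventually_atTop.1 (hX.and hX')
  set S : ℕ := ∑ n ∈ Finset.range n₀, BLD_C n with hS
  refine ⟨(Polynomial.X + 1) * (Polynomial.X * (Polynomial.X * (2 * Polynomial.X + 1)) +
    Polynomial.C S), fun l => ?_⟩
  have key : ∀ n ∈ Finset.range (l + 1), (BLD_D X n).card ≤ l * (l * (2 * l + 1)) + S := by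
    intro n hn
    rw [Finset.mem_range] at hn
    rcases le_or_gt n₀ n with h | h
    · have h1 := BLD_card_le' X n (hn₀ n h).1 (hn₀ n h).2
      have h2 : n * (n * (2 * n + 1)) ≤ l * (l * (2 * l + 1)) := by
        have h3 : n ≤ l := by omega
        gcongr
      omega
    · have h1 := BLD_card_le X n
      have h2 : BLD_C n ≤ S := Finset.single_le_sum (f := fun n => BLD_C n)
        (fun i _ => Nat.zero_le _) (Finset.mem_range.2 h)
      omega
  calc {z | z ∈ Dm X ∧ z.length ≤ l}.ncard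
      ≤ (((Finset.range (l + 1)).biUnion (BLD_D X) : Finset (List Bool)) :
          Set (List Bool)).ncard := Set.ncard_le_ncard (BLD_sub X l) (Finset.finite_toSet _)
    _ = ((Finset.range (l + 1)).biUnion (BLD_D X)).card := Set.ncard_coe_finset _
    _ ≤ ∑ n ∈ Finset.range (l + 1), (BLD_D X n).card := Finset.card_biUnion_le
    _ ≤ (Finset.range (l + 1)).card • (l * (l * (2 * l + 1)) + S) :=
        Finset.sum_le_card_nsmul _ _ _ key
    _ = _ := by
        rw [Finset.card_range, smul_eq_mul]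
        simp

end Pool.Agent.H490R3.LH
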