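import Pool.Agent.H490R3.LH.Base2

set_option autoImplicit false

namespace Pool.Agent.H490R3.LH

open Pool.Agent.NPC Pool.Agent.H628R3.RO MeasureTheory
open Pool.Agent.H583R2.S2 (chr IsP Mk gc Ys dl NN)
open Pool.Agent.H583R2.NC (wl)
open Pool.Agent.H673R2.OneTT (KA uA)

theorem LCD_pos_length (c i : ℕ) (w : List Bool) :
    (pos c i w).length = c + i + w.length + 2 := by
  unfold pos
  simp only [List.length_append, List.length_replicate, List.length_cons]
  omega

theorem LCD_Ys_length (n : ℕ) (y : List Bool) (hy : y ∈ Ys n) : y.length = 2 * n := by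
  unfold Ys at hy
  rw [Finset.mem_filter, Finset.mem_image] at hy
  obtain ⟨⟨v, -, rfl⟩, -⟩ := hy
  exact List.length_ofFn

theorem LCD_Dm (L : ℕ) (X X' : Oracle)
    (hX : ∀ q : List Bool, q.length ≤ 8 * L + 18 → X q = X' q) (q : List Bool)
    (hq : q.length ≤ L) (h : q ∈ Dm X) : q ∈ Dm X' := by
  obtain ⟨n, y, κ, hy, hM, hκ, hH, hs⟩ := h
  have hyl := LCD_Ys_length n y hy
  have hκ2 : κ.1 = 0 ∧ κ.2.length = 4 * n + 1 := by
    unfold Rc at hκ
    rw [Finset.mem_image] at hκ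
    obtain ⟨v, -, rfl⟩ := hκ
    refine ⟨rfl, ?_⟩
    rw [List.length_append, List.length_ofFn, hyl]
    omega
  have hn : n ≤ L := by
    unfold spots at hs
    rw [Finset.mem_image] at hs
    obtain ⟨i, -, hi⟩ := hs
    rw [← hi, LCD_pos_length, hκ2.2] at hq
    omega
  refine ⟨n, y, κ, hy, ?_, hκ, ?_, hs⟩
  · intro κ' hκ' hhit
    apply hM κ' hκ'
    intro i hi
    have hlen : (pos κ'.1 i κ'.2).length ≤ 8 * L + 18 := by
      rw [LCD_pos_length]
      unfold gc at hκ'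
      rw [Finset.mem_product, Finset.mem_Ico, Finset.mem_image] at hκ'
      obtain ⟨⟨-, h1⟩, v, -, h2⟩ := hκ'
      rw [← h2, List.length_append, List.length_ofFn, hyl]
      unfold wl at hi ⊢
      omega
    rw [hX _ hlen]
    exact hhit i hi
  · intro i hi
    have hlen : (pos κ.1 i κ.2).length ≤ 8 * L + 18 := by
      rw [LCD_pos_length, hκ2.1, hκ2.2]
      omega
    rw [← hX _ hlen]
    exact hH i hi

theorem LCD_eval_mono (b : Polynomial ℕ) {x y : ℕ} (h : x ≤ y) : b.eval x ≤ b.eval y := by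
  rw [Polynomial.eval_eq_sum_range, Polynomial.eval_eq_sum_range]
  exact Finset.sum_le_sum fun i _ => Nat.mul_le_mul_left _ (Nat.pow_le_pow_left h i)

theorem LCD_DA (hQ : S_QRY) (m : ℕ) (b : Polynomial ℕ)
    (hb : ∀ A x, ∀ q ∈ qry uA A x, q.length ≤ b.eval x.length) (X X' : Oracle)
    (hX : ∀ q : List Bool, q.length ≤ 8 * (b.eval (3 * m + 1)) + 18 → X q = X' q)
    (v : List Bool) (hv : v.length ≤ m) (h : v ∈ DA X) : v ∈ DA X' := by
  obtain ⟨w, hw, h1, h2⟩ := h
  have hlen : (pairBits v w).length ≤ 3 * m + 1 := by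
    rw [length_pairBits]
    omega
  have hqlen : ∀ q ∈ qry uA X (pairBits v w), q.length ≤ b.eval (3 * m + 1) := fun q hq =>
    (hb X _ q hq).trans (LCD_eval_mono b hlen)
  obtain ⟨h3, h4⟩ := (hQ uA).2.2 X X' (pairBits v w)
    (fun q hq => (hX q ((hqlen q hq).trans (by omega))).symm)
  refine ⟨w, hw, by rw [h4]; exact h1, ?_⟩
  intro q hq hD
  rw [h3] at hq
  exact h2 q hq (LCD_Dm _ X' X (fun q hq => (hX q hq).symm) q (hqlen q hq) hD)

theorem t_LCD (hQ : S_QRY) : S_LCD := by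
  intro m
  obtain ⟨b, hb⟩ := (hQ uA).2.1
  refine ⟨8 * (b.eval (3 * m + 1)) + 18, fun X X' hX v hv => ⟨?_, ?_⟩⟩
  · exact LCD_DA hQ m b hb X X' hX v hv
  · exact LCD_DA hQ m b hb X' X (fun q hq => (hX q hq).symm) v hv

end Pool.Agent.H490R3.LH
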