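import Pool.Agent.H490R3.LH.Base2
import Pool.Agent.H583R2.S2.MemK
import Pool.Agent.H583R2.S2.Par
import Pool.Agent.H628R3.RO.G1
import Pool.Agent.H628R3.RO.A2

/-!
Task MDA (helper579): the damaged set is in `NP`.
-/

set_option autoImplicit false

namespace Pool.Agent.H490R3.LH

open MeasureTheory Pool.Agent.NPC Pool.Agent.H628R3.RO
open Pool.Agent.H583R2.S2 (Mk gc Ys NN p_NN)
open Pool.Agent.H583R2.NC (wl)
open Pool.Agent.H673R2.OneTT (KA uA)

/-- a language with witnesses checked by nonadaptive questions with expected answers -/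
theorem MDA_isNP (A : Oracle) (L : Set (List Bool))
    {E : List Bool × List Bool → List (List Bool × Bool)} {g : List Bool × List Bool → Bool}
    (hE : Poly E) (hg : Poly g) (p : Polynomial ℕ)
    (h : ∀ x, x ∈ L ↔ ∃ w : List Bool, w.length ≤ p.eval x.length ∧ g (x, w) = true ∧
      ∀ z ∈ E (x, w), A z.1 = z.2) : IsNP A L := by
  refine isNP_of_tt A L (Q := fun p => (E p).map (fun z => z.1))
    (T := fun p => g p.1 && decide (p.2 = (E p.1).map (fun z => z.2)))
    (NPC.Poly.map (F := fun _ (z : List Bool × Bool) => z.1) hE (Poly.fst (Poly.snd Poly.id)))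
    (Poly.and (hg.comp (Poly.fst Poly.id)) (Poly.decide_eq (Poly.snd Poly.id)
      (NPC.Poly.map (F := fun _ (z : List Bool × Bool) => z.2) (hE.comp (Poly.fst Poly.id))
        (Poly.snd (Poly.snd Poly.id))))) p fun x => ?_
  rw [h x]
  refine exists_congr fun w => and_congr_right fun _ => ?_
  rw [Bool.and_eq_true, decide_eq_true_eq, List.map_map]
  refine and_congr_right fun _ => ?_
  rw [List.map_inj_left]
  rfl

/-! ### The computation of an algorithm -/

/-- question number `i` -/
def MDA_q (M : Alg) (x a : List Bool) (i : ℕ) : List Bool := (M.D (pairBits x (a.take i))).tail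

/-- `a` is a list of answers -/
def MDA_ans (M : Alg) (A : Oracle) (x a : List Bool) : Prop :=
  ∀ (i : ℕ) (h : i < a.length), (M.D (pairBits x (a.take i))).head? = some false ∧
    A (MDA_q M x a i) = a[i]

theorem MDA_qs_succ (M : Alg) (A : Oracle) (x : List Bool) (n : ℕ) (a : List Bool) :
    qs M A x (n + 1) a = if (M.D (pairBits x a)).head? = some false then
      (M.D (pairBits x a)).tail :: qs M A x n (a ++ [A (M.D (pairBits x a)).tail]) else [] := by
  rw [qs]
  rcases M.D (pairBits x a) with _ | ⟨b, z⟩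
  · simp
  · cases b <;> simp

theorem MDA_run {M : Alg} {A : Oracle} {x a : List Bool} (h : MDA_ans M A x a)
    (hs : (M.D (pairBits x a)).head? ≠ some false) : ∀ d k n : ℕ, k + d = a.length → d < n →
      M.run A x n (a.take k) = some (M.D (pairBits x a)).tail ∧
        qs M A x n (a.take k) = ((List.range a.length).drop k).map (MDA_q M x a) := by
  intro d
  induction d with
  | zero =>
    intro k n hk hn
    obtain ⟨n, rfl⟩ : ∃ m, n = m + 1 := ⟨n - 1, by omega⟩
    have h1 : a.take k = a := List.take_of_length_le (by omega)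
    rw [h1, A2.run_succ, MDA_qs_succ, if_neg hs, if_neg hs]
    refine ⟨rfl, ?_⟩
    rw [List.drop_of_length_le (by rw [List.length_range]; omega)]
    rfl
  | succ d ih =>
    intro k n hk hn
    obtain ⟨n, rfl⟩ : ∃ m, n = m + 1 := ⟨n - 1, by omega⟩
    obtain ⟨h1, h2⟩ := h k (by omega)
    obtain ⟨h3, h4⟩ := ih (k + 1) n (by omega) (by omega)
    unfold MDA_q at h2
    have h5 : a.take k ++ [a[k]] = a.take (k + 1) :=
      (List.take_succ_eq_append_getElem (by omega)).symm
    rw [A2.run_succ, MDA_qs_succ, if_pos h1, if_pos h1, h2, h5, h3, h4]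
    refine ⟨rfl, ?_⟩
    have h6 : (List.range a.length).drop k = k :: (List.range a.length).drop (k + 1) := by
      rw [List.drop_eq_getElem_cons (by rw [List.length_range]; omega), List.getElem_range]
    rw [h6]
    rfl

theorem MDA_conv {M : Alg} {A : Oracle} {x z : List Bool} : ∀ (n : ℕ) (c : List Bool),
    MDA_ans M A x c → M.run A x n c = some z → ∃ a : List Bool, a.length < c.length + n ∧
      MDA_ans M A x a ∧ (M.D (pairBits x a)).head? ≠ some false ∧
      (M.D (pairBits x a)).tail = z := by
  intro n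
  induction n with
  | zero => intro c _ h; simp [Alg.run] at h
  | succ n ih =>
    intro c hc h
    rw [A2.run_succ] at h
    split_ifs at h with h1
    · obtain ⟨a, h2, h3⟩ := ih (c ++ [A (M.D (pairBits x c)).tail]) (by
        intro i hi
        rw [List.length_append, List.length_singleton] at hi
        rcases Nat.lt_or_ge i c.length with h4 | h4
        · unfold MDA_q
          rw [List.take_append_of_le_length h4.le, List.getElem_append_left h4]
          exact hc i h4
        · have h5 : i = c.length := by omega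
          subst h5
          unfold MDA_q
          rw [List.take_left', List.getElem_append_right le_rfl]
          · simp [h1]
          · rfl) h
      refine ⟨a, ?_, h3⟩
      rw [List.length_append, List.length_singleton] at h2
      omega
    · simp only [Option.some.injEq] at h
      exact ⟨c, by omega, hc, h1, h⟩

theorem MDA_out {M : Alg} {A : Oracle} {x : List Bool} {P : List Bool → Prop} :
    (M.out A x = some [true] ∧ ∀ q ∈ qry M A x, P q) ↔ ∃ a : List Bool,
      a.length < M.p.eval x.length ∧ MDA_ans M A x a ∧ M.D (pairBits x a) = [true, true] ∧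
      ∀ i < a.length, P (MDA_q M x a i) := by
  constructor
  · rintro ⟨h1, h2⟩
    unfold Alg.out at h1
    obtain ⟨a, h3, h4, h5, h6⟩ := MDA_conv _ [] (fun i hi => by simp at hi) h1
    rw [List.length_nil, zero_add] at h3
    refine ⟨a, h3, h4, ?_, fun i hi => h2 _ ?_⟩
    · rcases hD : M.D (pairBits x a) with _ | ⟨b, z⟩
      · rw [hD] at h6
        simp at h6
      · rw [hD] at h5 h6
        simp only [List.head?_cons, ne_eq, Option.some.injEq, Bool.not_eq_false] at h5
        simp only [List.tail_cons] at h6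
        rw [h5, h6]
    · have h7 := (MDA_run h4 h5 a.length 0 (M.p.eval x.length) (by omega) h3).2
      unfold qry
      rw [List.take_zero, List.drop_zero] at h7
      rw [h7, List.mem_map]
      exact ⟨i, List.mem_range.2 hi, rfl⟩
  · rintro ⟨a, h1, h2, h3, h4⟩
    have h5 : (M.D (pairBits x a)).head? ≠ some false := by
      rw [h3]
      simp
    obtain ⟨h6, h7⟩ := MDA_run h2 h5 a.length 0 (M.p.eval x.length) (by omega) h1
    rw [List.take_zero] at h6 h7
    rw [List.drop_zero] at h7
    refine ⟨?_, ?_⟩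
    · unfold Alg.out
      rw [h6, h3]
      rfl
    · unfold qry
      rw [h7]
      intro q hq
      obtain ⟨i, hi, rfl⟩ := List.mem_map.1 hq
      exact h4 i (List.mem_range.1 hi)

/-! ### Damaged questions -/

/-- the number of the string of the candidate -/
def MDA_i (q : List Bool) : ℕ := (q.tail.takeWhile id).length

/-- the candidate -/
def MDA_w (q : List Bool) : List Bool := q.drop (MDA_i q + 2)

/-- the stage -/
def MDA_n (q : List Bool) : ℕ := ((MDA_w q).length - 1) / 4

/-- the string to which the candidate belongs -/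
def MDA_y (q : List Bool) : List Bool := (MDA_w q).take (2 * MDA_n q)

/-- the question is about a candidate -/
def MDA_sus (q : List Bool) : Bool :=
  (decide (q = pos 0 (MDA_i q) (MDA_w q)) && decide ((MDA_w q).length = 4 * MDA_n q + 1)) &&
    (decide (MDA_i q < 2 * MDA_n q + 1) && decide (valB (MDA_y q) < NN (MDA_n q)))

theorem MDA_parse (i : ℕ) (w : List Bool) : MDA_i (pos 0 i w) = i ∧ MDA_w (pos 0 i w) = w := by
  have h0 : pos 0 i w = false :: (List.replicate i true ++ false :: w) := by
    simp [pos]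
  have h1 : MDA_i (pos 0 i w) = i := by
    unfold MDA_i
    rw [h0, List.tail_cons, takeWhile_repl, List.length_replicate]
  refine ⟨h1, ?_⟩
  unfold MDA_w
  rw [h1, h0, List.drop_succ_cons]
  have h2 : (List.replicate i true ++ false :: w).drop (i + 1) = w := by
    have h3 : i + 1 = (List.replicate i true ++ [false]).length := by simp
    have h4 : List.replicate i true ++ false :: w = (List.replicate i true ++ [false]) ++ w := by
      simp
    rw [h3, h4, List.drop_left]
  exact h2

theorem MDA_mem_Ys {n : ℕ} {y : List Bool} : y ∈ Ys n ↔ y.length = 2 * n ∧ valB y < NN n := by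
  unfold Ys
  rw [Finset.mem_filter, Finset.mem_image]
  constructor
  · rintro ⟨⟨v, -, rfl⟩, h2⟩
    exact ⟨List.length_ofFn, h2⟩
  · rintro ⟨h1, h2⟩
    refine ⟨⟨fun i => y.get (i.cast h1.symm), Finset.mem_univ _, ?_⟩, h2⟩
    apply List.ext_get
    · rw [List.length_ofFn, h1]
    · intro i h5 h6
      simp

theorem MDA_ofFn (m : ℕ) (v : List Bool) (h : v.length = m) :
    List.ofFn (fun i : Fin m => v.get (i.cast h.symm)) = v := by
  subst h
  exact List.ofFn_get v

theorem MDA_mem_Rc {n : ℕ} {y : List Bool} {κ : Cand} : κ ∈ Rc n y ↔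
    ∃ v : List Bool, v.length = 2 * n + 1 ∧ κ = (0, y ++ v) := by
  unfold Rc
  rw [Finset.mem_image]
  constructor
  · rintro ⟨v, -, rfl⟩
    exact ⟨List.ofFn v, List.length_ofFn, rfl⟩
  · rintro ⟨v, h1, rfl⟩
    refine ⟨fun i => v.get (i.cast h1.symm), Finset.mem_univ _, ?_⟩
    rw [MDA_ofFn _ v h1]

theorem MDA_mem_Dm {X : Oracle} {q : List Bool} : q ∈ Dm X ↔ MDA_sus q = true ∧
    X ∈ Mk (MDA_n q) 0 (MDA_y q) ∧ Hit (2 * MDA_n q + 1) (0, MDA_w q) X := by
  unfold MDA_sus
  simp only [Bool.and_eq_true, decide_eq_true_eq]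
  constructor
  · rintro ⟨n, y, κ, hy, hM, hκ, hH, hq⟩
    obtain ⟨v, hv, rfl⟩ := MDA_mem_Rc.1 hκ
    obtain ⟨i, hi, rfl⟩ := M2.mem_spots.1 hq
    obtain ⟨h1, h2⟩ := MDA_parse i (y ++ v)
    have hy' := MDA_mem_Ys.1 hy
    have h3 : MDA_n (pos 0 i (y ++ v)) = n := by
      unfold MDA_n
      rw [h2, List.length_append, hv, hy'.1]
      omega
    have h4 : MDA_y (pos 0 i (y ++ v)) = y := by
      unfold MDA_y
      rw [h2, h3, ← hy'.1, List.take_left]
    simp only [h1, h2, h3, h4]
    refine ⟨⟨⟨trivial, ?_⟩, hi, hy'.2⟩, hM, hH⟩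
    rw [List.length_append, hv, hy'.1]
    omega
  · rintro ⟨⟨⟨h1, h2⟩, h3, h4⟩, h5, h6⟩
    have h7 : (MDA_y q).length = 2 * MDA_n q := by
      unfold MDA_y
      rw [List.length_take]
      omega
    refine ⟨MDA_n q, MDA_y q, (0, MDA_w q), MDA_mem_Ys.2 ⟨h7, h4⟩, h5, ?_, h6, ?_⟩
    · rw [MDA_mem_Rc]
      refine ⟨(MDA_w q).drop (2 * MDA_n q), ?_, ?_⟩
      · rw [List.length_drop]
        omega
      · unfold MDA_y
        rw [List.take_append_drop]
    · rw [M2.mem_spots]
      exact ⟨MDA_i q, h3, h1.symm⟩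

/-- certificates -/
abbrev MDA_C : Type := Bool × List Unit × List Bool

/-- the questions for a certificate -/
def MDA_E (q : List Bool) (c : MDA_C) : List (List Bool × Bool) :=
  if MDA_sus q = true then
    if c.1 = true then
      (asks (wl (MDA_n q)) c.2.1.length (MDA_y q ++ c.2.2)).map (fun z => (z, true))
    else [(pos 0 c.2.1.length (MDA_w q), false)]
  else []

/-- the test for a certificate -/
def MDA_G (q : List Bool) (c : MDA_C) : Bool :=
  !(MDA_sus q) || (if c.1 = true then decide (c.2.1.length < MDA_n q) &&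
    decide (c.2.2.length = wl (MDA_n q)) else decide (c.2.1.length < 2 * MDA_n q + 1))

theorem MDA_w_length (q : List Bool) : (MDA_w q).length ≤ q.length := by
  unfold MDA_w
  rw [List.length_drop]
  omega

theorem MDA_n_le (q : List Bool) : MDA_n q ≤ q.length := by
  have h := MDA_w_length q
  unfold MDA_n
  omega

theorem MDA_fine {X : Oracle} {q : List Bool} {c : MDA_C} (hG : MDA_G q c = true)
    (hE : ∀ z ∈ MDA_E q c, X z.1 = z.2) : q ∉ Dm X := by
  rw [MDA_mem_Dm]
  rintro ⟨h1, h2, h3⟩
  unfold MDA_G at hG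
  unfold MDA_E at hE
  rw [if_pos h1] at hE
  rw [h1, Bool.not_true, Bool.false_or] at hG
  split_ifs at hG hE with hc
  · rw [Bool.and_eq_true, decide_eq_true_eq, decide_eq_true_eq] at hG
    apply H583R2.S2.MemK.notMem_Mk.2 _ h2
    refine ⟨c.2.1.length, c.2.2, by omega, by omega, hG.2, fun i hi => ?_⟩
    exact hE (pos c.2.1.length i (MDA_y q ++ c.2.2), true) (List.mem_map.2
      ⟨_, List.mem_map.2 ⟨i, List.mem_range.2 hi, rfl⟩, rfl⟩)
  · rw [decide_eq_true_eq] at hG
    have h4 := hE _ (List.mem_singleton_self _)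
    have h5 := h3 _ hG
    simp only at h4 h5
    rw [h4] at h5
    exact absurd h5 (by simp)

theorem MDA_exists {X : Oracle} {q : List Bool} (hq : q ∉ Dm X) :
    ∃ c : MDA_C, (c.2.1.length ≤ 2 * q.length + 8 ∧ c.2.2.length ≤ 2 * q.length + 8) ∧
      MDA_G q c = true ∧ ∀ z ∈ MDA_E q c, X z.1 = z.2 := by
  rw [MDA_mem_Dm] at hq
  have hn := MDA_n_le q
  cases h1 : MDA_sus q with
  | false =>
    refine ⟨(false, [], []), ⟨by simp, by simp⟩, ?_, ?_⟩
    · unfold MDA_G
      rw [h1]
      rfl
    · unfold MDA_E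
      rw [h1]
      simp
  | true =>
    simp only [h1, true_and, not_and] at hq
    by_cases h2 : X ∈ Mk (MDA_n q) 0 (MDA_y q)
    · have h3 := hq h2
      unfold Hit at h3
      push Not at h3
      obtain ⟨j, hj, h4⟩ := h3
      refine ⟨(false, List.replicate j (), []), ⟨?_, by simp⟩, ?_, ?_⟩
      · simp only [List.length_replicate]
        omega
      · unfold MDA_G
        rw [h1]
        simp [hj]
      · unfold MDA_E
        rw [h1, if_pos rfl, if_neg (by simp)]
        intro z hz
        rw [List.mem_singleton] at hz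
        subst hz
        simp only [List.length_replicate]
        simpa using h4
    · obtain ⟨c, z, h3, h4, h5, h6⟩ := H583R2.S2.MemK.notMem_Mk.1 h2
      have hw : wl (MDA_n q) = 2 * MDA_n q + 8 := rfl
      refine ⟨(true, List.replicate c (), z), ⟨?_, ?_⟩, ?_, ?_⟩
      · simp only [List.length_replicate]
        omega
      · simp only [h5]
        omega
      · unfold MDA_G
        rw [h1]
        simp only [List.length_replicate, h5]
        simp
        omega
      · unfold MDA_E
        rw [h1, if_pos rfl, if_pos rfl]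
        intro x hx
        obtain ⟨x', hx', rfl⟩ := List.mem_map.1 hx
        obtain ⟨i, hi, rfl⟩ := List.mem_map.1 hx'
        simp only [List.length_replicate]
        exact h6 i (List.mem_range.1 hi)

/-! ### The test is computable in polynomial time -/

theorem MDA_p_take {α : Type} [TEnc α] {v : α → List Bool} {n : α → ℕ} (hv : Poly v)
    (hn : UPoly n) : Poly (fun a => (v a).take (n a)) := by
  have h1 : UPoly (fun a => (v a).length - n a) :=
    UPoly.of_le (Poly.sub (Poly.length hv) hn.toPoly) (UPoly.length hv) fun a => Nat.sub_le _ _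
  refine (Poly.reverse (p_drop (Poly.reverse hv) h1)).congr fun a => ?_
  rw [List.drop_reverse, List.reverse_reverse]
  rw [List.take_eq_take_iff]
  omega

theorem MDA_u_i : UPoly MDA_i := UPoly.length (p_takeWhile (Poly.tail Poly.id))

theorem MDA_p_w : Poly MDA_w := p_drop Poly.id (UPoly.add MDA_u_i (UPoly.const 2))

theorem MDA_u_n : UPoly MDA_n := by
  refine UPoly.of_le (Poly.div (Poly.sub (Poly.length MDA_p_w) (NPC.Poly.const 1))
    (NPC.Poly.const 4)) (UPoly.length MDA_p_w) fun a => ?_
  unfold MDA_n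
  omega

theorem MDA_p_y : Poly MDA_y := MDA_p_take MDA_p_w (UPoly.mul (UPoly.const 2) MDA_u_n)

theorem MDA_p_sus : Poly MDA_sus := by
  unfold MDA_sus
  refine Poly.and (Poly.and (Poly.decide_eq Poly.id (p_pos (UPoly.const 0) MDA_u_i MDA_p_w))
    (Poly.decide_eq (Poly.length MDA_p_w) (UPoly.add (UPoly.mul (UPoly.const 4) MDA_u_n)
      (UPoly.const 1)).toPoly))
    (Poly.and (Poly.decide_lt MDA_u_i.toPoly (UPoly.add (UPoly.mul (UPoly.const 2) MDA_u_n)
      (UPoly.const 1)).toPoly)
      (Poly.decide_lt (Poly.valBits MDA_p_y) (p_NN MDA_u_n)))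

theorem MDA_u_wl {α : Type} [TEnc α] {n : α → ℕ} (hn : UPoly n) :
    UPoly (fun a => wl (n a)) :=
  (UPoly.add (UPoly.mul (UPoly.const 2) hn) (UPoly.const 8)).congr fun _ => rfl

theorem MDA_p_E {α : Type} [TEnc α] {q : α → List Bool} {c : α → MDA_C} (hq : Poly q)
    (hc : Poly c) : Poly (fun a => MDA_E (q a) (c a)) := by
  have h1 : Poly (fun a => (c a).1) := Poly.fst hc
  have h2 : Poly (fun a => (c a).2.1) := Poly.fst (Poly.snd hc)
  have h3 : Poly (fun a => (c a).2.2) := Poly.snd (Poly.snd hc)
  unfold MDA_E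
  refine Poly.ite (Poly.decide_eq (MDA_p_sus.comp hq) (NPC.Poly.const true))
    (Poly.ite (Poly.decide_eq h1 (NPC.Poly.const true)) ?_ ?_) (NPC.Poly.const [])
  · exact NPC.Poly.map (F := fun _ (z : List Bool) => (z, true))
      (p_asks (MDA_u_wl (MDA_u_n.comp hq)) (UPoly.length h2)
        (Poly.append (MDA_p_y.comp hq) h3)) (Poly.pair (Poly.snd Poly.id) (NPC.Poly.const true))
  · exact Poly.cons (Poly.pair (p_pos (UPoly.const 0) (UPoly.length h2) (MDA_p_w.comp hq))
      (NPC.Poly.const false)) (NPC.Poly.const [])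

theorem MDA_p_G {α : Type} [TEnc α] {q : α → List Bool} {c : α → MDA_C} (hq : Poly q)
    (hc : Poly c) : Poly (fun a => MDA_G (q a) (c a)) := by
  have h1 : Poly (fun a => (c a).1) := Poly.fst hc
  have h2 : Poly (fun a => (c a).2.1) := Poly.fst (Poly.snd hc)
  have h3 : Poly (fun a => (c a).2.2) := Poly.snd (Poly.snd hc)
  have h4 : UPoly (fun a => MDA_n (q a)) := MDA_u_n.comp hq
  unfold MDA_G
  refine Poly.or (Poly.not (MDA_p_sus.comp hq))
    (Poly.ite (Poly.decide_eq h1 (NPC.Poly.const true)) ?_ ?_)
  · exact Poly.and (Poly.decide_lt (Poly.length h2) h4.toPoly)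
      (Poly.decide_eq (Poly.length h3) (MDA_u_wl h4).toPoly)
  · exact Poly.decide_lt (Poly.length h2) (UPoly.add (UPoly.mul (UPoly.const 2) h4)
      (UPoly.const 1)).toPoly

/-- the witnesses -/
abbrev MDA_W : Type := List Bool × List (Bool × MDA_C)

/-- decoding -/
def MDA_dec (W : List Bool) : MDA_W := (unbits MDA_W W).getD ([], [])

theorem MDA_dec_bits (s : MDA_W) : MDA_dec (bits s) = s := by
  unfold MDA_dec
  rw [unbits_bits]
  rfl

theorem MDA_p_dec : Poly MDA_dec :=
  (Poly.optCases (poly_unbits (α := MDA_W)) (NPC.Poly.const (([], []) : MDA_W))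
    (h := fun _ b => b) (Poly.snd Poly.id)).congr fun a => by
      unfold MDA_dec
      cases unbits MDA_W a <;> rfl

/-- the questions of the verifier -/
noncomputable def MDA_EE (M : Alg) (p : List Bool × List Bool) : List (List Bool × Bool) :=
  (List.range (MDA_dec p.2).2.length).flatMap (fun i =>
    (MDA_q M (pairBits p.1 (MDA_dec p.2).1) ((MDA_dec p.2).2.map (fun z => z.1)) i,
      ((MDA_dec p.2).2.getD i (false, false, [], [])).1) ::
    MDA_E (MDA_q M (pairBits p.1 (MDA_dec p.2).1) ((MDA_dec p.2).2.map (fun z => z.1)) i)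
      ((MDA_dec p.2).2.getD i (false, false, [], [])).2)

/-- the test of the verifier -/
noncomputable def MDA_GG (M : Alg) (p : List Bool × List Bool) : Bool :=
  ((decide ((MDA_dec p.2).1.length ≤ p.1.length) &&
    decide ((MDA_dec p.2).2.length < M.p.eval (pairBits p.1 (MDA_dec p.2).1).length)) &&
    decide (M.D (pairBits (pairBits p.1 (MDA_dec p.2).1)
      ((MDA_dec p.2).2.map (fun z => z.1))) = [true, true])) &&
  (List.range (MDA_dec p.2).2.length).all (fun i =>
    decide ((M.D (pairBits (pairBits p.1 (MDA_dec p.2).1)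
      (((MDA_dec p.2).2.map (fun z => z.1)).take i))).head? = some false) &&
    MDA_G (MDA_q M (pairBits p.1 (MDA_dec p.2).1) ((MDA_dec p.2).2.map (fun z => z.1)) i)
      ((MDA_dec p.2).2.getD i (false, false, [], [])).2)

theorem MDA_p_take' {α : Type} [TEnc α] {v : α → List Bool} {i : α → ℕ} {m : α → ℕ}
    (hv : Poly v) (hi : Poly i) (hm : UPoly m) : Poly (fun a => (v a).take (min (i a) (m a))) :=
  MDA_p_take hv (UPoly.of_le (Poly.min hi hm.toPoly) hm fun _ => min_le_right _ _)

theorem MDA_p_D (M : Alg) : Poly M.D := Pool.Agent.H622R2.poly_of_polyTime M.poly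

theorem MDA_p_EE (M : Alg) : Poly (MDA_EE M) := by
  have hd : Poly (fun p : List Bool × List Bool => MDA_dec p.2) :=
    MDA_p_dec.comp (Poly.snd Poly.id)
  have hz : Poly (fun p : List Bool × List Bool => pairBits p.1 (MDA_dec p.2).1) :=
    H622R2.poly_pairBits (Poly.fst Poly.id) (Poly.fst hd)
  have ha : Poly (fun p : List Bool × List Bool => (MDA_dec p.2).2.map (fun z => z.1)) :=
    NPC.Poly.map (F := fun _ (z : Bool × MDA_C) => z.1) (Poly.snd hd)
      (Poly.fst (Poly.snd Poly.id))
  have hu : UPoly (fun p : List Bool × List Bool => (MDA_dec p.2).2.length) :=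
    UPoly.length (Poly.snd hd)
  have h1 : Poly (fun p : (List Bool × List Bool) × ℕ => p.1) := Poly.fst Poly.id
  have h2 : Poly (fun p : (List Bool × List Bool) × ℕ => p.2) := Poly.snd Poly.id
  have hq : Poly (fun p : (List Bool × List Bool) × ℕ =>
      (M.D (pairBits (pairBits p.1.1 (MDA_dec p.1.2).1)
        (((MDA_dec p.1.2).2.map (fun z => z.1)).take
          (min p.2 (MDA_dec p.1.2).2.length)))).tail) :=
    Poly.tail ((MDA_p_D M).comp (H622R2.poly_pairBits (hz.comp h1)
      (MDA_p_take' (ha.comp h1) h2 (hu.comp h1))))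
  have hg : Poly (fun p : (List Bool × List Bool) × ℕ =>
      (MDA_dec p.1.2).2.getD p.2 (false, false, [], [])) :=
    Poly.getD (Poly.snd (hd.comp h1)) h2 (NPC.Poly.const _)
  refine (Poly.flatMap (F := fun (p : List Bool × List Bool) (i : ℕ) =>
    ((M.D (pairBits (pairBits p.1 (MDA_dec p.2).1)
        (((MDA_dec p.2).2.map (fun z => z.1)).take (min i (MDA_dec p.2).2.length)))).tail,
      ((MDA_dec p.2).2.getD i (false, false, [], [])).1) ::
    MDA_E (M.D (pairBits (pairBits p.1 (MDA_dec p.2).1)
        (((MDA_dec p.2).2.map (fun z => z.1)).take (min i (MDA_dec p.2).2.length)))).tail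
      ((MDA_dec p.2).2.getD i (false, false, [], [])).2) hu.range
    (Poly.cons (Poly.pair hq (Poly.fst hg)) (MDA_p_E hq (Poly.snd hg)))).congr fun p => ?_
  unfold MDA_EE
  rw [List.flatMap_def, List.flatMap_def]
  congr 1
  apply List.map_congr_left
  intro i hi
  rw [List.mem_range] at hi
  unfold MDA_q
  rw [min_eq_left hi.le]

theorem MDA_p_GG (M : Alg) : Poly (MDA_GG M) := by
  have hd : Poly (fun p : List Bool × List Bool => MDA_dec p.2) :=
    MDA_p_dec.comp (Poly.snd Poly.id)
  have hz : Poly (fun p : List Bool × List Bool => pairBits p.1 (MDA_dec p.2).1) :=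
    H622R2.poly_pairBits (Poly.fst Poly.id) (Poly.fst hd)
  have ha : Poly (fun p : List Bool × List Bool => (MDA_dec p.2).2.map (fun z => z.1)) :=
    NPC.Poly.map (F := fun _ (z : Bool × MDA_C) => z.1) (Poly.snd hd)
      (Poly.fst (Poly.snd Poly.id))
  have hu : UPoly (fun p : List Bool × List Bool => (MDA_dec p.2).2.length) :=
    UPoly.length (Poly.snd hd)
  have h1 : Poly (fun p : (List Bool × List Bool) × ℕ => p.1) := Poly.fst Poly.id
  have h2 : Poly (fun p : (List Bool × List Bool) × ℕ => p.2) := Poly.snd Poly.id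
  have hD : Poly (fun p : (List Bool × List Bool) × ℕ =>
      M.D (pairBits (pairBits p.1.1 (MDA_dec p.1.2).1)
        (((MDA_dec p.1.2).2.map (fun z => z.1)).take
          (min p.2 (MDA_dec p.1.2).2.length)))) :=
    (MDA_p_D M).comp (H622R2.poly_pairBits (hz.comp h1)
      (MDA_p_take' (ha.comp h1) h2 (hu.comp h1)))
  have hg : Poly (fun p : (List Bool × List Bool) × ℕ =>
      (MDA_dec p.1.2).2.getD p.2 (false, false, [], [])) :=
    Poly.getD (Poly.snd (hd.comp h1)) h2 (NPC.Poly.const _)
  have hall := Poly.all (p := fun (p : List Bool × List Bool) (i : ℕ) =>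
    decide ((M.D (pairBits (pairBits p.1 (MDA_dec p.2).1)
      (((MDA_dec p.2).2.map (fun z => z.1)).take
        (min i (MDA_dec p.2).2.length)))).head? = some false) &&
    MDA_G (M.D (pairBits (pairBits p.1 (MDA_dec p.2).1)
      (((MDA_dec p.2).2.map (fun z => z.1)).take (min i (MDA_dec p.2).2.length)))).tail
      ((MDA_dec p.2).2.getD i (false, false, [], [])).2) hu.range
    (Poly.and (Poly.decide_eq (Poly.head? hD) (NPC.Poly.const _))
      (MDA_p_G (Poly.tail hD) (Poly.snd hg)))
  refine (Poly.and (Poly.and (Poly.and (Poly.decide_le (Poly.length (Poly.fst hd))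
    (Poly.length (Poly.fst Poly.id))) (Poly.decide_lt (Poly.length (Poly.snd hd))
      (UPoly.eval (UPoly.length hz) M.p).toPoly)) (Poly.decide_eq ((MDA_p_D M).comp
        (H622R2.poly_pairBits hz ha)) (NPC.Poly.const [true, true]))) hall).congr fun p => ?_
  unfold MDA_GG
  congr 1
  rw [Bool.eq_iff_iff, List.all_eq_true, List.all_eq_true]
  refine forall₂_congr fun i hi => ?_
  rw [List.mem_range] at hi
  unfold MDA_q
  rw [min_eq_left hi.le]

theorem MDA_sz_cert (b : Bool) (c : MDA_C) (B : ℕ) (h1 : c.2.1.length ≤ B)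
    (h2 : c.2.2.length ≤ B) : sz ((b, c) : Bool × MDA_C) ≤ 6 * B + 12 := by
  obtain ⟨c1, c2, c3⟩ := c
  have h3 := sz_bool_le b
  have h4 := sz_bool_le c1
  have h5 := sz_le_length_mul c2 1 (fun _ _ => by simp)
  have h6 := sz_listBool_le c3
  simp only [sz_pair] at *
  omega

theorem MDA_key (M : Alg) {X : Oracle} {x W : List Bool} :
    (MDA_GG M (x, W) = true ∧ ∀ z ∈ MDA_EE M (x, W), X z.1 = z.2) →
      ∃ w : List Bool, w.length ≤ x.length ∧ (M.out X (pairBits x w) = some [true] ∧
        ∀ q ∈ qry M X (pairBits x w), q ∉ Dm X) := by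
  rintro ⟨hG, hE⟩
  unfold MDA_GG at hG
  unfold MDA_EE at hE
  simp only [Bool.and_eq_true, decide_eq_true_eq, List.all_eq_true, List.mem_range] at hG
  simp only [List.mem_flatMap, List.mem_range, forall_exists_index, and_imp] at hE
  obtain ⟨⟨⟨h1, h2⟩, h3⟩, h4⟩ := hG
  refine ⟨(MDA_dec W).1, h1, ?_⟩
  rw [MDA_out (P := fun q => q ∉ Dm X)]
  refine ⟨(MDA_dec W).2.map (fun z => z.1), by rw [List.length_map]; exact h2, ?_, h3, ?_⟩
  · intro i hi
    rw [List.length_map] at hi
    refine ⟨(h4 i hi).1, ?_⟩
    have h5 := hE _ i hi List.mem_cons_self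
    simp only at h5
    rw [h5, List.getElem_map, List.getD_eq_getElem _ _ hi]
  · intro i hi
    rw [List.length_map] at hi
    exact MDA_fine (h4 i hi).2 fun z hz => hE z i hi (List.mem_cons_of_mem _ hz)

theorem MDA_main (M : Alg) (X : Oracle) : IsNP X {v | ∃ w : List Bool, w.length ≤ v.length ∧
    M.out X (pairBits v w) = some [true] ∧ ∀ q ∈ qry M X (pairBits v w), q ∉ Dm X} := by
  obtain ⟨b, hb⟩ := A2.act_bound M
  set zl : Polynomial ℕ := Polynomial.C 3 * Polynomial.X + Polynomial.C 1 with hzl
  refine MDA_isNP X _ (MDA_p_EE M) (MDA_p_GG M) (Polynomial.C 4 * Polynomial.X +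
    (M.p.comp zl) * (Polynomial.C 6 * (Polynomial.C 2 * b.comp zl + Polynomial.C 8) +
      Polynomial.C 13) + Polynomial.C 3) fun x => ⟨?_, ?_⟩
  · rintro ⟨w, hw, h⟩
    rw [MDA_out (P := fun q => q ∉ Dm X)] at h
    obtain ⟨a, h1, h2, h3, h4⟩ := h
    have h5 : ∀ i : ℕ, ∃ c : MDA_C, i < a.length →
        (c.2.1.length ≤ 2 * (MDA_q M (pairBits x w) a i).length + 8 ∧
          c.2.2.length ≤ 2 * (MDA_q M (pairBits x w) a i).length + 8) ∧
        MDA_G (MDA_q M (pairBits x w) a i) c = true ∧
        ∀ z ∈ MDA_E (MDA_q M (pairBits x w) a i) c, X z.1 = z.2 := by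
      intro i
      by_cases hi : i < a.length
      · obtain ⟨c, hc⟩ := MDA_exists (h4 i hi)
        exact ⟨c, fun _ => hc⟩
      · exact ⟨(false, [], []), fun h => absurd h hi⟩
    choose c hc using h5
    set S : List (Bool × MDA_C) := (List.range a.length).map (fun i => (a.getD i false, c i))
      with hS
    have hSl : S.length = a.length := by rw [hS, List.length_map, List.length_range]
    have hSa : S.map (fun z => z.1) = a := by
      apply List.ext_getElem
      · rw [List.length_map, hSl]
      · intro i h6 h7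
        rw [List.getElem_map]
        simp only [hS, List.getElem_map, List.getElem_range]
        rw [List.getD_eq_getElem _ _ h7]
    have hSg : ∀ i < a.length, S.getD i (false, false, [], []) = (a.getD i false, c i) := by
      intro i hi
      rw [List.getD_eq_getElem _ _ (by rw [hSl]; exact hi)]
      simp only [hS, List.getElem_map, List.getElem_range]
    have hzx : (pairBits x w).length ≤ zl.eval x.length := by
      rw [A2.length_pairBits, hzl]
      simp only [Polynomial.eval_add, Polynomial.eval_mul, Polynomial.eval_C, Polynomial.eval_X]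
      omega
    have hq : ∀ i < a.length, (MDA_q M (pairBits x w) a i).length ≤ (b.comp zl).eval x.length := by
      intro i hi
      unfold MDA_q
      rw [List.length_tail, Polynomial.eval_comp]
      have h6 := hb (pairBits x w) (a.take i) ((List.length_take_le _ _).trans (by omega))
      have h7 := eval_mono b hzx
      omega
    refine ⟨bits ((w, S) : MDA_W), ?_, ?_, ?_⟩
    · rw [bits_length, sz_pair]
      have h6 := sz_listBool_le w
      have h7 := sz_le_length_mul S (6 * (2 * (b.comp zl).eval x.length + 8) + 12) (by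
        intro s hs
        rw [hS, List.mem_map] at hs
        obtain ⟨i, hi, rfl⟩ := hs
        rw [List.mem_range] at hi
        have h8 := (hc i hi).1
        have h9 := hq i hi
        exact MDA_sz_cert _ _ _ (by omega) (by omega))
      have h8 : a.length ≤ (M.p.comp zl).eval x.length := by
        rw [Polynomial.eval_comp]
        exact h1.le.trans (eval_mono _ hzx)
      rw [hSl] at h7
      have h9 := Nat.mul_le_mul_right (6 * (2 * (b.comp zl).eval x.length + 8) + 12 + 1) h8
      simp only [Polynomial.eval_add, Polynomial.eval_mul, Polynomial.eval_C,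
        Polynomial.eval_X] at *
      generalize (M.p.comp zl).eval x.length = u1 at *
      generalize (b.comp zl).eval x.length = u2 at *
      have h10 : u1 * (6 * (2 * u2 + 8) + 12 + 1) = u1 * (6 * (2 * u2 + 8) + 13) := by ring
      omega
    · unfold MDA_GG
      simp only [MDA_dec_bits, hSl, hSa]
      simp only [Bool.and_eq_true, decide_eq_true_eq, List.all_eq_true, List.mem_range]
      refine ⟨⟨⟨hw, h1⟩, h3⟩, fun i hi => ⟨(h2 i hi).1, ?_⟩⟩
      rw [hSg i hi]
      exact (hc i hi).2.1
    · unfold MDA_EE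
      simp only [MDA_dec_bits, hSl, hSa]
      intro z hz
      rw [List.mem_flatMap] at hz
      obtain ⟨i, hi, hz⟩ := hz
      rw [List.mem_range] at hi
      rw [hSg i hi] at hz
      rcases List.mem_cons.1 hz with rfl | hz
      · simp only
        rw [(h2 i hi).2, List.getD_eq_getElem _ _ hi]
      · exact (hc i hi).2.2 z hz
  · rintro ⟨W, -, h⟩
    obtain ⟨w, h1, h2⟩ := MDA_key M h
    exact ⟨w, h1, h2⟩

theorem t_MDA (_ : S_VOT) : S_MDA := fun X => MDA_main uA X

end Pool.Agent.H490R3.LH
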