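import Pool.Agent.H490R3.LH.Base2
import Pool.Agent.H673R2.OneOne.Fp
import Pool.Agent.H583R2.S2.Par

/-!
# The set of the strings with a hit is in `NP`
-/

set_option autoImplicit false

namespace Pool.Agent.H490R3.LH

open Pool.Agent.NPC Pool.Agent.H628R3.RO MeasureTheory
open Pool.Agent.H583R2.S2 (chr IsP Mk gc Ys dl NN p_NN)
open Pool.Agent.H583R2.NC (wl)

theorem MYY_mem_Ys {n : ℕ} {y : List Bool} : y ∈ Ys n ↔ y.length = 2 * n ∧ valB y < NN n := by
  unfold Ys
  rw [Finset.mem_filter, Finset.mem_image]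
  constructor
  · rintro ⟨⟨v, _, rfl⟩, h⟩
    exact ⟨List.length_ofFn, h⟩
  · rintro ⟨h1, h2⟩
    refine ⟨⟨fun i => y.get (Fin.cast h1.symm i), Finset.mem_univ _, ?_⟩, h2⟩
    apply List.ext_get
    · rw [List.length_ofFn, h1]
    · intro i h3 h4
      rw [List.get_eq_getElem, List.get_eq_getElem, List.getElem_ofFn]
      rfl

theorem MYY_all_iff {m : ℕ} {w : List Bool} {A : Oracle} :
    ((Pool.Agent.H628R3.RO.asks m 0 w).map A).all (fun b => b) = true ↔ Hit m (0, w) A := by
  unfold Pool.Agent.H628R3.RO.asks Hit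
  simp only [List.map_map, List.all_eq_true, List.mem_map, List.mem_range, Function.comp]
  constructor
  · intro h i hi
    exact h _ ⟨i, hi, rfl⟩
  · rintro h _ ⟨i, hi, rfl⟩
    exact h i hi

theorem MYY_noHit {n : ℕ} {y : List Bool} {X : Oracle} : X ∉ NoHit (2 * n + 1) (Rc n y) ↔
    ∃ w : List Bool, w.length = 2 * n + 1 ∧ Hit (2 * n + 1) (0, y ++ w) X := by
  unfold NoHit Rc
  simp only [Set.mem_ofPred_eq, Finset.mem_image, Finset.mem_univ, true_and, not_forall, not_not,
    exists_prop]
  constructor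
  · rintro ⟨κ, ⟨v, rfl⟩, h⟩
    exact ⟨List.ofFn v, List.length_ofFn, h⟩
  · rintro ⟨w, hw, h⟩
    refine ⟨(0, y ++ w), ⟨fun i => w.get (Fin.cast hw.symm i), ?_⟩, h⟩
    congr 2
    apply List.ext_get
    · rw [List.length_ofFn, hw]
    · intro i h3 h4
      rw [List.get_eq_getElem, List.get_eq_getElem, List.getElem_ofFn]
      rfl

theorem t_MYY : S_MYY := by
  intro X
  refine isNP_of_tt X _
    (Q := fun p => Pool.Agent.H628R3.RO.asks (2 * (unpair p.1).1.length + 1) 0
      ((unpair p.1).2 ++ p.2))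
    (T := fun p => decide (pairBits (unpair p.1.1).1 (unpair p.1.1).2 = p.1.1) &&
      ((unpair p.1.1).1.all (fun b => b) &&
      (decide ((unpair p.1.1).2.length = 2 * (unpair p.1.1).1.length) &&
      (decide (valB (unpair p.1.1).2 < NN (unpair p.1.1).1.length) &&
      (decide (p.1.2.length = 2 * (unpair p.1.1).1.length + 1) &&
          p.2.all (fun b => b)))))) ?_ ?_ Polynomial.X fun x => ?_
  · have h1 : Poly (fun p : List Bool × List Bool => unpair p.1) :=
      poly_unpair.comp (Poly.fst Poly.id)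
    exact p_asks (UPoly.add (UPoly.mul (UPoly.const 2) (UPoly.length (Poly.fst h1)))
      (UPoly.const 1)) (UPoly.const 0) (Poly.append (Poly.snd h1) (Poly.snd Poly.id))
  · have h0 : Poly (fun p : (List Bool × List Bool) × List Bool => p.1.1) :=
      Poly.fst (Poly.fst Poly.id)
    have h0' : Poly (fun p : (List Bool × List Bool) × List Bool => p.1.2) :=
      Poly.snd (Poly.fst Poly.id)
    have h1 : Poly (fun p : (List Bool × List Bool) × List Bool => unpair p.1.1) :=
      poly_unpair.comp h0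
    have h2 : UPoly (fun p : (List Bool × List Bool) × List Bool =>
      2 * (unpair p.1.1).1.length) :=
      UPoly.mul (UPoly.const 2) (UPoly.length (Poly.fst h1))
    exact Poly.and (Poly.decide_eq (H622R2.poly_pairBits (Poly.fst h1) (Poly.snd h1)) h0)
      (Poly.and (Poly.all (p := fun _ b => b) (Poly.fst h1) (Poly.snd Poly.id))
      (Poly.and (Poly.decide_eq (Poly.length (Poly.snd h1)) h2.toPoly)
      (Poly.and (Poly.decide_lt (Poly.valBits (Poly.snd h1)) (p_NN (UPoly.length (Poly.fst h1))))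
      (Poly.and (Poly.decide_eq (Poly.length h0') (UPoly.add h2 (UPoly.const 1)).toPoly)
          (Poly.all (p := fun _ b => b) (Poly.snd Poly.id) (Poly.snd Poly.id))))))
  · simp only [Bool.and_eq_true, decide_eq_true_eq]
    unfold YY
    simp only [MYY_all_iff, Set.mem_ofPred_eq, Polynomial.eval_X]
    constructor
    · rintro ⟨n, y, rfl, hy, hn⟩
      obtain ⟨w, hw, hh⟩ := MYY_noHit.1 hn
      obtain ⟨hy1, hy2⟩ := MYY_mem_Ys.1 hy
      refine ⟨w, ?_, ?_⟩
      · rw [length_pairBits, List.length_replicate]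
        omega
      · simp only [unpair_pairBits, List.length_replicate]
        refine ⟨trivial, ?_, hy1, hy2, hw, hh⟩
        simp [List.all_replicate]
    · rintro ⟨w, _, h1, h2, h3, h4, h5, h6⟩
      refine ⟨(unpair x).1.length, (unpair x).2, ?_, MYY_mem_Ys.2 ⟨h3, h4⟩,
        MYY_noHit.2 ⟨w, h5, h6⟩⟩
      have h7 : List.replicate (unpair x).1.length true = (unpair x).1 := by
        symm
        rw [List.eq_replicate_iff]
        refine ⟨rfl, fun b hb => ?_⟩
        rw [List.all_eq_true] at h2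
        exact h2 b hb
      rw [h7, h1]

end Pool.Agent.H490R3.LH
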