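import Pool.Agent.H490R3.LH.Base2
import Pool.Agent.H583R2.S2.Loc
import Pool.Agent.H583R2.S2.Num
import Pool.Agent.H628R3.RO.D1

/-!
# PEC: the probability that there is a marked string
-/

set_option autoImplicit false

namespace Pool.Agent.H490R3.LH

open Pool.Agent.NPC Pool.Agent.H628R3.RO MeasureTheory
open Pool.Agent.H583R2.S2 (chr IsP Mk gc Ys dl NN)
open Pool.Agent.H583R2.NC (wl)
open Pool.Agent.H673R2.OneTT (KA uA)

theorem PEC_loc (n : ℕ) :
    Loc (((Ys n).biUnion (fun y => allSpots (wl n) (gc n 0 y)) : Finset (List Bool)) :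
      Set (List Bool)) (En n) := by
  intro A A' h
  unfold En
  simp only [Set.mem_ofPred_eq]
  refine forall₂_congr fun y hy => not_congr
    (Pool.Agent.H583R2.S2.loc_Mk n 0 y A A' fun z hz => h z ?_)
  rw [Finset.mem_coe, Finset.mem_biUnion]
  exact ⟨y, hy, Finset.mem_coe.1 hz⟩

theorem PEC_prob (n : ℕ) : prob (En n) = (1 - dl n) ^ (Ys n).card := by
  classical
  have h := Pool.Agent.H583R2.S2.prob_pairs n ((Ys n).map ⟨fun y => ((0 : ℕ), y),
    fun a b hab => (Prod.ext_iff.1 hab).2⟩) (by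
      intro x hx
      rw [Finset.mem_map] at hx
      obtain ⟨y, hy, rfl⟩ := hx
      exact (Pool.Agent.H583R2.S2.mem_Ys.1 hy).1)
  rw [Finset.card_map] at h
  rw [← h]
  congr 1
  ext A
  unfold En
  simp only [Set.mem_ofPred_eq, Finset.mem_map, Function.Embedding.coeFn_mk]
  constructor
  · rintro hA x ⟨y, hy, rfl⟩
    exact hA y hy
  · intro hA y hy
    exact hA (0, y) ⟨y, hy, rfl⟩

theorem PEC_num {n : ℕ} (hn : 12 ≤ n) : (1 - dl n) ^ (Ys n).card ≤ 1 / 2 := by
  have hn' : (12 : ℝ) ≤ n := by exact_mod_cast hn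
  have h1 := Pool.Agent.H583R2.S2.Num_eps hn
  have h2 : 1 - dl n ≤ Real.exp (-dl n) := Real.one_sub_le_exp_neg _
  have h3 : 0 ≤ 1 - dl n := by
    have h4 := Pool.Agent.H583R2.S2.Num_dl_le_exp n
    have h5 : Real.exp (-(n : ℝ)) ≤ 1 := Real.exp_le_one_iff.2 (by linarith)
    linarith
  have h6 : (1 - dl n) ^ (Ys n).card ≤ Real.exp (-(NN n * dl n)) := by
    rw [Pool.Agent.H583R2.S2.card_Ys]
    calc (1 - dl n) ^ NN n ≤ (Real.exp (-dl n)) ^ NN n := pow_le_pow_left₀ h3 h2 _
      _ = Real.exp (-(NN n * dl n)) := by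
        rw [← Real.exp_nat_mul]
        congr 1
        ring
  refine h6.trans ?_
  have h7 : (9 / 10 : ℝ) ≤ NN n * dl n := by
    refine le_trans ?_ h1
    have h8 : (1 : ℝ) / (512 * (n : ℝ) ^ 2) ≤ 1 / 10 := by
      apply one_div_le_one_div_of_le (by norm_num)
      nlinarith
    linarith
  have h9 : Real.exp (-(NN n * dl n)) ≤ Real.exp (-(9 / 10)) :=
    Real.exp_le_exp.2 (by linarith)
  refine h9.trans ?_
  have h10 : (2 : ℝ) ≤ Real.exp (9 / 10) := by
    have h11 : Real.log 2 ≤ 9 / 10 := by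
      have := Real.log_two_lt_d9
      linarith
    calc (2 : ℝ) = Real.exp (Real.log 2) := (Real.exp_log (by norm_num)).symm
      _ ≤ _ := Real.exp_le_exp.2 h11
  rw [Real.exp_neg, one_div]
  exact inv_anti₀ (by norm_num) h10

theorem t_PEC : S_PEC := by
  classical
  intro t
  filter_upwards [Filter.eventually_ge_atTop t, Filter.eventually_ge_atTop 12] with n hnt hn S
  have hd : Disjoint (((Ys n).biUnion (fun y => allSpots (wl n) (gc n 0 y)) :
      Finset (List Bool)) : Set (List Bool)) {x : List Bool | x.length ≤ t} := by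
    rw [Set.disjoint_left]
    intro z hz hz'
    rw [Finset.mem_coe, Finset.mem_biUnion] at hz
    obtain ⟨y, hy, hz⟩ := hz
    obtain ⟨κ, hκ, l, hl, rfl⟩ := mem_allSpots.1 hz
    rw [Set.mem_ofPred_eq] at hz'
    have h5 := Pool.Agent.H583R2.S2.S6_length (Pool.Agent.H583R2.S2.mem_Ys.1 hy).1 hκ
    have h6 : κ.2.length ≤ (pos κ.1 l κ.2).length := by
      unfold pos
      simp only [List.length_append, List.length_cons, List.length_replicate]
      omega
    omega
  have h2 := prob_inter_of_disjoint (Finset.finite_toSet _) (finite_length_le t) hd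
    (M2.Loc.compl (PEC_loc n)) (loc_cyl t S)
  have h3 : prob (En n)ᶜ = 1 - (1 - dl n) ^ (Ys n).card := by
    rw [← PEC_prob]
    exact probReal_compl_eq_one_sub (measurableSet_of_loc (Finset.finite_toSet _) (PEC_loc n))
  rw [h2, h3]
  refine mul_le_mul_of_nonneg_right ?_ measureReal_nonneg
  have := PEC_num hn
  linarith

end Pool.Agent.H490R3.LH
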