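import Pool.Agent.H490R3.LH.Base2

/-!
# PLT: planting hits of a marked string
-/

set_option autoImplicit false

namespace Pool.Agent.H490R3.LH

open Pool.Agent.NPC Pool.Agent.H628R3.RO MeasureTheory
open Pool.Agent.H583R2.S2 (chr IsP Mk gc Ys dl NN)
open Pool.Agent.H583R2.NC (wl)
open Pool.Agent.H673R2.OneTT (KA uA)

theorem PLT_length_Ys {n : ℕ} {y : List Bool} (hy : y ∈ Ys n) : y.length = 2 * n := by
  unfold Ys at hy
  rw [Finset.mem_filter, Finset.mem_image] at hy
  obtain ⟨⟨v, _, rfl⟩, _⟩ := hy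
  simp

theorem PLT_mem_Rc {n : ℕ} {y : List Bool} {κ : Cand} (h : κ ∈ Rc n y) :
    ∃ v : List Bool, v.length = 2 * n + 1 ∧ κ = (0, y ++ v) := by
  unfold Rc at h
  rw [Finset.mem_image] at h
  obtain ⟨v, _, rfl⟩ := h
  exact ⟨List.ofFn v, by simp, rfl⟩

theorem PLT_mem_gc {n : ℕ} {y : List Bool} {κ : Cand} (h : κ ∈ gc n 0 y) :
    ∃ v : List Bool, v.length = wl n ∧ κ.2 = y ++ v := by
  unfold gc at h
  rw [Finset.mem_product, Finset.mem_image] at h
  obtain ⟨_, v, _, hv⟩ := h
  exact ⟨List.ofFn v, by simp, hv.symm⟩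

section

variable {n : ℕ} {y : List Bool} {h : Finset Cand} {B : Oracle}

/-- hits of other candidates are not changed -/
theorem PLT_hit (m' : ℕ) {κ : Cand} (hκ : κ ∉ h) :
    Hit m' κ (plant (allSpots (2 * n + 1) h) B) ↔ Hit m' κ B := by
  rw [M2.hit_iff, M2.hit_iff]
  refine forall₂_congr fun x hx => ?_
  have : x ∉ allSpots (2 * n + 1) h := by
    intro hx'
    obtain ⟨κ', hκ', hx''⟩ := M2.mem_allSpots.1 hx'
    obtain ⟨i, _, h1⟩ := M2.mem_spots.1 hx
    obtain ⟨i', _, h2⟩ := M2.mem_spots.1 hx''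
    obtain ⟨h3, _, h4⟩ := M2.pos_inj (h1.trans h2.symm)
    exact hκ ((Prod.ext h3 h4 : κ = κ') ▸ hκ')
  unfold plant
  rw [if_neg this]

theorem PLT_mk (hy : y ∈ Ys n) (hh : h ⊆ Rc n y) {n' : ℕ} {y' : List Bool} (hy' : y' ∈ Ys n') :
    plant (allSpots (2 * n + 1) h) B ∈ Mk n' 0 y' ↔ B ∈ Mk n' 0 y' := by
  unfold Mk NoHit
  simp only [Set.mem_ofPred_eq]
  refine forall₂_congr fun κ hκ => not_congr (PLT_hit _ fun hκh => ?_)
  obtain ⟨v, hv, h1⟩ := PLT_mem_gc hκ
  obtain ⟨v', hv', h2⟩ := PLT_mem_Rc (hh hκh)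
  have h3 := congrArg List.length h1
  rw [h2] at h3
  simp only [List.length_append, hv, hv', PLT_length_Ys hy, PLT_length_Ys hy', wl] at h3
  omega

theorem PLT_Dm (hy : y ∈ Ys n) (hm : B ∈ Mk n 0 y) (hn : B ∈ NoHit (2 * n + 1) (Rc n y))
    (hh : h ⊆ Rc n y) (q : List Bool) :
    q ∈ Dm (plant (allSpots (2 * n + 1) h) B) ↔ q ∈ Dm B ∨ q ∈ allSpots (2 * n + 1) h := by
  constructor
  · rintro ⟨n', y', κ, hy', hm', hκ, hit, hq⟩
    by_cases hκh : κ ∈ h
    · right
      obtain ⟨v, hv, h1⟩ := PLT_mem_Rc hκ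
      obtain ⟨v', hv', h2⟩ := PLT_mem_Rc (hh hκh)
      have h3 : (y ++ v').length = (y' ++ v).length := by
        rw [h1] at h2
        exact congrArg List.length (congrArg Prod.snd h2).symm
      simp only [List.length_append, hv, hv', PLT_length_Ys hy, PLT_length_Ys hy'] at h3
      have h4 : n' = n := by omega
      subst h4
      exact M2.mem_allSpots.2 ⟨κ, hκh, hq⟩
    · left
      exact ⟨n', y', κ, hy', (PLT_mk hy hh hy').1 hm', hκ, (PLT_hit _ hκh).1 hit, hq⟩
  · rintro (⟨n', y', κ, hy', hm', hκ, hit, hq⟩ | hq)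
    · have hκh : κ ∉ h := by
        intro hκh
        obtain ⟨v, hv, h1⟩ := PLT_mem_Rc hκ
        obtain ⟨v', hv', h2⟩ := PLT_mem_Rc (hh hκh)
        have h3 : (y ++ v').length = (y' ++ v).length := by
          rw [h1] at h2
          exact congrArg List.length (congrArg Prod.snd h2).symm
        simp only [List.length_append, hv, hv', PLT_length_Ys hy, PLT_length_Ys hy'] at h3
        have h4 : n' = n := by omega
        subst h4
        exact hn κ (hh hκh) hit
      exact ⟨n', y', κ, hy', (PLT_mk hy hh hy').2 hm', hκ, (PLT_hit _ hκh).2 hit, hq⟩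
    · obtain ⟨κ, hκ, hq'⟩ := M2.mem_allSpots.1 hq
      exact ⟨n, y, κ, hy, (PLT_mk hy hh hy).2 hm, hh hκ, M2.hit_plant_self hκ B, hq'⟩

end

open Classical in
theorem t_PLT (hQRY : S_QRY) : S_PLT := by
  intro V p
  obtain ⟨hV1, ⟨bV, hV2⟩, hV3⟩ := hQRY V
  obtain ⟨hU1, _, hU3⟩ := hQRY uA
  refine ⟨(V.p.comp (8 * Polynomial.X + 3 + p.comp (4 * Polynomial.X + 1))) *
    (3 * bV.comp (8 * Polynomial.X + 3 + p.comp (4 * Polynomial.X + 1)) + 2), ?_⟩
  intro n y B hy hm hn hw
  obtain ⟨w₀, hw₀, hacc⟩ := hw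
  set x := pairBits (pairBits (List.replicate n true) y) w₀ with hx
  set O := join B (DA B) with hO
  set Q := qry V O x with hQ
  have hxl : x.length ≤ 8 * n + 3 + p.eval (4 * n + 1) := by
    rw [hx, length_pairBits, length_pairBits, PLT_length_Ys hy, List.length_replicate]
    omega
  -- the witnesses
  have hwit : ∀ v : List Bool, v ∈ DA B → ∃ w : List Bool, w.length ≤ v.length ∧
      uA.out B (pairBits v w) = some [true] ∧ ∀ q ∈ qry uA B (pairBits v w), q ∉ Dm B :=
    fun v hv => hv
  choose! wv hwv1 hwv2 hwv3 using hwit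
  -- the touched strings
  let F : List Bool → List (List Bool) := fun q => match q with
    | [] => []
    | false :: s => [s]
    | true :: v => if v ∈ DA B then qry uA B (pairBits v (wv v)) else []
  set Tl := Q.flatMap F with hTl
  have hTlen : Tl.length ≤ V.p.eval x.length * (3 * bV.eval x.length + 2) := by
    have h1 : ∀ q ∈ Q, (F q).length ≤ 3 * bV.eval x.length + 2 := by
      intro q hq
      have hql := hV2 O x q hq
      match q, hql with
      | [], _ => simp [F]
      | false :: s, _ => simp [F]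
      | true :: v, hql =>
        by_cases hv : v ∈ DA B
        · have h2 : F (true :: v) = qry uA B (pairBits v (wv v)) := by simp [F, hv]
          rw [h2]
          refine (hU1 _ _).trans ?_
          have h3 : uA.p = Polynomial.X + 1 := rfl
          rw [h3]
          have h4 := hwv1 v hv
          rw [length_pairBits]
          simp only [Polynomial.eval_add, Polynomial.eval_X, Polynomial.eval_one]
          simp only [List.length_cons] at hql
          omega
        · simp [F, hv]
    have h2 : ∀ (L : List (List Bool)) (b : ℕ), (∀ q ∈ L, (F q).length ≤ b) →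
        (L.flatMap F).length ≤ L.length * b := by
      intro L b
      induction L with
      | nil => intro _; simp
      | cons a L ih =>
        intro hL
        rw [List.flatMap_cons, List.length_append, List.length_cons, Nat.succ_mul]
        have h5 := ih (fun q hq => hL q (List.mem_cons_of_mem _ hq))
        have h6 := hL a List.mem_cons_self
        omega
    exact (h2 Q _ h1).trans (Nat.mul_le_mul_right _ (hV1 O x))
  refine ⟨(Rc n y).filter (fun κ => ∃ s ∈ Tl, s ∈ spots (2 * n + 1) κ), ?_, ?_⟩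
  · have h1 : ((Rc n y).filter (fun κ => ∃ s ∈ Tl, s ∈ spots (2 * n + 1) κ)).card ≤
        Tl.toFinset.card := by
      refine Finset.card_le_card_of_forall_subsingleton
        (fun κ s => s ∈ spots (2 * n + 1) κ) ?_ ?_
      · intro κ hκ
        obtain ⟨_, s, hs, hs'⟩ := Finset.mem_filter.1 hκ
        exact ⟨s, List.mem_toFinset.2 hs, hs'⟩
      · intro s _ κ hκ κ' hκ'
        exact M2.spots_disjoint hκ.2 hκ'.2
    refine (h1.trans (List.toFinset_card_le _)).trans (hTlen.trans ?_)
    simp only [Polynomial.eval_mul, Polynomial.eval_add, Polynomial.eval_comp, Polynomial.eval_X,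
      Polynomial.eval_one, Polynomial.eval_ofNat]
    exact Nat.mul_le_mul (eval_mono _ hxl)
      (Nat.add_le_add_right (Nat.mul_le_mul_left _ (eval_mono _ hxl)) _)
  · intro h hh hdisj
    refine ⟨w₀, hw₀, ?_⟩
    set B' := plant (allSpots (2 * n + 1) h) B with hB'
    -- the touched strings are not planted
    have h0 : ∀ s ∈ Tl, s ∉ allSpots (2 * n + 1) h := by
      intro s hs hs'
      obtain ⟨κ, hκ, hsκ⟩ := M2.mem_allSpots.1 hs'
      exact Finset.disjoint_left.1 hdisj hκ (Finset.mem_filter.2 ⟨hh hκ, s, hs, hsκ⟩)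
    have hsame : ∀ s, s ∉ allSpots (2 * n + 1) h → B' s = B s := by
      intro s hs
      rw [hB']
      unfold plant
      rw [if_neg hs]
    have hDm := PLT_Dm hy hm hn hh
    -- elements of the set, asked
    have hb : ∀ v, true :: v ∈ Q → v ∈ DA B → v ∈ DA B' := by
      intro v hvQ hv
      have h1 : ∀ q ∈ qry uA B (pairBits v (wv v)), q ∈ Tl := by
        intro q hq
        rw [hTl, List.mem_flatMap]
        refine ⟨true :: v, hvQ, ?_⟩
        show q ∈ (if v ∈ DA B then qry uA B (pairBits v (wv v)) else [])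
        rw [if_pos hv]
        exact hq
      obtain ⟨h2, h3⟩ := hU3 B B' (pairBits v (wv v)) (fun q hq => hsame q (h0 q (h1 q hq)))
      refine ⟨wv v, hwv1 v hv, h3.trans (hwv2 v hv), ?_⟩
      intro q hq hq'
      rw [h2] at hq
      rcases (hDm q).1 hq' with h4 | h4
      · exact hwv3 v hv q hq h4
      · exact h0 q (h1 q hq) h4
    have hc : ∀ v, v ∈ DA B' → v ∈ DA B := by
      rintro v ⟨w, hw1, hw2, hw3⟩
      obtain ⟨h2, h3⟩ := hU3 B' B (pairBits v w) (fun q hq =>
        (hsame q (fun h4 => hw3 q hq ((hDm q).2 (Or.inr h4)))).symm)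
      refine ⟨w, hw1, h3.trans hw2, ?_⟩
      intro q hq hq'
      rw [h2] at hq
      exact hw3 q hq ((hDm q).2 (Or.inl hq'))
    obtain ⟨_, h5⟩ := hV3 O (join B' (DA B')) x (by
      intro q hq
      match q, hq with
      | [], _ => rfl
      | false :: s, hq =>
        show B' s = B s
        refine hsame s (h0 s ?_)
        rw [hTl, List.mem_flatMap]
        exact ⟨false :: s, hq, by simp [F]⟩
      | true :: v, hq =>
        show chr (DA B') v = chr (DA B) v
        unfold chr
        exact decide_eq_decide.2 ⟨hc v, hb v hq⟩)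
    exact h5.trans hacc

end Pool.Agent.H490R3.LH
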