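import Pool.Agent.H490R3.LH.Base2
import Pool.Agent.H628R3.RO.A2
import Pool.Agent.NPC.Dec
import Pool.Agent.H622R2.CoNP

/-!
# Task QTQ: translated and simulated questions
-/

set_option autoImplicit false

namespace Pool.Agent.H490R3.LH

open Pool.Agent.NPC Pool.Agent.H628R3.RO Pool.Agent.H622R2

section QTQ

variable (D : List Bool → List Bool) (c v : List Bool × List Bool → Bool)
  (tr : List Bool × List Bool → List Bool) (dec : List Bool → List Bool)

/-- one step of the conversion of the answers -/
def QTQ_step (y s : List Bool) (b : Bool) : List Bool :=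
  s ++ [if c (y, (D (pairBits (dec y) s)).tail) = true then
    v (y, (D (pairBits (dec y) s)).tail) else b]

/-- the answers that the simulated algorithm gets -/
def QTQ_conv (y a : List Bool) : List Bool := a.foldl (QTQ_step D c v dec y) []

theorem QTQ_conv_concat (y a : List Bool) (b : Bool) : QTQ_conv D c v dec y (a ++ [b]) =
    QTQ_step D c v dec y (QTQ_conv D c v dec y a) b := by
  simp [QTQ_conv, List.foldl_append]

theorem QTQ_conv_length (y a : List Bool) : (QTQ_conv D c v dec y a).length = a.length := by
  induction a using List.reverseRecOn with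
  | nil => rfl
  | append_singleton a b ih =>
    rw [QTQ_conv_concat, QTQ_step, List.length_append, ih]
    simp

/-- the next action of the simulation -/
def QTQ_D (p : Polynomial ℕ) (w : List Bool) : List Bool :=
  if p.eval (dec (unpair w).1).length ≤ (unpair w).2.length then [] else
    if (D (pairBits (dec (unpair w).1)
        (QTQ_conv D c v dec (unpair w).1 (unpair w).2))).head? = some false then
      false :: tr ((unpair w).1, (D (pairBits (dec (unpair w).1)
        (QTQ_conv D c v dec (unpair w).1 (unpair w).2))).tail) else
      D (pairBits (dec (unpair w).1) (QTQ_conv D c v dec (unpair w).1 (unpair w).2))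

variable {D c v tr dec}

theorem QTQ_poly_conv (hD : Poly D) (hc : Poly c) (hv : Poly v) (hdec : Poly dec) :
    Poly (fun q : List Bool × List Bool => QTQ_conv D c v dec q.1 q.2) := by
  have hstep : Poly (fun q : (List Bool × List Bool) × List Bool × Bool =>
      QTQ_step D c v dec q.1.1 q.2.1 q.2.2) := by
    have h1 : Poly (fun q : (List Bool × List Bool) × List Bool × Bool => q.1.1) :=
      Poly.fst (Poly.fst Poly.id)
    have h2 : Poly (fun q : (List Bool × List Bool) × List Bool × Bool => q.2.1) :=
      Poly.fst (Poly.snd Poly.id)
    have h3 : Poly (fun q : (List Bool × List Bool) × List Bool × Bool => q.2.2) :=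
      Poly.snd (Poly.snd Poly.id)
    have h4 : Poly (fun q : (List Bool × List Bool) × List Bool × Bool =>
        (q.1.1, (D (pairBits (dec q.1.1) q.2.1)).tail)) :=
      Poly.pair h1 (Poly.tail (hD.comp (poly_pairBits (hdec.comp h1) h2)))
    have h5 : Poly (fun q : (List Bool × List Bool) × List Bool × Bool =>
        if c (q.1.1, (D (pairBits (dec q.1.1) q.2.1)).tail) = true then
          v (q.1.1, (D (pairBits (dec q.1.1) q.2.1)).tail) else q.2.2) :=
      Poly.ite (Poly.decide_eq (hc.comp h4) (NPC.Poly.const true)) (hv.comp h4) h3
    exact Poly.append h2 (Poly.cons h5 (NPC.Poly.const []))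
  refine Poly.foldl (l := fun q : List Bool × List Bool => q.2)
    (s := fun _ => ([] : List Bool)) (F := fun q => QTQ_step D c v dec q.1)
    (Poly.snd Poly.id) (NPC.Poly.const _) hstep (Polynomial.C 2 * Polynomial.X) ?_
  intro a k _
  have h1 := QTQ_conv_length D c v dec a.1 (a.2.take k)
  have h2 := sz_listBool_le (QTQ_conv D c v dec a.1 (a.2.take k))
  have h3 := sz_listBool_ge a.2
  have h4 : (a.2.take k).length ≤ a.2.length := by
    rw [List.length_take]
    exact min_le_right _ _
  change sz (QTQ_conv D c v dec a.1 (a.2.take k)) ≤ _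
  obtain ⟨u, w⟩ := a
  simp only [sz_pair, Polynomial.eval_mul, Polynomial.eval_X, Polynomial.eval_C] at *
  omega

theorem QTQ_poly_D (hD : Poly D) (hc : Poly c) (hv : Poly v) (htr : Poly tr) (hdec : Poly dec)
    (p : Polynomial ℕ) : Poly (QTQ_D D c v tr dec p) := by
  have hx : Poly (fun y => (unpair y).1) := Poly.fst poly_unpair
  have hw : Poly (fun y => (unpair y).2) := Poly.snd poly_unpair
  have hd : Poly (fun w => D (pairBits (dec (unpair w).1)
      (QTQ_conv D c v dec (unpair w).1 (unpair w).2))) :=
    hD.comp (poly_pairBits (hdec.comp hx)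
      ((QTQ_poly_conv hD hc hv hdec).comp (Poly.pair hx hw)))
  exact Poly.ite (Poly.decide_le (UPoly.toPoly (UPoly.eval (UPoly.length (hdec.comp hx)) p))
      (Poly.length hw)) (NPC.Poly.const [])
    (Poly.ite (Poly.decide_eq (Poly.head? hd) (NPC.Poly.const _))
      (Poly.cons (NPC.Poly.const false) (htr.comp (Poly.pair hx (Poly.tail hd)))) hd)

end QTQ

theorem QTQ_qs_succ (M : Alg) (A : Oracle) (x : List Bool) (n : ℕ) (a : List Bool) :
    qs M A x (n + 1) a = if (M.D (pairBits x a)).head? = some false then
      (M.D (pairBits x a)).tail :: qs M A x n (a ++ [A (M.D (pairBits x a)).tail]) else [] := by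
  rw [qs]
  rcases M.D (pairBits x a) with _ | ⟨b, z⟩
  · simp
  · cases b <;> simp

/-- QTQ: some questions are translated, some are answered by a computation -/
theorem t_QTQ : S_QTQ := by
  intro M c v tr dec hc hv htr hdec
  obtain ⟨q, hq⟩ := hdec.sz_le
  set r : Polynomial ℕ := q.comp (Polynomial.C 4 * Polynomial.X + Polynomial.C 1) with hr
  have hD : Poly M.D := poly_of_polyTime M.poly
  let M' : Alg := {
    D := QTQ_D M.D c v tr dec M.p
    poly := polyTime_of_poly_list (QTQ_poly_D hD hc hv htr hdec M.p)
    p := M.p.comp r + Polynomial.C 1 }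
  refine ⟨M', fun K y => ?_⟩
  set O : Oracle := fun z => if c (y, z) = true then v (y, z) else K (tr (y, z)) with hO
  have key : ∀ (n n' : ℕ) (a : List Bool), n + 1 ≤ n' →
      n + a.length = M.p.eval (dec y).length →
      M'.run K y n' a = some ((M.run O (dec y) n (QTQ_conv M.D c v dec y a)).getD []) ∧
      qs M' K y n' a = (qs M O (dec y) n (QTQ_conv M.D c v dec y a)).map (fun z => tr (y, z)) := by
    intro n
    induction n with
    | zero =>
      intro n' a hn ha
      obtain ⟨m, rfl⟩ : ∃ m, n' = m + 1 := ⟨n' - 1, by omega⟩
      have hD' : M'.D (pairBits y a) = [] := by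
        change QTQ_D M.D c v tr dec M.p (pairBits y a) = _
        unfold QTQ_D
        rw [unpair_pairBits]
        exact if_pos (show M.p.eval (dec y).length ≤ a.length by omega)
      constructor
      · rw [A2.run_succ, hD']
        simp [Alg.run]
      · rw [QTQ_qs_succ, hD']
        simp [qs]
    | succ n ih =>
      intro n' a hn ha
      obtain ⟨m, rfl⟩ : ∃ m, n' = m + 1 := ⟨n' - 1, by omega⟩
      have hD' : M'.D (pairBits y a) =
          if (M.D (pairBits (dec y) (QTQ_conv M.D c v dec y a))).head? = some false then
            false :: tr (y, (M.D (pairBits (dec y) (QTQ_conv M.D c v dec y a))).tail) else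
            M.D (pairBits (dec y) (QTQ_conv M.D c v dec y a)) := by
        change QTQ_D M.D c v tr dec M.p (pairBits y a) = _
        unfold QTQ_D
        rw [unpair_pairBits]
        exact if_neg (show ¬ M.p.eval (dec y).length ≤ a.length by omega)
      constructor
      · rw [A2.run_succ, A2.run_succ, hD']
        by_cases h : (M.D (pairBits (dec y) (QTQ_conv M.D c v dec y a))).head? = some false
        · rw [if_pos h, if_pos h, if_pos (by simp), List.tail_cons,
            (ih m _ (by omega) (by rw [List.length_append]; simp; omega)).1, QTQ_conv_concat]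
          rfl
        · rw [if_neg h, if_neg h, if_neg h]
          rfl
      · rw [QTQ_qs_succ, QTQ_qs_succ, hD']
        by_cases h : (M.D (pairBits (dec y) (QTQ_conv M.D c v dec y a))).head? = some false
        · rw [if_pos h, if_pos h, if_pos (by simp), List.tail_cons,
            (ih m _ (by omega) (by rw [List.length_append]; simp; omega)).2, QTQ_conv_concat,
            List.map_cons]
          rfl
        · rw [if_neg h, if_neg h, if_neg h]
          rfl
  have h1 : (dec y).length ≤ r.eval y.length := by
    have h4 := length_lt_sz (dec y)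
    have h5 := hq y
    have h7 := sz_listBool_le y
    refine h4.le.trans (h5.trans ?_)
    rw [hr, Polynomial.eval_comp]
    apply eval_mono
    simp only [Polynomial.eval_add, Polynomial.eval_mul, Polynomial.eval_C, Polynomial.eval_X]
    omega
  have h2 := eval_mono M.p h1
  refine key (M.p.eval (dec y).length) _ [] ?_ (by simp)
  change M.p.eval (dec y).length + 1 ≤ (M.p.comp r + Polynomial.C 1).eval y.length
  rw [Polynomial.eval_add, Polynomial.eval_comp, Polynomial.eval_C]
  omega

end Pool.Agent.H490R3.LH
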