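import Pool.Agent.H490R3.LH.Base2
import Pool.Agent.H628R3.RO.A2
import Pool.Agent.NPC.Dec
import Pool.Agent.H622R2.CoNP

/-!
# Task SIM: simulation with a list of damaged strings
-/

set_option autoImplicit false

namespace Pool.Agent.H490R3.LH

open Pool.Agent.NPC Pool.Agent.H628R3.RO Pool.Agent.H622R2

attribute [local irreducible] unpair

/-- two algorithms which do the same on an input: the runs -/
theorem SIM_run (M M' : Alg) (A : Oracle) (x : List Bool)
    (h : ∀ a, M'.D (pairBits x a) = M.D (pairBits x a)) : ∀ (n : ℕ) (a : List Bool),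
    M'.run A x n a = M.run A x n a ∧ qs M' A x n a = qs M A x n a
  | 0, a => ⟨rfl, rfl⟩
  | n + 1, a => by
    have h1 := h a
    cases hD : M.D (pairBits x a) with
    | nil =>
      rw [hD] at h1
      constructor
      · simp only [Alg.run, h1, hD]
      · simp only [qs, h1, hD]
    | cons b q =>
      rw [hD] at h1
      cases b with
      | true =>
        constructor
        · simp only [Alg.run, h1, hD]
        · simp only [qs, h1, hD]
      | false =>
        have ih := SIM_run M M' A x h n (a ++ [A q])
        constructor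
        · simp only [Alg.run, h1, hD]
          exact ih.1
        · simp only [qs, h1, hD]
          rw [ih.2]

/-- an algorithm which rejects at once -/
theorem SIM_rej (M : Alg) (A : Oracle) (x : List Bool) (h : ∀ a, M.D (pairBits x a) = []) :
    M.out A x ≠ some [true] := by
  unfold Alg.out
  cases M.p.eval x.length with
  | zero =>
    intro h1
    simp [Alg.run] at h1
  | succ n =>
    intro h1
    simp only [Alg.run, h] at h1
    simp at h1

/-- the algorithm `M`, restricted to short witnesses -/
def SIM_D (M : Alg) (p : Polynomial ℕ) (z : List Bool) : List Bool :=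
  if (unpair (unpair z).1).2.length ≤ p.eval (unpair (unpair z).1).1.length then M.D z else []

theorem SIM_D_poly (M : Alg) (p : Polynomial ℕ) : Poly (SIM_D M p) := by
  have h1 : Poly (fun z : List Bool => (unpair (unpair z).1).1) :=
    Poly.fst (poly_unpair.comp (Poly.fst poly_unpair))
  have h2 : Poly (fun z : List Bool => (unpair (unpair z).1).2) :=
    Poly.snd (poly_unpair.comp (Poly.fst poly_unpair))
  exact Poly.ite (Poly.decide_le (Poly.length h2) (UPoly.eval (UPoly.length h1) p).toPoly)
    (poly_of_polyTime M.poly) (NPC.Poly.const [])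

/-- the algorithm `M`, restricted to short witnesses -/
def SIM_M (M : Alg) (p : Polynomial ℕ) : Alg where
  D := SIM_D M p
  poly := polyTime_of_poly_list (SIM_D_poly M p)
  p := M.p

theorem SIM_M_le (M : Alg) (p : Polynomial ℕ) (A : Oracle) (q w : List Bool)
    (h : w.length ≤ p.eval q.length) :
    (SIM_M M p).out A (pairBits q w) = M.out A (pairBits q w) ∧
      qry (SIM_M M p) A (pairBits q w) = qry M A (pairBits q w) := by
  have h1 : ∀ a, (SIM_M M p).D (pairBits (pairBits q w) a) = M.D (pairBits (pairBits q w) a) := by
    intro a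
    change SIM_D M p _ = _
    unfold SIM_D
    rw [unpair_pairBits]
    simp only [unpair_pairBits]
    rw [if_pos h]
  exact SIM_run M (SIM_M M p) A (pairBits q w) h1 (M.p.eval (pairBits q w).length) []

theorem SIM_M_gt (M : Alg) (p : Polynomial ℕ) (A : Oracle) (q w : List Bool)
    (h : ¬ w.length ≤ p.eval q.length) :
    (SIM_M M p).out A (pairBits q w) ≠ some [true] := by
  apply SIM_rej
  intro a
  change SIM_D M p _ = _
  unfold SIM_D
  rw [unpair_pairBits]
  simp only [unpair_pairBits]
  rw [if_neg h]

theorem SIM_poly_bits {α β : Type} [TEnc α] [TEnc β] {g : α → β} (hg : Poly g) :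
    Poly (fun a => bits (g a)) := by
  have h1 : PC (bits : α → List Bool) (fun x : List Bool => x) (fun a => bits (g a)) := by
    obtain ⟨c, p, h⟩ := hg
    exact ⟨c, p, h⟩
  exact PC.comp (g := fun x => x) (f := fun a => bits (g a)) PC.rawIn h1

/-- decoding of the list -/
def SIM_dec (y : List Bool) : List (List Bool) :=
  match unbits (List (List Bool)) (unpair (unpair y).1).2 with
  | none => []
  | some a => a

theorem SIM_dec_poly : Poly SIM_dec := by
  have h0 : Poly (fun y : List Bool => (unpair (unpair y).1).2) :=
    Poly.snd (poly_unpair.comp (Poly.fst poly_unpair))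
  have h1 : Poly (fun y : List Bool => unbits (List (List Bool)) (unpair (unpair y).1).2) :=
    (poly_unbits (α := List (List Bool))).comp h0
  have h2 : Poly (fun _ : List Bool => ([] : List (List Bool))) := NPC.Poly.const _
  have h3 : Poly (fun p : List Bool × List (List Bool) => p.2) := Poly.snd Poly.id
  exact (Poly.optCases (h := fun _ b => b) h1 h2 h3).congr fun y => by
    unfold SIM_dec
    cases unbits (List (List Bool)) (unpair (unpair y).1).2 <;> rfl

theorem SIM_dec_eq (q w : List Bool) (a : List (List Bool)) :
    SIM_dec (pairBits (pairBits q (bits a)) w) = a := by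
  unfold SIM_dec
  rw [unpair_pairBits]
  simp only [unpair_pairBits, unbits_bits]

theorem SIM_nil_notMem (X : Oracle) : ([] : List Bool) ∉ Dm X := by
  rintro ⟨n, y, κ, -, -, -, -, h⟩
  unfold spots at h
  rw [Finset.mem_image] at h
  obtain ⟨i, -, hi⟩ := h
  unfold pos at hi
  simp at hi

theorem SIM_eval_mono (b : Polynomial ℕ) {x y : ℕ} (h : x ≤ y) : b.eval x ≤ b.eval y := by
  rw [Polynomial.eval_eq_sum_range, Polynomial.eval_eq_sum_range]
  exact Finset.sum_le_sum fun i _ => Nat.mul_le_mul_left _ (Nat.pow_le_pow_left h i)

theorem t_SIM (h1 : S_QTQ) (h2 : S_HDA) : S_SIM := by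
  classical
  intro M p
  have hc : Poly (fun y : List Bool × List Bool => decide (y.2 ∈ SIM_dec y.1)) :=
    (Poly.decide_mem (f := fun y : List Bool × List Bool => y.2)
      (l := fun y : List Bool × List Bool => SIM_dec y.1) (Poly.snd Poly.id)
      (SIM_dec_poly.comp (Poly.fst Poly.id))).congr fun y => decide_eq_decide.2 Iff.rfl
  have hv : Poly (fun _ : List Bool × List Bool => true) := NPC.Poly.const _
  have htr : Poly (fun y : List Bool × List Bool => if y.2 ∈ SIM_dec y.1 then [] else y.2) :=
    Poly.ite hc (NPC.Poly.const []) (Poly.snd Poly.id)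
  have hdec : Poly (fun y : List Bool => pairBits (unpair (unpair y).1).1 (unpair y).2) :=
    poly_pairBits (Poly.fst (poly_unpair.comp (Poly.fst poly_unpair))) (Poly.snd poly_unpair)
  obtain ⟨M', hM'⟩ := h1 (SIM_M M p) _ _ _ _ hc hv htr hdec
  obtain ⟨g, hg, hg2⟩ := h2 M' p
  refine ⟨fun x => g (pairBits x.1 (bits x.2)),
    hg.comp (poly_pairBits (Poly.fst Poly.id) (SIM_poly_bits (Poly.snd Poly.id))), ?_⟩
  intro X q a
  change g (pairBits q (bits a)) ∈ DAg (Dm X) X ↔ _
  rw [hg2]
  have key : ∀ w : List Bool,
      (M'.out X (pairBits (pairBits q (bits a)) w) = some [true] ↔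
        (SIM_M M p).out (plusL X a) (pairBits q w) = some [true]) ∧
      ((∀ s ∈ qry M' X (pairBits (pairBits q (bits a)) w), s ∉ Dm X) ↔
        ∀ s ∈ qry (SIM_M M p) (plusL X a) (pairBits q w), s ∉ a → s ∉ Dm X) := by
    intro w
    have h3 := hM' X (pairBits (pairBits q (bits a)) w)
    simp only [SIM_dec_eq] at h3
    rw [unpair_pairBits] at h3
    simp only [unpair_pairBits] at h3
    have hO : (fun z => if decide (z ∈ a) = true then true else X (if z ∈ a then [] else z)) =
        plusL X a := by
      funext z
      unfold plusL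
      by_cases hz : z ∈ a
      · simp [hz]
      · simp [hz]
    rw [hO] at h3
    constructor
    · rw [h3.1]
      cases h4 : (SIM_M M p).out (plusL X a) (pairBits q w) with
      | none => simp
      | some b => simp
    · rw [h3.2]
      constructor
      · intro h4 s hs hsa
        have h5 := h4 _ (List.mem_map_of_mem hs)
        rwa [if_neg hsa] at h5
      · intro h4 s hs
        rw [List.mem_map] at hs
        obtain ⟨z, hz, rfl⟩ := hs
        by_cases hza : z ∈ a
        · rw [if_pos hza]
          exact SIM_nil_notMem X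
        · rw [if_neg hza]
          exact h4 z hz hza
  constructor
  · rintro ⟨w, -, h4, h5⟩
    rw [(key w).1] at h4
    rw [(key w).2] at h5
    by_cases hw : w.length ≤ p.eval q.length
    · obtain ⟨h6, h7⟩ := SIM_M_le M p (plusL X a) q w hw
      rw [h6] at h4
      rw [h7] at h5
      exact ⟨w, hw, h4, h5⟩
    · exact absurd h4 (SIM_M_gt M p _ q w hw)
  · rintro ⟨w, hw, h4, h5⟩
    obtain ⟨h6, h7⟩ := SIM_M_le M p (plusL X a) q w hw
    refine ⟨w, hw.trans (SIM_eval_mono p ?_), ?_, ?_⟩
    · rw [length_pairBits]
      omega
    · rw [(key w).1, h6]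
      exact h4
    · rw [(key w).2, h7]
      exact h5

end Pool.Agent.H490R3.LH
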