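import Mathlib
import Pool.Agent.H490R3.LH.Base2
import Pool.Agent.H628R3.RO.A3
import Pool.Agent.H628R3.RO.M3

set_option autoImplicit false

namespace Pool.Agent.H490R3.LH

open Pool.Agent.NPC Pool.Agent.H628R3.RO
open Pool.Agent.H583R2.S2 (chr IsP)

theorem T5_pair_inj {x w x' w' : List Bool} (h : pairBits x w = pairBits x' w') :
    x = x' ∧ w = w' := by
  have h1 := unpair_pairBits x w
  rw [h, unpair_pairBits] at h1
  have h2 := Prod.mk.inj h1
  exact ⟨h2.1.symm, h2.2.symm⟩

theorem T5_rep_inj {m n : ℕ} (h : List.replicate m true = List.replicate n true) : m = n := by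
  have := congrArg List.length h
  simpa using this

/-- the damaged strings of length at most `m` -/
def T5_E (X : Oracle) (m : ℕ) : Set (List Bool) := {z | z ∈ Dm X ∧ z.length ≤ m}

theorem T5_fin (X : Oracle) (m : ℕ) : (T5_E X m).Finite :=
  (finite_short m).subset fun _ hz => hz.2

theorem T5_good_iff (X : Oracle) (j m : ℕ) :
    (∃ a, GoodD X j m a) ↔ j ≤ (T5_E X m).ncard := by
  classical
  constructor
  · rintro ⟨a, h1, h2, h3⟩
    have h4 : ((a.toFinset : Finset (List Bool)) : Set (List Bool)) ⊆ T5_E X m := by
      intro q hq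
      have := h3 q (List.mem_toFinset.1 (Finset.mem_coe.1 hq))
      exact ⟨this.2, this.1⟩
    have h5 := Set.ncard_le_ncard h4 (T5_fin X m)
    rw [Set.ncard_coe_finset, List.toFinset_card_of_nodup h1, h2] at h5
    exact h5
  · intro hj
    rw [Set.ncard_eq_toFinset_card _ (T5_fin X m)] at hj
    obtain ⟨t, ht1, ht2⟩ := Finset.exists_subset_card_eq hj
    refine ⟨t.toList, t.nodup_toList, by rw [Finset.length_toList, ht2], ?_⟩
    intro q hq
    have := ht1 (Finset.mem_toList.1 hq)
    rw [Set.Finite.mem_toFinset] at this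
    exact ⟨this.2, this.1⟩

theorem T5_good_full {X : Oracle} {m : ℕ} {a : List (List Bool)}
    (h : GoodD X (T5_E X m).ncard m a) (q : List Bool) : q ∈ a ↔ (q ∈ Dm X ∧ q.length ≤ m) := by
  classical
  obtain ⟨h1, h2, h3⟩ := h
  have h4 : ((a.toFinset : Finset (List Bool)) : Set (List Bool)) ⊆ T5_E X m := by
    intro q hq
    have := h3 q (List.mem_toFinset.1 (Finset.mem_coe.1 hq))
    exact ⟨this.2, this.1⟩
  have h5 : ((a.toFinset : Finset (List Bool)) : Set (List Bool)) = T5_E X m := by
    refine Set.eq_of_subset_of_ncard_le h4 ?_ (T5_fin X m)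
    rw [Set.ncard_coe_finset, List.toFinset_card_of_nodup h1, h2]
  constructor
  · intro hq
    have := h3 q hq
    exact ⟨this.2, this.1⟩
  · rintro ⟨hq1, hq2⟩
    have : q ∈ ((a.toFinset : Finset (List Bool)) : Set (List Bool)) := by
      rw [h5]
      exact ⟨hq1, hq2⟩
    exact List.mem_toFinset.1 (Finset.mem_coe.1 this)

theorem T5_v (N : Alg) (p : Polynomial ℕ) (M : Alg) (p₁ : Polynomial ℕ) (X : Oracle) (j m : ℕ) :
    pairBits (pairBits (List.replicate j true) (List.replicate m true)) [] ∈ KD N p M p₁ X ↔
      j ≤ (T5_E X m).ncard := by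
  rw [← T5_good_iff]
  constructor
  · rintro (⟨j', m', a, h, ha⟩ | ⟨j', m', z, a, u, h, -⟩)
    · obtain ⟨h1, -⟩ := T5_pair_inj h
      obtain ⟨h2, h3⟩ := T5_pair_inj h1
      rw [T5_rep_inj h2, T5_rep_inj h3]
      exact ⟨a, ha⟩
    · obtain ⟨-, h1⟩ := T5_pair_inj h
      exact absurd h1 (by simp)
  · rintro ⟨a, ha⟩
    exact Or.inl ⟨j, m, a, rfl, ha⟩

theorem T5_z (N : Alg) (p : Polynomial ℕ) (M : Alg) (p₁ : Polynomial ℕ) (X : Oracle) (j m : ℕ)
    (z : List Bool) :
    pairBits (pairBits (List.replicate j true) (List.replicate m true)) (true :: z) ∈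
      KD N p M p₁ X ↔
      ∃ a u, GoodD X j m a ∧ u.length ≤ p.eval z.length ∧
        N.out (chr (K1a M p₁ X a)) (pairBits z u) = some [true] := by
  constructor
  · rintro (⟨j', m', a, h, ha⟩ | ⟨j', m', z', a, u, h, h4, h5, h6⟩)
    · obtain ⟨-, h1⟩ := T5_pair_inj h
      exact absurd h1 (by simp)
    · obtain ⟨h1, h7⟩ := T5_pair_inj h
      obtain ⟨h2, h3⟩ := T5_pair_inj h1
      have h8 : z = z' := by simpa using h7
      subst h8
      rw [T5_rep_inj h2, T5_rep_inj h3]
      exact ⟨a, u, h4, h5, h6⟩
  · rintro ⟨a, u, h4, h5, h6⟩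
    exact Or.inr ⟨j, m, z, a, u, rfl, h4, h5, h6⟩

theorem T5_filter (n e : ℕ) (he : e ≤ n) :
    ((List.range n).map (fun j => decide (j + 1 ≤ e))).filter (fun b => b) =
      List.replicate e true := by
  obtain ⟨d, rfl⟩ := Nat.exists_eq_add_of_le he
  rw [List.range_add, List.map_append, List.filter_append]
  have h1 : ((List.range e).map (fun j => decide (j + 1 ≤ e))) = List.replicate e true := by
    rw [List.eq_replicate_iff]
    refine ⟨by simp, ?_⟩
    intro b hb
    rw [List.mem_map] at hb
    obtain ⟨j, hj, rfl⟩ := hb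
    rw [List.mem_range] at hj
    simpa using hj
  have h2 : (((List.range d).map (fun x => e + x)).map
      (fun j => decide (j + 1 ≤ e))).filter (fun b => b) = [] := by
    rw [List.filter_eq_nil_iff]
    intro b hb
    rw [List.mem_map] at hb
    obtain ⟨j, hj, rfl⟩ := hb
    rw [List.mem_map] at hj
    obtain ⟨k, hk, rfl⟩ := hj
    simp
  rw [h1, h2, List.append_nil, List.filter_eq_self]
  intro b hb
  exact (List.eq_of_mem_replicate hb)

theorem T5_urep {α : Type} [TEnc α] {n : α → ℕ} (hn : UPoly n) :
    Poly (fun a => List.replicate (n a) true) :=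
  (NPC.Poly.map (F := fun _ _ => true) hn (NPC.Poly.const true)).congr fun a => by
    rw [List.map_replicate]

/-- the questions of the first phase -/
noncomputable def T5_Q (S mm : Polynomial ℕ) (x : List Bool) : List (List Bool) :=
  (List.range (S.eval x.length)).map (fun j =>
    pairBits (pairBits (List.replicate (min (j + 1) (S.eval x.length)) true)
      (List.replicate (mm.eval x.length) true)) [])

theorem T5_polyQ (S mm : Polynomial ℕ) : Poly (T5_Q S mm) := by
  have hx : UPoly (fun x : List Bool => S.eval x.length) :=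
    UPoly.eval (UPoly.length Poly.id) S
  have hm : UPoly (fun x : List Bool => mm.eval x.length) :=
    UPoly.eval (UPoly.length Poly.id) mm
  have hx' : UPoly (fun y : List Bool × ℕ => S.eval y.1.length) :=
    UPoly.comp (f := fun y : List Bool × ℕ => y.1) hx (Poly.fst Poly.id)
  have hm' : UPoly (fun y : List Bool × ℕ => mm.eval y.1.length) :=
    UPoly.comp (f := fun y : List Bool × ℕ => y.1) hm (Poly.fst Poly.id)
  have hmin : UPoly (fun y : List Bool × ℕ => min (y.2 + 1) (S.eval y.1.length)) :=
    UPoly.of_le (Poly.min (Poly.succ (Poly.snd Poly.id)) hx'.toPoly) hx'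
      (fun _ => min_le_right _ _)
  exact NPC.Poly.map (F := fun (x : List Bool) (j : ℕ) =>
    pairBits (pairBits (List.replicate (min (j + 1) (S.eval x.length)) true)
      (List.replicate (mm.eval x.length) true)) []) hx.range
    (H622R2.poly_pairBits (H622R2.poly_pairBits (T5_urep hmin) (T5_urep hm'))
      (NPC.Poly.const []))

/-- the first phase -/
noncomputable def T5_G (S mm : Polynomial ℕ) (O : Oracle) (x : List Bool) : List Bool :=
  pairBits x (((T5_Q S mm x).map O).filter (fun b => b))

theorem T5_isFP_G (S mm : Polynomial ℕ) (O : Oracle) : IsFP O (T5_G S mm O) :=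
  IsFP.tt (Q := T5_Q S mm) (H := fun y : List Bool × List Bool =>
    pairBits y.1 (y.2.filter (fun b => b))) (T5_polyQ S mm)
    (H622R2.poly_pairBits (Poly.fst Poly.id)
      (Poly.filter (p := fun (_ : List Bool × List Bool) (b : Bool) => b)
        (Poly.snd Poly.id) (Poly.snd Poly.id)))

theorem T5_answers (N : Alg) (p : Polynomial ℕ) (M : Alg) (p₁ : Polynomial ℕ) (X : Oracle)
    (S mm : Polynomial ℕ) (x : List Bool)
    (hS : (T5_E X (mm.eval x.length)).ncard ≤ S.eval x.length) :
    T5_G S mm (chr (KD N p M p₁ X)) x =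
      pairBits x (List.replicate (T5_E X (mm.eval x.length)).ncard true) := by
  unfold T5_G
  rw [← T5_filter _ _ hS]
  have h1 : (T5_Q S mm x).map (chr (KD N p M p₁ X)) = (List.range (S.eval x.length)).map
      (fun j => decide (j + 1 ≤ (T5_E X (mm.eval x.length)).ncard)) := by
    unfold T5_Q
    rw [List.map_map]
    refine List.map_congr_left fun j hj => ?_
    rw [List.mem_range] at hj
    have h2 : min (j + 1) (S.eval x.length) = j + 1 := min_eq_left hj
    show chr (KD N p M p₁ X) (pairBits (pairBits
      (List.replicate (min (j + 1) (S.eval x.length)) true)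
      (List.replicate (mm.eval x.length) true)) []) = _
    rw [h2]
    unfold chr
    rw [decide_eq_decide]
    exact T5_v N p M p₁ X _ _
  rw [h1]

/-- the lengths of the questions -/
theorem T5_qry_len (M : Alg) (b : Polynomial ℕ)
    (hb : ∀ x a : List Bool, a.length ≤ M.p.eval x.length →
      (M.D (pairBits x a)).length ≤ b.eval x.length)
    (A : Oracle) (x : List Bool) (n : ℕ) (a : List Bool)
    (ha : a.length + n ≤ M.p.eval x.length) :
    ∀ q ∈ qs M A x n a, q.length ≤ b.eval x.length := by
  induction n generalizing a with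
  | zero => intro q hq; simp [qs] at hq
  | succ n ih =>
    intro r hr
    have hD := hb x a (by omega)
    rcases hq : M.D (pairBits x a) with _ | ⟨c, q⟩
    · simp [qs, hq] at hr
    · cases c with
      | true => simp [qs, hq] at hr
      | false =>
        simp only [qs, hq, List.mem_cons] at hr
        rcases hr with rfl | hr
        · rw [hq, List.length_cons] at hD
          omega
        · exact ih (a ++ [A q]) (by
            rw [List.length_append, List.length_singleton]; omega) r hr

/-- the damaged strings belong to the oracle -/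
theorem T5_dm {X : Oracle} {q : List Bool} (h : q ∈ Dm X) : X q = true := by
  obtain ⟨n, y, κ, -, -, -, hh, hq⟩ := h
  unfold spots at hq
  rw [Finset.mem_image] at hq
  obtain ⟨i, hi, rfl⟩ := hq
  exact hh i (Finset.mem_range.1 hi)

theorem T5_plus {X : Oracle} {j m : ℕ} {a : List (List Bool)} (h : GoodD X j m a) :
    plusL X a = X := by
  classical
  funext s
  unfold plusL
  by_cases hs : s ∈ a
  · rw [T5_dm (h.2.2 s hs).2]
    simp
  · simp [hs]

theorem t_T5 (hQT : S_QT) (hSB : S_SB) (hMDA : S_MDA) (hT5A : S_T5A) : S_T5 := by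
  intro X hSp
  refine ⟨hMDA X, ?_⟩
  rintro L ⟨K, ⟨K1, hK1, hK⟩, F, ⟨M0, hM0⟩, hF⟩
  have hK1' : IsNP X K1 := (hSB.2.1 X K1).1 hK1
  obtain ⟨V1, p1, ⟨M, hM⟩, hV1⟩ := hK1'
  obtain ⟨V, p, ⟨N, hN⟩, hV⟩ := hK
  obtain ⟨s, hs⟩ := hSp
  obtain ⟨q0, hq0⟩ := M0.out_local
  obtain ⟨qN, hqN⟩ := N.out_local
  obtain ⟨qM, hqM⟩ := M.next_length
  set b1 : Polynomial ℕ := qN.comp (Polynomial.C 2 * q0 + Polynomial.C 1 + p.comp q0) with hb1
  set mm : Polynomial ℕ := qM.comp (Polynomial.C 2 * b1 + Polynomial.C 1 + p1.comp b1) with hmm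
  refine ⟨KD N p M p1 X, (hSB.2.1 _ _).2 (hT5A N p M p1 X), F, ?_, hF⟩
  -- the second phase
  have h2 := hQT M0 (fun _ => false) (fun _ => false)
    (fun y => pairBits (pairBits (unpair y.1).2
      (List.replicate (mm.eval (unpair y.1).1.length) true)) (true :: y.2))
    (fun y => (unpair y).1) (NPC.Poly.const false) (NPC.Poly.const false)
    (by
      have h1 : Poly (fun y : List Bool × List Bool => (unpair y.1).1) :=
        Poly.fst (poly_unpair.comp (Poly.fst Poly.id))
      have h2 : Poly (fun y : List Bool × List Bool => (unpair y.1).2) :=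
        Poly.snd (poly_unpair.comp (Poly.fst Poly.id))
      exact H622R2.poly_pairBits (H622R2.poly_pairBits h2
        (T5_urep (UPoly.eval (UPoly.length h1) mm)))
        (Poly.cons (NPC.Poly.const true) (Poly.snd Poly.id)))
    (Poly.fst poly_unpair) (chr (KD N p M p1 X))
  have h3 := IsFP.comp h2 (T5_isFP_G (s.comp mm) mm (chr (KD N p M p1 X)))
  have h4 : (fun x => (M0.out (fun z => if (false : Bool) = true then false else
      chr (KD N p M p1 X) (pairBits (pairBits
        (unpair (T5_G (s.comp mm) mm (chr (KD N p M p1 X)) x)).2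
        (List.replicate (mm.eval
          (unpair (T5_G (s.comp mm) mm (chr (KD N p M p1 X)) x)).1.length) true)) (true :: z)))
      (unpair (T5_G (s.comp mm) mm (chr (KD N p M p1 X)) x)).1).getD []) = F := by
    funext x
    have hG := T5_answers N p M p1 X (s.comp mm) mm x (by
      have h5 : (s.comp mm).eval x.length = s.eval (mm.eval x.length) :=
        Polynomial.eval_comp
      rw [h5]
      exact hs _)
    rw [hG, unpair_pairBits]
    show (M0.out (fun z => if (false : Bool) = true then false else
      chr (KD N p M p1 X) (pairBits (pairBits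
        (List.replicate (T5_E X (mm.eval x.length)).ncard true)
        (List.replicate (mm.eval x.length) true)) (true :: z))) x).getD [] = F x
    obtain ⟨Q, -, hQ1, hQ2⟩ := hq0 (chr K) x
    rw [hQ2 _ ?_, hM0 x]
    · rfl
    · intro z hz
      have hzl := hQ1 z hz
      show chr (KD N p M p1 X) (pairBits (pairBits
        (List.replicate (T5_E X (mm.eval x.length)).ncard true)
        (List.replicate (mm.eval x.length) true)) (true :: z)) = chr K z
      unfold chr
      rw [decide_eq_decide, T5_z, hV z]
      have hlen : ∀ u : List Bool, u.length ≤ p.eval z.length →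
          qN.eval (pairBits z u).length ≤ b1.eval x.length := by
        intro u hu
        rw [hb1, Polynomial.eval_comp]
        apply eval_mono
        rw [length_pairBits]
        have := eval_mono p hzl
        simp only [Polynomial.eval_add, Polynomial.eval_mul, Polynomial.eval_C,
          Polynomial.eval_comp]
        omega
      have hlen2 : ∀ q w : List Bool, q.length ≤ b1.eval x.length → w.length ≤ p1.eval q.length →
          qM.eval (pairBits q w).length ≤ mm.eval x.length := by
        intro q w hq hw
        rw [hmm, Polynomial.eval_comp]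
        apply eval_mono
        rw [length_pairBits]
        have := eval_mono p1 hq
        simp only [Polynomial.eval_add, Polynomial.eval_mul, Polynomial.eval_C,
          Polynomial.eval_comp]
        omega
      -- the set `K1a` agrees with `K1`
      have hK1a : ∀ (a : List (List Bool)), GoodD X (T5_E X (mm.eval x.length)).ncard
          (mm.eval x.length) a → ∀ q : List Bool, q.length ≤ b1.eval x.length →
          (q ∈ K1a M p1 X a ↔ q ∈ K1) := by
        intro a ha q hq
        rw [hV1 q]
        show (∃ w : List Bool, w.length ≤ p1.eval q.length ∧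
          M.out (plusL X a) (pairBits q w) = some [true] ∧
          ∀ s ∈ qry M (plusL X a) (pairBits q w), s ∉ a → s ∉ Dm X) ↔ _
        rw [T5_plus ha]
        constructor
        · rintro ⟨w, hw, h5, -⟩
          rw [hM] at h5
          exact ⟨w, hw, Option.some.inj h5⟩
        · rintro ⟨w, hw, h5⟩
          refine ⟨w, hw, by rw [hM, h5], ?_⟩
          intro r hr hra hrD
          apply hra
          rw [T5_good_full ha]
          refine ⟨hrD, ?_⟩
          have h6 := T5_qry_len M qM hqM X (pairBits q w) _ _ (by simp) r hr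
          exact h6.trans (hlen2 q w hq hw)
      have hout : ∀ (a : List (List Bool)), GoodD X (T5_E X (mm.eval x.length)).ncard
          (mm.eval x.length) a → ∀ u : List Bool, u.length ≤ p.eval z.length →
          N.out (chr (K1a M p1 X a)) (pairBits z u) = some (V (pairBits z u)) := by
        intro a ha u hu
        obtain ⟨R, -, hR1, hR2⟩ := hqN (chr K1) (pairBits z u)
        rw [hR2 _ ?_, hN]
        intro r hr
        unfold chr
        rw [decide_eq_decide]
        exact hK1a a ha r ((hR1 r hr).trans (hlen u hu))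
      constructor
      · rintro ⟨a, u, ha, hu, hw⟩
        refine ⟨u, hu, ?_⟩
        rw [hout a ha u hu] at hw
        exact Option.some.inj hw
      · rintro ⟨u, hu, hw⟩
        obtain ⟨a, ha⟩ := (T5_good_iff X (T5_E X (mm.eval x.length)).ncard
          (mm.eval x.length)).2 le_rfl
        exact ⟨a, u, ha, hu, by rw [hout a ha u hu, hw]⟩
  rw [← h4]
  exact h3

end Pool.Agent.H490R3.LH
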