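import Pool.Agent.H490R3.LH.Base2
import Pool.Agent.H583R2.S2.Par
import Pool.Agent.H628R3.RO.G2
import Pool.Agent.H628R3.RO.E1
import Pool.Agent.H628R3.RO.A3

/-!
Task T5A (helper48): the set `KD` is in `NP` relative to the damaged set.
-/

set_option autoImplicit false

namespace Pool.Agent.H490R3.LH

open Pool.Agent.NPC Pool.Agent.H628R3.RO MeasureTheory
open Pool.Agent.H628R3.RO.G2
open Pool.Agent.H628R3.RO.M2 (mem_spots)
open Pool.Agent.H583R2.S2 (chr IsP Mk gc Ys dl NN p_NN)
open Pool.Agent.H583R2.NC (wl)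
open Pool.Agent.H673R2.OneTT (KA uA)

/-! ### lists without repetitions -/

/-- the test for repetitions -/
def T5A_nd (l : List (List Bool)) : Bool :=
  l.zipIdx.all (fun p => l.zipIdx.all (fun p' => decide (p.2 = p'.2) || !(decide (p.1 = p'.1))))

theorem T5A_nd_iff (l : List (List Bool)) : T5A_nd l = true ↔ l.Nodup := by
  unfold T5A_nd
  simp only [List.all_eq_true, Bool.or_eq_true, decide_eq_true_eq, Bool.not_eq_true',
    decide_eq_false_iff_not]
  rw [List.nodup_iff_injective_get]
  constructor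
  · intro h i j hij
    have h1 := h (l.get i, (i : ℕ)) (by rw [List.mem_zipIdx_iff_getElem?]; simp)
      (l.get j, (j : ℕ)) (by rw [List.mem_zipIdx_iff_getElem?]; simp)
    rcases h1 with h2 | h2
    · exact Fin.ext h2
    · exact absurd hij h2
  · rintro h ⟨x, i⟩ hx ⟨y, j⟩ hy
    rw [List.mem_zipIdx_iff_getElem?] at hx hy
    simp only at hx hy ⊢
    rw [List.getElem?_eq_some_iff] at hx hy
    obtain ⟨hi, hx⟩ := hx
    obtain ⟨hj, hy⟩ := hy
    by_cases hxy : x = y
    · left
      have h1 : (⟨i, hi⟩ : Fin l.length) = ⟨j, hj⟩ := h (by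
        simp only [List.get_eq_getElem]
        rw [hx, hy, hxy])
      exact congrArg Fin.val h1
    · right
      exact hxy

theorem T5A_poly_nd {α : Type} [TEnc α] {l : α → List (List Bool)} (hl : Poly l) :
    Poly (fun a => T5A_nd (l a)) := by
  unfold T5A_nd
  have hz := Poly.zipIdx hl
  refine Poly.all (p := fun a (p : List Bool × ℕ) => (l a).zipIdx.all
    (fun p' => decide (p.2 = p'.2) || !(decide (p.1 = p'.1)))) hz ?_
  refine Poly.all (p := fun (q : α × (List Bool × ℕ)) (p' : List Bool × ℕ) =>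
    decide (q.2.2 = p'.2) || !(decide (q.2.1 = p'.1))) (hz.comp (Poly.fst Poly.id)) ?_
  have h1 : Poly (fun q : (α × (List Bool × ℕ)) × (List Bool × ℕ) => q.1.2) :=
    Poly.snd (Poly.fst Poly.id)
  have h2 : Poly (fun q : (α × (List Bool × ℕ)) × (List Bool × ℕ) => q.2) := Poly.snd Poly.id
  exact Poly.or (Poly.decide_eq (Poly.snd h1) (Poly.snd h2))
    (Poly.not (Poly.decide_eq (Poly.fst h1) (Poly.fst h2)))

/-! ### names of damaged strings -/

/-- `(1ⁿ, y, v, 1ⁱ)` -/
abbrev T5A_Nm : Type := List Bool × List Bool × List Bool × List Bool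

/-- the string -/
def T5A_elt (κ : T5A_Nm) : List Bool := pos 0 κ.2.2.2.length (κ.2.1 ++ κ.2.2.1)

/-- the test of a name -/
def T5A_okN (κ : T5A_Nm) : Bool :=
  (decide (κ.2.1.length = 2 * κ.1.length) && decide (valB κ.2.1 < NN κ.1.length)) &&
  (decide (κ.2.2.1.length = 2 * κ.1.length + 1) && decide (κ.2.2.2.length < 2 * κ.1.length + 1))

/-- the condition on the oracle -/
def T5A_orN (X : Oracle) (κ : T5A_Nm) : Prop :=
  Hit (2 * κ.1.length + 1) (0, κ.2.1 ++ κ.2.2.1) X ∧ X ∈ Mk κ.1.length 0 κ.2.1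

theorem T5A_mem_Ys {n : ℕ} {y : List Bool} : y ∈ Ys n ↔ y.length = 2 * n ∧ valB y < NN n := by
  unfold Ys
  rw [Finset.mem_filter, Finset.mem_image]
  constructor
  · rintro ⟨⟨v, -, rfl⟩, h2⟩
    exact ⟨List.length_ofFn, h2⟩
  · rintro ⟨h1, h2⟩
    refine ⟨⟨fun i => y.get (i.cast h1.symm), Finset.mem_univ _, ?_⟩, h2⟩
    apply List.ext_get
    · rw [List.length_ofFn, h1]
    · intro i h5 h6
      simp

theorem T5A_mem_Rc {n : ℕ} {y : List Bool} {κ : Cand} : κ ∈ Rc n y ↔
    ∃ v : List Bool, v.length = 2 * n + 1 ∧ κ = (0, y ++ v) := by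
  unfold Rc
  rw [Finset.mem_image]
  constructor
  · rintro ⟨v, -, rfl⟩
    exact ⟨List.ofFn v, List.length_ofFn, rfl⟩
  · rintro ⟨v, h1, rfl⟩
    refine ⟨fun i => v.get (i.cast h1.symm), Finset.mem_univ _, ?_⟩
    congr 2
    apply List.ext_get
    · rw [List.length_ofFn, h1]
    · intro i h5 h6
      simp only [List.get_eq_getElem, List.getElem_ofFn, Fin.val_cast]

theorem T5A_dm_of {X : Oracle} {κ : T5A_Nm} (h : T5A_okN κ = true) (h' : T5A_orN X κ) :
    T5A_elt κ ∈ Dm X := by
  unfold T5A_okN at h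
  simp only [Bool.and_eq_true, decide_eq_true_eq] at h
  refine ⟨κ.1.length, κ.2.1, (0, κ.2.1 ++ κ.2.2.1), T5A_mem_Ys.2 h.1, h'.2,
    T5A_mem_Rc.2 ⟨_, h.2.1, rfl⟩, h'.1, ?_⟩
  rw [mem_spots]
  exact ⟨_, h.2.2, rfl⟩

theorem T5A_of_dm {X : Oracle} {q : List Bool} (h : q ∈ Dm X) :
    ∃ κ : T5A_Nm, T5A_okN κ = true ∧ T5A_orN X κ ∧ T5A_elt κ = q ∧ sz κ ≤ 16 * q.length + 7 := by
  obtain ⟨n, y, κ, h1, h2, h3, h4, h5⟩ := h
  obtain ⟨v, h6, rfl⟩ := T5A_mem_Rc.1 h3
  obtain ⟨i, hi, rfl⟩ := mem_spots.1 h5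
  have h7 := T5A_mem_Ys.1 h1
  refine ⟨(List.replicate n true, y, v, List.replicate i true), ?_, ?_, ?_, ?_⟩
  · unfold T5A_okN
    simp only [Bool.and_eq_true, decide_eq_true_eq, List.length_replicate]
    exact ⟨h7, h6, hi⟩
  · unfold T5A_orN
    simp only [List.length_replicate]
    exact ⟨h4, h2⟩
  · unfold T5A_elt
    simp only [List.length_replicate]
  · simp only [sz_pair]
    rw [length_pos, List.length_append]
    have e1 := sz_listBool_le (List.replicate n true)
    have e2 := sz_listBool_le y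
    have e3 := sz_listBool_le v
    have e4 := sz_listBool_le (List.replicate i true)
    rw [List.length_replicate] at e1 e4
    omega

theorem T5A_names {X : Oracle} {m : ℕ} : ∀ a : List (List Bool),
    (∀ q ∈ a, q.length ≤ m ∧ q ∈ Dm X) → ∃ l : List T5A_Nm, l.map T5A_elt = a ∧
      ∀ κ ∈ l, T5A_okN κ = true ∧ T5A_orN X κ ∧ sz κ ≤ 16 * m + 7 := by
  intro a
  induction a with
  | nil => intro _; exact ⟨[], rfl, by simp⟩
  | cons q a ih =>
    intro h
    obtain ⟨l, h1, h2⟩ := ih (fun q' hq' => h q' (List.mem_cons_of_mem _ hq'))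
    have h3 := h q List.mem_cons_self
    obtain ⟨κ, h4, h5, h6, h7⟩ := T5A_of_dm h3.2
    refine ⟨κ :: l, by rw [List.map_cons, h1, h6], ?_⟩
    intro κ' hκ'
    rcases List.mem_cons.1 hκ' with rfl | h8
    · exact ⟨h4, h5, by omega⟩
    · exact h2 κ' h8

theorem T5A_poly_elt {α : Type} [TEnc α] {κ : α → T5A_Nm} (hκ : Poly κ) :
    Poly (fun a => T5A_elt (κ a)) := by
  unfold T5A_elt
  exact p_pos (UPoly.const 0) (UPoly.length (Poly.snd (Poly.snd (Poly.snd hκ))))
    (Poly.append (Poly.fst (Poly.snd hκ)) (Poly.fst (Poly.snd (Poly.snd hκ))))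

theorem T5A_poly_okN {α : Type} [TEnc α] {κ : α → T5A_Nm} (hκ : Poly κ) :
    Poly (fun a => T5A_okN (κ a)) := by
  unfold T5A_okN
  have h1 : Poly (fun a => (κ a).1) := Poly.fst hκ
  have h2 : Poly (fun a => (κ a).2.1) := Poly.fst (Poly.snd hκ)
  have h3 : Poly (fun a => (κ a).2.2.1) := Poly.fst (Poly.snd (Poly.snd hκ))
  have h4 : Poly (fun a => (κ a).2.2.2) := Poly.snd (Poly.snd (Poly.snd hκ))
  have h5 : Poly (fun a => 2 * (κ a).1.length) := Poly.mul (NPC.Poly.const 2) (Poly.length h1)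
  exact Poly.and (Poly.and (Poly.decide_eq (Poly.length h2) h5)
    (Poly.decide_lt (Poly.valBits h2) (p_NN (UPoly.length h1))))
    (Poly.and (Poly.decide_eq (Poly.length h3) (Poly.succ h5))
      (Poly.decide_lt (Poly.length h4) (Poly.succ h5)))

/-! ### the verifier -/

/-- the witness: names and a string `u` -/
def T5A_D (w : List Bool) : List T5A_Nm × List Bool :=
  (unbits (List T5A_Nm × List Bool) w).getD ([], [])

theorem T5A_poly_D : Poly T5A_D := by
  refine (Poly.optCases (o := fun w : List Bool => unbits (List T5A_Nm × List Bool) w)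
    (g := fun _ => (([] : List T5A_Nm), ([] : List Bool))) (h := fun _ D => D)
    poly_unbits (NPC.Poly.const _) (Poly.snd Poly.id)).congr fun w => ?_
  unfold T5A_D
  cases unbits (List T5A_Nm × List Bool) w <;> rfl

theorem T5A_D_bits (D : List T5A_Nm × List Bool) : T5A_D (bits D) = D := by
  unfold T5A_D
  rw [unbits_bits]
  rfl

/-- `1ʲ` -/
def T5A_J (v : List Bool) : List Bool := (unpair (unpair v).1).1
/-- `1ᵐ` -/
def T5A_M (v : List Bool) : List Bool := (unpair (unpair v).1).2
/-- the rest -/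
def T5A_R (v : List Bool) : List Bool := (unpair v).2

/-- the test of the input -/
def T5A_okV (v : List Bool) : Bool :=
  decide (pairBits (pairBits (List.replicate (T5A_J v).length true)
    (List.replicate (T5A_M v).length true)) (T5A_R v) = v) &&
  !(decide ((T5A_R v).head? = some false))

/-- the names -/
def T5A_nm (y : List Bool) : List T5A_Nm := (T5A_D (unpair y).2).1
/-- the string `u` -/
def T5A_u (y : List Bool) : List Bool := (T5A_D (unpair y).2).2
/-- the list -/
def T5A_a (y : List Bool) : List (List Bool) := (T5A_nm y).map T5A_elt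

/-- the test of the witness -/
noncomputable def T5A_g0 (p : Polynomial ℕ) (y : List Bool) : Bool :=
  (T5A_okV (unpair y).1 && (T5A_nm y).all T5A_okN) &&
  ((T5A_nd (T5A_a y) && decide ((T5A_a y).length = (T5A_J (unpair y).1).length)) &&
  ((T5A_a y).all (fun q => decide (q.length ≤ (T5A_M (unpair y).1).length)) &&
    decide ((T5A_u y).length ≤ p.eval (T5A_R (unpair y).1).tail.length)))

/-- the positive questions -/
def T5A_q1 (y : List Bool) : List (List Bool) :=
  ((T5A_nm y).flatMap (fun κ => (List.range (2 * κ.1.length + 1)).map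
    (fun l => pos 0 (min l (2 * κ.1.length + 1)) (κ.2.1 ++ κ.2.2.1)))).map (fun q => false :: q)

/-- the negative questions -/
def T5A_q2 (gU : List Bool → List Bool) (y : List Bool) : List (List Bool) :=
  (T5A_nm y).map (fun κ => true :: gU (pairBits (List.replicate κ.1.length true) κ.2.1))

theorem T5A_poly_J : Poly T5A_J := Poly.fst (poly_unpair.comp (Poly.fst poly_unpair))
theorem T5A_poly_M : Poly T5A_M := Poly.snd (poly_unpair.comp (Poly.fst poly_unpair))
theorem T5A_poly_R : Poly T5A_R := Poly.snd poly_unpair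
theorem T5A_poly_nm : Poly T5A_nm := Poly.fst (T5A_poly_D.comp (Poly.snd poly_unpair))
theorem T5A_poly_u : Poly T5A_u := Poly.snd (T5A_poly_D.comp (Poly.snd poly_unpair))
theorem T5A_poly_a : Poly T5A_a := by
  unfold T5A_a
  exact NPC.Poly.map (F := fun (_ : List Bool) κ => T5A_elt κ) T5A_poly_nm
    (T5A_poly_elt (Poly.snd Poly.id))

theorem T5A_poly_okV : Poly T5A_okV := by
  unfold T5A_okV
  refine Poly.and (Poly.decide_eq (H622R2.poly_pairBits (H622R2.poly_pairBits
    (p_replicate (UPoly.length T5A_poly_J) true) (p_replicate (UPoly.length T5A_poly_M) true))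
    T5A_poly_R) Poly.id) (Poly.not (Poly.decide_eq (Poly.head? T5A_poly_R) (NPC.Poly.const _)))

theorem T5A_poly_g0 (p : Polynomial ℕ) : Poly (T5A_g0 p) := by
  unfold T5A_g0
  have hv : Poly (fun y : List Bool => (unpair y).1) := Poly.fst poly_unpair
  refine Poly.and (Poly.and (T5A_poly_okV.comp hv)
    (Poly.all (p := fun (_ : List Bool) κ => T5A_okN κ) T5A_poly_nm
      (T5A_poly_okN (Poly.snd Poly.id)))) (Poly.and (Poly.and (T5A_poly_nd T5A_poly_a)
      (Poly.decide_eq (Poly.length T5A_poly_a) (Poly.length (T5A_poly_J.comp hv)))) ?_)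
  refine Poly.and (Poly.all (p := fun (y : List Bool) (q : List Bool) =>
    decide (q.length ≤ (T5A_M (unpair y).1).length)) T5A_poly_a ?_) ?_
  · exact Poly.decide_le (Poly.length (Poly.snd Poly.id))
      (Poly.length (T5A_poly_M.comp (hv.comp (Poly.fst Poly.id))))
  · exact Poly.decide_le (Poly.length T5A_poly_u)
      ((UPoly.eval (UPoly.length (Poly.tail (T5A_poly_R.comp hv))) p).toPoly)

theorem T5A_poly_q1 : Poly T5A_q1 := by
  unfold T5A_q1
  refine NPC.Poly.map (F := fun (_ : List Bool) (q : List Bool) => false :: q) ?_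
    (Poly.cons (NPC.Poly.const false) (Poly.snd Poly.id))
  refine Poly.flatMap (F := fun (_ : List Bool) (κ : T5A_Nm) =>
    (List.range (2 * κ.1.length + 1)).map
      (fun l => pos 0 (min l (2 * κ.1.length + 1)) (κ.2.1 ++ κ.2.2.1))) T5A_poly_nm ?_
  have h1 : Poly (fun q : List Bool × T5A_Nm => q.2) := Poly.snd Poly.id
  exact p_spots (UPoly.const 0) (UPoly.add (UPoly.mul (UPoly.const 2)
    (UPoly.length (Poly.fst h1))) (UPoly.const 1))
    (Poly.append (Poly.fst (Poly.snd h1)) (Poly.fst (Poly.snd (Poly.snd h1))))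

theorem T5A_poly_q2 {gU : List Bool → List Bool} (hg : Poly gU) : Poly (T5A_q2 gU) := by
  unfold T5A_q2
  refine NPC.Poly.map (F := fun (_ : List Bool) (κ : T5A_Nm) =>
    true :: gU (pairBits (List.replicate κ.1.length true) κ.2.1)) T5A_poly_nm ?_
  have h1 : Poly (fun q : List Bool × T5A_Nm => q.2) := Poly.snd Poly.id
  exact Poly.cons (NPC.Poly.const true) (hg.comp (H622R2.poly_pairBits
    (p_replicate (UPoly.length (Poly.fst h1)) true) (Poly.fst (Poly.snd h1))))

theorem T5A_okV_iff (v : List Bool) : T5A_okV v = true ↔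
    v = pairBits (pairBits (List.replicate (T5A_J v).length true)
      (List.replicate (T5A_M v).length true)) (T5A_R v) ∧
    (T5A_R v = [] ∨ ∃ z, T5A_R v = true :: z) := by
  unfold T5A_okV
  simp only [Bool.and_eq_true, decide_eq_true_eq, Bool.not_eq_true', decide_eq_false_iff_not]
  constructor
  · rintro ⟨h1, h2⟩
    refine ⟨h1.symm, ?_⟩
    rcases hR : T5A_R v with _ | ⟨b, z⟩
    · exact Or.inl rfl
    · cases b
      · rw [hR] at h2
        exact absurd rfl h2
      · exact Or.inr ⟨z, rfl⟩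
  · rintro ⟨h1, h2⟩
    refine ⟨h1.symm, ?_⟩
    rcases h2 with h2 | ⟨z, h2⟩ <;> rw [h2] <;> simp

theorem T5A_q1_iff (X : Oracle) (A : Set (List Bool)) (y : List Bool) :
    (∀ q ∈ T5A_q1 y, join X A q = true) ↔
      ∀ κ ∈ T5A_nm y, Hit (2 * κ.1.length + 1) (0, κ.2.1 ++ κ.2.2.1) X := by
  unfold T5A_q1
  constructor
  · intro h κ hκ
    refine forall_spots.1 fun z hz => ?_
    exact h (false :: z) (List.mem_map.2 ⟨z, List.mem_flatMap.2 ⟨κ, hκ, hz⟩, rfl⟩)
  · intro h q hq
    obtain ⟨z, hz, rfl⟩ := List.mem_map.1 hq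
    obtain ⟨κ, hκ, hz⟩ := List.mem_flatMap.1 hz
    exact forall_spots.2 (h κ hκ) z hz

theorem T5A_q2_iff (gU : List Bool → List Bool) (X : Oracle) (A : Set (List Bool))
    (y : List Bool) :
    (∀ q ∈ T5A_q2 gU y, join X A q = false) ↔
      ∀ κ ∈ T5A_nm y, gU (pairBits (List.replicate κ.1.length true) κ.2.1) ∉ A := by
  unfold T5A_q2
  constructor
  · intro h κ hκ
    have h1 := h _ (List.mem_map.2 ⟨κ, hκ, rfl⟩)
    change chr A _ = false at h1
    unfold chr at h1
    simpa using h1
  · intro h q hq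
    obtain ⟨κ, hκ, rfl⟩ := List.mem_map.1 hq
    have h1 := h κ hκ
    change chr A _ = false
    unfold chr
    simpa using h1

/-- all answers are positive -/
def T5A_H1 (p : List Bool × List Bool) : List Bool :=
  if p.2.all (fun b => b) = true then [true] else []
/-- all answers are negative -/
def T5A_H2 (p : List Bool × List Bool) : List Bool :=
  if p.2.all (fun b => !b) = true then [true] else []

theorem T5A_poly_H1 : Poly T5A_H1 := by
  unfold T5A_H1
  exact Poly.ite (Poly.decide_bool (Poly.all (p := fun _ (b : Bool) => b) (Poly.snd Poly.id)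
    (Poly.snd Poly.id))) (NPC.Poly.const _) (NPC.Poly.const _)

theorem T5A_poly_H2 : Poly T5A_H2 := by
  unfold T5A_H2
  exact Poly.ite (Poly.decide_bool (Poly.all (p := fun _ (b : Bool) => !b) (Poly.snd Poly.id)
    (Poly.not (Poly.snd Poly.id)))) (NPC.Poly.const _) (NPC.Poly.const _)

theorem T5A_H1_iff (K : Oracle) (y : List Bool) (l : List (List Bool)) :
    T5A_H1 (y, l.map K) = [true] ↔ ∀ q ∈ l, K q = true := by
  unfold T5A_H1
  by_cases h : ((y, l.map K).2.all (fun b => b)) = true
  · rw [if_pos h]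
    simpa using h
  · rw [if_neg h]
    simpa using h

theorem T5A_H2_iff (K : Oracle) (y : List Bool) (l : List (List Bool)) :
    T5A_H2 (y, l.map K) = [true] ↔ ∀ q ∈ l, K q = false := by
  unfold T5A_H2
  by_cases h : ((y, l.map K).2.all (fun b => !b)) = true
  · rw [if_pos h]
    simpa using h
  · rw [if_neg h]
    simpa using h

/-- the combination of the tests -/
noncomputable def T5A_Fin (p : Polynomial ℕ) (z : List Bool) : List Bool :=
  if (T5A_g0 p (unpair z).1 && (decide ((unpair (unpair z).2).1 = [true]) &&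
    (decide ((unpair (unpair (unpair z).2).2).1 = [true]) &&
      (decide (T5A_R (unpair (unpair z).1).1 = []) ||
        decide ((unpair (unpair (unpair z).2).2).2 = [true]))))) = true then [true] else []

theorem T5A_poly_Fin (p : Polynomial ℕ) : Poly (T5A_Fin p) := by
  unfold T5A_Fin
  have h1 : Poly (fun z : List Bool => (unpair z).1) := Poly.fst poly_unpair
  have h2 : Poly (fun z : List Bool => (unpair z).2) := Poly.snd poly_unpair
  have h3 : Poly (fun z : List Bool => (unpair (unpair z).2).1) := Poly.fst (poly_unpair.comp h2)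
  have h4 : Poly (fun z : List Bool => (unpair (unpair z).2).2) := Poly.snd (poly_unpair.comp h2)
  refine Poly.ite (Poly.decide_bool (Poly.and ((T5A_poly_g0 p).comp h1) (Poly.and
    (Poly.decide_eq h3 (NPC.Poly.const _)) (Poly.and (Poly.decide_eq
      (Poly.fst (poly_unpair.comp h4)) (NPC.Poly.const _)) (Poly.or
        (Poly.decide_eq (T5A_poly_R.comp (Poly.fst (poly_unpair.comp h1))) (NPC.Poly.const _))
        (Poly.decide_eq (Poly.snd (poly_unpair.comp h4)) (NPC.Poly.const _))))))) 
    (NPC.Poly.const _) (NPC.Poly.const _)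

theorem T5A_Fin_iff (p : Polynomial ℕ) (y f1 f2 f3 : List Bool) :
    T5A_Fin p (pairBits y (pairBits f1 (pairBits f2 f3))) = [true] ↔
      T5A_g0 p y = true ∧ f1 = [true] ∧ f2 = [true] ∧
        (T5A_R (unpair y).1 = [] ∨ f3 = [true]) := by
  unfold T5A_Fin
  simp only [unpair_pairBits]
  by_cases h : (T5A_g0 p y && (decide (f1 = [true]) && (decide (f2 = [true]) &&
      (decide (T5A_R (unpair y).1 = []) || decide (f3 = [true]))))) = true
  · rw [if_pos h]
    simpa using h
  · rw [if_neg h]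
    simpa using h

theorem T5A_KD (N : Alg) (p : Polynomial ℕ) (M : Alg) (p₁ : Polynomial ℕ) (X : Oracle)
    (v : List Bool) : v ∈ KD N p M p₁ X ↔ ∃ j m rest a u,
      v = pairBits (pairBits (List.replicate j true) (List.replicate m true)) rest ∧
      (rest = [] ∨ ∃ z, rest = true :: z) ∧ GoodD X j m a ∧
      u.length ≤ p.eval rest.tail.length ∧
      (rest = [] ∨ N.out (chr (K1a M p₁ X a)) (pairBits rest.tail u) = some [true]) := by
  constructor
  · rintro (⟨j, m, a, h1, h2⟩ | ⟨j, m, z, a, u, h1, h2, h3, h4⟩)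
    · exact ⟨j, m, [], a, [], h1, Or.inl rfl, h2, by simp, Or.inl rfl⟩
    · exact ⟨j, m, true :: z, a, u, h1, Or.inr ⟨z, rfl⟩, h2, h3, Or.inr h4⟩
  · rintro ⟨j, m, rest, a, u, h1, (rfl | ⟨z, rfl⟩), h2, h3, h4⟩
    · exact Or.inl ⟨j, m, a, h1, h2⟩
    · refine Or.inr ⟨j, m, z, a, u, h1, h2, h3, ?_⟩
      rcases h4 with h4 | h4
      · exact absurd h4 (by simp)
      · exact h4

theorem t_T5A (hQT : S_QT) (_hVOT : S_VOT) (hUNM : S_UNM) (hSIM : S_SIM) : S_T5A := by
  intro N p M p₁ X
  obtain ⟨gU, hgU, hU⟩ := hUNM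
  obtain ⟨g, hg, hS⟩ := hSIM M p₁
  have hv : Poly (fun y : List Bool => (unpair y).1) := Poly.fst poly_unpair
  have hF1 : IsFP (join X (DA X))
      (fun y => T5A_H1 (y, (T5A_q1 y).map (join X (DA X)))) :=
    IsFP.tt T5A_poly_q1 T5A_poly_H1
  have hF2 : IsFP (join X (DA X))
      (fun y => T5A_H2 (y, (T5A_q2 gU y).map (join X (DA X)))) :=
    IsFP.tt (T5A_poly_q2 hgU) T5A_poly_H2
  have hF3 := hQT N (fun _ => false) (fun _ => false)
    (fun q => true :: g (q.2, T5A_a q.1))
    (fun y => pairBits (T5A_R (unpair y).1).tail (T5A_u y)) (NPC.Poly.const _)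
    (NPC.Poly.const _) (Poly.cons (NPC.Poly.const true) (hg.comp (Poly.pair (Poly.snd Poly.id)
      (T5A_poly_a.comp (Poly.fst Poly.id)))))
    (H622R2.poly_pairBits (Poly.tail (T5A_poly_R.comp hv)) T5A_poly_u) (join X (DA X))
  have horc : ∀ y, (fun z => if false = true then false else
      join X (DA X) (true :: g (z, T5A_a y))) = chr (K1a M p₁ X (T5A_a y)) := by
    intro y
    funext z
    rw [if_neg (by simp)]
    change chr (DA X) (g (z, T5A_a y)) = chr (K1a M p₁ X (T5A_a y)) z
    unfold chr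
    rw [decide_eq_decide]
    exact hS X z (T5A_a y)
  have hF3' : IsFP (join X (DA X)) (fun y => (N.out (chr (K1a M p₁ X (T5A_a y)))
      (pairBits (T5A_R (unpair y).1).tail (T5A_u y))).getD []) := by
    refine (Eq.mp ?_ hF3)
    congr 1
    funext y
    simp only
    rw [horc y]
  have hV := IsFP.comp (IsFP.of_poly (A := join X (DA X)) (T5A_poly_Fin p))
    (IsFP.pair (IsFP.of_poly Poly.id) (IsFP.pair hF1 (IsFP.pair hF2 hF3')))
  refine ⟨_, Polynomial.X * (Polynomial.C 16 * Polynomial.X + Polynomial.C 8) +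
    Polynomial.C 4 * p + Polynomial.C 4, hV, fun v => ?_⟩
  rw [T5A_KD]
  constructor
  · rintro ⟨j, m, rest, a, u, h1, h2, h3, h4, h5⟩
    obtain ⟨l, hl1, hl2⟩ := T5A_names a h3.2.2
    refine ⟨bits (l, u), ?_, ?_⟩
    · rw [bits_length, sz_pair]
      have e1 := sz_le_length_mul l (16 * m + 7) (fun κ hκ => (hl2 κ hκ).2.2)
      have e2 := sz_listBool_le u
      have e3 : l.length = j := by
        rw [← h3.2.1, ← hl1, List.length_map]
      have e4 : v.length = 2 * (2 * j + m + 1) + rest.length + 1 := by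
        rw [h1, A2.length_pairBits, A2.length_pairBits, List.length_replicate,
          List.length_replicate]
      have e5 : p.eval rest.tail.length ≤ p.eval v.length := by
        apply eval_mono
        rw [List.length_tail]
        omega
      have e6 : j * (16 * m + 7 + 1) ≤ v.length * (16 * v.length + 8) :=
        Nat.mul_le_mul (by omega) (by omega)
      rw [e3] at e1
      simp only [Polynomial.eval_add, Polynomial.eval_mul, Polynomial.eval_C, Polynomial.eval_X]
      omega
    · rw [T5A_Fin_iff]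
      have f1 : T5A_nm (pairBits v (bits (l, u))) = l := by
        unfold T5A_nm
        rw [unpair_pairBits, T5A_D_bits]
      have f2 : T5A_u (pairBits v (bits (l, u))) = u := by
        unfold T5A_u
        rw [unpair_pairBits, T5A_D_bits]
      have f3 : T5A_a (pairBits v (bits (l, u))) = a := by
        unfold T5A_a
        rw [f1, hl1]
      have f4 : (unpair (pairBits v (bits (l, u)))).1 = v := by rw [unpair_pairBits]
      have f5 : T5A_J v = List.replicate j true := by
        unfold T5A_J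
        rw [h1, unpair_pairBits, unpair_pairBits]
      have f6 : T5A_M v = List.replicate m true := by
        unfold T5A_M
        rw [h1, unpair_pairBits, unpair_pairBits]
      have f7 : T5A_R v = rest := by
        unfold T5A_R
        rw [h1, unpair_pairBits]
      rw [T5A_H1_iff, T5A_H2_iff, T5A_q1_iff, T5A_q2_iff, f1, f2, f3, f4, f7]
      refine ⟨?_, fun κ hκ => (hl2 κ hκ).2.1.1, fun κ hκ => ?_, ?_⟩
      · unfold T5A_g0
        rw [f1, f2, f3, f4, f5, f6, f7]
        simp only [Bool.and_eq_true, decide_eq_true_eq, List.all_eq_true, List.length_replicate,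
          T5A_nd_iff]
        refine ⟨⟨?_, fun κ hκ => (hl2 κ hκ).1⟩, ⟨h3.1, h3.2.1⟩, fun q hq => (h3.2.2 q hq).1, h4⟩
        rw [T5A_okV_iff, f5, f6, f7]
        simp only [List.length_replicate]
        exact ⟨h1, h2⟩
      · have g1 := (hl2 κ hκ).1
        unfold T5A_okN at g1
        simp only [Bool.and_eq_true, decide_eq_true_eq] at g1
        rw [hU X _ _ (T5A_mem_Ys.2 g1.1)]
        exact fun hn => hn (hl2 κ hκ).2.1.2
      · rcases h5 with h5 | h5
        · exact Or.inl h5
        · right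
          rw [h5]
          rfl
  · rintro ⟨w, -, h⟩
    rw [T5A_Fin_iff, T5A_H1_iff, T5A_H2_iff, T5A_q1_iff, T5A_q2_iff] at h
    obtain ⟨h1, h2, h3, h4⟩ := h
    set y := pairBits v w with hy
    have f4 : (unpair y).1 = v := by rw [hy, unpair_pairBits]
    unfold T5A_g0 at h1
    rw [f4] at h1 h4
    simp only [Bool.and_eq_true, decide_eq_true_eq, List.all_eq_true, T5A_nd_iff,
      T5A_okV_iff] at h1
    obtain ⟨⟨h5, h6⟩, ⟨h7, h8⟩, h9, h10⟩ := h1
    refine ⟨(T5A_J v).length, (T5A_M v).length, T5A_R v, T5A_a y, T5A_u y, h5.1, h5.2,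
      ⟨h7, h8, fun q hq => ⟨h9 q hq, ?_⟩⟩, h10, ?_⟩
    · unfold T5A_a at hq
      obtain ⟨κ, hκ, rfl⟩ := List.mem_map.1 hq
      refine T5A_dm_of (h6 κ hκ) ⟨h2 κ hκ, ?_⟩
      have g1 := h6 κ hκ
      unfold T5A_okN at g1
      simp only [Bool.and_eq_true, decide_eq_true_eq] at g1
      have g2 := h3 κ hκ
      rw [hU X _ _ (T5A_mem_Ys.2 g1.1), not_not] at g2
      exact g2
    · rcases h4 with h4 | h4
      · exact Or.inl h4
      · right
        cases hN : N.out (chr (K1a M p₁ X (T5A_a y))) (pairBits (T5A_R v).tail (T5A_u y)) with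
        | none => rw [hN] at h4; simp at h4
        | some t => rw [hN] at h4; simp at h4; rw [h4]

end Pool.Agent.H490R3.LH
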