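import Pool.Agent.H490R3.LH.Base2
import Pool.Agent.H583R2.S2.MemK
import Pool.Agent.H628R3.RO.A2
import Pool.Agent.H628R3.RO.M2

/-!
# Task UNM: the unmarked strings, by the damaged complete set
-/

set_option autoImplicit false

namespace Pool.Agent.H490R3.LH

open Pool.Agent.NPC Pool.Agent.H628R3.RO Pool.Agent.H628R3.RO.G2
open Pool.Agent.H583R2.S2 (chr IsP Mk gc Ys dl NN)
open Pool.Agent.H583R2.NC (wl)
open Pool.Agent.H583R2.NC.Mem (sps poly_sps u_wl)

/-- every question of a nonadaptive algorithm is in its list -/
theorem UNM_qs {Q : List Bool → List (List Bool)} {H : List Bool × List Bool → List Bool}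
    (hQ : Poly Q) (hH : Poly H) (p : Polynomial ℕ) (A : Oracle) (x : List Bool) :
    ∀ (n : ℕ) (a : List Bool), ∀ s ∈ qs (A2.ttAlg hQ hH p) A x n a, s ∈ Q x := by
  intro n
  induction n with
  | zero => intro a s hs; simp [qs] at hs
  | succ n ih =>
    intro a s hs
    rw [qs] at hs
    change s ∈ (match A2.ttD Q H (pairBits x a) with
      | [] => []
      | true :: _ => []
      | false :: q => q :: qs (A2.ttAlg hQ hH p) A x n (a ++ [A q])) at hs
    rw [A2.ttD_pair] at hs
    rcases h : (Q x)[a.length]? with _ | q
    · rw [h] at hs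
      simp at hs
    · rw [h] at hs
      simp only [List.mem_cons] at hs
      rcases hs with rfl | hs
      · exact List.mem_of_getElem? h
      · exact ih _ s hs

/-- the number of the stage, in unary -/
def UNM_l (z : List Bool) : List Unit := (unpair (unpair z).1).1.map (fun _ => ())

/-- the string -/
def UNM_y (z : List Bool) : List Bool := (unpair (unpair z).1).2

/-- the number of the copy, in unary -/
def UNM_c (z : List Bool) : List Bool := (unpair (unpair z).2).1

/-- the other part of the candidate -/
def UNM_v (z : List Bool) : List Bool := (unpair (unpair z).2).2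

/-- the test -/
def UNM_t (z : List Bool) : Bool :=
  decide ((UNM_c z).length < (UNM_l z).length) && decide ((UNM_v z).length = wl (UNM_l z).length)

/-- the questions -/
def UNM_q (z : List Bool) : List (List Bool) :=
  if UNM_t z = true then sps (UNM_l z).length (UNM_c z).length (UNM_y z ++ UNM_v z) else []

/-- the result -/
def UNM_h (p : List Bool × List Bool) : List Bool :=
  if (UNM_t p.1 && p.2.all (fun b => b)) = true then [true] else []

theorem UNM_poly_l : Poly UNM_l :=
  NPC.Poly.map (F := fun _ _ => ()) (Poly.fst (poly_unpair.comp (Poly.fst poly_unpair)))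
    (NPC.Poly.const ())

theorem UNM_poly_y : Poly UNM_y := Poly.snd (poly_unpair.comp (Poly.fst poly_unpair))

theorem UNM_poly_c : Poly UNM_c := Poly.fst (poly_unpair.comp (Poly.snd poly_unpair))

theorem UNM_poly_v : Poly UNM_v := Poly.snd (poly_unpair.comp (Poly.snd poly_unpair))

theorem UNM_poly_t : Poly UNM_t :=
  Poly.and (Poly.decide_lt (Poly.length UNM_poly_c) (Poly.length UNM_poly_l))
    (Poly.decide_eq (Poly.length UNM_poly_v) (u_wl UNM_poly_l).toPoly)

theorem UNM_poly_q : Poly UNM_q :=
  Poly.ite (Poly.decide_eq UNM_poly_t (NPC.Poly.const true))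
    (poly_sps UNM_poly_l (UPoly.length UNM_poly_c) (Poly.append UNM_poly_y UNM_poly_v))
    (NPC.Poly.const [])

theorem UNM_poly_h : Poly UNM_h :=
  Poly.ite (Poly.decide_eq (Poly.and (UNM_poly_t.comp (Poly.fst Poly.id))
    (Poly.all (p := fun _ (b : Bool) => b) (Poly.snd Poly.id) (Poly.snd Poly.id)))
    (NPC.Poly.const true)) (NPC.Poly.const [true]) (NPC.Poly.const [])

theorem UNM_Ys {n : ℕ} {y : List Bool} (h : y ∈ Ys n) : y.length = 2 * n := by
  unfold Ys at h
  rw [Finset.mem_filter, Finset.mem_image] at h
  obtain ⟨⟨v, -, rfl⟩, -⟩ := h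
  exact List.length_ofFn

theorem UNM_notMem_Dm {X : Oracle} {n c i : ℕ} {w : List Bool} (hw : w.length = 4 * n + 8) :
    pos c i w ∉ Dm X := by
  rintro ⟨n', y', κ, hy', -, hκ, -, hq⟩
  unfold Rc at hκ
  rw [Finset.mem_image] at hκ
  obtain ⟨v, -, rfl⟩ := hκ
  unfold spots at hq
  rw [Finset.mem_image] at hq
  obtain ⟨j, -, hj⟩ := hq
  obtain ⟨-, -, h3⟩ := M2.pos_inj hj
  have h4 := UNM_Ys hy'
  have h5 := congrArg List.length h3
  simp only [List.length_append, List.length_ofFn, h4, hw] at h5
  omega

theorem UNM_key (n : ℕ) (y c v : List Bool) :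
    UNM_l (pairBits (pairBits (List.replicate n true) y) (pairBits c v)) = List.replicate n () ∧
    UNM_y (pairBits (pairBits (List.replicate n true) y) (pairBits c v)) = y ∧
    UNM_c (pairBits (pairBits (List.replicate n true) y) (pairBits c v)) = c ∧
    UNM_v (pairBits (pairBits (List.replicate n true) y) (pairBits c v)) = v := by
  unfold UNM_l UNM_y UNM_c UNM_v
  simp only [unpair_pairBits, List.map_replicate, and_self]

theorem t_UNM (h1 : S_HDA) : S_UNM := by
  obtain ⟨q, hq⟩ := UNM_poly_q.sz_le
  set pp : Polynomial ℕ := q.comp (Polynomial.C 4 * Polynomial.X + Polynomial.C 1) with hpp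
  set M : Alg := A2.ttAlg UNM_poly_q UNM_poly_h pp with hM
  have hout : ∀ (A : Oracle) (x : List Bool),
      M.out A x = some (UNM_h (x, (UNM_q x).map A)) := by
    intro A x
    have h1 := length_lt_sz (UNM_q x)
    have h2 : (UNM_q x).length + 1 ≤ pp.eval x.length := A2.sz_eval_le (h1.trans_le (hq x))
    exact A2.tt_run UNM_poly_q UNM_poly_h pp A x (pp.eval x.length) 0 (Nat.zero_le _) (by omega)
  obtain ⟨g, hg, hgD⟩ := h1 M (Polynomial.C 4 * Polynomial.X + Polynomial.C 9)
  refine ⟨g, hg, fun X n y hy => ?_⟩
  have hyl := UNM_Ys hy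
  unfold DA
  rw [hgD]
  rw [Pool.Agent.H583R2.S2.MemK.notMem_Mk]
  have hwl : wl n = 2 * n + 8 := rfl
  constructor
  · rintro ⟨w, -, hw, -⟩
    rw [hout] at hw
    simp only [Option.some.injEq] at hw
    unfold UNM_h at hw
    split_ifs at hw with ht
    simp only [Bool.and_eq_true] at ht
    obtain ⟨ht1, ht2⟩ := ht
    have ht1' := ht1
    unfold UNM_t at ht1'
    simp only [Bool.and_eq_true, decide_eq_true_eq] at ht1'
    have hl : (UNM_l (pairBits (pairBits (List.replicate n true) y) w)).length = n := by
      unfold UNM_l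
      simp only [unpair_pairBits, List.length_map, List.length_replicate]
    have hyy : UNM_y (pairBits (pairBits (List.replicate n true) y) w) = y := by
      unfold UNM_y
      simp only [unpair_pairBits]
    rw [hl] at ht1'
    refine ⟨(UNM_c (pairBits (pairBits (List.replicate n true) y) w)).length,
      UNM_v (pairBits (pairBits (List.replicate n true) y) w), by omega, by omega, ht1'.2, ?_⟩
    unfold UNM_q at ht2
    rw [if_pos ht1, hl, hyy] at ht2
    refine (forall_spots (m := wl n)).1 fun z hz => ?_
    rw [List.all_eq_true] at ht2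
    exact ht2 _ (List.mem_map.2 ⟨z, hz, rfl⟩)
  · rintro ⟨c, v, -, hc, hv, hit⟩
    obtain ⟨e1, e2, e3, e4⟩ := UNM_key n y (List.replicate c true) v
    have ht : UNM_t (pairBits (pairBits (List.replicate n true) y)
        (pairBits (List.replicate c true) v)) = true := by
      unfold UNM_t
      rw [e1, e3, e4]
      simp only [List.length_replicate, Bool.and_eq_true, decide_eq_true_eq]
      exact ⟨by omega, hv⟩
    have hqe : UNM_q (pairBits (pairBits (List.replicate n true) y)
        (pairBits (List.replicate c true) v)) = sps n c (y ++ v) := by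
      unfold UNM_q
      rw [if_pos ht, e1, e2, e3, e4]
      simp only [List.length_replicate]
    refine ⟨pairBits (List.replicate c true) v, ?_, ?_, ?_⟩
    · simp only [A2.length_pairBits, List.length_replicate, Polynomial.eval_add,
        Polynomial.eval_mul, Polynomial.eval_C, Polynomial.eval_X]
      omega
    · rw [hout]
      unfold UNM_h
      rw [if_pos]
      simp only [ht, Bool.true_and]
      rw [hqe, List.all_eq_true]
      intro b hb
      obtain ⟨z, hz, rfl⟩ := List.mem_map.1 hb
      exact (forall_spots (m := wl n)).2 hit z hz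
    · intro s hs
      have hs2 := UNM_qs UNM_poly_q UNM_poly_h pp X _ _ _ s hs
      rw [hqe] at hs2
      unfold sps at hs2
      obtain ⟨i, -, rfl⟩ := List.mem_map.1 hs2
      refine UNM_notMem_Dm (n := n) ?_
      rw [List.length_append, hyl, hv, hwl]
      omega

end Pool.Agent.H490R3.LH
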