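import Pool.Agent.H490R3.LH.Fin1
import Pool.Agent.H490R3.LH.T_MDA
import Pool.Agent.H490R3.LH.T_SIM
import Pool.Agent.H490R3.LH.T_UNM
import Pool.Agent.H490R3.LH.T_T5
import Pool.Agent.H490R3.LH.T_T5A
import Pool.Agent.H490R3.LH.T_B6
import Pool.Agent.H490R3.LH.T_BLD
import Pool.Agent.H490R3.LH.T_PLT
import Pool.Agent.H490R3.LH.T_PEC
import Pool.Agent.H490R3.LH.T_LCD
import Pool.Agent.H490R3.LH.T_QTQ
import Pool.Agent.H490R3.LH.T_HDA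
import Pool.Agent.H490R3.LH.T_MYY

/-!
# Part 2: all statements are proved
-/

set_option autoImplicit false

namespace Pool.Agent.H490R3.LH

open Pool.Agent.NPC Pool.Agent.H628R3.RO MeasureTheory
open Pool.Agent.H583R2.S2 (chr IsP)

theorem p_UNM : S_UNM := t_UNM t_HDA
theorem p_SIM : S_SIM := t_SIM t_QTQ t_HDA
theorem p_MDA : S_MDA := t_MDA t_VOT
theorem p_T5A : S_T5A := t_T5A t_QT t_VOT p_UNM p_SIM
theorem p_T5 : S_T5 := t_T5 t_QT p_SB p_MDA p_T5A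
theorem p_PLT : S_PLT := t_PLT t_QRY
theorem p_LCD : S_LCD := t_LCD t_QRY
theorem p_B6 : S_B6 := t_B6 t_QRY p_PLT t_PEC p_LCD

theorem high_two (X : Oracle) (hs : Sparse (Dm X)) (h : ¬ IsCoNP (join X (DA X)) (YY X)) :
    High X 1 ⊂ HighD X 2 := by
  refine ⟨(p_INC X 1).2.2.1, fun h1 => ?_⟩
  have h2 := h1 (p_T5 X hs)
  have h3 : Sig X 2 (YY X)ᶜ :=
    ⟨YY X, (p_SB.2.1 _ _).2 (t_MYY X), (p_SB.1 _ _ (isP_chr (YY X))).2⟩
  exact h ((p_SB.2.1 _ _).1 (h2.2 _ h3))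

theorem main_two : ∀ᵐ X ∂randomOracle, HighD X 1 ⊂ High X 1 ∧ High X 1 ⊂ HighD X 2 := by
  have b6 := p_B6
  have bld := t_BLD
  unfold S_B6 at b6
  unfold S_BLD at bld
  filter_upwards [main_one, b6, bld] with X h1 h2 h3
  exact ⟨h1.2.2.2.1, high_two X h3 h2⟩

end Pool.Agent.H490R3.LH
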