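import Pool.Agent.H490R3.LH.Base3
import Pool.Agent.H490R3.LH.EQA2

/-!
# Task EQA: `NP(Σ_k) ⊆ Σ_{k+1}`, quantifier form (helper724)
-/

set_option autoImplicit false

namespace Pool.Agent.H490R3.LH

namespace EQAx

open Pool.Agent.NPC
open Pool.Agent.H620R2.Gauge (Oracle Quant IsFP IsSigma)
open Pool.Agent.H622R2 (poly_pairBits)

/-- the accepting computations of an algorithm, by the answers received -/
theorem run_iff (M : Pool.Agent.H628R3.RO.Alg) (A : Oracle) (z : List Bool) :
    ∀ (n : ℕ) (a₀ : List Bool), M.run A z n a₀ = some [true] ↔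
      ∃ a : List Bool, a.length < n ∧
        (∀ i < a.length, (M.D (pairBits z (a₀ ++ a.take i))).head? = some false ∧
          A (M.D (pairBits z (a₀ ++ a.take i))).tail = a.getD i false) ∧
        M.D (pairBits z (a₀ ++ a)) = [true, true] := by
  intro n
  induction n with
  | zero =>
    intro a₀
    simp [Pool.Agent.H628R3.RO.Alg.run]
  | succ n ih =>
    intro a₀
    rcases hD : M.D (pairBits z a₀) with _ | ⟨c, q⟩
    · have h1 : M.run A z (n + 1) a₀ = some [] := by
        rw [Pool.Agent.H628R3.RO.Alg.run, hD]
      rw [h1]
      constructor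
      · intro h
        simp at h
      · rintro ⟨a, -, h2, h3⟩
        rcases a with _ | ⟨b, a⟩
        · rw [List.append_nil, hD] at h3
          simp at h3
        · have h4 := (h2 0 (by simp)).1
          rw [List.take_zero, List.append_nil, hD] at h4
          simp at h4
    · cases c with
      | true =>
        have h1 : M.run A z (n + 1) a₀ = some q := by
          rw [Pool.Agent.H628R3.RO.Alg.run, hD]
        rw [h1]
        constructor
        · intro h
          refine ⟨[], by simp, by simp, ?_⟩
          rw [List.append_nil, hD, Option.some.inj h]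
        · rintro ⟨a, -, h2, h3⟩
          rcases a with _ | ⟨b, a⟩
          · rw [List.append_nil, hD] at h3
            rw [(List.cons.inj h3).2]
          · have h4 := (h2 0 (by simp)).1
            rw [List.take_zero, List.append_nil, hD] at h4
            simp at h4
      | false =>
        have h1 : M.run A z (n + 1) a₀ = M.run A z n (a₀ ++ [A q]) := by
          rw [Pool.Agent.H628R3.RO.Alg.run, hD]
        rw [h1, ih]
        constructor
        · rintro ⟨a, h2, h3, h4⟩
          refine ⟨A q :: a, by simpa using h2, ?_, ?_⟩
          · intro i hi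
            rcases i with _ | i
            · rw [List.take_zero, List.append_nil, hD]
              simp
            · have h5 := h3 i (by simpa using hi)
              rw [List.take_succ_cons, List.getD_cons_succ]
              rw [List.append_assoc] at h5
              exact h5
          · rw [List.append_assoc] at h4
            exact h4
        · rintro ⟨a, h2, h3, h4⟩
          rcases a with _ | ⟨b, a⟩
          · rw [List.append_nil, hD] at h4
            simp at h4
          · have h5 := (h3 0 (by simp)).2
            rw [List.take_zero, List.append_nil, hD] at h5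
            simp only [List.tail_cons, List.getD_cons_zero] at h5
            refine ⟨a, by simpa using h2, ?_, ?_⟩
            · intro i hi
              have h6 := h3 (i + 1) (by simpa using hi)
              rw [List.take_succ_cons, List.getD_cons_succ] at h6
              rw [List.append_assoc, h5]
              exact h6
            · rw [List.append_assoc, h5]
              exact h4

theorem chr_true {K : Set (List Bool)} {q : List Bool} :
    Pool.Agent.H583R2.S2.chr K q = true ↔ q ∈ K := by
  classical
  simp [Pool.Agent.H583R2.S2.chr]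

theorem chr_false {K : Set (List Bool)} {q : List Bool} :
    Pool.Agent.H583R2.S2.chr K q = false ↔ q ∉ K := by
  classical
  simp [Pool.Agent.H583R2.S2.chr]

/-- a witness, the answers, witnesses for the positive answers -/
abbrev St : Type := List Bool × List Bool × List (List Bool)

noncomputable def dU (U : List Bool) : St := (unbits St U).getD ([], [], [])

theorem dU_bits (s : St) : dU (bits s) = s := by
  unfold dU
  rw [unbits_bits]
  rfl

theorem poly_dU : Poly dU :=
  (Poly.optCases (o := unbits St) (g := fun _ => (([], [], []) : St)) (h := fun _ b => b)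
    poly_unbits (NPC.Poly.const _) (Poly.snd Poly.id)).congr fun s => by
      unfold dU
      cases unbits St s <;> rfl

theorem main (X : Oracle) (k : ℕ) (K L : Set (List Bool)) (hK : QC X k true (· ∈ K))
    (M : Pool.Agent.H628R3.RO.Alg) (V : List Bool → List Bool) (p : Polynomial ℕ)
    (hM : ∀ x, M.out (Pool.Agent.H583R2.S2.chr K) x = some (V x))
    (hV : ∀ x, x ∈ L ↔ ∃ w : List Bool, w.length ≤ p.eval x.length ∧
      V (pairBits x w) = [true]) : QC X (k + 1) true (· ∈ L) := by
  obtain ⟨R₁, pK, hR₁, hK₁⟩ : ∃ (R₁ : List Bool → Prop) (pK : Polynomial ℕ),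
      QC X k false R₁ ∧ ∀ q, q ∈ K ↔ ∃ v : List Bool, v.length ≤ pK.eval q.length ∧
        R₁ (pairBits v q) := by
    cases k with
    | zero =>
      refine ⟨_, 0, (hK.lvl0 false).red poly_u2, fun q => ?_⟩
      simp only [unpair2]
      exact ⟨fun h => ⟨[], Nat.zero_le _, h⟩, fun ⟨_, _, h⟩ => h⟩
    | succ k =>
      obtain ⟨R', p', h1, h2⟩ := hK.split
      exact ⟨R', p', h1.inc, h2⟩
  have hR₀ : QC X k false (fun q => ¬ q ∈ K) := hK.neg
  have hD : Poly M.D := Pool.Agent.H622R2.poly_of_polyTime M.poly
  obtain ⟨qD, hqD⟩ := poly_bound hD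
  have hsU : Poly (fun z : List Bool => dU (unpair z).1) := poly_dU.comp poly_u1
  obtain ⟨wz, hwz⟩ : ∃ wz : List Bool → List Bool, wz = fun z => (dU (unpair z).1).1 := ⟨_, rfl⟩
  obtain ⟨az, haz⟩ : ∃ az : List Bool → List Bool, az = fun z => (dU (unpair z).1).2.1 := ⟨_, rfl⟩
  obtain ⟨vz, hvz⟩ : ∃ vz : List Bool → List (List Bool), vz = fun z => (dU (unpair z).1).2.2 :=
    ⟨_, rfl⟩
  have pw : Poly wz := by rw [hwz]; exact Poly.fst hsU
  have pa : Poly az := by rw [haz]; exact Poly.fst (Poly.snd hsU)
  have pv : Poly vz := by rw [hvz]; exact Poly.snd (Poly.snd hsU)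
  obtain ⟨inp, hinp⟩ : ∃ inp : List Bool → List Bool, inp = fun z => pairBits (unpair z).2 (wz z) :=
    ⟨_, rfl⟩
  have pinp : Poly inp := by rw [hinp]; exact poly_pairBits poly_u2 pw
  obtain ⟨act, hact⟩ : ∃ act : List Bool → List Bool, act = fun z' =>
      M.D (pairBits (inp (unpair z').2) ((az (unpair z').2).take (unpair z').1.length)) :=
    ⟨_, rfl⟩
  have pact : Poly act := by
    rw [hact]
    exact hD.comp (poly_pairBits (pinp.comp poly_u2)
      (Pool.Agent.H620R2.Gauge.R1.poly_take (pa.comp poly_u2) (UPoly.length poly_u1)))
  obtain ⟨bit, hbit⟩ : ∃ bit : List Bool → Bool, bit = fun z' =>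
      (az (unpair z').2).getD (unpair z').1.length false := ⟨_, rfl⟩
  have pbit : Poly bit := by
    rw [hbit]
    exact Poly.getD (pa.comp poly_u2) (Poly.length poly_u1) (NPC.Poly.const false)
  have pok : Poly (fun z' => decide ((act z').head? = some false)) :=
    Poly.decide_eq (Poly.head? pact) (NPC.Poly.const (some false))
  have pc₁ : Poly (fun z' => decide ((act z').head? = some false) && bit z') :=
    Poly.and pok pbit
  have pc₀ : Poly (fun z' => decide ((act z').head? = some false) && !(bit z')) :=
    Poly.and pok (Poly.not pbit)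
  have pt : Poly (fun z' => (act z').tail) := Poly.tail pact
  have pf₁ : Poly (fun z' => pairBits (cut (pK.eval (act z').tail.length)
      ((vz (unpair z').2).getD (unpair z').1.length [])) (act z').tail) :=
    poly_pairBits (poly_cut (UPoly.eval (UPoly.length pt) pK).toPoly
      (Poly.getD (pv.comp poly_u2) (Poly.length poly_u1) (NPC.Poly.const []))) pt
  have hR := QC.ite pc₁ (hR₁.red pf₁) (QC.ite pc₀ (hR₀.red pt) QC.falseP)
  have hconj := QC.conj (τ := fun z => (az z).length) (UPoly.length pa) hR
  have ptest : Poly (fun z => decide ((wz z).length ≤ p.eval (unpair z).2.length) &&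
      (decide ((az z).length < M.p.eval (inp z).length) &&
        decide (M.D (pairBits (inp z) (az z)) = [true, true]))) :=
    Poly.and (Poly.decide_le (Poly.length pw) (UPoly.eval (UPoly.length poly_u2) p).toPoly)
      (Poly.and (Poly.decide_lt (Poly.length pa) (UPoly.eval (UPoly.length pinp) M.p).toPoly)
        (Poly.decide_eq (hD.comp (poly_pairBits pinp pa)) (NPC.Poly.const [true, true])))
  have hΦ := QC.ite ptest hconj QC.falseP
  obtain ⟨P5, hP5⟩ : ∃ P5 : Polynomial ℕ, P5 = 2 * Polynomial.X + 1 + p := ⟨_, rfl⟩
  obtain ⟨P2, hP2⟩ : ∃ P2 : Polynomial ℕ, P2 = M.p.comp P5 := ⟨_, rfl⟩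
  obtain ⟨P3, hP3⟩ : ∃ P3 : Polynomial ℕ, P3 = qD.comp (2 * P5 + 1 + P2) := ⟨_, rfl⟩
  obtain ⟨P4, hP4⟩ : ∃ P4 : Polynomial ℕ, P4 = pK.comp P3 := ⟨_, rfl⟩
  have hfin := QC.uni hΦ (μ := fun x => (4 * p + 4 * P2 + P2 * (4 * P4 + 2) + 5).eval x.length)
    (UPoly.eval (UPoly.length Poly.id) _)
  refine hfin.congr fun x => ?_
  rw [hV x]
  simp only [unpair1, unpair2, len_ones, hact, hbit, hinp, and_false, or_false]
  constructor
  · rintro ⟨U, -, htest, hall⟩
    rw [Bool.and_eq_true, Bool.and_eq_true, decide_eq_true_eq, decide_eq_true_eq,
      decide_eq_true_eq] at htest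
    obtain ⟨t1, t2, t3⟩ := htest
    refine ⟨wz (pairBits U x), t1, ?_⟩
    have h1 : M.run (Pool.Agent.H583R2.S2.chr K) (pairBits x (wz (pairBits U x)))
        (M.p.eval (pairBits x (wz (pairBits U x))).length) [] = some [true] := by
      rw [run_iff]
      refine ⟨az (pairBits U x), t2, ?_, by rw [List.nil_append]; exact t3⟩
      intro i hi
      have h2 := hall i hi
      rw [List.nil_append]
      rcases h2 with ⟨h3, h4⟩ | ⟨-, h3, h4⟩
      · rw [Bool.and_eq_true, decide_eq_true_eq] at h3
        refine ⟨h3.1, ?_⟩
        rw [h3.2, chr_true, hK₁]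
        exact ⟨_, cut_le _ _, h4⟩
      · rw [Bool.and_eq_true, decide_eq_true_eq, Bool.not_eq_true'] at h3
        refine ⟨h3.1, ?_⟩
        rw [h3.2, chr_false]
        exact h4
    have h2 := hM (pairBits x (wz (pairBits U x)))
    unfold Pool.Agent.H628R3.RO.Alg.out at h2
    rw [h1] at h2
    exact (Option.some.inj h2).symm
  · rintro ⟨w, hw, hVw⟩
    have h2 := hM (pairBits x w)
    unfold Pool.Agent.H628R3.RO.Alg.out at h2
    rw [hVw, run_iff] at h2
    obtain ⟨a, ha, hq, hacc⟩ := h2
    simp only [List.nil_append] at hq hacc
    have hv : ∀ i, ∃ v : List Bool, i < a.length →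
        (M.D (pairBits (pairBits x w) (a.take i))).tail ∈ K →
        v.length ≤ pK.eval (M.D (pairBits (pairBits x w) (a.take i))).tail.length ∧
        R₁ (pairBits v (M.D (pairBits (pairBits x w) (a.take i))).tail) := by
      intro i
      by_cases h3 : (M.D (pairBits (pairBits x w) (a.take i))).tail ∈ K
      · obtain ⟨v, hv⟩ := (hK₁ _).1 h3
        exact ⟨v, fun _ _ => hv⟩
      · exact ⟨[], fun _ h => absurd h h3⟩
    choose v hv using hv
    obtain ⟨v', hv'⟩ : ∃ v' : ℕ → List Bool, v' = fun i =>
        cut (pK.eval (M.D (pairBits (pairBits x w) (a.take i))).tail.length) (v i) := ⟨_, rfl⟩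
    have e0 : dU (bits ((w, a, (List.range a.length).map v') : St)) =
      (w, a, (List.range a.length).map v') := dU_bits _
    have e1 : wz (pairBits (bits ((w, a, (List.range a.length).map v') : St)) x) = w := by
      rw [hwz]
      simp only [unpair1, e0]
    have e2 : az (pairBits (bits ((w, a, (List.range a.length).map v') : St)) x) = a := by
      rw [haz]
      simp only [unpair1, e0]
    have e3 : vz (pairBits (bits ((w, a, (List.range a.length).map v') : St)) x) =
        (List.range a.length).map v' := by
      rw [hvz]
      simp only [unpair1, e0]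
    have hP5e : 2 * x.length + 1 + p.eval x.length = P5.eval x.length := by
      rw [hP5]
      simp
    have hinl : (pairBits x w).length ≤ P5.eval x.length := by
      rw [len_pair]
      omega
    have hal : a.length ≤ P2.eval x.length := by
      rw [hP2, Polynomial.eval_comp]
      exact ha.le.trans (eval_mono _ hinl)
    refine ⟨bits ((w, a, (List.range a.length).map v') : St), ?_, ?_, ?_⟩
    · rw [bits_length, sz_pair, sz_pair]
      have s1 := sz_listBool_le w
      have s2 := sz_listBool_le a
      have s3 := sz_le_length_mul ((List.range a.length).map v') (4 * P4.eval x.length + 1) (by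
        intro u hu
        obtain ⟨i, hi, rfl⟩ := List.mem_map.1 hu
        have h4 := sz_listBool_le (v' i)
        have h5 : (v' i).length ≤
            pK.eval (M.D (pairBits (pairBits x w) (a.take i))).tail.length := by
          rw [hv']
          exact cut_le _ _
        have h6 : (M.D (pairBits (pairBits x w) (a.take i))).tail.length ≤ P3.eval x.length := by
          have h7 := hqD (pairBits (pairBits x w) (a.take i))
          have h8 : qD.eval (pairBits (pairBits x w) (a.take i)).length ≤ P3.eval x.length := by
            rw [hP3, Polynomial.eval_comp]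
            apply eval_mono
            rw [len_pair]
            have h9 : (a.take i).length ≤ a.length := by
              rw [List.length_take]
              exact min_le_right _ _
            simp only [Polynomial.eval_add, Polynomial.eval_mul, Polynomial.eval_ofNat,
              Polynomial.eval_one]
            omega
          rw [List.length_tail]
          omega
        have h7 : pK.eval (M.D (pairBits (pairBits x w) (a.take i))).tail.length ≤
            P4.eval x.length := by
          rw [hP4, Polynomial.eval_comp]
          exact eval_mono _ h6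
        omega)
      rw [List.length_map, List.length_range] at s3
      have s4 : a.length * (4 * P4.eval x.length + 1 + 1) ≤
          P2.eval x.length * (4 * P4.eval x.length + 2) := Nat.mul_le_mul hal (by omega)
      simp only [Polynomial.eval_add, Polynomial.eval_mul, Polynomial.eval_ofNat]
      omega
    · rw [e1, e2, Bool.and_eq_true, Bool.and_eq_true, decide_eq_true_eq, decide_eq_true_eq,
        decide_eq_true_eq]
      exact ⟨hw, ha, hacc⟩
    · rw [e2, e1, e3]
      intro i hi
      obtain ⟨h3, h4⟩ := hq i hi
      have h5 : ((List.range a.length).map v').getD i [] = v' i := by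
        rw [List.getD_eq_getElem?_getD, List.getElem?_map, List.getElem?_range hi]
        rfl
      rw [h5, h3]
      cases hb : a.getD i false with
      | true =>
        left
        refine ⟨by simp, ?_⟩
        rw [hb, chr_true] at h4
        obtain ⟨h6, h7⟩ := hv i hi h4
        rw [hv']
        simp only []
        rw [cut_of_le h6, cut_of_le h6]
        exact h7
      | false =>
        right
        refine ⟨by simp, by simp, ?_⟩
        rw [hb, chr_false] at h4
        exact h4

end EQAx

theorem t_EQA : S_EQA := by
  intro X k K L hK hL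
  obtain ⟨V, p, ⟨M, hM⟩, hV⟩ := hL
  exact EQAx.main X k K L hK M V p hM hV

end Pool.Agent.H490R3.LH
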