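import Pool.Agent.H490R3.LH.Base3
import Pool.Agent.H628R3.RO.A3
import Pool.Agent.H943R5.GC.U6

/-!
# `Σ_{k+1} ⊆ NP(Σ_k)`, quantifier form
-/

set_option autoImplicit false

namespace Pool.Agent.H490R3.LH

open Pool.Agent.NPC Pool.Agent.H628R3.RO MeasureTheory
open Pool.Agent.H583R2.S2 (chr IsP)
open Pool.Agent.H620R2.Gauge (Quant)

/-! ### the second component is not longer than the pair -/

theorem EQB_ustep (s : List Bool × List Bool × Bool) : (ustep s).2.1.length ≤ s.2.1.length := by
  obtain ⟨a, l, b⟩ := s
  unfold ustep
  cases b with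
  | true => simp
  | false =>
    match l with
    | [] => simp
    | true :: [] => simp
    | true :: c :: l' =>
      simp only [Bool.false_eq_true, if_false, if_true, List.length_cons]
      omega
    | false :: l' => simp

theorem EQB_ustep_iter (n : ℕ) (s : List Bool × List Bool × Bool) :
    (ustep^[n] s).2.1.length ≤ s.2.1.length := by
  induction n with
  | zero => exact le_rfl
  | succ n ih =>
    rw [Function.iterate_succ_apply']
    exact (EQB_ustep _).trans ih

theorem EQB_unpair (y : List Bool) : (unpair y).2.length ≤ y.length :=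
  EQB_ustep_iter y.length ([], y, false)

/-! ### stripping and truncating -/

/-- strip `k` layers -/
def EQB_bs : ℕ → List Bool → List Bool
  | 0, t => t
  | k + 1, t => EQB_bs k (unpair t).2

/-- truncate the strings of the `k` outer layers -/
noncomputable def EQB_T (p : Polynomial ℕ) : ℕ → List Bool → List Bool
  | 0, t => t
  | k + 1, t => pairBits ((unpair t).1.take (p.eval (unpair (EQB_bs (k + 1) t)).2.length))
      (EQB_T p k (unpair t).2)

theorem EQB_p_bs : ∀ k : ℕ, Poly (EQB_bs k)
  | 0 => Poly.id
  | k + 1 => (EQB_p_bs k).comp (Poly.snd poly_unpair)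

theorem EQB_p_T (p : Polynomial ℕ) : ∀ k : ℕ, Poly (EQB_T p k)
  | 0 => Poly.id
  | k + 1 => by
    have h1 : Poly (fun t : List Bool => (unpair t).1.take
        (p.eval (unpair (EQB_bs (k + 1) t)).2.length)) :=
      Pool.Agent.H620R2.Gauge.R1.poly_take (Poly.fst poly_unpair)
        (UPoly.eval (UPoly.length (Poly.snd (poly_unpair.comp (EQB_p_bs (k + 1))))) p)
    exact Pool.Agent.H622R2.poly_pairBits h1 ((EQB_p_T p k).comp (Poly.snd poly_unpair))

/-- the key lemma -/
theorem EQB_key (V : List Bool → List Bool) (p : Polynomial ℕ) (n Q : ℕ) :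
    ∀ k j, j + k = n → ∀ (b : Bool) (t : List Bool),
      p.eval (unpair (EQB_bs j t)).2.length ≤ Q →
      (Quant Q (fun t => V (EQB_T p n t)) k b t ↔
        Quant (p.eval (unpair (EQB_bs j t)).2.length) V k b (EQB_T p j t)) := by
  intro k
  induction k with
  | zero =>
    intro j hj b t _
    obtain rfl : j = n := by omega
    exact Iff.rfl
  | succ k ih =>
    intro j hj b t hQ
    have h1 : ∀ w : List Bool, EQB_bs (j + 1) (pairBits w t) = EQB_bs j t := by
      intro w
      show EQB_bs j (unpair (pairBits w t)).2 = EQB_bs j t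
      rw [unpair_pairBits]
    have h2 : ∀ w : List Bool, EQB_T p (j + 1) (pairBits w t) =
        pairBits (w.take (p.eval (unpair (EQB_bs j t)).2.length)) (EQB_T p j t) := by
      intro w
      show pairBits ((unpair (pairBits w t)).1.take
        (p.eval (unpair (EQB_bs (j + 1) (pairBits w t))).2.length))
        (EQB_T p j (unpair (pairBits w t)).2) = _
      rw [h1, unpair_pairBits]
    have h3 : ∀ (b : Bool) (w : List Bool),
        (Quant Q (fun t => V (EQB_T p n t)) k b (pairBits w t) ↔
          Quant (p.eval (unpair (EQB_bs j t)).2.length) V k b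
            (pairBits (w.take (p.eval (unpair (EQB_bs j t)).2.length)) (EQB_T p j t))) := by
      intro b w
      have h4 := ih (j + 1) (by omega) b (pairBits w t) (by rw [h1]; exact hQ)
      rw [h1, h2] at h4
      exact h4
    set m := p.eval (unpair (EQB_bs j t)).2.length with hm
    cases b with
    | true =>
      show (∃ w : List Bool, w.length ≤ Q ∧ Quant Q (fun t => V (EQB_T p n t)) k false
        (pairBits w t)) ↔ (∃ w : List Bool, w.length ≤ m ∧ Quant m V k false
        (pairBits w (EQB_T p j t)))
      constructor
      · rintro ⟨w, -, hw⟩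
        refine ⟨w.take m, ?_, (h3 false w).1 hw⟩
        rw [List.length_take]
        exact min_le_left _ _
      · rintro ⟨w, hw, hw'⟩
        refine ⟨w, hw.trans hQ, (h3 false w).2 ?_⟩
        rw [List.take_of_length_le hw]
        exact hw'
    | false =>
      show (∀ w : List Bool, w.length ≤ Q → Quant Q (fun t => V (EQB_T p n t)) k true
        (pairBits w t)) ↔ (∀ w : List Bool, w.length ≤ m → Quant m V k true
        (pairBits w (EQB_T p j t)))
      constructor
      · intro h w hw
        have h5 := (h3 true w).1 (h w (hw.trans hQ))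
        rw [List.take_of_length_le hw] at h5
        exact h5
      · intro h w _
        refine (h3 true w).2 (h _ ?_)
        rw [List.length_take]
        exact min_le_left _ _

/-- negation -/
noncomputable def EQB_neg (V : List Bool → List Bool) (t : List Bool) : List Bool :=
  [decide (V t ≠ [true])]

theorem EQB_neg_iff (V : List Bool → List Bool) (t : List Bool) :
    EQB_neg V t = [true] ↔ ¬ V t = [true] := by
  unfold EQB_neg
  rw [List.cons.injEq, decide_eq_true_eq]
  exact and_iff_left rfl

theorem EQB_quant (m : ℕ) (V : List Bool → List Bool) : ∀ (k : ℕ) (b : Bool) (t : List Bool),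
    Quant m (EQB_neg V) k (!b) t ↔ ¬ Quant m V k b t := by
  intro k
  induction k with
  | zero =>
    intro b t
    exact EQB_neg_iff V t
  | succ k ih =>
    intro b t
    cases b with
    | true =>
      show (∀ w : List Bool, w.length ≤ m → Quant m (EQB_neg V) k true (pairBits w t)) ↔
        ¬ ∃ w : List Bool, w.length ≤ m ∧ Quant m V k false (pairBits w t)
      constructor
      · rintro h ⟨w, hw, hw'⟩
        exact (ih false _).1 (h w hw) hw'
      · intro h w hw
        exact (ih false _).2 fun hw' => h ⟨w, hw, hw'⟩
    | false =>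
      show (∃ w : List Bool, w.length ≤ m ∧ Quant m (EQB_neg V) k false (pairBits w t)) ↔
        ¬ ∀ w : List Bool, w.length ≤ m → Quant m V k true (pairBits w t)
      constructor
      · rintro ⟨w, hw, hw'⟩ h
        exact (ih true _).1 hw' (h w hw)
      · intro h
        push Not at h
        obtain ⟨w, hw, hw'⟩ := h
        exact ⟨w, hw, (ih true _).2 hw'⟩

theorem EQB_p_neg : Poly (fun z : List Bool => [decide (z ≠ [true])]) :=
  Poly.cons (Poly.decide_not (Poly.decide_eq Poly.id (NPC.Poly.const _))) (NPC.Poly.const _)

theorem EQB_isFP_neg {A : Oracle} {V : List Bool → List Bool} (h : IsFP A V) :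
    IsFP A (EQB_neg V) :=
  IsFP.comp (G := fun z : List Bool => [decide (z ≠ [true])]) (IsFP.of_poly (A := A) EQB_p_neg) h

theorem t_EQB : S_EQB := by
  intro X k L hL
  obtain ⟨V, p, hV, hVL⟩ := hL
  have hV' : IsFP X V := Pool.Agent.H943R5.GC.U6.isFP_toRO hV
  set K : Set (List Bool) := {y | Quant (p.eval (unpair y).2.length) (EQB_neg V) k true y} with hK
  refine ⟨K, ⟨fun t => EQB_neg V (EQB_T p k t), p, ?_, ?_⟩, ?_⟩
  · exact Pool.Agent.H943R5.GC.U6.isFP_ofRO
      (IsFP.comp (EQB_isFP_neg hV') (IsFP.of_poly (EQB_p_T p k)))
  · intro y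
    have h1 := EQB_key (EQB_neg V) p k (p.eval y.length) k 0 (by omega) true y
      (eval_mono p (EQB_unpair y))
    exact h1.symm
  · have hW : IsFP (chr K) (fun u => [decide (((fun u => [pairBits (unpair u).2 (unpair u).1]) u :
        List (List Bool)).map (chr K) ≠ [true])]) := by
      refine IsFP.tt (A := chr K) (Q := fun u => [pairBits (unpair u).2 (unpair u).1])
        (H := fun q => [decide (q.2 ≠ [true])]) ?_ ?_
      · exact Poly.cons (Pool.Agent.H622R2.poly_pairBits (Poly.snd poly_unpair)
          (Poly.fst poly_unpair)) (NPC.Poly.const _)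
      · exact Poly.cons (Poly.decide_not (Poly.decide_eq (Poly.snd Poly.id) (NPC.Poly.const _)))
          (NPC.Poly.const _)
    refine ⟨_, p, hW, fun x => ?_⟩
    rw [hVL]
    show (∃ w : List Bool, w.length ≤ p.eval x.length ∧ Quant (p.eval x.length) V k false
      (pairBits w x)) ↔ _
    refine exists_congr fun w => and_congr_right fun _ => ?_
    simp only [unpair_pairBits, List.map_cons, List.map_nil, List.cons.injEq, and_true,
      decide_eq_true_eq, ne_eq]
    have h2 : pairBits w x ∈ K ↔ ¬ Quant (p.eval x.length) V k false (pairBits w x) := by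
      have h3 := EQB_quant (p.eval x.length) V k false (pairBits w x)
      show Quant (p.eval (unpair (pairBits w x)).2.length) (EQB_neg V) k true (pairBits w x) ↔ _
      rw [unpair_pairBits]
      exact h3
    have h4 : chr K (pairBits w x) = true ↔ pairBits w x ∈ K := by
      simp [chr]
    rw [h4, h2, not_not]

end Pool.Agent.H490R3.LH
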