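import Pool.Agent.H490R3.LH.Base3
import Pool.Agent.H628R3.RO.M1
import Pool.Agent.H620R2.Gauge.S

set_option autoImplicit false

namespace Pool.Agent.H490R3.LH

open Pool.Agent.NPC Pool.Agent.H628R3.RO MeasureTheory
open Pool.Agent.H620R2.Gauge (str idx idx_str str_injective Extends Null)

theorem NUL_coin_singleton (b : Bool) : coin {b} = 2⁻¹ := by
  rw [coin_apply]
  cases b <;> simp

open Classical in
theorem NUL_ext (σ : List Bool) :
    randomOracle {A | Extends A σ} ≤ ENNReal.ofReal (2 ^ ((0 : ℝ) - (σ.length : ℝ))) := by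
  set s : Finset (List Bool) := (Finset.range σ.length).image str with hs
  set t : List Bool → Set Bool := fun y => {σ.getD (idx y) false} with ht
  have hsub : {A : Oracle | Extends A σ} ⊆ Set.pi (s : Set (List Bool)) t := by
    intro B hB
    rw [Set.mem_pi]
    intro y hy
    rw [Finset.mem_coe, hs, Finset.mem_image] at hy
    obtain ⟨i, hi, rfl⟩ := hy
    rw [Finset.mem_range] at hi
    have h1 : B (str i) = σ[i] := hB i hi
    rw [ht]
    simp only [idx_str, Set.mem_singleton_iff]
    rw [h1, List.getD_eq_getElem _ _ hi]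
  refine (measure_mono hsub).trans ?_
  have h2 : randomOracle (Set.pi (s : Set (List Bool)) t) = ∏ y ∈ s, coin (t y) :=
    Measure.infinitePi_pi (fun _ : List Bool => coin) (s := s) (t := t)
      (fun i _ => MeasurableSet.singleton _)
  have h3 : ∏ y ∈ s, coin (t y) = (2⁻¹ : ENNReal) ^ σ.length := by
    rw [Finset.prod_congr rfl (fun y _ => NUL_coin_singleton _), Finset.prod_const, hs,
      Finset.card_image_of_injective _ str_injective, Finset.card_range]
  rw [h2, h3, zero_sub, Real.rpow_neg (by norm_num), Real.rpow_natCast,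
    ENNReal.ofReal_inv_of_pos (by positivity), ENNReal.ofReal_pow (by norm_num), ENNReal.inv_pow]
  simp

/-- NUL: null sets for the gauge `0` are null sets for the random oracle -/
theorem t_NUL : S_NUL := by
  intro O hO
  have key : ∀ δ : ℝ, 0 < δ → randomOracle O ≤ ENNReal.ofReal δ := by
    intro δ hδ
    obtain ⟨S, hS, hsum⟩ := hO δ hδ
    have h1 : O ⊆ ⋃ σ : S, {A : Oracle | Extends A σ.1} := by
      intro A hA
      obtain ⟨σ, hσ, h⟩ := hS A hA
      exact Set.mem_iUnion.2 ⟨⟨σ, hσ⟩, h⟩
    refine (measure_mono h1).trans ((measure_iUnion_le _).trans (le_trans ?_ hsum))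
    exact ENNReal.tsum_le_tsum fun σ => NUL_ext σ.1
  have h0 : randomOracle O = 0 := by
    refine le_antisymm ?_ (by simp)
    refine ENNReal.le_of_forall_pos_le_add fun ε hε _ => ?_
    rw [zero_add]
    refine (key (ε : ℝ) (by exact_mod_cast hε)).trans ?_
    rw [ENNReal.ofReal_coe_nnreal]
  rw [ae_iff]
  refine measure_mono_null ?_ h0
  intro X hX
  simpa using hX

end Pool.Agent.H490R3.LH
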