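import Pool.Agent.H490R3.LH.Fin2
import Pool.Agent.H490R3.LH.T_EQA
import Pool.Agent.H490R3.LH.T_EQB
import Pool.Agent.H490R3.LH.T_NUL
import Pool.Agent.H591R3.PHG.Cover
import Pool.Agent.H943R5.GC.U6

/-!
# Part 3: the polynomial hierarchy is infinite relative to almost every oracle
-/

set_option autoImplicit false

namespace Pool.Agent.H490R3.LH

open Pool.Agent.NPC Pool.Agent.H628R3.RO MeasureTheory
open Pool.Agent.H583R2.S2 (chr IsP)
open Pool.Agent.H620R2 (Gauge.Null Gauge.IsSigma)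

theorem sig_iff (X : Oracle) : ∀ (k : ℕ) (L : Set (List Bool)),
    Sig X k L ↔ Gauge.IsSigma X k L := by
  intro k
  induction k with
  | zero =>
    intro L
    constructor
    · rintro ⟨F, hF, hL⟩
      exact ⟨F, 0, Pool.Agent.H943R5.GC.U6.isFP_ofRO hF, hL⟩
    · rintro ⟨V, p, hV, hL⟩
      exact ⟨V, Pool.Agent.H943R5.GC.U6.isFP_toRO hV, hL⟩
  | succ k ih =>
    intro L
    constructor
    · rintro ⟨K, hK, hL⟩
      exact t_EQA X k K L ((ih K).1 hK) hL
    · intro h
      obtain ⟨K, hK, hL⟩ := t_EQB X k L h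
      exact ⟨K, (ih K).2 hK, hL⟩

/-- The polynomial hierarchy is infinite relative to almost every oracle. -/
theorem ph_infinite : ∀ᵐ X ∂randomOracle, ∀ k, ∃ L, Sig X (k + 1) L ∧ ¬ Sig X k L := by
  have h : Gauge.Null (fun _ => 0) {A : Oracle | ∃ k, ∀ L, Gauge.IsSigma A (k + 1) L →
      Gauge.IsSigma A k L} := by
    refine Pool.Agent.H591R3.PHG.null_of_frequently2 (fun _ => 0) ?_ _ ?_
    · intro ε _
      exact Filter.Frequently.of_forall fun N => by positivity
    · rintro A ⟨k, hk⟩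
      exact ⟨k, Pool.Agent.H591R3.PHG.IsSig.isSigPoly
        (hk _ (Pool.Agent.H591R3.PHG.lang_sig A k))⟩
  filter_upwards [t_NUL _ h] with X hX k
  by_contra hcon
  refine hX ⟨k, fun L hL => ?_⟩
  by_contra hL'
  exact hcon ⟨L, (sig_iff X (k + 1) L).2 hL, fun h => hL' ((sig_iff X k L).1 h)⟩

end Pool.Agent.H490R3.LH
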