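import Pool.Agent.H490R3.LH.Stm
import Pool.Agent.H628R3.RO.M3

/-! FND: it is difficult to find keys (helper991) -/

set_option autoImplicit false

namespace Pool.Agent.H490R3.LH

open Pool.Agent.NPC Pool.Agent.H628R3.RO MeasureTheory
open Pool.Agent.H583R2.S2 (chr IsP Mk gc Ys dl NN)
open Pool.Agent.H583R2.NC (wl)
open Pool.Agent.H673R2.OneTT (KA uA)

/-- the question touches the candidate -/
def FND_tch (κ : Cand) (q : List Bool) : Prop :=
  (∃ s ∈ spots (bt.eval κ.1) (1, κ.2), q = false :: s) ∨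
    ∃ y : List Bool, y.length = κ.1 ∧ q = true :: pairBits y κ.2

/-- the questions touch the candidate -/
def FND_A (M : Alg) (l₀ l : ℕ) (x : List Bool) (κ : Cand) : Set Oracle :=
  {X | ∃ q ∈ qry M (join X (LKs l₀ l X)) x, FND_tch κ q}

theorem FND_pairBits_inj {y w y' w' : List Bool} (h : pairBits y w = pairBits y' w') :
    y = y' ∧ w = w' := by
  have h1 := congrArg unpair h
  rw [unpair_pairBits, unpair_pairBits] at h1
  exact ⟨congrArg Prod.fst h1, congrArg Prod.snd h1⟩

theorem FND_length_pos (c i : ℕ) (w : List Bool) :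
    (pos c i w).length = c + 1 + i + 1 + w.length := by
  unfold pos
  simp only [List.length_append, List.length_replicate, List.length_cons]
  omega

theorem FND_unique (h2 : S_BT) {κ κ' : Cand} (hκ : κ.2.length = 2 * bt.eval κ.1)
    (hκ' : κ'.2.length = 2 * bt.eval κ'.1) {q : List Bool} (h : FND_tch κ q)
    (h' : FND_tch κ' q) : κ = κ' := by
  have hmono : StrictMono (fun l : ℕ => bt.eval l) := fun a b hab => h2.2.1 a b hab
  rcases h with ⟨s, hs, rfl⟩ | ⟨y, hy, rfl⟩ <;> rcases h' with ⟨s', hs', e⟩ | ⟨y', hy', e⟩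
  · have e1 : s = s' := (List.cons.inj e).2
    subst e1
    obtain ⟨i, _, hi⟩ := M2.mem_spots.1 hs
    obtain ⟨i', _, hi'⟩ := M2.mem_spots.1 hs'
    obtain ⟨_, _, h5⟩ := M2.pos_inj (hi.trans hi'.symm)
    simp only at h5
    have h6 : bt.eval κ.1 = bt.eval κ'.1 := by
      rw [h5] at hκ
      omega
    exact Prod.ext (hmono.injective h6) h5
  · exact absurd (List.cons.inj e).1 (by decide)
  · exact absurd (List.cons.inj e).1 (by decide)
  · obtain ⟨h5, h6⟩ := FND_pairBits_inj (List.cons.inj e).2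
    exact Prod.ext (by rw [← hy, ← hy', h5]) h6

theorem FND_indep (h1 : S_QRY) (h2 : S_BT) (h3 : S_LKL) (M : Alg) (l₀ l : ℕ) (x : List Bool)
    {κ : Cand} (hl : l < κ.1) (hκ : κ.2.length = 2 * bt.eval κ.1) {X Y : Oracle}
    (hXY : ∀ s, s ∉ spots (bt.eval κ.1) (1, κ.2) → X s = Y s)
    (hX : X ∉ FND_A M l₀ l x κ) : Y ∉ FND_A M l₀ l x κ := by
  have hlt : bt.eval l < bt.eval κ.1 := h2.2.1 l κ.1 hl
  have hL : LKs l₀ l X = LKs l₀ l Y := by
    apply h3
    · intro q hq
      apply hXY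
      intro hq2
      obtain ⟨i, _, rfl⟩ := M2.mem_spots.1 hq2
      rw [FND_length_pos] at hq
      simp only at hq
      omega
    · intro j hj i _ w hw
      apply hXY
      intro hq2
      obtain ⟨i', _, hi'⟩ := M2.mem_spots.1 hq2
      obtain ⟨_, _, h5⟩ := M2.pos_inj hi'
      simp only at h5
      rw [← h5, hκ] at hw
      have h6 : bt.eval j < bt.eval κ.1 := h2.2.1 j κ.1 (lt_of_le_of_lt hj hl)
      omega
  have hQ : qry M (join Y (LKs l₀ l Y)) x = qry M (join X (LKs l₀ l X)) x := by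
    refine ((h1 M).2.2 (join X (LKs l₀ l X)) (join Y (LKs l₀ l Y)) x ?_).1
    intro q hq
    match q, hq with
    | [], _ => rfl
    | true :: q', _ =>
      change chr (LKs l₀ l Y) q' = chr (LKs l₀ l X) q'
      rw [hL]
    | false :: q', hq =>
      change Y q' = X q'
      symm
      apply hXY
      intro hs
      exact hX ⟨_, hq, Or.inl ⟨q', hs, rfl⟩⟩
  intro hY
  apply hX
  obtain ⟨q, hq, ht⟩ := hY
  rw [hQ] at hq
  exact ⟨q, hq, ht⟩

theorem FND_plant (h1 : S_QRY) (h2 : S_BT) (h3 : S_LKL) (M : Alg) (l₀ l : ℕ) (x : List Bool)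
    {κ : Cand} (hl : l < κ.1) (hκ : κ.2.length = 2 * bt.eval κ.1) (X : Oracle) :
    plant (spots (bt.eval κ.1) (1, κ.2)) X ∈ FND_A M l₀ l x κ ↔ X ∈ FND_A M l₀ l x κ := by
  have e : ∀ s, s ∉ spots (bt.eval κ.1) (1, κ.2) →
      plant (spots (bt.eval κ.1) (1, κ.2)) X s = X s := by
    intro s hs
    unfold plant
    rw [if_neg hs]
  constructor
  · intro h
    by_contra h4
    exact FND_indep h1 h2 h3 M l₀ l x hl hκ (fun s hs => (e s hs).symm) h4 h
  · intro h
    by_contra h4
    exact FND_indep h1 h2 h3 M l₀ l x hl hκ e h4 h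

theorem FND_loc (h1 : S_QRY) (h2 : S_BT) (h3 : S_LKL) (M : Alg) (l₀ l : ℕ) (x : List Bool)
    (b : Polynomial ℕ) (hb : ∀ A x, ∀ q ∈ qry M A x, q.length ≤ b.eval x.length) (κ : Cand) :
    Loc {q | q.length ≤ b.eval x.length + 3 * bt.eval l + 3} (FND_A M l₀ l x κ) := by
  have hmono : StrictMono (fun l : ℕ => bt.eval l) := fun a b hab => h2.2.1 a b hab
  have key : ∀ X Y : Oracle,
      (∀ q ∈ {q : List Bool | q.length ≤ b.eval x.length + 3 * bt.eval l + 3}, X q = Y q) →
      X ∈ FND_A M l₀ l x κ → Y ∈ FND_A M l₀ l x κ := by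
    intro X Y hXY hX
    have hL : LKs l₀ l X = LKs l₀ l Y := by
      apply h3
      · intro q hq
        apply hXY
        rw [Set.mem_ofPred_eq]
        omega
      · intro j hj i hi w hw
        apply hXY
        rw [Set.mem_ofPred_eq, FND_length_pos, hw]
        have h6 : bt.eval j ≤ bt.eval l := hmono.monotone hj
        omega
    have hQ : qry M (join Y (LKs l₀ l Y)) x = qry M (join X (LKs l₀ l X)) x := by
      refine ((h1 M).2.2 (join X (LKs l₀ l X)) (join Y (LKs l₀ l Y)) x ?_).1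
      intro q hq
      have hq2 := hb _ _ q hq
      match q, hq2 with
      | [], _ => rfl
      | true :: q', _ =>
        change chr (LKs l₀ l Y) q' = chr (LKs l₀ l X) q'
        rw [hL]
      | false :: q', hq2 =>
        change Y q' = X q'
        symm
        apply hXY
        rw [Set.mem_ofPred_eq]
        rw [List.length_cons] at hq2
        omega
    obtain ⟨q, hq, ht⟩ := hX
    rw [← hQ] at hq
    exact ⟨q, hq, ht⟩
  intro X Y hXY
  exact ⟨key X Y hXY, key Y X fun q hq => (hXY q hq).symm⟩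

theorem t_FND (h1 : S_QRY) (h2 : S_BT) (h3 : S_LKL) : S_FND := by
  classical
  intro M l₀ l x
  have hmono : StrictMono (fun l : ℕ => bt.eval l) := fun a b hab => h2.2.1 a b hab
  obtain ⟨b, hb⟩ := (h1 M).2.1
  have hmeas : ∀ κ, MeasurableSet (FND_A M l₀ l x κ) := fun κ =>
    measurableSet_of_loc (finite_short _) (FND_loc h1 h2 h3 M l₀ l x b hb κ)
  -- the finite set of candidates
  set B := b.eval x.length with hB
  set W : Finset Cand := ((Finset.range (B + 1)) ×ˢ (finite_short B).toFinset).filter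
    (fun κ => l < κ.1 ∧ κ.2.length = 2 * bt.eval κ.1) with hW
  have hW1 : ∀ κ ∈ W, l < κ.1 ∧ κ.2.length = 2 * bt.eval κ.1 := fun κ hκ =>
    (Finset.mem_filter.1 hκ).2
  -- the event is contained in the union
  have hsub : {X | ∃ y w, true :: pairBits y w ∈ qry M (join X (LKs l₀ l X)) x ∧ l < y.length ∧
      Key X y.length w} ⊆
      ⋃ κ ∈ W, (FND_A M l₀ l x κ ∩ {A | Hit (bt.eval κ.1) (1, κ.2) A}) := by
    rintro X ⟨y, w, hq, hl, hk⟩
    have hlen := hb _ _ _ hq
    rw [List.length_cons, length_pairBits, ← hB] at hlen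
    rw [Set.mem_iUnion₂]
    refine ⟨(y.length, w), ?_, ?_, ?_⟩
    · rw [hW, Finset.mem_filter, Finset.mem_product]
      refine ⟨⟨?_, ?_⟩, hl, hk.1⟩
      · simp only [Finset.mem_range]
        omega
      · rw [Set.Finite.mem_toFinset, Set.mem_ofPred_eq]
        simp only
        omega
    · exact ⟨_, hq, Or.inr ⟨y, rfl, rfl⟩⟩
    · exact hk.2
  -- every oracle is in few of the sets
  have hcount : ∀ X ∈ (Set.univ : Set Oracle), ∃ T : Finset Cand, T.card ≤ M.p.eval x.length ∧
      ∀ κ ∈ W, X ∈ FND_A M l₀ l x κ → κ ∈ T := by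
    intro X _
    let g : List Bool → Cand := fun q =>
      if h : ∃ κ ∈ W, FND_tch κ q then h.choose else (0, [])
    refine ⟨(qry M (join X (LKs l₀ l X)) x).toFinset.image g, ?_, ?_⟩
    · exact Finset.card_image_le.trans ((List.toFinset_card_le _).trans ((h1 M).1 _ _))
    · rintro κ hκ ⟨q, hq, ht⟩
      rw [Finset.mem_image]
      refine ⟨q, List.mem_toFinset.2 hq, ?_⟩
      have hex : ∃ κ ∈ W, FND_tch κ q := ⟨κ, hκ, ht⟩
      have e : g q = hex.choose := dif_pos hex
      rw [e]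
      exact FND_unique h2 (hW1 _ hex.choose_spec.1).2 (hW1 κ hκ).2 hex.choose_spec.2 ht
  have hsum := M2.sum_prob_le MeasurableSet.univ W (FND_A M l₀ l x) hmeas _ hcount
  simp only [Set.univ_inter] at hsum
  have hone : prob (Set.univ : Set Oracle) = 1 := by
    unfold prob
    exact probReal_univ
  rw [hone, mul_one] at hsum
  calc prob {X | ∃ y w, true :: pairBits y w ∈ qry M (join X (LKs l₀ l X)) x ∧ l < y.length ∧
      Key X y.length w}
      ≤ prob (⋃ κ ∈ W, (FND_A M l₀ l x κ ∩ {A | Hit (bt.eval κ.1) (1, κ.2) A})) :=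
        M2.prob_mono hsub
    _ ≤ ∑ κ ∈ W, prob (FND_A M l₀ l x κ ∩ {A | Hit (bt.eval κ.1) (1, κ.2) A}) :=
        M2.prob_biUnion_le W _
    _ ≤ ∑ κ ∈ W, (1 / 2) ^ bt.eval l * prob (FND_A M l₀ l x κ) := by
        refine Finset.sum_le_sum fun κ hκ => ?_
        obtain ⟨hl, hk⟩ := hW1 κ hκ
        rw [M2.prob_hit_inter (hmeas κ) (bt.eval κ.1) (1, κ.2)
          (FND_plant h1 h2 h3 M l₀ l x hl hk)]
        refine mul_le_mul_of_nonneg_right ?_ (M2.prob_nonneg _)
        exact pow_le_pow_of_le_one (by norm_num) (by norm_num) (hmono hl).le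
    _ = (1 / 2) ^ bt.eval l * ∑ κ ∈ W, prob (FND_A M l₀ l x κ) := by
        rw [Finset.mul_sum]
    _ ≤ (1 / 2) ^ bt.eval l * M.p.eval x.length := by
        exact mul_le_mul_of_nonneg_left hsum (by positivity)
    _ = M.p.eval x.length * (1 / 2) ^ bt.eval l := mul_comm _ _

end Pool.Agent.H490R3.LH
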