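import Pool.Agent.H490R3.LH.Base2
import Pool.Agent.H673R2.OneTT.Kset

/-!
# Hardness of the complete set with forbidden questions
-/

set_option autoImplicit false

namespace Pool.Agent.H490R3.LH

open Pool.Agent.NPC Pool.Agent.H628R3.RO MeasureTheory
open Pool.Agent.H660R2.NX
open Pool.Agent.H673R2.OneTT

/-- The next action of `M`, with the checks of the lengths of the witness and of the list of
answers. -/
def HDA_D (M : Alg) (p : Polynomial ℕ) (v : List Bool) : List Bool :=
  if (unpair (unpair v).1).2.length ≤ p.eval (unpair (unpair v).1).1.length then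
    (if (unpair v).2.length + 1 ≤ M.p.eval (unpair v).1.length then M.D v else []) else []

theorem HDA_poly (M : Alg) (p : Polynomial ℕ) : Poly (HDA_D M p) := by
  unfold HDA_D
  have h1 : Poly (fun v : List Bool => (unpair v).1) := Poly.fst poly_unpair
  have h2 : Poly (fun v : List Bool => (unpair v).2) := Poly.snd poly_unpair
  have h3 : Poly (fun v : List Bool => (unpair (unpair v).1).1) := Poly.fst (poly_unpair.comp h1)
  have h4 : Poly (fun v : List Bool => (unpair (unpair v).1).2) := Poly.snd (poly_unpair.comp h1)
  exact Poly.ite (Poly.decide_le (Poly.length h4) (UPoly.eval (UPoly.length h3) p).toPoly)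
    (Poly.ite (Poly.decide_le (UPoly.add (UPoly.length h2) (UPoly.const 1)).toPoly
      (UPoly.eval (UPoly.length h1) M.p).toPoly)
    (H622R2.poly_of_polyTime M.poly) (NPC.Poly.const ([] : List Bool)))
    (NPC.Poly.const ([] : List Bool))

theorem HDA_D_eq (M : Alg) (p : Polynomial ℕ) (u w a : List Bool) :
    HDA_D M p (pairBits (pairBits u w) a) =
      if w.length ≤ p.eval u.length ∧ a.length + 1 ≤ M.p.eval (pairBits u w).length then
        M.D (pairBits (pairBits u w) a) else [] := by
  unfold HDA_D
  simp only [unpair_pairBits]
  by_cases h1 : w.length ≤ p.eval u.length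
  · by_cases h2 : a.length + 1 ≤ M.p.eval (pairBits u w).length
    · rw [if_pos h1, if_pos h2, if_pos ⟨h1, h2⟩]
    · rw [if_pos h1, if_neg h2, if_neg (fun h => h2 h.2)]
  · rw [if_neg h1, if_neg (fun h => h1 h.1)]

theorem HDA_uD (u w a : List Bool) (e : Code) (m : ℕ) :
    uA.D (pairBits (pairBits (insK e u m) w) a) =
      if a.length + 1 ≤ (pairBits (insK e u m) w).length then
        (U e (pairBits (pairBits u w) a) m).elim [true] (fun r => r) else [true] := by
  show uD _ = _
  unfold uD
  rw [unpair_pairBits]
  simp only [actU_insK]

/-- If the witness is too long, the universal algorithm does not accept. -/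
theorem HDA_long {M : Alg} {p : Polynomial ℕ} {e : Code} {pe : Polynomial ℕ}
    (he : IsCode e (HDA_D M p) pe) {A : Oracle} {u w : List Bool} {m : ℕ}
    (hw : ¬ w.length ≤ p.eval u.length) (n : ℕ) (a : List Bool) :
    uA.run A (pairBits (insK e u m) w) n a ≠ some [true] := by
  rcases n with _ | n
  · simp [Alg.run]
  · rw [Alg.run, HDA_uD]
    split_ifs with h2
    · rcases hU : U e (pairBits (pairBits u w) a) m with _ | r
      · simp
      · have h3 := he.eq hU
        rw [HDA_D_eq, if_neg (fun h => hw h.1)] at h3
        rw [h3]
        simp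
    · simp

/-- The universal algorithm simulates `M`, with the same questions. -/
theorem HDA_sim {M : Alg} {p : Polynomial ℕ} {e : Code} {pe : Polynomial ℕ}
    (he : IsCode e (HDA_D M p) pe) {A : Oracle} {u w : List Bool} {m : ℕ}
    (hw : w.length ≤ p.eval u.length) (hm : M.p.eval (pairBits u w).length ≤ m)
    (hB : ∀ a : List Bool, a.length ≤ M.p.eval (pairBits u w).length →
      pe.eval (pairBits (pairBits u w) a).length ≤ m) :
    ∀ (n : ℕ) (a : List Bool), a.length + n = M.p.eval (pairBits u w).length → ∀ n' > n,
      (uA.run A (pairBits (insK e u m) w) n' a = some [true] ↔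
        M.run A (pairBits u w) n a = some [true]) ∧
      qs uA A (pairBits (insK e u m) w) n' a = qs M A (pairBits u w) n a := by
  intro n
  induction n with
  | zero =>
    intro a ha n' hn'
    obtain ⟨n', rfl⟩ : ∃ k, n' = k + 1 := ⟨n' - 1, by omega⟩
    have h0 : a.length + 1 ≤ (pairBits (insK e u m) w).length := by
      have h1 := le_length_insK e u m
      rw [H628R3.RO.length_pairBits]
      omega
    have h1 : uA.D (pairBits (pairBits (insK e u m) w) a) = [] := by
      rw [HDA_uD, if_pos h0, he _ _ (hB a (by omega)), Option.elim_some, HDA_D_eq,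
        if_neg (by omega)]
    constructor
    · simp [Alg.run, h1]
    · simp [qs, h1]
  | succ n ih =>
    intro a ha n' hn'
    obtain ⟨n', rfl⟩ : ∃ k, n' = k + 1 := ⟨n' - 1, by omega⟩
    have h0 : a.length + 1 ≤ (pairBits (insK e u m) w).length := by
      have h1 := le_length_insK e u m
      rw [H628R3.RO.length_pairBits]
      omega
    have h1 : uA.D (pairBits (pairBits (insK e u m) w) a) = M.D (pairBits (pairBits u w) a) := by
      rw [HDA_uD, if_pos h0, he _ _ (hB a (by omega)), Option.elim_some, HDA_D_eq,
        if_pos ⟨hw, by omega⟩]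
    rw [Alg.run, Alg.run, qs, qs, h1]
    rcases hq : M.D (pairBits (pairBits u w) a) with _ | ⟨c, q⟩
    · simp
    · cases c with
      | true => simp
      | false =>
        have h2 := ih (a ++ [A q]) (by rw [List.length_append, List.length_singleton]; omega) n'
          (by omega)
        exact ⟨h2.1, congrArg (List.cons q) h2.2⟩

theorem t_HDA : S_HDA := by
  intro M p
  obtain ⟨e, pe, he⟩ := U_complete (H622R2.polyTime_of_poly_list (HDA_poly M p))
  have hcode : IsCode e (HDA_D M p) pe := he
  set b1 : Polynomial ℕ := 2 * Polynomial.X + 1 + p with hb1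
  set b2 : Polynomial ℕ := M.p.comp b1 with hb2
  set bm : Polynomial ℕ := b2 + pe.comp (2 * b1 + 1 + b2) + p with hbm
  refine ⟨fun u => insK e u (bm.eval u.length), ?_, fun X D u => ?_⟩
  · unfold insK
    exact H622R2.poly_pairBits (NPC.Poly.const _) (H622R2.poly_pairBits Poly.id
      (p_replicate (UPoly.eval (UPoly.length Poly.id) bm) true))
  · have h9 : bm.eval u.length = b2.eval u.length +
        (pe.comp (2 * b1 + 1 + b2)).eval u.length + p.eval u.length := by
      rw [hbm, Polynomial.eval_add, Polynomial.eval_add]
    have hl := le_length_insK e u (bm.eval u.length)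
    have key : ∀ w : List Bool, w.length ≤ p.eval u.length →
        (uA.out X (pairBits (insK e u (bm.eval u.length)) w) = some [true] ↔
          M.out X (pairBits u w) = some [true]) ∧
        qry uA X (pairBits (insK e u (bm.eval u.length)) w) = qry M X (pairBits u w) := by
      intro w hw
      have h6 : (pairBits u w).length ≤ b1.eval u.length := by
        rw [H628R3.RO.length_pairBits, hb1]
        simp only [Polynomial.eval_add, Polynomial.eval_mul, Polynomial.eval_X,
          Polynomial.eval_one, Polynomial.eval_ofNat]
        omega
      have h7 : M.p.eval (pairBits u w).length ≤ b2.eval u.length := by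
        rw [hb2, Polynomial.eval_comp]
        exact eval_mono _ h6
      have h10 : uA.p.eval (pairBits (insK e u (bm.eval u.length)) w).length =
          (pairBits (insK e u (bm.eval u.length)) w).length + 1 := by
        show (Polynomial.X + 1 : Polynomial ℕ).eval _ = _
        simp
      have h11 := HDA_sim (A := X) hcode (m := bm.eval u.length) hw (by omega) (by
        intro a ha
        refine le_trans (eval_mono pe (n := (2 * b1 + 1 + b2).eval u.length) ?_) ?_
        · rw [H628R3.RO.length_pairBits]
          simp only [Polynomial.eval_add, Polynomial.eval_mul,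
            Polynomial.eval_one, Polynomial.eval_ofNat]
          omega
        · rw [← Polynomial.eval_comp]
          omega) (M.p.eval (pairBits u w).length) [] (by simp)
        ((pairBits (insK e u (bm.eval u.length)) w).length + 1) (by
          rw [H628R3.RO.length_pairBits]
          omega)
      unfold Alg.out qry
      rw [h10]
      exact h11
    constructor
    · rintro ⟨w, hw, h1, h2⟩
      by_cases hw' : w.length ≤ p.eval u.length
      · obtain ⟨h3, h4⟩ := key w hw'
        refine ⟨w, hw', h3.1 h1, ?_⟩
        rw [← h4]
        exact h2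
      · exact absurd h1 (HDA_long hcode hw' _ _)
    · rintro ⟨w, hw, h1, h2⟩
      obtain ⟨h3, h4⟩ := key w hw
      refine ⟨w, ?_, h3.2 h1, ?_⟩
      · beta_reduce
        omega
      · beta_reduce
        rw [h4]
        exact h2

end Pool.Agent.H490R3.LH
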