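import Pool.Agent.H490R3.LH.Stm
import Pool.Agent.H583R2.S2.Num

/-!
# NUM: numbers
-/

set_option autoImplicit false

namespace Pool.Agent.H490R3.LH

open Pool.Agent.NPC Pool.Agent.H628R3.RO MeasureTheory
open Pool.Agent.H583R2.S2 (chr IsP Mk gc Ys dl NN kk)
open Pool.Agent.H583R2.NC (wl)
open Filter Topology

theorem NUM_poly (Q : Polynomial ℕ) (c : ℝ) (h0 : 0 ≤ c) (h1 : c < 1) :
    Tendsto (fun n : ℕ => ((Q.eval n : ℕ) : ℝ) * c ^ n) atTop (𝓝 0) := by
  have h : ∀ n : ℕ, ((Q.eval n : ℕ) : ℝ) * c ^ n =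
      ∑ i ∈ Finset.range (Q.natDegree + 1), (Q.coeff i : ℝ) * ((n : ℝ) ^ i * c ^ n) := by
    intro n
    rw [Polynomial.eval_eq_sum_range]
    push_cast
    rw [Finset.sum_mul]
    exact Finset.sum_congr rfl fun i _ => by ring
  simp only [h]
  have h2 : (0 : ℝ) = ∑ i ∈ Finset.range (Q.natDegree + 1), (Q.coeff i : ℝ) * 0 := by simp
  rw [h2]
  refine tendsto_finset_sum _ fun i _ => ?_
  refine Tendsto.const_mul _ ?_
  exact tendsto_pow_const_mul_const_pow_of_abs_lt_one i (by rw [abs_of_nonneg h0]; exact h1)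

theorem NUM_ev (Q : Polynomial ℕ) (c ε : ℝ) (h0 : 0 ≤ c) (h1 : c < 1) (hε : 0 < ε) :
    ∀ᶠ n : ℕ in atTop, ((Q.eval n : ℕ) : ℝ) * c ^ n ≤ ε :=
  (NUM_poly Q c h0 h1).eventually_le_const hε

theorem NUM_exp (Q : Polynomial ℕ) : ∀ᶠ n : ℕ in atTop, ((Q.eval n : ℕ) : ℝ) ≤ Real.exp n := by
  have h1 : Real.exp (-1) < 1 := by
    have := Real.exp_neg_one_lt_d9
    linarith
  filter_upwards [NUM_ev Q (Real.exp (-1)) 1 (Real.exp_pos _).le h1 one_pos] with n hn
  have h2 : (Real.exp (-1)) ^ n = Real.exp (-(n : ℝ)) := by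
    rw [← Real.exp_nat_mul]
    congr 1
    ring
  rw [h2, Real.exp_neg] at hn
  have h3 := Real.exp_pos (n : ℝ)
  rw [← div_eq_mul_inv, div_le_one h3] at hn
  exact hn

theorem NUM_Pn (V : Alg) (p : Polynomial ℕ) : ∃ Q : Polynomial ℕ, ∀ n, Pn V p n = Q.eval n := by
  refine ⟨V.p.comp (2 * (2 * Polynomial.X + 1 + p) + 1 + p), fun n => ?_⟩
  unfold Pn
  rw [Polynomial.eval_comp]
  simp

theorem NUM_NN (n : ℕ) (hn : 12 ≤ n) : Real.exp n / 2 - 1 ≤ (NN n : ℝ) := by
  have h1 := Pool.Agent.H583R2.S2.Num_NN_ge n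
  have h2 : (n : ℝ) / kk n ≤ 1 / 2 := by
    have hk : (kk n : ℝ) = 1024 * ((n : ℝ) + 1) ^ 3 := by
      unfold kk
      push_cast
      ring
    rw [hk, div_le_iff₀ (by positivity)]
    have hn' : (0 : ℝ) ≤ n := Nat.cast_nonneg n
    nlinarith [pow_nonneg hn' 2, pow_nonneg hn' 3]
  have h3 := Real.exp_pos (n : ℝ)
  nlinarith

theorem t_NUM : S_NUM := by
  intro V p
  obtain ⟨Q, hQ⟩ := NUM_Pn V p
  have hc1 : Real.exp 1 / 4 < 1 := by
    have := Real.exp_one_lt_d9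
    rw [div_lt_one (by norm_num)]
    linarith
  have hc0 : 0 ≤ Real.exp 1 / 4 := by positivity
  filter_upwards [NUM_ev Q (Real.exp 1 / 4) 1 hc0 hc1 one_pos,
    NUM_exp (2 * (8 * ((2 * Q + 1) * (p + Polynomial.X)) + 1) + 2), eventually_ge_atTop 12]
    with n h1 h2 hn
  rw [Pool.Agent.H583R2.S2.card_Ys, hQ]
  have hNN0 : (0 : ℝ) ≤ (NN n : ℝ) := Nat.cast_nonneg _
  have hNNle := Pool.Agent.H583R2.S2.Num_NN_le n
  have hNNge := NUM_NN n hn
  have hx : (1 / 2 : ℝ) ^ wl n ≤ 1 / 2 :=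
    Pool.Agent.H583R2.S2.Num_half_lt (by unfold wl; omega)
  have hx0 : (0 : ℝ) < (1 / 2 : ℝ) ^ wl n := by positivity
  have hw0 : 0 ≤ w0 n := by
    unfold w0
    exact div_nonneg hx0.le (by linarith)
  have hw1 : w0 n ≤ 2 * (1 / 2 : ℝ) ^ wl n := by
    unfold w0
    rw [div_le_iff₀ (by linarith)]
    nlinarith
  have hdl0 := Pool.Agent.H583R2.S2.dl_pos n
  refine ⟨?_, ?_, ?_, ?_, ?_⟩
  · -- (1)
    have ha : (NN n : ℝ) * (((Q.eval n : ℕ) : ℝ) * w0 n) ≤ 1 / 4 := by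
      have e1 : (1 / 2 : ℝ) ^ wl n = (1 / 256) * (1 / 4) ^ n := by
        unfold wl
        rw [pow_add, pow_mul]
        norm_num
        ring
      have e2 : Real.exp n = (Real.exp 1) ^ n := by
        rw [← Real.exp_nat_mul, mul_one]
      have hq0 : (0 : ℝ) ≤ ((Q.eval n : ℕ) : ℝ) := Nat.cast_nonneg _
      calc (NN n : ℝ) * (((Q.eval n : ℕ) : ℝ) * w0 n)
          ≤ Real.exp n * (((Q.eval n : ℕ) : ℝ) * (2 * (1 / 2 : ℝ) ^ wl n)) := by
            refine mul_le_mul hNNle (mul_le_mul_of_nonneg_left hw1 hq0) (by positivity)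
              (Real.exp_pos _).le
        _ = (1 / 128) * (((Q.eval n : ℕ) : ℝ) * (Real.exp 1 / 4) ^ n) := by
            rw [e1, e2, div_pow, div_pow]
            ring
        _ ≤ 1 / 4 := by linarith
    have hb : 0 ≤ (NN n : ℝ) * (((Q.eval n : ℕ) : ℝ) * w0 n) := by positivity
    calc (2 : ℝ) ^ (p.eval n + 1) * ((NN n : ℝ) ^ (p.eval n + n) *
          (((Q.eval n : ℕ) : ℝ) * w0 n) ^ (p.eval n + n))
        = 2 ^ (p.eval n + 1) * ((NN n : ℝ) * (((Q.eval n : ℕ) : ℝ) * w0 n)) ^ (p.eval n + n) := by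
          rw [mul_pow (NN n : ℝ)]
      _ ≤ 2 ^ (p.eval n + 1) * (1 / 4 : ℝ) ^ (p.eval n + n) := by
          refine mul_le_mul_of_nonneg_left (pow_le_pow_left₀ hb ha _) (by positivity)
      _ = 2 * (1 / 2 : ℝ) ^ p.eval n * (1 / 4) ^ n := by
          rw [pow_add, pow_add]
          have : (1 / 2 : ℝ) ^ p.eval n = 2 ^ p.eval n * (1 / 4) ^ p.eval n := by
            rw [← mul_pow]
            norm_num
          rw [this]
          ring
      _ ≤ 2 * 1 * (1 / 4) ^ 4 := by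
          have a1 : (1 / 2 : ℝ) ^ p.eval n ≤ 1 := pow_le_one₀ (by norm_num) (by norm_num)
          have a2 : (1 / 4 : ℝ) ^ n ≤ (1 / 4) ^ 4 :=
            pow_le_pow_of_le_one (by norm_num) (by norm_num) (by omega)
          have a3 : (0 : ℝ) ≤ (1 / 4 : ℝ) ^ n := by positivity
          have a4 : (0 : ℝ) ≤ (1 / 2 : ℝ) ^ p.eval n := by positivity
          refine mul_le_mul (by linarith) a2 a3 (by norm_num)
      _ ≤ 1 / 64 := by norm_num
  · -- (2)
    have e : ((Polynomial.eval n (2 * (8 * ((2 * Q + 1) * (p + Polynomial.X)) + 1) + 2) : ℕ) : ℝ)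
        = 2 * (8 * ((2 * ((Q.eval n : ℕ) : ℝ) + 1) * ((p.eval n + n : ℕ) : ℝ)) + 1) + 2 := by
      simp [Polynomial.eval_add, Polynomial.eval_mul]
    rw [e] at h2
    linarith
  · -- (3)
    have e1 : (1 + w0 n) = (1 - (1 / 2 : ℝ) ^ wl n)⁻¹ := by
      unfold w0
      have : (1 - (1 / 2 : ℝ) ^ wl n) ≠ 0 := by linarith
      field_simp
      ring
    have e2 : (1 + w0 n) ^ (n * 2 ^ wl n) = (dl n)⁻¹ := by
      rw [e1, inv_pow]
      rfl
    rw [e2]
    have h3 := Pool.Agent.H583R2.S2.Num_eps hn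
    have h4 : 1 / (512 * (n : ℝ) ^ 2) ≤ 1 / 2 := by
      have hn' : (12 : ℝ) ≤ n := by exact_mod_cast hn
      refine one_div_le_one_div_of_le (by norm_num) ?_
      nlinarith
    have h5 : (dl n)⁻¹ ≤ 2 * NN n := by
      rw [inv_le_iff_one_le_mul₀ hdl0]
      nlinarith
    linarith
  · -- (4)
    have : (12 : ℝ) ≤ n := by exact_mod_cast hn
    have h6 := Real.add_one_le_exp (n : ℝ)
    linarith
  · -- (5)
    have hd1 : dl n ≤ 1 / 8 := by
      refine (Pool.Agent.H583R2.S2.dl_le n).trans ?_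
      calc (1 / 2 : ℝ) ^ n ≤ (1 / 2) ^ 3 :=
            pow_le_pow_of_le_one (by norm_num) (by norm_num) (by omega)
        _ = 1 / 8 := by norm_num
    have h7 := Pool.Agent.H583R2.S2.Num_NNdl_le n
    have h8 : Real.exp (-(dl n / (1 - dl n))) ≤ 1 - dl n := by
      rw [Real.exp_neg]
      have h9 := Real.add_one_le_exp (dl n / (1 - dl n))
      have h10 : dl n / (1 - dl n) + 1 = (1 - dl n)⁻¹ := by
        have : (1 - dl n) ≠ 0 := by linarith
        field_simp
        ring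
      rw [h10] at h9
      have h11 : (0 : ℝ) < 1 - dl n := by linarith
      exact inv_le_of_inv_le₀ h11 h9
    calc (1 / 4 : ℝ) ≤ Real.exp (-(8 / 7)) := by
          rw [Real.exp_neg, one_div]
          refine inv_anti₀ (Real.exp_pos _) ?_
          have h12 : Real.exp (8 / 7) ≤ Real.exp (5 / 4) := Real.exp_le_exp.2 (by norm_num)
          have h13 : Real.exp (5 / 4) ^ 4 = Real.exp 1 ^ 5 := by
            rw [← Real.exp_nat_mul, ← Real.exp_nat_mul]
            norm_num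
          have h14 : Real.exp 1 ^ 5 ≤ 4 ^ 4 := by
            calc Real.exp 1 ^ 5 ≤ 2.7182818286 ^ 5 :=
                  pow_le_pow_left₀ (Real.exp_pos _).le Real.exp_one_lt_d9.le 5
              _ ≤ 4 ^ 4 := by norm_num
          rw [← h13] at h14
          exact h12.trans (le_of_pow_le_pow_left₀ (by norm_num) (by norm_num) h14)
      _ ≤ Real.exp (-(dl n / (1 - dl n)) * NN n) := by
          refine Real.exp_le_exp.2 ?_
          have h15 : (NN n * dl n) / (1 - dl n) ≤ 8 / 7 := by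
            rw [div_le_iff₀ (by linarith)]
            nlinarith
          have h16 : -(dl n / (1 - dl n)) * NN n = -((NN n * dl n) / (1 - dl n)) := by ring
          rw [h16]
          linarith
      _ = (Real.exp (-(dl n / (1 - dl n)))) ^ NN n := by
          rw [← Real.exp_nat_mul]
          congr 1
          ring
      _ ≤ (1 - dl n) ^ NN n := pow_le_pow_left₀ (Real.exp_pos _).le h8 _

end Pool.Agent.H490R3.LH
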