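import Pool.Agent.H490R3.LH.Stm
import Pool.Agent.H620R2.GaugeR.R2
import Pool.Agent.H943R5.GC.U6

/-! Task VOT (helper133): polynomially many runs. -/

set_option autoImplicit false

namespace Pool.Agent.H490R3.LH

open Pool.Agent.NPC Pool.Agent.H628R3.RO

theorem t_VOT : S_VOT := by
  intro A V hV T W hW H hH
  have h := Pool.Agent.H620R2.Gauge.IsFP.votes (Pool.Agent.H943R5.GC.U6.isFP_ofRO hV) T
    (Q := fun _ => []) (NPC.Poly.const _) (W := fun p => W p.1) (hW.comp (Poly.fst Poly.id)) hH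
  exact Pool.Agent.H943R5.GC.U6.isFP_toRO h

end Pool.Agent.H490R3.LH
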